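import Mathlib

/-!
# Cyclic modules over factorial domains, and a rigidity statement for `R / k`

Commutative algebra for the solvable quotients of the groups in the genus of some Fuchsian groups.
-/

set_option autoImplicit false

namespace Pool.Agent.Lib.MP_305fdd_al.Solv

open Submodule
open scoped Pointwise

section domain

variable {D M : Type} [CommRing D] [IsDomain D] [AddCommGroup M] [Module D M]

/-- local generators, from cyclicity modulo a maximal ideal -/
theorem local_gen {R : Type} [CommRing R] {M : Type} [AddCommGroup M] [Module R M]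
    [Module.Finite R M] {m : Ideal R} (hm : m ≠ ⊤) {x : M}
    (hx : (⊤ : Submodule R M) ≤ span R {x} ⊔ m • ⊤) :
    ∃ s : R, s ∉ m ∧ ∀ y : M, ∃ r : R, s • y = r • x := by
  obtain ⟨s, hs, h⟩ := exists_sub_one_mem_and_smul_le_of_fg_of_le_sup
    (Module.Finite.fg_top (R := R) (M := M)) le_rfl hx
  refine ⟨s, ?_, ?_⟩
  · intro hsm
    apply hm
    rw [Ideal.eq_top_iff_one]
    have := m.sub_mem hsm hs
    simpa using this
  · intro y
    have h1 : s • y ∈ s • (⊤ : Submodule R M) := smul_mem_pointwise_smul _ _ _ trivial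
    obtain ⟨r, hr⟩ := mem_span_singleton.mp (h h1)
    exact ⟨r, hr.symm⟩

variable [Module.Finite D M]

/-- Under local cyclicity and faithfulness, the module is torsion free. -/
theorem torsion_free_of_local
    (hcyc : ∀ m : Ideal D, m.IsMaximal → ∃ x : M, (⊤ : Submodule D M) ≤ span D {x} ⊔ m • ⊤)
    (hann : ∀ d : D, (∀ x : M, d • x = 0) → d = 0) {d : D} {y : M} (h : d • y = 0) :
    d = 0 ∨ y = 0 := by
  by_contra hcon
  push Not at hcon
  obtain ⟨hd, hy⟩ := hcon
  -- annihilator ideal of `y`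
  let I : Ideal D := LinearMap.ker (LinearMap.toSpanSingleton D M y)
  have hI : I ≠ ⊤ := by
    rw [Ne, Ideal.eq_top_iff_one]
    intro h1
    apply hy
    have : (1 : D) • y = 0 := h1
    simpa using this
  obtain ⟨m, hm, hIm⟩ := Ideal.exists_le_maximal I hI
  obtain ⟨x, hx⟩ := hcyc m hm
  obtain ⟨s, hs, hsx⟩ := local_gen hm.ne_top hx
  have hs0 : s ≠ 0 := fun h0 => hs (h0 ▸ m.zero_mem)
  have hannx : ∀ a : D, a • x = 0 → a = 0 := by
    intro a ha
    have : a * s = 0 := by
      apply hann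
      intro z
      obtain ⟨r, hr⟩ := hsx z
      rw [mul_smul, hr, smul_comm, ha, smul_zero]
    exact (mul_eq_zero.mp this).resolve_right hs0
  obtain ⟨r, hr⟩ := hsx y
  have h2 : d * r = 0 := by
    apply hannx
    rw [mul_smul, ← hr, smul_comm, h, smul_zero]
  have hr0 : r = 0 := (mul_eq_zero.mp h2).resolve_left hd
  apply hs
  apply hIm
  show s • y = 0
  rw [hr, hr0, zero_smul]

/-- Key lemma on locally principal ideals in factorial domains. -/
theorem principal_of_local [UniqueFactorizationMonoid D] (I : Ideal D) (hI : I ≠ ⊥)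
    (hloc : ∀ m : Ideal D, m.IsMaximal → ∃ s : D, s ∉ m ∧ ∃ z ∈ I, ∀ a ∈ I, z ∣ s * a) :
    ∃ z ∈ I, ∀ a ∈ I, z ∣ a := by
  obtain ⟨a₀, ha₀, ha₀'⟩ := Submodule.exists_mem_ne_zero_of_ne_bot hI
  -- cofactors of common divisors
  let S : Set D := {c | ∃ d, a₀ = d * c ∧ ∀ a ∈ I, d ∣ a}
  have hS : S.Nonempty := ⟨a₀, 1, by simp, fun a _ => one_dvd a⟩
  obtain ⟨c, ⟨d, hdc, hd⟩, hmin⟩ :=
    (IsWellFounded.wf : WellFounded (DvdNotUnit (α := D))).has_min S hS
  have hc0 : c ≠ 0 := by
    rintro rfl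
    apply ha₀'
    rw [hdc, mul_zero]
  have hd0 : d ≠ 0 := by
    rintro rfl
    apply ha₀'
    rw [hdc, zero_mul]
  -- claim: `d ∈ I`
  suffices h : d ∈ I from ⟨d, h, hd⟩
  -- `I' = {b | d b ∈ I}`
  let I' : Ideal D := Submodule.comap (LinearMap.mulLeft D d) I
  have hI' : ∀ b, b ∈ I' ↔ d * b ∈ I := fun b => Iff.rfl
  by_cases htop : I' = ⊤
  · have : (1 : D) ∈ I' := htop ▸ Submodule.mem_top
    rw [hI', mul_one] at this
    exact this
  exfalso
  obtain ⟨m, hm, hIm⟩ := Ideal.exists_le_maximal I' htop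
  obtain ⟨s, hs, z, hz, hdiv⟩ := hloc m hm
  obtain ⟨z', rfl⟩ := hd z hz
  have hz' : z' ∈ m := hIm ((hI' z').mpr hz)
  have hz0 : z' ≠ 0 := by
    rintro rfl
    have h1 := hdiv a₀ ha₀
    rw [mul_zero, zero_dvd_iff] at h1
    rcases mul_eq_zero.mp h1 with h2 | h2
    · exact hs (h2 ▸ m.zero_mem)
    · exact ha₀' h2
  -- a prime factor of `z'` in `m`
  have hprime : ∃ q : D, Prime q ∧ q ∈ m ∧ q ∣ z' := by
    have hmp : m.IsPrime := hm.isPrime
    obtain ⟨f, hf, hfz⟩ := UniqueFactorizationMonoid.exists_prime_factors z' hz0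
    have h1 : f.prod ∈ m := by
      obtain ⟨u, hu⟩ := hfz
      have h2 : f.prod = z' * ↑(u⁻¹) := by rw [← hu, mul_assoc, Units.mul_inv, mul_one]
      rw [h2]
      exact m.mul_mem_right _ hz'
    obtain ⟨q, hq, hqm⟩ := (hmp.multiset_prod_mem_iff_exists_mem f).mp h1
    exact ⟨q, hf q hq, hqm, (Multiset.dvd_prod hq).trans hfz.dvd⟩
  obtain ⟨q, hq, hqm, hqz⟩ := hprime
  have hqs : ¬ q ∣ s := by
    rintro ⟨w, rfl⟩
    exact hs (m.mul_mem_right _ hqm)
  -- `d q` divides all of `I`
  have hdq : ∀ a ∈ I, d * q ∣ a := by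
    intro a ha
    obtain ⟨b, rfl⟩ := hd a ha
    have h1 : d * z' ∣ s * (d * b) := hdiv _ ha
    have h2 : z' ∣ s * b := by
      have : d * z' ∣ d * (s * b) := by
        convert h1 using 1
        ring
      exact (mul_dvd_mul_iff_left hd0).mp this
    have h3 : q ∣ b := (hq.dvd_or_dvd (hqz.trans h2)).resolve_left hqs
    exact mul_dvd_mul_left d h3
  obtain ⟨c', hc'⟩ := hdq a₀ ha₀
  have hcc' : c = q * c' := by
    have : d * c = d * (q * c') := by rw [← hdc, hc', mul_assoc]
    exact mul_left_cancel₀ hd0 this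
  apply hmin c' ⟨d * q, hc', hdq⟩
  refine ⟨?_, q, hq.not_isUnit, ?_⟩
  · rintro rfl
    exact hc0 (by rw [hcc', mul_zero])
  · rw [hcc', mul_comm]

/-- A finitely generated faithful module over a factorial noetherian domain that is cyclic modulo
every maximal ideal is cyclic. -/
theorem cyclic_of_local [UniqueFactorizationMonoid D]
    (hcyc : ∀ m : Ideal D, m.IsMaximal → ∃ x : M, (⊤ : Submodule D M) ≤ span D {x} ⊔ m • ⊤)
    (hann : ∀ d : D, (∀ x : M, d • x = 0) → d = 0) : ∃ x : M, span D {x} = ⊤ := by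
  obtain ⟨m₀, hm₀⟩ := Ideal.exists_maximal D
  obtain ⟨x, hx⟩ := hcyc m₀ hm₀
  obtain ⟨s, hs, hsx⟩ := local_gen hm₀.ne_top hx
  have hs0 : s ≠ 0 := fun h0 => hs (h0 ▸ m₀.zero_mem)
  have htf : ∀ {d : D} {y : M}, d • y = 0 → d = 0 ∨ y = 0 :=
    fun h => torsion_free_of_local hcyc hann h
  have hx0 : x ≠ 0 := by
    rintro rfl
    apply hs0
    apply hann
    intro y
    obtain ⟨r, hr⟩ := hsx y
    rw [hr, smul_zero]
  have hxinj : ∀ {a b : D}, a • x = b • x → a = b := by
    intro a b h
    have : (a - b) • x = 0 := by rw [sub_smul, h, sub_self]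
    exact sub_eq_zero.mp ((htf this).resolve_right hx0)
  choose φ hφ using hsx
  -- the ideal
  let I : Ideal D :=
    { carrier := {r | ∃ y : M, s • y = r • x}
      add_mem' := by
        rintro a b ⟨y, hy⟩ ⟨z, hz⟩
        exact ⟨y + z, by rw [smul_add, hy, hz, add_smul]⟩
      zero_mem' := ⟨0, by simp⟩
      smul_mem' := by
        rintro c a ⟨y, hy⟩
        exact ⟨c • y, by rw [smul_comm, hy, smul_eq_mul, mul_smul]⟩ }
  have hsI : s ∈ I := ⟨x, rfl⟩
  have hI : I ≠ ⊥ := fun h => hs0 (by rw [h] at hsI; simpa using hsI)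
  obtain ⟨z, ⟨y₀, hy₀⟩, hz⟩ := principal_of_local I hI (by
    intro m hm
    obtain ⟨x', hx'⟩ := hcyc m hm
    obtain ⟨s', hs', hsx'⟩ := local_gen hm.ne_top hx'
    refine ⟨s', hs', φ x', ⟨x', hφ x'⟩, ?_⟩
    rintro a ⟨y, hy⟩
    obtain ⟨r, hr⟩ := hsx' y
    refine ⟨r, ?_⟩
    apply hxinj
    rw [mul_smul, ← hy, smul_comm, hr, smul_comm, hφ, mul_comm, mul_smul])
  refine ⟨y₀, ?_⟩
  rw [eq_top_iff]
  intro y _
  obtain ⟨c, hc⟩ := hz (φ y) ⟨y, hφ y⟩
  rw [mem_span_singleton]
  refine ⟨c, ?_⟩
  have h1 : s • (c • y₀ - y) = 0 := by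
    rw [smul_sub, hφ y, hc, smul_comm, hy₀, mul_comm, mul_smul, sub_self]
  exact sub_eq_zero.mp ((htf h1).resolve_left hs0)

end domain

section rigid

variable {R M : Type} [CommRing R] [IsNoetherianRing R] [AddCommGroup M] [Module R M]
  [Module.Finite R M]

/-- residual finiteness of finitely generated modules -/
theorem exists_notMem_smul_top (hfin : ∀ m : Ideal R, m.IsMaximal → Finite (R ⧸ m))
    (𝒥 : Set (Ideal R)) (h𝒥 : ∀ I : Ideal R, Finite (R ⧸ I) → ∃ J ∈ 𝒥, J ≤ I) {x : M}
    (hx : x ≠ 0) : ∃ J ∈ 𝒥, x ∉ (J • ⊤ : Submodule R M) := by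
  let I : Ideal R := LinearMap.ker (LinearMap.toSpanSingleton R M x)
  have hI : I ≠ ⊤ := by
    rw [Ne, Ideal.eq_top_iff_one]
    intro h1
    apply hx
    have : (1 : R) • x = 0 := h1
    simpa using this
  obtain ⟨m, hm, hIm⟩ := Ideal.exists_le_maximal I hI
  have h1 : x ∉ (⨅ i : ℕ, m ^ i • ⊤ : Submodule R M) := by
    rw [Ideal.mem_iInf_smul_pow_eq_bot_iff]
    rintro ⟨⟨r, hr⟩, h⟩
    apply hm.ne_top
    rw [Ideal.eq_top_iff_one]
    have h2 : 1 - r ∈ m := hIm (by
      show (1 - r) • x = 0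
      rw [sub_smul, one_smul]
      simp only at h
      rw [h, sub_self])
    have := m.add_mem h2 hr
    simpa using this
  rw [Submodule.mem_iInf] at h1
  push Not at h1
  obtain ⟨i, hi⟩ := h1
  have := hfin m hm
  have hf : Finite (R ⧸ m ^ i) := Ideal.finite_quotient_pow (IsNoetherian.noetherian m) i
  obtain ⟨J, hJ, hJi⟩ := h𝒥 _ hf
  exact ⟨J, hJ, fun h => hi (Submodule.smul_mono_left hJi h)⟩

omit [IsNoetherianRing R] [Module.Finite R M] in
/-- comparison of the annihilator of a generator modulo `J` -/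
theorem smul_mem_iff_of_card (J : Ideal R) [Finite (R ⧸ J)] (k : ℕ) {x : M}
    (hx : (⊤ : Submodule R M) ≤ span R {x} ⊔ J • ⊤)
    (hb : ∀ y : M, (k : R) • y ∈ (J • ⊤ : Submodule R M))
    (hc : Nat.card (R ⧸ (Ideal.span {(k : R)} ⊔ J)) ≤ Nat.card (M ⧸ (J • ⊤ : Submodule R M)))
    {r : R} (hr : r • x ∈ (J • ⊤ : Submodule R M)) : r ∈ Ideal.span {(k : R)} ⊔ J := by
  set c : Ideal R := Ideal.span {(k : R)} ⊔ J with hcdef
  let f : R →ₗ[R] (M ⧸ (J • ⊤ : Submodule R M)) :=
    (J • ⊤ : Submodule R M).mkQ ∘ₗ LinearMap.toSpanSingleton R M x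
  have hfr : ∀ r, f r = (J • ⊤ : Submodule R M).mkQ (r • x) := fun r => rfl
  have hfsurj : Function.Surjective f := by
    intro y
    obtain ⟨y, rfl⟩ := Submodule.mkQ_surjective _ y
    obtain ⟨a, ha, z, hz, rfl⟩ := Submodule.mem_sup.mp (hx (x := y) trivial)
    obtain ⟨r, rfl⟩ := mem_span_singleton.mp ha
    refine ⟨r, ?_⟩
    rw [hfr, map_add]
    have : (J • ⊤ : Submodule R M).mkQ z = 0 := by
      rw [Submodule.mkQ_apply, Submodule.Quotient.mk_eq_zero]
      exact hz
    rw [this, add_zero]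
  have hcf : c ≤ LinearMap.ker f := by
    rw [hcdef, sup_le_iff]
    constructor
    · rw [Ideal.span_singleton_le_iff_mem]
      show f _ = 0
      rw [hfr, Submodule.mkQ_apply, Submodule.Quotient.mk_eq_zero]
      exact hb x
    · intro a ha
      show f a = 0
      rw [hfr, Submodule.mkQ_apply, Submodule.Quotient.mk_eq_zero]
      exact Submodule.smul_mem_smul ha trivial
  have hfinc : Finite (R ⧸ c) :=
    Finite.of_surjective _ (Ideal.Quotient.factor_surjective (le_sup_right : J ≤ c))
  -- the induced surjection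
  let g : (R ⧸ c) →ₗ[R] (M ⧸ (J • ⊤ : Submodule R M)) := Submodule.liftQ c f hcf
  have hg : Function.Surjective g := by
    intro y
    obtain ⟨r, rfl⟩ := hfsurj y
    exact ⟨c.mkQ r, rfl⟩
  have hfinM : Finite (M ⧸ (J • ⊤ : Submodule R M)) := Finite.of_surjective g hg
  have hcard : Nat.card (R ⧸ c) = Nat.card (M ⧸ (J • ⊤ : Submodule R M)) :=
    le_antisymm hc (Nat.card_le_card_of_surjective g hg)
  have hginj : Function.Injective g :=
    ((Nat.bijective_iff_surjective_and_card g).mpr ⟨hg, hcard⟩).1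
  have h1 : g (c.mkQ r) = 0 := by
    show f r = 0
    rw [hfr, Submodule.mkQ_apply, Submodule.Quotient.mk_eq_zero]
    exact hr
  have h2 : c.mkQ r = 0 := hginj (by rw [h1, map_zero])
  rwa [Submodule.mkQ_apply, Submodule.Quotient.mk_eq_zero] at h2

/-- **Rigidity of `R / k`.** -/
theorem rigid (hfin : ∀ m : Ideal R, m.IsMaximal → Finite (R ⧸ m))
    (𝒥 : Set (Ideal R)) (h𝒥 : ∀ I : Ideal R, Finite (R ⧸ I) → ∃ J ∈ 𝒥, J ≤ I)
    (h𝒥f : ∀ J ∈ 𝒥, Finite (R ⧸ J)) (k : ℕ)
    (ha : ∀ J ∈ 𝒥, ∃ x : M, (⊤ : Submodule R M) ≤ span R {x} ⊔ J • ⊤)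
    (hb : ∀ J ∈ 𝒥, ∀ y : M, (k : R) • y ∈ (J • ⊤ : Submodule R M))
    (hc : ∀ J ∈ 𝒥, Nat.card (R ⧸ (Ideal.span {(k : R)} ⊔ J)) ≤
      Nat.card (M ⧸ (J • ⊤ : Submodule R M)))
    (h0 : k = 0 → IsDomain R ∧ UniqueFactorizationMonoid R)
    (hp : ∀ p : ℕ, p.Prime → p ∣ k → IsDomain (R ⧸ Ideal.span {(p : R)}) ∧
      UniqueFactorizationMonoid (R ⧸ Ideal.span {(p : R)})) :
    ∃ x : M, span R {x} = ⊤ ∧ ∀ r : R, r • x = 0 → r ∈ Ideal.span {(k : R)} := by
  -- `k M = 0`
  have hkM : ∀ y : M, (k : R) • y = 0 := by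
    intro y
    by_contra hne
    obtain ⟨J, hJ, h⟩ := exists_notMem_smul_top hfin 𝒥 h𝒥 hne
    exact h (hb J hJ y)
  -- separation in `R / c`
  have hsep : ∀ (c : Ideal R) (r : R), r ∉ c → ∃ J ∈ 𝒥, r ∉ c ⊔ J := by
    intro c r hr
    have h1 : (Submodule.mkQ c r : R ⧸ c) ≠ 0 := by
      rw [Submodule.mkQ_apply, Ne, Submodule.Quotient.mk_eq_zero]
      exact hr
    obtain ⟨J, hJ, h2⟩ := exists_notMem_smul_top hfin 𝒥 h𝒥 h1
    refine ⟨J, hJ, fun h3 => h2 ?_⟩
    obtain ⟨a, ha', b, hb', rfl⟩ := Submodule.mem_sup.mp h3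
    rw [map_add]
    have h4 : c.mkQ a = 0 := by
      rw [Submodule.mkQ_apply, Submodule.Quotient.mk_eq_zero]
      exact ha'
    rw [h4, zero_add]
    have h5 : c.mkQ b = b • c.mkQ 1 := by
      rw [← map_smul, smul_eq_mul, mul_one]
    rw [h5]
    exact Submodule.smul_mem_smul hb' trivial
  have key : ∀ J ∈ 𝒥, ∀ (x : M), (⊤ : Submodule R M) ≤ span R {x} ⊔ J • ⊤ → ∀ r : R,
      r • x ∈ (J • ⊤ : Submodule R M) → r ∈ Ideal.span {(k : R)} ⊔ J := by
    intro J hJ x hx r hr
    have := h𝒥f J hJ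
    exact smul_mem_iff_of_card J k hx (hb J hJ) (hc J hJ) hr
  -- local cyclicity
  have hloc : ∀ m : Ideal R, m.IsMaximal → ∃ x : M, (⊤ : Submodule R M) ≤ span R {x} ⊔ m • ⊤ := by
    intro m hm
    obtain ⟨J, hJ, hJm⟩ := h𝒥 m (hfin m hm)
    obtain ⟨x, hx⟩ := ha J hJ
    exact ⟨x, hx.trans (sup_le_sup_left (Submodule.smul_mono_left hJm) _)⟩
  -- it is enough to find a generator
  suffices h : ∃ x : M, span R {x} = ⊤ by
    obtain ⟨x, hx⟩ := h
    refine ⟨x, hx, fun r hr => ?_⟩
    by_contra hne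
    obtain ⟨J, hJ, h1⟩ := hsep _ r hne
    apply h1
    apply key J hJ x (by rw [hx]; exact le_sup_left)
    rw [hr]
    exact zero_mem _
  rcases Nat.eq_zero_or_pos k with rfl | hkpos
  · -- `k = 0`
    obtain ⟨_, _⟩ := h0 rfl
    apply cyclic_of_local hloc
    intro d hd
    by_contra hne
    have hd' : d ∉ (⊥ : Ideal R) := by simpa using hne
    obtain ⟨J, hJ, h1⟩ := hsep _ d hd'
    obtain ⟨x, hx⟩ := ha J hJ
    apply h1
    have := key J hJ x hx d (by rw [hd]; exact zero_mem _)
    simpa using this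
  · -- generators modulo `p`
    have hgen : ∀ p : ℕ, p.Prime → p ∣ k →
        ∃ x : M, (⊤ : Submodule R M) ≤ span R {x} ⊔ Ideal.span {(p : R)} • ⊤ := by
      intro p hpp hpk
      obtain ⟨_, _⟩ := hp p hpp hpk
      set P : Ideal R := Ideal.span {(p : R)} with hP
      obtain ⟨x, hx⟩ := cyclic_of_local (D := R ⧸ P) (M := M ⧸ (P • ⊤ : Submodule R M))
        (by
          intro n hn
          let m : Ideal R := n.comap (Ideal.Quotient.mk P)
          have hm : m.IsMaximal := Ideal.comap_isMaximal_of_surjective _ Ideal.Quotient.mk_surjective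
          obtain ⟨x, hx⟩ := hloc m hm
          have hmn : ∀ z ∈ (m • ⊤ : Submodule R M),
              (Submodule.Quotient.mk z : M ⧸ (P • ⊤ : Submodule R M)) ∈
                (n • ⊤ : Submodule (R ⧸ P) (M ⧸ (P • ⊤ : Submodule R M))) := by
            intro z hz
            induction hz using Submodule.smul_induction_on' with
            | smul r hr w _ =>
              have h1 : (Submodule.Quotient.mk (r • w) : M ⧸ (P • ⊤ : Submodule R M)) =
                (Ideal.Quotient.mk P r) • (Submodule.Quotient.mk w) := rfl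
              rw [h1]
              exact Submodule.smul_mem_smul hr trivial
            | add u _ v _ hu hv =>
              rw [Submodule.Quotient.mk_add]
              exact add_mem hu hv
          refine ⟨Submodule.Quotient.mk x, ?_⟩
          intro y _
          obtain ⟨y, rfl⟩ := Submodule.Quotient.mk_surjective _ y
          obtain ⟨a, ha', z, hz, rfl⟩ := Submodule.mem_sup.mp (hx (x := y) trivial)
          obtain ⟨r, rfl⟩ := mem_span_singleton.mp ha'
          rw [Submodule.Quotient.mk_add]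
          refine add_mem (Submodule.mem_sup_left ?_) (Submodule.mem_sup_right ?_)
          · rw [mem_span_singleton]
            exact ⟨Ideal.Quotient.mk P r, rfl⟩
          · exact hmn z hz)
        (by
          intro d hd
          obtain ⟨d, rfl⟩ := Ideal.Quotient.mk_surjective d
          rw [Ideal.Quotient.eq_zero_iff_mem]
          by_contra hne
          obtain ⟨J, hJ, h1⟩ := hsep P d hne
          obtain ⟨x, hx⟩ := ha J hJ
          have h2 : d • x ∈ (P • ⊤ : Submodule R M) := by
            rw [← Submodule.Quotient.mk_eq_zero]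
            exact hd (Submodule.Quotient.mk x)
          have h3 : ∀ w ∈ (P • ⊤ : Submodule R M), ∃ s : R, w - ((p : R) * s) • x ∈
              (J • ⊤ : Submodule R M) := by
            intro w hw
            induction hw using Submodule.smul_induction_on' with
            | smul r hr w _ =>
              obtain ⟨r', rfl⟩ := Ideal.mem_span_singleton'.mp hr
              obtain ⟨a, ha', z, hz, rfl⟩ := Submodule.mem_sup.mp (hx (x := w) trivial)
              obtain ⟨t, rfl⟩ := mem_span_singleton.mp ha'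
              refine ⟨r' * t, ?_⟩
              have : (r' * (p : R)) • (t • x + z) - ((p : R) * (r' * t)) • x =
                  (r' * (p : R)) • z := by
                rw [smul_add, smul_smul]
                have : r' * (p : R) * t = (p : R) * (r' * t) := by ring
                rw [this]
                abel
              rw [this]
              exact Submodule.smul_mem _ _ hz
            | add u _ v _ hu hv =>
              obtain ⟨s, hs⟩ := hu
              obtain ⟨t, ht⟩ := hv
              refine ⟨s + t, ?_⟩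
              have := add_mem hs ht
              convert this using 1
              rw [mul_add, add_smul]
              abel
          obtain ⟨s, hs⟩ := h3 _ h2
          rw [← sub_smul] at hs
          have h4 := key J hJ x hx _ hs
          have hkP : Ideal.span {(k : R)} ≤ P := by
            rw [hP, Ideal.span_singleton_le_span_singleton]
            obtain ⟨q, rfl⟩ := hpk
            exact ⟨(q : R), by push_cast; ring⟩
          have h5 : d - (p : R) * s ∈ P ⊔ J := (sup_le_sup_right hkP J) h4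
          apply h1
          have h6 : (p : R) * s ∈ P ⊔ J :=
            Submodule.mem_sup_left (Ideal.mul_mem_right _ _ (Ideal.mem_span_singleton_self _))
          have := add_mem h5 h6
          simpa using this)
      obtain ⟨x, rfl⟩ := Submodule.Quotient.mk_surjective _ x
      refine ⟨x, ?_⟩
      intro y _
      have h1 : (Submodule.Quotient.mk y : M ⧸ (P • ⊤ : Submodule R M)) ∈
          span (R ⧸ P) {(Submodule.Quotient.mk x : M ⧸ (P • ⊤ : Submodule R M))} := by
        rw [hx]; trivial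
      obtain ⟨r, hr⟩ := mem_span_singleton.mp h1
      obtain ⟨r, rfl⟩ := Ideal.Quotient.mk_surjective r
      have h2 : y - r • x ∈ (P • ⊤ : Submodule R M) := by
        rw [← Submodule.Quotient.mk_eq_zero, Submodule.Quotient.mk_sub, ← hr]
        exact sub_self _
      have : y = r • x + (y - r • x) := by abel
      rw [this]
      exact add_mem (Submodule.mem_sup_left (mem_span_singleton.mpr ⟨r, rfl⟩))
        (Submodule.mem_sup_right h2)
    choose! ξ hξ using hgen
    -- combine
    let S := k.primeFactors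
    let x : M := ∑ p ∈ S, ((∏ q ∈ S.erase p, q : ℕ) : R) • ξ p
    have hxp : ∀ p : ℕ, p.Prime → p ∣ k → (⊤ : Submodule R M) ≤ span R {x} ⊔ Ideal.span {(p : R)} • ⊤ := by
      intro p hpp hpk
      have hpS : p ∈ S := Nat.mem_primeFactors.mpr ⟨hpp, hpk, hkpos.ne'⟩
      set c : ℕ := ∏ q ∈ S.erase p, q with hcdef
      have hcop : Nat.Coprime c p := by
        rw [hcdef]
        apply Nat.Coprime.prod_left
        intro q hq
        rw [Finset.mem_erase] at hq
        exact (Nat.coprime_primes (Nat.prime_of_mem_primeFactors hq.2) hpp).mpr hq.1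
      have h1 : x - (c : R) • ξ p ∈ (Ideal.span {(p : R)} • ⊤ : Submodule R M) := by
        have : x = (c : R) • ξ p + ∑ p' ∈ S.erase p, ((∏ q ∈ S.erase p', q : ℕ) : R) • ξ p' :=
          (Finset.add_sum_erase S _ hpS).symm
        rw [this, add_sub_cancel_left]
        apply Submodule.sum_mem
        intro p' hp'
        refine Submodule.smul_mem_smul ?_ Submodule.mem_top
        rw [Ideal.mem_span_singleton]
        rw [Finset.mem_erase] at hp'
        have : p ∣ ∏ q ∈ S.erase p', q :=
          Finset.dvd_prod_of_mem _ (Finset.mem_erase.mpr ⟨hp'.1.symm, hpS⟩)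
        exact_mod_cast (Nat.cast_dvd_cast this : ((p : ℕ) : R) ∣ _)
      -- Bezout
      have hbez : ∃ u v : ℤ, u * c + v * p = 1 := by
        have := Nat.gcd_eq_gcd_ab c p
        rw [hcop] at this
        refine ⟨Nat.gcdA c p, Nat.gcdB c p, ?_⟩
        rw [mul_comm _ (c : ℤ), mul_comm _ (p : ℤ), ← this]
        simp
      obtain ⟨u, v, huv⟩ := hbez
      have huv' : (u : R) * c + (v : R) * p = 1 := by exact_mod_cast congrArg (Int.cast (R := R)) huv
      have h2 : ξ p ∈ span R {x} ⊔ (Ideal.span {(p : R)} • ⊤ : Submodule R M) := by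
        have : ξ p = (u : R) • x + (-((u : R) • (x - (c : R) • ξ p)) + ((v : R) * p) • ξ p) := by
          conv_lhs => rw [← one_smul R (ξ p), ← huv', add_smul]
          rw [smul_sub, mul_smul]
          abel
        rw [this]
        refine add_mem (Submodule.mem_sup_left (mem_span_singleton.mpr ⟨_, rfl⟩))
          (Submodule.mem_sup_right (add_mem (neg_mem (Submodule.smul_mem _ _ h1)) ?_))
        exact Submodule.smul_mem_smul (Ideal.mul_mem_left _ _ (Ideal.mem_span_singleton_self _))
          trivial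
      refine (hξ p hpp hpk).trans (sup_le ?_ le_sup_right)
      rw [span_singleton_le_iff_mem]
      exact h2
    refine ⟨x, ?_⟩
    rw [eq_top_iff]
    -- `P n`
    have hP : ∀ n : ℕ, 0 < n → (∀ p : ℕ, p.Prime → p ∣ n → p ∣ k) →
        ∀ y : M, ∃ a : R, ∃ z : M, y = a • x + (n : R) • z := by
      intro n
      induction n using Nat.strong_induction_on with
      | _ n ih =>
        intro hn hdiv y
        by_cases h1 : n = 1
        · subst h1
          exact ⟨0, y, by simp⟩
        · have hmf := Nat.minFac_prime h1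
          obtain ⟨m, hm⟩ := Nat.minFac_dvd n
          have hm0 : 0 < m := by
            rcases Nat.eq_zero_or_pos m with h | h
            · rw [h, mul_zero] at hm
              omega
            · exact h
          have hmn : m < n := by
            conv_rhs => rw [hm]
            have := hmf.two_le
            nlinarith
          obtain ⟨a, z, hz⟩ := ih m hmn hm0
            (fun p hp1 hp2 => hdiv p hp1 (hp2.trans ⟨_, by rw [mul_comm]; exact hm⟩)) y
          obtain ⟨a', ha', w, hw, hzw⟩ := Submodule.mem_sup.mp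
            (hxp _ hmf (hdiv _ hmf (Nat.minFac_dvd n)) (x := z) trivial)
          obtain ⟨b, rfl⟩ := mem_span_singleton.mp ha'
          have hw' : ∃ w' : M, w = ((n.minFac : ℕ) : R) • w' := by
            rw [Submodule.ideal_span_singleton_smul] at hw
            obtain ⟨w', _, hw'⟩ := hw
            exact ⟨w', hw'.symm⟩
          obtain ⟨w', rfl⟩ := hw'
          refine ⟨a + (m : R) * b, w', ?_⟩
          rw [hz, ← hzw, smul_add, add_smul, smul_smul, smul_smul]
          have : ((n : ℕ) : R) = (m : R) * (n.minFac : ℕ) := by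
            conv_lhs => rw [hm]
            push_cast
            ring
          rw [this]
          abel
    intro y _
    obtain ⟨a, z, hz⟩ := hP k hkpos (fun p _ h => h) y
    rw [hkM, add_zero] at hz
    rw [hz, mem_span_singleton]
    exact ⟨a, rfl⟩

end rigid

end Pool.Agent.Lib.MP_305fdd_al.Solv
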