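import Mathlib
import Pool.Agent.Lib.MP_305fdd_al.Solv.Alg

/-!
# Residual finiteness of finitely generated virtually (finite-by-nilpotent) groups
-/

set_option autoImplicit false

namespace Pool.Agent.Lib.MP_305fdd_al.Solv

open Subgroup
open scoped commutatorElement

/-- residual finiteness passes to finite index overgroups -/
theorem rf_of_finiteIndex {G : Type*} [Group G] (S : Subgroup G) [S.FiniteIndex]
    [Group.ResiduallyFinite S] : Group.ResiduallyFinite G := by
  rw [Group.residuallyFinite_iff_exists_finiteIndex]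
  intro g hg
  by_cases hS : g ∈ S
  · obtain ⟨N, hN⟩ := Group.exists_finiteIndexNormalSubgroup_notMem (⟨g, hS⟩ : S)
      (fun h => hg (congrArg Subtype.val h))
    refine ⟨N.toSubgroup.map S.subtype, ⟨?_⟩, ?_⟩
    · rw [Subgroup.index_map_subtype]
      exact mul_ne_zero Subgroup.FiniteIndex.index_ne_zero Subgroup.FiniteIndex.index_ne_zero
    · rintro ⟨x, hx, hxg⟩
      apply hN
      have : x = ⟨g, hS⟩ := Subtype.ext hxg
      rw [← this]
      exact hx
  · exact ⟨S, inferInstance, hS⟩

/-- residual finiteness from residually finite quotients -/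
theorem rf_of_quotients {G : Type*} [Group G]
    (h : ∀ g : G, g ≠ 1 → ∃ (N : Subgroup G) (_ : N.Normal), g ∉ N ∧
      Group.ResiduallyFinite (G ⧸ N)) : Group.ResiduallyFinite G := by
  rw [Group.residuallyFinite_iff_exists_finiteIndex]
  intro g hg
  obtain ⟨N, _, hgN, hN⟩ := h g hg
  obtain ⟨K, hK⟩ := Group.exists_finiteIndexNormalSubgroup_notMem (QuotientGroup.mk' N g)
    (fun h => hgN ((QuotientGroup.eq_one_iff g).mp h))
  refine ⟨K.toSubgroup.comap (QuotientGroup.mk' N), ⟨?_⟩, hK⟩
  rw [Subgroup.index_comap_of_surjective _ (QuotientGroup.mk'_surjective N)]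
  exact Subgroup.FiniteIndex.index_ne_zero

/-- Elements of finitely generated abelian groups which are powers to all exponents are trivial. -/
theorem exists_not_pow {A : Type} [CommGroup A] [Group.FG A] {g : A} (hg : g ≠ 1) :
    ∃ m : ℕ, 0 < m ∧ ∀ h : A, h ^ m ≠ g := by
  have : Module.Finite ℤ (Additive A) := Module.Finite.iff_addGroup_fg.mpr inferInstance
  have hx : (Additive.ofMul g : Additive A) ≠ 0 := hg
  obtain ⟨J, ⟨m, hm, rfl⟩, h⟩ := exists_notMem_smul_top (R := ℤ) (M := Additive A)
    (by
      intro m hm
      obtain ⟨p, rfl⟩ := (IsPrincipalIdealRing.principal m).principal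
      have hp : p ≠ 0 := by
        rintro rfl
        have h1 : (Ideal.span {(0 : ℤ)}) = ⊥ := by simp
        have h2 : Ideal.IsMaximal (⊥ : Ideal ℤ) := by
          rw [← h1]; exact hm
        exact Ring.not_isField_of_ne_of_ne (I := Ideal.span {(2 : ℤ)}) (by simp) (by
          rw [Ne, Ideal.span_singleton_eq_top, Int.isUnit_iff]
          norm_num) ((Ring.isField_iff_maximal_bot).mpr h2)
      have : NeZero p.natAbs := ⟨Int.natAbs_ne_zero.mpr hp⟩
      exact Finite.of_equiv _ (Int.quotientSpanEquivZMod p).symm.toEquiv)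
    {J : Ideal ℤ | ∃ m : ℕ, 0 < m ∧ J = Ideal.span {(m : ℤ)}}
    (by
      intro I hI
      obtain ⟨p, rfl⟩ := (IsPrincipalIdealRing.principal I).principal
      have hp : p ≠ 0 := by
        rintro rfl
        have h1 : (Ideal.span {(0 : ℤ)}) = ⊥ := by simp
        have h2 : Finite (ℤ ⧸ (⊥ : Ideal ℤ)) := by
          rw [← h1]; exact hI
        have h3 : Finite ℤ := Finite.of_equiv _ (RingEquiv.quotientBot ℤ).toEquiv
        exact not_finite ℤ
      refine ⟨Ideal.span {(p.natAbs : ℤ)}, ⟨p.natAbs, Int.natAbs_pos.mpr hp, rfl⟩, ?_⟩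
      rw [Ideal.span_singleton_le_span_singleton]
      exact Int.dvd_natAbs_self)
    hx
  refine ⟨m, hm, fun a ha => h ?_⟩
  have h1 : (Additive.ofMul g : Additive A) = (m : ℤ) • Additive.ofMul a := by
    rw [← ha]
    rw [natCast_zsmul]
    rfl
  rw [h1]
  exact Submodule.smul_mem_smul (Ideal.mem_span_singleton_self _) trivial

/-- the subgroup of `m`-th powers of a central subgroup -/
def powSub {G : Type*} [Group G] (A : Subgroup G) (hA : A ≤ center G) (m : ℕ) : Subgroup G where
  carrier := {x | ∃ a ∈ A, a ^ m = x}
  one_mem' := ⟨1, one_mem _, one_pow _⟩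
  mul_mem' := by
    rintro _ _ ⟨a, ha, rfl⟩ ⟨b, hb, rfl⟩
    refine ⟨a * b, mul_mem ha hb, ?_⟩
    have : Commute a b := (mem_center_iff.mp (hA hb) a)
    exact this.mul_pow m
  inv_mem' := by
    rintro _ ⟨a, ha, rfl⟩
    exact ⟨a⁻¹, inv_mem ha, inv_pow a m⟩

theorem mem_powSub {G : Type*} [Group G] {A : Subgroup G} {hA : A ≤ center G} {m : ℕ} {x : G} :
    x ∈ powSub A hA m ↔ ∃ a ∈ A, a ^ m = x := Iff.rfl

theorem powSub_le {G : Type*} [Group G] (A : Subgroup G) (hA : A ≤ center G) (m : ℕ) :
    powSub A hA m ≤ A := by
  rintro _ ⟨a, ha, rfl⟩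
  exact pow_mem ha m

theorem normal_of_le_center {G : Type*} [Group G] {A : Subgroup G} (hA : A ≤ center G) :
    A.Normal := by
  refine ⟨fun n hn g => ?_⟩
  have := mem_center_iff.mp (hA hn) g
  rw [this, mul_inv_cancel_right]
  exact hn

theorem powSub_relIndex {G : Type} [Group G] (A : Subgroup G) (hA : A ≤ center G) {m : ℕ}
    (hm : 0 < m) [Group.FG A] : (powSub A hA m).relIndex A ≠ 0 := by
  let _ : CommGroup A :=
    { (inferInstance : Group A) with
      mul_comm := fun a b => Subtype.ext (mem_center_iff.mp (hA b.2) a) }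
  have h1 : (powSub A hA m).subgroupOf A = (powMonoidHom m : A →* A).range := by
    ext x
    rw [mem_subgroupOf, mem_powSub]
    constructor
    · rintro ⟨a, ha, h⟩
      exact ⟨⟨a, ha⟩, Subtype.ext h⟩
    · rintro ⟨a, h⟩
      exact ⟨a, a.2, congrArg Subtype.val h⟩
  have h2 : Finite (A ⧸ (powMonoidHom m : A →* A).range) := by
    apply CommGroup.finite_of_fg_isMulTorsion
    intro x
    obtain ⟨a, rfl⟩ := QuotientGroup.mk_surjective x
    rw [isOfFinOrder_iff_pow_eq_one]
    refine ⟨m, hm, ?_⟩
    rw [← QuotientGroup.mk_pow, QuotientGroup.eq_one_iff]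
    exact ⟨a, rfl⟩
  show ((powSub A hA m).subgroupOf A).index ≠ 0
  rw [h1]
  exact Subgroup.index_ne_zero_of_finite

theorem exists_notMem_powSub {G : Type} [Group G] (A : Subgroup G) (hA : A ≤ center G)
    [Group.FG A] {g : G} (hg : g ≠ 1) : ∃ m : ℕ, 0 < m ∧ g ∉ powSub A hA m := by
  by_cases hgA : g ∈ A
  · let _ : CommGroup A :=
      { (inferInstance : Group A) with
        mul_comm := fun a b => Subtype.ext (mem_center_iff.mp (hA b.2) a) }
    obtain ⟨m, hm, h⟩ := exists_not_pow (A := A) (g := ⟨g, hgA⟩)
      (fun h => hg (congrArg Subtype.val h))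
    refine ⟨m, hm, ?_⟩
    rintro ⟨a, ha, h1⟩
    exact h ⟨a, ha⟩ (Subtype.ext h1)
  · exact ⟨1, one_pos, fun h => hgA (powSub_le _ _ _ h)⟩

/-- A finitely generated group with finite derived group: a normal subgroup with quotient of
finite exponent has finite index. -/
theorem index_ne_zero_of_exponent {T : Type} [Group T] [Group.FG T] [Finite (commutator T)]
    (K : Subgroup T) [K.Normal] {e : ℕ} (he : 0 < e) (h : ∀ x : T, x ^ e ∈ K) : K.index ≠ 0 := by
  have h1 : (K ⊔ commutator T).index ≠ 0 := by
    let Q := T ⧸ (K ⊔ commutator T)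
    have hfin : Finite Q := by
      let _ : CommGroup Q :=
        { (inferInstance : Group Q) with
          mul_comm := by
            intro a b
            obtain ⟨a, rfl⟩ := QuotientGroup.mk_surjective a
            obtain ⟨b, rfl⟩ := QuotientGroup.mk_surjective b
            rw [← QuotientGroup.mk_mul, ← QuotientGroup.mk_mul, QuotientGroup.eq]
            apply (le_sup_right : commutator T ≤ K ⊔ commutator T)
            have : (a * b)⁻¹ * (b * a) = ⁅b⁻¹, a⁻¹⁆ := by
              rw [commutatorElement_def]; group
            rw [this]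
            exact commutator_mem_commutator (mem_top _) (mem_top _) }
      apply CommGroup.finite_of_fg_isMulTorsion
      intro x
      obtain ⟨a, rfl⟩ := QuotientGroup.mk_surjective x
      rw [isOfFinOrder_iff_pow_eq_one]
      refine ⟨e, he, ?_⟩
      rw [← QuotientGroup.mk_pow, QuotientGroup.eq_one_iff]
      exact (le_sup_left : K ≤ K ⊔ commutator T) (h a)
    exact Subgroup.index_ne_zero_of_finite
  have h2 : K.relIndex (K ⊔ commutator T) ≠ 0 := by
    rw [Subgroup.relIndex_sup_left]
    exact Subgroup.index_ne_zero_of_finite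
  rw [← Subgroup.relIndex_mul_index (le_sup_left : K ≤ K ⊔ commutator T)]
  exact mul_ne_zero h2 h1

/-- terms of the lower central series are finitely generated modulo the next term -/
theorem fg_lcs (G : Type*) [Group G] [hG : Group.FG G] (n : ℕ) : ∃ X : Set G, X.Finite ∧
    (⊤ : Subgroup G).lowerCentralSeries n = closure X ⊔ (⊤ : Subgroup G).lowerCentralSeries (n + 1) := by
  induction n with
  | zero =>
    obtain ⟨S, hS⟩ := hG.out
    refine ⟨S, S.finite_toSet, ?_⟩
    rw [hS, top_sup_eq]
    rfl
  | succ n ih =>
    obtain ⟨X, hX, hXn⟩ := ih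
    obtain ⟨S, hS⟩ := hG.out
    set γ := (⊤ : Subgroup G).lowerCentralSeries with hγ
    let Y : Set G := (fun p : G × G => ⁅p.1, p.2⁆) '' (X ×ˢ (S : Set G))
    have hY : Y.Finite := (hX.prod S.finite_toSet).image _
    have hXle : X ⊆ γ n := by
      rw [hXn]
      exact subset_closure.trans (SetLike.coe_subset_coe.mpr le_sup_left)
    have hYle : closure Y ≤ γ (n + 1) := by
      rw [closure_le]
      rintro _ ⟨⟨x, s⟩, ⟨hx, -⟩, rfl⟩
      exact commutator_mem_commutator (hXle hx) (mem_top _)
    refine ⟨Y, hY, le_antisymm ?_ (sup_le hYle (Subgroup.lowerCentralSeries_antitone _ (Nat.le_succ _)))⟩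
    set N := closure Y ⊔ γ (n + 1 + 1) with hN
    have hNle : N ≤ γ (n + 1) := sup_le hYle (Subgroup.lowerCentralSeries_antitone _ (Nat.le_succ _))
    have hNn : N.Normal := by
      refine ⟨fun a ha g => ?_⟩
      have h1 : g * a * g⁻¹ = a * ⁅a⁻¹, g⁆ := by rw [commutatorElement_def]; group
      rw [h1]
      refine mul_mem ha ?_
      apply (le_sup_right : γ (n + 1 + 1) ≤ N)
      exact commutator_mem_commutator (inv_mem (hNle ha)) (mem_top _)
    -- the centre of `G ⧸ N`
    let C : Subgroup G := (center (G ⧸ N)).comap (QuotientGroup.mk' N)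
    have hC : ∀ x : G, x ∈ C ↔ ∀ g : G, ⁅x, g⁆ ∈ N := by
      intro x
      rw [mem_comap, mem_center_iff]
      constructor
      · intro h g
        have := h (QuotientGroup.mk' N g)
        rw [← map_mul, ← map_mul] at this
        have h2 : QuotientGroup.mk' N ⁅x, g⁆ = 1 := by
          rw [map_commutatorElement, commutatorElement_eq_one_iff_mul_comm, ← map_mul, ← map_mul,
            this]
        exact (QuotientGroup.eq_one_iff _).mp h2
      · intro h g
        obtain ⟨g, rfl⟩ := QuotientGroup.mk_surjective g
        have h2 : QuotientGroup.mk' N ⁅x, g⁆ = 1 := (QuotientGroup.eq_one_iff _).mpr (h g)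
        rw [map_commutatorElement, commutatorElement_eq_one_iff_mul_comm] at h2
        exact h2.symm
    have h3 : γ n ≤ C := by
      rw [hXn, sup_le_iff, closure_le]
      constructor
      · intro x hx
        -- `x` commutes with the generators modulo `N`
        have h4 : (⊤ : Subgroup G) ≤
            (centralizer {QuotientGroup.mk' N x}).comap (QuotientGroup.mk' N) := by
          rw [← hS, closure_le]
          intro s hs
          show QuotientGroup.mk' N s ∈ centralizer {QuotientGroup.mk' N x}
          rw [mem_centralizer_singleton_iff]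
          have h5 : QuotientGroup.mk' N ⁅x, s⁆ = 1 := by
            refine (QuotientGroup.eq_one_iff _).mpr ?_
            apply (le_sup_left : closure Y ≤ N)
            exact subset_closure ⟨(x, s), ⟨hx, hs⟩, rfl⟩
          rw [map_commutatorElement, commutatorElement_eq_one_iff_mul_comm] at h5
          exact h5.symm
        show QuotientGroup.mk' N x ∈ center (G ⧸ N)
        rw [mem_center_iff]
        intro g
        obtain ⟨g, rfl⟩ := QuotientGroup.mk_surjective g
        have := h4 (mem_top g)
        rw [mem_comap, mem_centralizer_singleton_iff] at this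
        exact this
      · intro x hx
        rw [hC]
        intro g
        exact (le_sup_right : γ (n + 1 + 1) ≤ N) (commutator_mem_commutator hx (mem_top _))
    show ⁅γ n, ⊤⁆ ≤ N
    rw [commutator_le]
    intro x hx g _
    exact (hC x).mp (h3 hx) g

/-- finitely generated abelian groups are residually finite -/
theorem rf_comm (A : Type) [CommGroup A] [Group.FG A] : Group.ResiduallyFinite A := by
  rw [Group.residuallyFinite_iff_exists_finiteIndex]
  intro g hg
  have hA : (⊤ : Subgroup A) ≤ center A := fun x _ => mem_center_iff.mpr fun y => mul_comm y x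
  have hFG : Group.FG (⊤ : Subgroup A) := (Group.fg_iff_subgroup_fg _).mpr Group.FG.out
  obtain ⟨m, hm, h⟩ := exists_notMem_powSub ⊤ hA hg
  refine ⟨powSub ⊤ hA m, ⟨?_⟩, h⟩
  have := powSub_relIndex ⊤ hA hm
  rwa [Subgroup.relIndex_top_right] at this

theorem finite_commutatorSet (G : Type*) [Group G] [h : Finite (commutator G)] :
    Finite (commutatorSet G) := by
  have : Finite ((commutator G : Subgroup G) : Set G) := h
  refine Finite.Set.subset ((commutator G : Subgroup G) : Set G) ?_
  rw [commutator_eq_closure]
  exact subset_closure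

/-- finitely generated finite-by-abelian groups are residually finite -/
theorem rf_one (G : Type) [Group G] [Group.FG G] [Finite (commutator G)] :
    Group.ResiduallyFinite G := by
  have := finite_commutatorSet G
  have h1 : Group.FG (center G) := Subgroup.fg_of_index_ne_zero (center G)
  let _ : CommGroup (center G) :=
    { (inferInstance : Group (center G)) with
      mul_comm := fun a b => Subtype.ext (mem_center_iff.mp b.2 a) }
  have h2 : Group.ResiduallyFinite (center G) := rf_comm (center G)
  exact rf_of_finiteIndex (center G)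

theorem finiteIndex_centralizer {G : Type*} [Group G] (D : Subgroup G) [D.Normal] [Finite D] :
    (centralizer (D : Set G)).FiniteIndex := by
  have h1 : (MulAut.conjNormal : G →* MulAut D).ker ≤ centralizer (D : Set G) := by
    intro g hg
    rw [MonoidHom.mem_ker] at hg
    rw [mem_centralizer_iff]
    intro d hd
    have := congrArg (fun f : MulAut D => ((f ⟨d, hd⟩ : D) : G)) hg
    simp only [MulAut.conjNormal_apply, MulAut.one_apply] at this
    exact (mul_inv_eq_iff_eq_mul.mp this).symm
  have h2 : Finite (MulAut D) := Finite.of_injective (fun f : MulAut D => (f : D → D))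
    DFunLike.coe_injective
  have h3 : (MulAut.conjNormal : G →* MulAut D).ker.FiniteIndex := Subgroup.finiteIndex_ker _
  exact Subgroup.finiteIndex_of_le h1

/-- central case of the induction step -/
theorem rf_step {c : ℕ} (ih : ∀ (G : Type) [Group G] [Group.FG G],
    Finite ((⊤ : Subgroup G).lowerCentralSeries (c + 1)) → Group.ResiduallyFinite G)
    (G : Type) [Group G] [Group.FG G]
    (hfin : Finite ((⊤ : Subgroup G).lowerCentralSeries (c + 2)))
    (hcen : (⊤ : Subgroup G).lowerCentralSeries (c + 2) ≤ center G) :
    Group.ResiduallyFinite G := by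
  set γ := (⊤ : Subgroup G).lowerCentralSeries with hγ
  have hBfg : Group.FG (γ (c + 1)) := by
    obtain ⟨X, hX, h⟩ := fg_lcs G (c + 1)
    rw [Group.fg_iff_subgroup_fg]
    change γ (c + 1) = closure X ⊔ γ (c + 2) at h
    rw [h]
    refine Subgroup.FG.sup ⟨hX.toFinset, by simp⟩ ?_
    rw [← Group.fg_iff_subgroup_fg]
    infer_instance
  have he : ∀ a ∈ γ (c + 1), a ^ Nat.card (γ (c + 2)) ∈ center G := by
    intro a ha
    rw [mem_center_iff]
    intro b
    set z := ⁅a, b⁆ with hz
    have hzm : z ∈ γ (c + 2) := commutator_mem_commutator ha (mem_top b)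
    have hzc := mem_center_iff.mp (hcen hzm)
    have h1 : b * a * b⁻¹ = z⁻¹ * a := by
      rw [hz, commutatorElement_def]; group
    have h2 : z ^ Nat.card (γ (c + 2)) = 1 := by
      have : (⟨z, hzm⟩ : γ (c + 2)) ^ Nat.card (γ (c + 2)) = 1 := pow_card_eq_one'
      exact congrArg Subtype.val this
    have h3 : b * a ^ Nat.card (γ (c + 2)) * b⁻¹ = a ^ Nat.card (γ (c + 2)) := by
      rw [← conj_pow, h1, Commute.mul_pow, inv_pow, h2, inv_one, one_mul]
      exact Commute.inv_left (hzc a).symm
    rw [mul_inv_eq_iff_eq_mul] at h3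
    exact h3
  let A : Subgroup G := γ (c + 1) ⊓ center G
  have hA : A ≤ center G := inf_le_right
  have hAB : A ≤ γ (c + 1) := inf_le_left
  have hAi : A.relIndex (γ (c + 1)) ≠ 0 := by
    have hcf : Finite (commutator (γ (c + 1))) := by
      have h1 : (commutator (γ (c + 1))).map (γ (c + 1)).subtype ≤ γ (c + 2) := by
        rw [commutator_def, map_commutator, ← MonoidHom.range_eq_map, subtype_range]
        exact commutator_mono le_rfl le_top
      have h2 : Finite ((commutator (γ (c + 1))).map (γ (c + 1)).subtype) :=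
        Finite.of_injective (Subgroup.inclusion h1) (Subgroup.inclusion_injective h1)
      exact Finite.of_equiv _ ((commutator (γ (c + 1))).equivMapOfInjective _
        (γ (c + 1)).subtype_injective).symm.toEquiv
    have hAn : (A.subgroupOf (γ (c + 1))).Normal := by
      have := normal_of_le_center hA
      infer_instance
    refine index_ne_zero_of_exponent (A.subgroupOf (γ (c + 1))) (e := Nat.card (γ (c + 2)))
      Nat.card_pos ?_
    intro x
    rw [mem_subgroupOf]
    exact ⟨pow_mem x.2 _, he x x.2⟩
  have hAfg : Group.FG A := by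
    have h1 : (A.subgroupOf (γ (c + 1))).FiniteIndex := ⟨hAi⟩
    have h2 : Group.FG (A.subgroupOf (γ (c + 1))) := Subgroup.fg_of_index_ne_zero _
    exact Group.fg_of_surjective (f := (Subgroup.subgroupOfEquivOfLe hAB).toMonoidHom)
      (Subgroup.subgroupOfEquivOfLe hAB).surjective
  apply rf_of_quotients
  intro g hg
  obtain ⟨m, hm, hgm⟩ := exists_notMem_powSub A hA hg
  have hNn : (powSub A hA m).Normal := normal_of_le_center ((powSub_le A hA m).trans hA)
  refine ⟨powSub A hA m, hNn, hgm, ?_⟩
  apply ih
  have h1 : (⊤ : Subgroup (G ⧸ powSub A hA m)).lowerCentralSeries (c + 1) =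
      (γ (c + 1)).map (QuotientGroup.mk' (powSub A hA m)) := by
    rw [hγ, map_lowerCentralSeries]
    congr 1
    rw [← MonoidHom.range_eq_map, QuotientGroup.range_mk']
  rw [h1]
  apply Nat.finite_of_card_ne_zero
  rw [← Subgroup.relIndex_ker, QuotientGroup.ker_mk']
  rw [← Subgroup.relIndex_mul_relIndex _ _ _ (powSub_le A hA m) hAB]
  exact mul_ne_zero (powSub_relIndex A hA hm) hAi

/-- finitely generated finite-by-nilpotent groups are residually finite -/
theorem rf_lcs (c : ℕ) : ∀ (G : Type) [Group G] [Group.FG G],
    Finite ((⊤ : Subgroup G).lowerCentralSeries c) → Group.ResiduallyFinite G := by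
  induction c with
  | zero =>
    intro G _ _ h
    have h' : Finite (⊤ : Subgroup G) := h
    have : Finite G := Finite.of_equiv _ (Subgroup.topEquiv (G := G)).toEquiv
    infer_instance
  | succ c ih =>
    rcases c with _ | c
    · intro G _ _ h
      have : Finite (commutator G) := h
      exact rf_one G
    · intro G _ _ h
      set D := (⊤ : Subgroup G).lowerCentralSeries (c + 2) with hD
      have hDfin : Finite D := h
      have hC := finiteIndex_centralizer D
      have hCfg : Group.FG (centralizer (D : Set G)) := Subgroup.fg_of_index_ne_zero _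
      set C := centralizer (D : Set G) with hCdef
      have h1 : ((⊤ : Subgroup C).lowerCentralSeries (c + 2)).map C.subtype ≤ D := by
        rw [map_lowerCentralSeries]
        exact Subgroup.lowerCentralSeries_mono _ le_top
      have h2 : Group.ResiduallyFinite C := by
        apply rf_step ih
        · have h2 : Finite (((⊤ : Subgroup C).lowerCentralSeries (c + 2)).map C.subtype) :=
            Finite.of_injective (Subgroup.inclusion h1) (Subgroup.inclusion_injective h1)
          exact Finite.of_equiv _ (((⊤ : Subgroup C).lowerCentralSeries (c + 2)).equivMapOfInjective _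
            C.subtype_injective).symm.toEquiv
        · intro x hx
          rw [mem_center_iff]
          intro y
          have h3 : (x : G) ∈ D := h1 ⟨x, hx, rfl⟩
          have h4 := mem_centralizer_iff.mp y.2
          exact Subtype.ext (h4 x h3).symm
      exact rf_of_finiteIndex C

/-- finitely generated nilpotent groups are residually finite -/
theorem rf_nilpotent (G : Type) [Group G] [Group.FG G] [h : Group.IsNilpotent G] :
    Group.ResiduallyFinite G := by
  obtain ⟨n, hn⟩ := Subgroup.nilpotent_iff_lowerCentralSeries.mp h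
  apply rf_lcs n
  rw [hn]
  infer_instance

/-- A finitely generated group with a finite index subgroup with finite derived subgroup is
residually finite. -/
theorem rf_virtually {E : Type} [Group E] [Group.FG E] (S : Subgroup E) [S.FiniteIndex]
    (h : Finite (⁅S, S⁆ : Subgroup E)) : Group.ResiduallyFinite E := by
  have hS : Group.FG S := Subgroup.fg_of_index_ne_zero _
  have h1 : Finite (commutator S) := by
    have h1 : (commutator S).map S.subtype = ⁅S, S⁆ := by
      rw [commutator_def, map_commutator, ← MonoidHom.range_eq_map, subtype_range]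
    have h2 : Finite ((commutator S).map S.subtype) := by rw [h1]; exact h
    exact Finite.of_equiv _ ((commutator S).equivMapOfInjective _ S.subtype_injective).symm.toEquiv
  have h2 := rf_one S
  exact rf_of_finiteIndex S

/-- separation of a finite subgroup -/
theorem exists_inf_eq_bot {E : Type*} [Group E] [Group.ResiduallyFinite E] (D : Subgroup E)
    [Finite D] : ∃ K : Subgroup E, K.Normal ∧ K.FiniteIndex ∧ K ⊓ D = ⊥ := by
  have : ∀ d : D, ∃ K : Subgroup E, K.Normal ∧ K.FiniteIndex ∧ ((d : E) ≠ 1 → (d : E) ∉ K) := by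
    intro d
    by_cases hd : (d : E) = 1
    · exact ⟨⊤, inferInstance, inferInstance, fun h => absurd hd h⟩
    · obtain ⟨K, hK⟩ := Group.exists_finiteIndexNormalSubgroup_notMem (d : E) hd
      exact ⟨K.toSubgroup, inferInstance, inferInstance, fun _ => hK⟩
  choose K hK1 hK2 hK3 using this
  refine ⟨⨅ d, K d, Subgroup.normal_iInf_normal hK1, Subgroup.finiteIndex_iInf hK2, ?_⟩
  rw [eq_bot_iff]
  rintro x ⟨hx, hxD⟩
  rw [Subgroup.mem_bot]
  by_contra hne
  exact hK3 ⟨x, hxD⟩ hne (Subgroup.mem_iInf.mp hx ⟨x, hxD⟩)

end Pool.Agent.Lib.MP_305fdd_al.Solv
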