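import Mathlib
import Pool.Agent.Lib.MP_305fdd_al.Solv.RFNil

/-!
# The group ring of a free abelian group of rank two
-/

set_option autoImplicit false

namespace Pool.Agent.Lib.MP_305fdd_al.Solv

open MonoidAlgebra

/-- the free abelian group of rank two -/
abbrev A0 : Type := Multiplicative ℤ × Multiplicative ℤ

theorem ufd_laurent (D : Type) [CommRing D] [IsDomain D] [UniqueFactorizationMonoid D] :
    IsDomain (LaurentPolynomial D) ∧ UniqueFactorizationMonoid (LaurentPolynomial D) := by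
  refine ⟨inferInstance, ?_⟩
  exact UniqueFactorizationMonoid.of_isLocalization (M := Polynomial D)
    (S := Submonoid.powers (Polynomial.X : Polynomial D)) (LaurentPolynomial D)

/-- the group ring of `A0` is an iterated Laurent polynomial ring -/
noncomputable def ringEquivLaurent (D : Type) [CommRing D] :
    MonoidAlgebra D A0 ≃+* LaurentPolynomial (LaurentPolynomial D) :=
  (MonoidAlgebra.curryRingEquiv (R := D) (M := Multiplicative ℤ) (N := Multiplicative ℤ)).trans
    ((MonoidAlgebra.mapRingEquiv (Multiplicative ℤ) (AddMonoidAlgebra.toMultiplicative D ℤ).symm).trans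
      (AddMonoidAlgebra.toMultiplicative (LaurentPolynomial D) ℤ).symm)

theorem ufd_of_ringEquiv {R S : Type} [CommRing R] [CommRing S] (e : R ≃+* S) [IsDomain S]
    [UniqueFactorizationMonoid S] : IsDomain R ∧ UniqueFactorizationMonoid R := by
  have h1 : IsDomain R := e.toMulEquiv.isDomain S
  exact ⟨h1, e.symm.toMulEquiv.uniqueFactorizationMonoid inferInstance⟩

theorem ufd_A0 (D : Type) [CommRing D] [IsDomain D] [UniqueFactorizationMonoid D] :
    IsDomain (MonoidAlgebra D A0) ∧ UniqueFactorizationMonoid (MonoidAlgebra D A0) := by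
  obtain ⟨_, _⟩ := ufd_laurent D
  obtain ⟨_, _⟩ := ufd_laurent (LaurentPolynomial D)
  exact ufd_of_ringEquiv (ringEquivLaurent D)

theorem ufd_A {A : Type} [CommGroup A] (e : A ≃* A0) (D : Type) [CommRing D] [IsDomain D]
    [UniqueFactorizationMonoid D] :
    IsDomain (MonoidAlgebra D A) ∧ UniqueFactorizationMonoid (MonoidAlgebra D A) := by
  obtain ⟨_, _⟩ := ufd_A0 D
  exact ufd_of_ringEquiv (mapDomainRingEquiv D e)

/-- the kernel of the reduction of coefficients -/
theorem ker_map (A : Type) [CommGroup A] (k : ℕ) :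
    RingHom.ker (mapRingHom A (Int.castRingHom (ZMod k))) =
      Ideal.span {(k : MonoidAlgebra ℤ A)} := by
  ext r
  rw [RingHom.mem_ker, Ideal.mem_span_singleton]
  constructor
  · intro h
    have h1 : ∀ a, (k : ℤ) ∣ r.coeff a := by
      intro a
      have := congrArg (fun s => s.coeff a) h
      simp only [coeff_mapRingHom] at this
      exact (ZMod.intCast_zmod_eq_zero_iff_dvd _ _).mp this
    refine ⟨MonoidAlgebra.ofCoeff (r.coeff.mapRange (fun z => z / (k : ℤ)) (by simp)), ?_⟩
    have h2 : ∀ x : MonoidAlgebra ℤ A, (k : MonoidAlgebra ℤ A) * x = (k : ℤ) • x := by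
      intro x
      rw [natCast_zsmul, nsmul_eq_mul]
    rw [h2]
    ext a
    simp only [MonoidAlgebra.coeff_smul, Finsupp.smul_apply, Finsupp.mapRange_apply, smul_eq_mul]
    exact (Int.mul_ediv_cancel' (h1 a)).symm
  · rintro ⟨s, rfl⟩
    rw [map_mul, map_natCast]
    have : ((k : ℕ) : MonoidAlgebra (ZMod k) A) = 0 := by
      ext a
      rw [← mul_one ((k : ℕ) : MonoidAlgebra (ZMod k) A), ← nsmul_eq_mul]
      simp
    rw [this, zero_mul]

theorem map_surjective (A : Type) [CommGroup A] (k : ℕ) :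
    Function.Surjective (mapRingHom A (Int.castRingHom (ZMod k))) := by
  intro s
  induction s using MonoidAlgebra.induction_linear with
  | zero => exact ⟨0, map_zero _⟩
  | add f g hf hg =>
    obtain ⟨f, rfl⟩ := hf
    obtain ⟨g, rfl⟩ := hg
    exact ⟨f + g, map_add _ _ _⟩
  | single a z =>
    obtain ⟨z, rfl⟩ := ZMod.intCast_surjective z
    exact ⟨single a z, by simp⟩

theorem ufd_quot {A : Type} [CommGroup A] (e : A ≃* A0) (p : ℕ) (hp : p.Prime) :
    IsDomain (MonoidAlgebra ℤ A ⧸ Ideal.span {(p : MonoidAlgebra ℤ A)}) ∧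
      UniqueFactorizationMonoid (MonoidAlgebra ℤ A ⧸ Ideal.span {(p : MonoidAlgebra ℤ A)}) := by
  have : Fact p.Prime := ⟨hp⟩
  obtain ⟨_, _⟩ := ufd_A e (ZMod p)
  rw [← ker_map]
  exact ufd_of_ringEquiv (RingHom.quotientKerEquivOfSurjective (map_surjective A p))

theorem noeth (A : Type) [CommGroup A] [Group.FG A] : IsNoetherianRing (MonoidAlgebra ℤ A) := by
  have : Monoid.FG A := Group.fg_iff_monoid_fg.mp inferInstance
  have : Algebra.FiniteType ℤ (MonoidAlgebra ℤ A) := MonoidAlgebra.finiteType_of_fg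
  exact Algebra.FiniteType.isNoetherianRing ℤ _

theorem isJacobsonRing_int : IsJacobsonRing ℤ := by
  rw [isJacobsonRing_iff_prime_eq]
  intro P hP
  by_cases h0 : P = ⊥
  · subst h0
    rw [eq_bot_iff]
    intro x hx
    rw [Ideal.mem_bot]
    rw [Ideal.mem_jacobson_bot] at hx
    have := hx x
    rw [Int.isUnit_iff] at this
    rcases this with h | h
    · have : x * x = 0 := by linarith
      exact mul_self_eq_zero.mp this
    · have h1 : 0 ≤ x * x := mul_self_nonneg x
      linarith
  · have : P.IsMaximal := hP.isMaximal h0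
    exact Ideal.jacobson_eq_self_of_isMaximal

/-- fields which are finitely generated as rings are finite -/
theorem finite_field (F : Type) [Field F] (hF : (Int.castRingHom F).FiniteType) : Finite F := by
  have := isJacobsonRing_int
  have h1 : Module.Finite ℤ F := by
    have h1 := @finite_of_finite_type_of_isJacobsonRing ℤ F _ _ (Int.castRingHom F).toAlgebra _ hF
    have h2 : (@Algebra.toModule ℤ F _ _ (Int.castRingHom F).toAlgebra) =
        AddCommGroup.toIntModule F := Subsingleton.elim _ _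
    rw [h2] at h1
    exact h1
  have h2 : AddGroup.FG F := Module.Finite.iff_addGroup_fg.mp h1
  obtain ⟨m, hm, h⟩ := exists_not_pow (A := Multiplicative F) (g := Multiplicative.ofAdd (1 : F))
    (fun h => one_ne_zero (α := F) (Multiplicative.ofAdd.injective h))
  have h3 : (m : F) = 0 := by
    by_contra hne
    apply h (Multiplicative.ofAdd ((m : F)⁻¹))
    rw [← ofAdd_nsmul, nsmul_eq_mul, mul_inv_cancel₀ hne]
  have h4 : IsAddTorsion F := by
    intro x
    rw [isOfFinAddOrder_iff_nsmul_eq_zero]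
    exact ⟨m, hm, by rw [nsmul_eq_mul, h3, zero_mul]⟩
  exact AddCommGroup.finite_of_fg_isAddTorsion F h4

theorem finite_residue (A : Type) [CommGroup A] [Group.FG A] (m : Ideal (MonoidAlgebra ℤ A))
    (hm : m.IsMaximal) : Finite (MonoidAlgebra ℤ A ⧸ m) := by
  have : Monoid.FG A := Group.fg_iff_monoid_fg.mp inferInstance
  have h0 : Algebra.FiniteType ℤ (MonoidAlgebra ℤ A) := MonoidAlgebra.finiteType_of_fg
  have h1 : (Int.castRingHom (MonoidAlgebra ℤ A)).FiniteType := by
    have h1 : (algebraMap ℤ (MonoidAlgebra ℤ A)).FiniteType := RingHom.finiteType_algebraMap.mpr h0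
    have h2 : algebraMap ℤ (MonoidAlgebra ℤ A) = Int.castRingHom (MonoidAlgebra ℤ A) :=
      RingHom.ext_int _ _
    rwa [h2] at h1
  have h2 : (Int.castRingHom (MonoidAlgebra ℤ A ⧸ m)).FiniteType := by
    have h3 := (RingHom.FiniteType.of_surjective (Ideal.Quotient.mk m)
      Ideal.Quotient.mk_surjective).comp h1
    have h4 : (Ideal.Quotient.mk m).comp (Int.castRingHom (MonoidAlgebra ℤ A)) =
      Int.castRingHom (MonoidAlgebra ℤ A ⧸ m) := RingHom.ext_int _ _
    rwa [h4] at h3
  let _ : Field (MonoidAlgebra ℤ A ⧸ m) := Ideal.Quotient.field m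
  exact finite_field _ h2

/-- the ideals `(a ^ n - 1, N)` -/
noncomputable def JJ (A : Type) [CommGroup A] (n N : ℕ) : Ideal (MonoidAlgebra ℤ A) :=
  Ideal.span ({r | ∃ a : A, r = of ℤ A a ^ n - 1} ∪ {(N : MonoidAlgebra ℤ A)})

theorem JJ_cofinal (A : Type) [CommGroup A] (I : Ideal (MonoidAlgebra ℤ A))
    (hI : Finite (MonoidAlgebra ℤ A ⧸ I)) : ∃ n N : ℕ, 0 < n ∧ 0 < N ∧ JJ A n N ≤ I := by
  refine ⟨Nat.card (MonoidAlgebra ℤ A ⧸ I)ˣ, Nat.card (MonoidAlgebra ℤ A ⧸ I), Nat.card_pos,
    Nat.card_pos, ?_⟩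
  rw [JJ, Ideal.span_le]
  rintro r (⟨a, rfl⟩ | hr)
  · have h1 : IsUnit (Ideal.Quotient.mk I (of ℤ A a)) := by
      have : IsUnit (of ℤ A a) := (Group.isUnit a).map (of ℤ A)
      exact this.map _
    obtain ⟨u, hu⟩ := h1
    have h2 : u ^ Nat.card (MonoidAlgebra ℤ A ⧸ I)ˣ = 1 := pow_card_eq_one'
    show of ℤ A a ^ _ - 1 ∈ I
    rw [← Ideal.Quotient.eq_zero_iff_mem, map_sub, map_pow, ← hu, ← Units.val_pow_eq_pow_val, h2,
      Units.val_one, map_one, sub_self]
  · rw [Set.mem_singleton_iff] at hr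
    subst hr
    show ((Nat.card (MonoidAlgebra ℤ A ⧸ I) : ℕ) : MonoidAlgebra ℤ A) ∈ I
    rw [← Ideal.Quotient.eq_zero_iff_mem, map_natCast]
    have h1 : Nat.card (MonoidAlgebra ℤ A ⧸ I) • (1 : MonoidAlgebra ℤ A ⧸ I) = 0 :=
      card_nsmul_eq_zero'
    rwa [nsmul_one] at h1

theorem JJ_finite (A : Type) [CommGroup A] [Group.FG A] {n N : ℕ} (hn : 0 < n) (hN : 0 < N) :
    Finite (MonoidAlgebra ℤ A ⧸ JJ A n N) := by
  set I := JJ A n N with hI
  let f : A → MonoidAlgebra ℤ A ⧸ I := fun a => Ideal.Quotient.mk I (of ℤ A a)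
  have hf : ∀ a b : A, f (a * b ^ n) = f a := by
    intro a b
    have h1 : Ideal.Quotient.mk I (of ℤ A b ^ n) = 1 := by
      rw [← sub_eq_zero, ← map_one (Ideal.Quotient.mk I), ← map_sub,
        Ideal.Quotient.eq_zero_iff_mem]
      exact Ideal.subset_span (Or.inl ⟨b, rfl⟩)
    show Ideal.Quotient.mk I (of ℤ A (a * b ^ n)) = Ideal.Quotient.mk I (of ℤ A a)
    rw [map_mul, map_mul, map_pow, h1, mul_one]
  have hfin : Finite (A ⧸ (powMonoidHom n : A →* A).range) := by
    apply CommGroup.finite_of_fg_isMulTorsion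
    intro x
    obtain ⟨a, rfl⟩ := QuotientGroup.mk_surjective x
    rw [isOfFinOrder_iff_pow_eq_one]
    refine ⟨n, hn, ?_⟩
    rw [← QuotientGroup.mk_pow, QuotientGroup.eq_one_iff]
    exact ⟨a, rfl⟩
  have hfr : (Set.range f).Finite := by
    have h1 : Set.range f ⊆ Set.range (fun q : A ⧸ (powMonoidHom n : A →* A).range => f q.out) := by
      rintro _ ⟨a, rfl⟩
      refine ⟨(a : A ⧸ (powMonoidHom n : A →* A).range), ?_⟩
      obtain ⟨h, hh⟩ := QuotientGroup.mk_out_eq_mul (powMonoidHom n : A →* A).range a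
      obtain ⟨b, hb⟩ := h.2
      show f _ = f a
      rw [hh, ← hb]
      exact hf a b
    exact (Set.finite_range _).subset h1
  have hspan : AddSubgroup.closure (Set.range f) = ⊤ := by
    rw [eq_top_iff]
    intro x _
    obtain ⟨r, rfl⟩ := Ideal.Quotient.mk_surjective x
    induction r using MonoidAlgebra.induction_linear with
    | zero => rw [map_zero]; exact zero_mem _
    | add r s hr hs => rw [map_add]; exact add_mem (hr trivial) (hs trivial)
    | single a z =>
      have : (single a z : MonoidAlgebra ℤ A) = z • of ℤ A a := by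
        simp
      rw [this, map_zsmul]
      exact zsmul_mem (AddSubgroup.subset_closure (Set.mem_range_self a)) z
  have hfg : AddGroup.FG (MonoidAlgebra ℤ A ⧸ I) := by
    rw [AddGroup.fg_iff]
    exact ⟨_, hspan, hfr⟩
  apply AddCommGroup.finite_of_fg_isAddTorsion
  intro x
  rw [isOfFinAddOrder_iff_nsmul_eq_zero]
  refine ⟨N, hN, ?_⟩
  have h1 : ((N : ℕ) : MonoidAlgebra ℤ A ⧸ I) = 0 := by
    rw [← map_natCast (Ideal.Quotient.mk I), Ideal.Quotient.eq_zero_iff_mem]
    exact Ideal.subset_span (Or.inr rfl)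
  rw [nsmul_eq_mul, h1, zero_mul]

end Pool.Agent.Lib.MP_305fdd_al.Solv
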