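import Mathlib
import Pool.Agent.Lib.MP_305fdd_al.Solv.Ring

/-!
# The module `G' / G''` over the group ring of `G / G'`
-/

set_option autoImplicit false

namespace Pool.Agent.Lib.MP_305fdd_al.Solv

open MonoidAlgebra Subgroup
open scoped commutatorElement

noncomputable section defs

variable (G : Type) [Group G]

/-- `G' / G''`, written additively -/
def MM : Type := Additive (Abelianization (commutator G))

instance : AddCommGroup (MM G) :=
  inferInstanceAs (AddCommGroup (Additive (Abelianization (commutator G))))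

variable {G}

/-- the class of an element of `G'` in `G' / G''` -/
def mk (c : commutator G) : MM G := Additive.ofMul (Abelianization.of c)

theorem mk_mul (c d : commutator G) : mk (c * d) = mk c + mk d := by
  unfold mk; rw [map_mul]; rfl

theorem mk_one : mk (1 : commutator G) = 0 := by
  unfold mk; rw [map_one]; rfl

theorem mk_inv (c : commutator G) : mk c⁻¹ = - mk c := by
  unfold mk; rw [map_inv]; rfl

theorem mk_pow (c : commutator G) (n : ℕ) : mk (c ^ n) = n • mk c := by
  unfold mk; rw [map_pow]; rfl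

theorem mk_surjective : Function.Surjective (mk (G := G)) := by
  intro m
  obtain ⟨c, hc⟩ := QuotientGroup.mk_surjective (s := commutator (commutator G)) (Additive.toMul m)
  exact ⟨c, hc⟩

/-- the class map as a homomorphism -/
def mkHom : commutator G →* Multiplicative (MM G) where
  toFun c := Multiplicative.ofAdd (mk c)
  map_one' := by rw [mk_one]; rfl
  map_mul' c d := by rw [mk_mul]; rfl

theorem mk_eq_zero_iff (c : commutator G) : mk c = 0 ↔ (c : G) ∈ ⁅commutator G, commutator G⁆ := by
  have h1 : mk c = 0 ↔ c ∈ commutator (commutator G) := by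
    have h0 : (Abelianization.of (G := commutator G)).ker = _root_.commutator (commutator G) :=
      Abelianization.ker_of _
    rw [← h0, MonoidHom.mem_ker]
    rfl
  rw [h1]
  have h2 : (commutator (commutator G)).map (commutator G).subtype =
      ⁅commutator G, commutator G⁆ := by
    rw [_root_.commutator_def (commutator G), map_commutator, ← MonoidHom.range_eq_map, range_subtype]
  rw [← h2]
  constructor
  · intro h
    exact ⟨c, h, rfl⟩
  · rintro ⟨d, hd, h⟩
    have : d = c := Subtype.ext h
    rwa [← this]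

/-- conjugation on the derived subgroup -/
def cj (g : G) : commutator G →* commutator G := (MulAut.conjNormal g).toMonoidHom

theorem cj_val (g : G) (c : commutator G) : (cj g c : G) = g * c * g⁻¹ :=
  MulAut.conjNormal_apply g c

/-- the conjugation action on `G' / G''` -/
def act : G →* AddMonoid.End (MM G) where
  toFun g := MonoidHom.toAdditive (Abelianization.map (cj g))
  map_one' := by
    apply AddMonoidHom.ext
    intro m
    obtain ⟨c, rfl⟩ := mk_surjective m
    show mk (cj 1 c) = mk c
    congr 1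
    apply Subtype.ext
    rw [cj_val]
    simp
  map_mul' g h := by
    apply AddMonoidHom.ext
    intro m
    obtain ⟨c, rfl⟩ := mk_surjective m
    show mk (cj (g * h) c) = mk (cj g (cj h c))
    congr 1
    apply Subtype.ext
    rw [cj_val, cj_val, cj_val]
    group

theorem act_mk (g : G) (c : commutator G) : act g (mk c) = mk (cj g c) := rfl

theorem act_of_mem (g : G) (hg : g ∈ commutator G) : act g = 1 := by
  apply AddMonoidHom.ext
  intro m
  obtain ⟨c, rfl⟩ := mk_surjective m
  show mk (cj g c) = mk c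
  have h1 : cj g c = (⟨g, hg⟩ : commutator G) * c * (⟨g, hg⟩ : commutator G)⁻¹ := by
    apply Subtype.ext
    rw [cj_val]
    rfl
  rw [h1, mk_mul, mk_mul, mk_inv]
  abel

/-- the action of the abelianization on `G' / G''` -/
def actA : Abelianization G →* AddMonoid.End (MM G) :=
  QuotientGroup.lift (commutator G) act fun g hg => act_of_mem g hg

theorem actA_of (g : G) : actA (Abelianization.of g) = act g := rfl

/-- the action of the group ring -/
def ringAct :
    MonoidAlgebra ℤ (Abelianization G) →ₐ[ℤ] AddMonoid.End (MM G) :=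
  MonoidAlgebra.lift ℤ _ _ actA

instance : Module (MonoidAlgebra ℤ (Abelianization G)) (MM G) :=
  Module.compHom (MM G) (ringAct (G := G)).toRingHom

theorem smul_def (r : MonoidAlgebra ℤ (Abelianization G)) (m : MM G) : r • m = ringAct r m := rfl

theorem of_smul (g : G) (m : MM G) : of ℤ _ (Abelianization.of g) • m = act g m := by
  rw [smul_def, ringAct, MonoidAlgebra.lift_of, actA_of]

theorem of_smul_mk (g : G) (c : commutator G) :
    of ℤ _ (Abelianization.of g) • mk c = mk (cj g c) := by
  rw [of_smul, act_mk]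

theorem single_smul (a : Abelianization G) (z : ℤ) (m : MM G) :
    (single a z : MonoidAlgebra ℤ (Abelianization G)) • m = z • (of ℤ _ a • m) := by
  rw [smul_def, smul_def, ringAct, MonoidAlgebra.lift_of, MonoidAlgebra.lift_single]
  rfl

theorem of_surj (a : Abelianization G) : ∃ g : G, Abelianization.of g = a :=
  QuotientGroup.mk_surjective (s := commutator G) a

/-- A subset of `G' / G''` closed under addition and conjugation is a submodule. -/
def subMod (S : AddSubgroup (MM G)) (h : ∀ g : G, ∀ m ∈ S, act g m ∈ S) :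
    Submodule (MonoidAlgebra ℤ (Abelianization G)) (MM G) where
  carrier := S
  zero_mem' := S.zero_mem
  add_mem' := S.add_mem
  smul_mem' := by
    intro r m hm
    induction r using MonoidAlgebra.induction_linear with
    | zero => rw [zero_smul]; exact S.zero_mem
    | add r s hr hs => rw [add_smul]; exact S.add_mem hr hs
    | single a z =>
      rw [single_smul]
      apply S.zsmul_mem
      obtain ⟨g, rfl⟩ := of_surj a
      rw [of_smul]
      exact h g m hm

/-- the subgroup of `G` corresponding to a submodule -/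
def subOf (T : Submodule (MonoidAlgebra ℤ (Abelianization G)) (MM G)) : Subgroup G where
  carrier := {g | ∃ h : g ∈ commutator G, mk ⟨g, h⟩ ∈ T}
  one_mem' := ⟨one_mem _, by
    have : (⟨1, one_mem _⟩ : commutator G) = 1 := rfl
    rw [this, mk_one]; exact T.zero_mem⟩
  mul_mem' := by
    rintro a b ⟨ha, ha'⟩ ⟨hb, hb'⟩
    refine ⟨mul_mem ha hb, ?_⟩
    have : (⟨a * b, mul_mem ha hb⟩ : commutator G) = ⟨a, ha⟩ * ⟨b, hb⟩ := rfl
    rw [this, mk_mul]
    exact T.add_mem ha' hb'
  inv_mem' := by
    rintro a ⟨ha, ha'⟩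
    refine ⟨inv_mem ha, ?_⟩
    have : (⟨a⁻¹, inv_mem ha⟩ : commutator G) = (⟨a, ha⟩)⁻¹ := rfl
    rw [this, mk_inv]
    exact T.neg_mem ha'

theorem mem_subOf {T : Submodule (MonoidAlgebra ℤ (Abelianization G)) (MM G)} {g : G} :
    g ∈ subOf T ↔ ∃ h : g ∈ commutator G, mk ⟨g, h⟩ ∈ T := Iff.rfl

theorem subOf_le (T : Submodule (MonoidAlgebra ℤ (Abelianization G)) (MM G)) :
    subOf T ≤ commutator G := fun _ h => h.1

instance subOf_normal (T : Submodule (MonoidAlgebra ℤ (Abelianization G)) (MM G)) :
    (subOf T).Normal := by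
  refine ⟨fun n hn g => ?_⟩
  obtain ⟨h, h'⟩ := hn
  have h1 : g * n * g⁻¹ ∈ commutator G := Subgroup.Normal.conj_mem inferInstance n h g
  refine ⟨h1, ?_⟩
  have h2 : (⟨g * n * g⁻¹, h1⟩ : commutator G) = cj g ⟨n, h⟩ := Subtype.ext (by rw [cj_val])
  rw [h2, ← of_smul_mk]
  exact T.smul_mem _ h'

theorem subOf_mono {T T' : Submodule (MonoidAlgebra ℤ (Abelianization G)) (MM G)} (h : T ≤ T') :
    subOf T ≤ subOf T' := fun _ hg => ⟨hg.1, h hg.2⟩

/-- derived subgroup and generators -/
theorem commutator_le_of_gens {S : Set G} (hS : closure S = ⊤) (N : Subgroup G) [N.Normal]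
    (h : ∀ s ∈ S, ∀ t ∈ S, ⁅s, t⁆ ∈ N) : commutator G ≤ N := by
  have hcomm : ∀ s ∈ S, ∀ g : G, QuotientGroup.mk' N g ∈
      centralizer {QuotientGroup.mk' N s} := by
    intro s hs g
    have h4 : (⊤ : Subgroup G) ≤
        (centralizer {QuotientGroup.mk' N s}).comap (QuotientGroup.mk' N) := by
      rw [← hS, closure_le]
      intro t ht
      show QuotientGroup.mk' N t ∈ centralizer {QuotientGroup.mk' N s}
      rw [mem_centralizer_singleton_iff]
      have h5 : QuotientGroup.mk' N ⁅s, t⁆ = 1 := (QuotientGroup.eq_one_iff _).mpr (h s hs t ht)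
      rw [map_commutatorElement, commutatorElement_eq_one_iff_mul_comm] at h5
      exact h5.symm
    exact h4 (mem_top g)
  have hcen : (⊤ : Subgroup G) ≤ (center (G ⧸ N)).comap (QuotientGroup.mk' N) := by
    rw [← hS, closure_le]
    intro s hs
    show QuotientGroup.mk' N s ∈ center (G ⧸ N)
    rw [mem_center_iff]
    intro g
    obtain ⟨g, rfl⟩ := QuotientGroup.mk_surjective g
    have := hcomm s hs g
    rw [mem_centralizer_singleton_iff] at this
    exact this
  rw [commutator_def, commutator_le]
  intro a _ b _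
  have h1 := hcen (mem_top b)
  rw [mem_comap, mem_center_iff] at h1
  rw [← QuotientGroup.eq_one_iff]
  show QuotientGroup.mk' N ⁅a, b⁆ = 1
  rw [map_commutatorElement, commutatorElement_eq_one_iff_mul_comm]
  exact h1 _

theorem commutator_mem (a b : G) : ⁅a, b⁆ ∈ commutator G :=
  commutator_mem_commutator (mem_top a) (mem_top b)

/-- the class of a commutator -/
def mc (a b : G) : MM G := mk ⟨⁅a, b⁆, commutator_mem a b⟩

theorem span_gens {S : Set G} (hS : closure S = ⊤) :
    Submodule.span (MonoidAlgebra ℤ (Abelianization G))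
      ((fun p : G × G => mc p.1 p.2) '' (S ×ˢ S)) = ⊤ := by
  rw [eq_top_iff]
  intro m _
  obtain ⟨c, rfl⟩ := mk_surjective m
  have h1 := commutator_le_of_gens hS (subOf (Submodule.span (MonoidAlgebra ℤ (Abelianization G))
      ((fun p : G × G => mc p.1 p.2) '' (S ×ˢ S)))) (by
    intro s hs t ht
    exact ⟨commutator_mem s t, Submodule.subset_span ⟨(s, t), ⟨hs, ht⟩, rfl⟩⟩)
  obtain ⟨_, h⟩ := h1 c.2
  exact h

instance finite_MM [hG : Group.FG G] :
    Module.Finite (MonoidAlgebra ℤ (Abelianization G)) (MM G) := by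
  obtain ⟨S, hS⟩ := hG.out
  refine ⟨Submodule.fg_def.mpr ⟨_, ?_, span_gens hS⟩⟩
  exact (S.finite_toSet.prod S.finite_toSet).image _

instance fg_ab [hG : Group.FG G] : Group.FG (Abelianization G) :=
  Group.fg_of_surjective (f := (Abelianization.of : G →* Abelianization G)) of_surj

end defs

section V

variable (G : Type) [Group G]

/-- the verbal subgroup corresponding to the ideal `JJ n N` -/
def VV (n N : ℕ) : Subgroup G :=
  closure ((⁅commutator G, commutator G⁆ : Subgroup G) ∪
    ({g | ∃ p : G, ∃ c ∈ commutator G, g = ⁅p ^ n, c⁆} ∪ {g | ∃ c ∈ commutator G, g = c ^ N}))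

theorem VV_le (n N : ℕ) : VV G n N ≤ commutator G := by
  rw [VV, closure_le]
  rintro g (hg | ⟨p, c, hc, rfl⟩ | ⟨c, hc, rfl⟩)
  · exact commutator_le_left (commutator G) (commutator G) hg
  · exact commutator_mem _ _
  · exact pow_mem hc N

theorem map_VV {H : Type} [Group H] (f : G →* H) (hf : Function.Surjective f) (n N : ℕ) :
    (VV G n N).map f = VV H n N := by
  have hc : (commutator G).map f = commutator H := by
    rw [commutator_def, commutator_def, map_commutator, ← MonoidHom.range_eq_map,
      MonoidHom.range_eq_top.mpr hf]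
  rw [VV, VV, MonoidHom.map_closure, Set.image_union, Set.image_union]
  congr 1
  congr 1
  · rw [← hc, ← map_commutator]
    rfl
  congr 1
  · ext x
    constructor
    · rintro ⟨_, ⟨p, c, hcm, rfl⟩, rfl⟩
      refine ⟨f p, f c, ?_, ?_⟩
      · rw [← hc]; exact mem_map_of_mem f hcm
      · rw [map_commutatorElement, map_pow]
    · rintro ⟨p, c, hcm, rfl⟩
      obtain ⟨p, rfl⟩ := hf p
      rw [← hc] at hcm
      obtain ⟨c, hcm, rfl⟩ := hcm
      exact ⟨_, ⟨p, c, hcm, rfl⟩, by rw [map_commutatorElement, map_pow]⟩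
  · ext x
    constructor
    · rintro ⟨_, ⟨c, hcm, rfl⟩, rfl⟩
      refine ⟨f c, ?_, ?_⟩
      · rw [← hc]; exact mem_map_of_mem f hcm
      · rw [map_pow]
    · rintro ⟨c, hcm, rfl⟩
      rw [← hc] at hcm
      obtain ⟨c, hcm, rfl⟩ := hcm
      exact ⟨_, ⟨c, hcm, rfl⟩, by rw [map_pow]⟩

instance VV_normal (n N : ℕ) : (VV G n N).Normal := by
  refine ⟨fun x hx g => ?_⟩
  have h := map_VV G (MulAut.conj g).toMonoidHom (MulAut.conj g).surjective n N
  rw [← h]
  exact ⟨x, hx, by simp⟩

variable {G}

theorem mem_VV_iff (n N : ℕ) (c : commutator G) : (c : G) ∈ VV G n N ↔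
    mk c ∈ (JJ (Abelianization G) n N • ⊤ :
      Submodule (MonoidAlgebra ℤ (Abelianization G)) (MM G)) := by
  set T := (JJ (Abelianization G) n N • ⊤ :
      Submodule (MonoidAlgebra ℤ (Abelianization G)) (MM G)) with hT
  constructor
  · intro h
    have h1 : VV G n N ≤ subOf T := by
      rw [VV, closure_le]
      rintro g (hg | ⟨p, c, hc, rfl⟩ | ⟨c, hc, rfl⟩)
      · have hgc : g ∈ commutator G := commutator_le_left (commutator G) (commutator G) hg
        refine ⟨hgc, ?_⟩
        rw [(mk_eq_zero_iff ⟨g, hgc⟩).mpr hg]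
        exact T.zero_mem
      · refine ⟨commutator_mem _ _, ?_⟩
        have h1 : (⟨⁅p ^ n, c⁆, commutator_mem _ _⟩ : commutator G) =
            cj (p ^ n) ⟨c, hc⟩ * (⟨c, hc⟩ : commutator G)⁻¹ := by
          apply Subtype.ext
          show ⁅p ^ n, c⁆ = (cj (p ^ n) ⟨c, hc⟩ : G) * c⁻¹
          rw [cj_val, commutatorElement_def]
        rw [h1, mk_mul, mk_inv, ← of_smul_mk, ← sub_eq_add_neg, map_pow, map_pow]
        have h2 : of ℤ _ (Abelianization.of p) ^ n • mk ⟨c, hc⟩ - mk ⟨c, hc⟩ =
            (of ℤ _ (Abelianization.of p) ^ n - 1) • mk ⟨c, hc⟩ := by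
          rw [sub_smul, one_smul]
        rw [h2]
        exact Submodule.smul_mem_smul (Ideal.subset_span (Or.inl ⟨_, rfl⟩)) trivial
      · refine ⟨pow_mem hc N, ?_⟩
        have h1 : (⟨c ^ N, pow_mem hc N⟩ : commutator G) = ⟨c, hc⟩ ^ N := rfl
        rw [h1, mk_pow, ← Nat.cast_smul_eq_nsmul (MonoidAlgebra ℤ (Abelianization G))]
        exact Submodule.smul_mem_smul (Ideal.subset_span (Or.inr rfl)) trivial
    exact (h1 h).2
  · intro h
    let S : AddSubgroup (MM G) :=
      { carrier := {m | ∃ c : commutator G, (c : G) ∈ VV G n N ∧ mk c = m}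
        zero_mem' := ⟨1, one_mem _, mk_one⟩
        add_mem' := by
          rintro _ _ ⟨c, hc, rfl⟩ ⟨d, hd, rfl⟩
          exact ⟨c * d, mul_mem hc hd, mk_mul c d⟩
        neg_mem' := by
          rintro _ ⟨c, hc, rfl⟩
          exact ⟨c⁻¹, inv_mem hc, mk_inv c⟩ }
    let S' := subMod S (by
      rintro g _ ⟨c, hc, rfl⟩
      refine ⟨cj g c, ?_, rfl⟩
      rw [cj_val]
      exact Subgroup.Normal.conj_mem inferInstance _ hc g)
    have h1 : T ≤ S' := by
      rw [hT, Submodule.smul_le]
      intro r hr m _
      rw [JJ] at hr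
      induction hr using Submodule.span_induction with
      | mem r hr =>
        obtain ⟨c, rfl⟩ := mk_surjective m
        rcases hr with ⟨a, rfl⟩ | hr
        · obtain ⟨p, rfl⟩ := of_surj a
          refine ⟨⟨⁅p ^ n, (c : G)⁆, commutator_mem _ _⟩,
            subset_closure (Or.inr (Or.inl ⟨p, c, c.2, rfl⟩)), ?_⟩
          have h1 : (⟨⁅p ^ n, (c : G)⁆, commutator_mem _ _⟩ : commutator G) =
              cj (p ^ n) c * c⁻¹ := by
            apply Subtype.ext
            show ⁅p ^ n, (c : G)⁆ = (cj (p ^ n) c : G) * (c : G)⁻¹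
            rw [cj_val, commutatorElement_def]
          rw [h1, mk_mul, mk_inv, ← of_smul_mk, ← sub_eq_add_neg, map_pow, map_pow, sub_smul,
            one_smul]
        · rw [Set.mem_singleton_iff] at hr
          subst hr
          refine ⟨c ^ N, subset_closure (Or.inr (Or.inr ⟨c, c.2, rfl⟩)), ?_⟩
          rw [mk_pow, Nat.cast_smul_eq_nsmul]
      | zero => rw [zero_smul]; exact S'.zero_mem
      | add r s _ _ hr hs => rw [add_smul]; exact S'.add_mem hr hs
      | smul a r _ hr => rw [smul_eq_mul, mul_smul]; exact S'.smul_mem a hr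
    obtain ⟨d, hd, hdc⟩ := h1 h
    -- `c` and `d` differ by an element of the second derived subgroup
    have h2 : mk (d⁻¹ * c) = 0 := by
      rw [mk_mul, mk_inv, hdc, neg_add_cancel]
    rw [mk_eq_zero_iff] at h2
    have h3 : ((d⁻¹ * c : commutator G) : G) ∈ VV G n N := subset_closure (Or.inl h2)
    have h4 : (c : G) = d * ((d⁻¹ * c : commutator G) : G) := by simp
    rw [h4]
    exact mul_mem hd h3

theorem card_quot (n N : ℕ) : Nat.card (MM G ⧸ (JJ (Abelianization G) n N • ⊤ :
      Submodule (MonoidAlgebra ℤ (Abelianization G)) (MM G))) =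
    (VV G n N).relIndex (commutator G) := by
  set T := (JJ (Abelianization G) n N • ⊤ :
      Submodule (MonoidAlgebra ℤ (Abelianization G)) (MM G)) with hT
  let f : commutator G →* Multiplicative (MM G ⧸ T) :=
    (AddMonoidHom.toMultiplicative T.mkQ.toAddMonoidHom).comp mkHom
  have hf : Function.Surjective f := by
    intro x
    obtain ⟨m, hm⟩ := T.mkQ_surjective (Multiplicative.toAdd x)
    obtain ⟨c, rfl⟩ := mk_surjective m
    exact ⟨c, hm⟩
  have hk : f.ker = (VV G n N).subgroupOf (commutator G) := by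
    ext c
    rw [MonoidHom.mem_ker, mem_subgroupOf, mem_VV_iff]
    show T.mkQ (mk c) = 0 ↔ _
    rw [Submodule.mkQ_apply, Submodule.Quotient.mk_eq_zero]
  have h1 : f.ker.index = Nat.card (Multiplicative (MM G ⧸ T)) := by
    rw [index_ker, MonoidHom.range_eq_top.mpr hf, card_top]
  rw [hk] at h1
  exact h1.symm

theorem VV_finite [Group.FG G] {n N : ℕ} (hn : 0 < n) (hN : 0 < N) :
    (VV G n N).relIndex (commutator G) ≠ 0 := by
  rw [← card_quot]
  have := noeth (Abelianization G)
  have := JJ_finite (Abelianization G) hn hN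
  have h1 : Finite (MM G ⧸ (JJ (Abelianization G) n N • ⊤ :
      Submodule (MonoidAlgebra ℤ (Abelianization G)) (MM G))) := by
    apply Submodule.finite_quotient_smul
    exact Module.Finite.fg_top
  exact Nat.card_pos.ne'

end V

end Pool.Agent.Lib.MP_305fdd_al.Solv
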