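import Mathlib
import Pool.Agent.Lib.MP_305fdd_al.Solv.Mod
import Pool.Agent.Lib.MP_305fdd_al.Basic

/-!
# Transfer of the structure of `G' / G''` between groups with the same finite quotients
-/

set_option autoImplicit false

namespace Pool.Agent.Lib.MP_305fdd_al.Solv

open MonoidAlgebra Subgroup Pool.Agent.MP_305fdd_al
open scoped commutatorElement

theorem map_commutator_top {G H : Type} [Group G] [Group H] (f : G →* H)
    (hf : Function.Surjective f) : (_root_.commutator G).map f = _root_.commutator H := by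
  rw [_root_.commutator_def, _root_.commutator_def, map_commutator, ← MonoidHom.range_eq_map,
    MonoidHom.range_eq_top.mpr hf]

theorem VV_bot {G Q : Type} [Group G] [Group Q] (φ : G →* Q) {n N : ℕ}
    (h : VV Q n N = ⊥) : VV G n N ≤ φ.ker := by
  intro g hg
  -- reduce to the image
  have h1 : VV φ.range n N = ⊥ := by
    have h2 : (VV φ.range n N).map φ.range.subtype ≤ VV Q n N := by
      rw [VV, VV, MonoidHom.map_closure]
      apply Subgroup.closure_mono
      have hc : ∀ x : φ.range, x ∈ _root_.commutator φ.range → (x : Q) ∈ _root_.commutator Q := by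
        intro x hx
        have : (_root_.commutator φ.range).map φ.range.subtype ≤ _root_.commutator Q := by
          rw [_root_.commutator_def, _root_.commutator_def, map_commutator]
          exact commutator_mono le_top le_top
        exact this ⟨x, hx, rfl⟩
      rintro _ ⟨x, hx, rfl⟩
      rcases hx with hx | ⟨p, c, hc', rfl⟩ | ⟨c, hc', rfl⟩
      · left
        have : (⁅_root_.commutator φ.range, _root_.commutator φ.range⁆ : Subgroup φ.range).map
            φ.range.subtype ≤ ⁅_root_.commutator Q, _root_.commutator Q⁆ := by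
          rw [map_commutator]
          have h3 : (_root_.commutator φ.range).map φ.range.subtype ≤ _root_.commutator Q := by
            rw [_root_.commutator_def, _root_.commutator_def, map_commutator]
            exact commutator_mono le_top le_top
          exact commutator_mono h3 h3
        exact this ⟨x, hx, rfl⟩
      · right; left
        exact ⟨p, c, hc c hc', by rw [map_commutatorElement, map_pow]; rfl⟩
      · right; right
        exact ⟨c, hc c hc', by rw [map_pow]; rfl⟩
    rw [h, le_bot_iff, map_eq_bot_iff_of_injective _ (subtype_injective _)] at h2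
    exact h2
  have h2 := map_VV G φ.rangeRestrict φ.rangeRestrict_surjective n N
  rw [h1] at h2
  have h3 : φ.rangeRestrict g ∈ (VV G n N).map φ.rangeRestrict := ⟨g, hg, rfl⟩
  rw [h2, mem_bot] at h3
  rw [MonoidHom.mem_ker]
  exact congrArg Subtype.val h3

/-- Realisation: `VV` is cut out in `G'` by a finite quotient. -/
theorem exists_quot (G : Type) [Group G] [Group.FG G] {n N : ℕ} (hn : 0 < n) (hN : 0 < N) :
    ∃ (Q : Type) (_ : Group Q) (_ : Finite Q) (φ : G →* Q), Function.Surjective φ ∧
      VV Q n N = ⊥ ∧ ∀ g ∈ _root_.commutator G, φ g = 1 → g ∈ VV G n N := by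
  let E := G ⧸ VV G n N
  let π : G →* E := QuotientGroup.mk' (VV G n N)
  have hπ : Function.Surjective π := QuotientGroup.mk'_surjective _
  have hfin : Finite (_root_.commutator E) := by
    rw [← map_commutator_top π hπ]
    apply Nat.finite_of_card_ne_zero
    rw [← Subgroup.relIndex_ker, QuotientGroup.ker_mk']
    exact VV_finite hn hN
  have hrf : Group.ResiduallyFinite E := rf_one E
  obtain ⟨K, hK1, hK2, hK3⟩ := exists_inf_eq_bot (_root_.commutator E)
  refine ⟨E ⧸ K, inferInstance, inferInstance, (QuotientGroup.mk' K).comp π,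
    (QuotientGroup.mk'_surjective K).comp hπ, ?_, ?_⟩
  · rw [← map_VV G ((QuotientGroup.mk' K).comp π) ((QuotientGroup.mk'_surjective K).comp hπ),
      ← Subgroup.map_map]
    have : (VV G n N).map π = ⊥ := by
      rw [Subgroup.map_eq_bot_iff, QuotientGroup.ker_mk']
    rw [this, Subgroup.map_bot]
  · intro g hg h
    have h1 : π g ∈ K := (QuotientGroup.eq_one_iff (π g)).mp h
    have h2 : π g ∈ _root_.commutator E := by
      rw [← map_commutator_top π hπ]; exact mem_map_of_mem π hg
    have h3 : π g ∈ K ⊓ _root_.commutator E := ⟨h1, h2⟩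
    rw [hK3, mem_bot] at h3
    exact (QuotientGroup.eq_one_iff g).mp h3

theorem relIndex_le {G H : Type} [Group G] [Group H] [Group.FG G] [Group.FG H]
    (h : SameFiniteQuotients G H) {n N : ℕ} (hn : 0 < n) (hN : 0 < N) :
    (VV G n N).relIndex (_root_.commutator G) ≤ (VV H n N).relIndex (_root_.commutator H) := by
  obtain ⟨Q, _, _, φ, hφ, hQ, hφV⟩ := exists_quot G hn hN
  obtain ⟨ψ, hψ⟩ := (h Q).mp ⟨φ, hφ⟩
  have h1 : (VV G n N).relIndex (_root_.commutator G) = Nat.card (_root_.commutator Q) := by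
    rw [← map_commutator_top φ hφ, ← Subgroup.relIndex_ker]
    have h2 : φ.ker ⊓ _root_.commutator G = VV G n N ⊓ _root_.commutator G := by
      apply le_antisymm
      · rintro g ⟨hg, hg'⟩
        exact ⟨hφV g hg' hg, hg'⟩
      · rintro g ⟨hg, hg'⟩
        exact ⟨VV_bot φ hQ hg, hg'⟩
    rw [← Subgroup.inf_relIndex_right, ← h2, Subgroup.inf_relIndex_right]
  rw [h1, ← map_commutator_top ψ hψ, ← Subgroup.relIndex_ker]
  exact Subgroup.relIndex_le_of_le_left (VV_bot ψ hQ) (VV_finite hn hN)

theorem relIndex_eq {G H : Type} [Group G] [Group H] [Group.FG G] [Group.FG H]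
    (h : SameFiniteQuotients G H) {n N : ℕ} (hn : 0 < n) (hN : 0 < N) :
    (VV G n N).relIndex (_root_.commutator G) = (VV H n N).relIndex (_root_.commutator H) :=
  le_antisymm (relIndex_le h hn hN) (relIndex_le h.symm hn hN)

/-- cyclicity and exponents -/
theorem gen_and_pow {G H : Type} [Group G] [Group H] [Group.FG G] [Group.FG H]
    (h : SameFiniteQuotients G H) {c : H} (hcH : _root_.commutator H = normalClosure {c}) {k : ℕ}
    (hck : c ^ k = 1) {n N : ℕ} (hn : 0 < n) (hN : 0 < N) :
    (∃ c' : _root_.commutator G, (⊤ : Submodule (MonoidAlgebra ℤ (Abelianization G)) (MM G)) ≤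
      Submodule.span _ {mk c'} ⊔ JJ (Abelianization G) n N • ⊤) ∧
    ∀ m : MM G, (k : MonoidAlgebra ℤ (Abelianization G)) • m ∈
      (JJ (Abelianization G) n N • ⊤ :
        Submodule (MonoidAlgebra ℤ (Abelianization G)) (MM G)) := by
  obtain ⟨Q, _, _, φ, hφ, hQ, hφV⟩ := exists_quot G hn hN
  obtain ⟨ψ, hψ⟩ := (h Q).mp ⟨φ, hφ⟩
  have hcQ : _root_.commutator Q = normalClosure {ψ c} := by
    rw [← map_commutator_top ψ hψ, hcH, map_normalClosure _ _ hψ, Set.image_singleton]
  have hψc : ψ c ∈ _root_.commutator Q := by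
    rw [hcQ]; exact subset_normalClosure rfl
  constructor
  · rw [← map_commutator_top φ hφ] at hψc
    obtain ⟨c', hc', hcc⟩ := hψc
    refine ⟨⟨c', hc'⟩, ?_⟩
    set T := Submodule.span (MonoidAlgebra ℤ (Abelianization G)) {mk (⟨c', hc'⟩ : _root_.commutator G)} ⊔
      JJ (Abelianization G) n N • ⊤ with hT
    intro m _
    obtain ⟨g, rfl⟩ := mk_surjective m
    have h1 : c' ∈ subOf T := ⟨hc', (le_sup_left : _ ≤ T) (Submodule.mem_span_singleton_self _)⟩
    have h2 : VV G n N ≤ subOf T := by
      intro x hx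
      have hxc := VV_le G n N hx
      exact ⟨hxc, (le_sup_right : _ ≤ T) ((mem_VV_iff n N ⟨x, hxc⟩).mp hx)⟩
    have h3 : normalClosure {c'} ≤ subOf T := normalClosure_le_normal (by simpa using h1)
    have h4 : φ g ∈ (normalClosure {c'}).map φ := by
      rw [map_normalClosure _ _ hφ, Set.image_singleton, hcc, ← hcQ, ← map_commutator_top φ hφ]
      exact mem_map_of_mem φ g.2
    obtain ⟨g', hg', hgg⟩ := h4
    have h5 : g'⁻¹ * (g : G) ∈ VV G n N := by
      apply hφV
      · exact mul_mem (inv_mem (subOf_le T (h3 hg'))) g.2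
      · rw [map_mul, map_inv, hgg, inv_mul_cancel]
    have h6 : (g : G) ∈ subOf T := by
      have : (g : G) = g' * (g'⁻¹ * g) := by group
      rw [this]
      exact mul_mem (h3 hg') (h2 h5)
    exact h6.2
  · -- the elements of exponent `k`
    have habel : ∀ x ∈ _root_.commutator Q, ∀ y ∈ _root_.commutator Q, Commute x y := by
      intro x hx y hy
      have h1 : ⁅x, y⁆ ∈ VV Q n N := subset_closure (Or.inl (commutator_mem_commutator hx hy))
      rw [hQ, mem_bot, commutatorElement_eq_one_iff_commute] at h1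
      exact h1
    let P : Subgroup Q :=
      { carrier := {x | x ∈ _root_.commutator Q ∧ x ^ k = 1}
        one_mem' := ⟨one_mem _, one_pow _⟩
        mul_mem' := by
          rintro x y ⟨hx, hx'⟩ ⟨hy, hy'⟩
          refine ⟨mul_mem hx hy, ?_⟩
          rw [(habel x hx y hy).mul_pow, hx', hy', one_mul]
        inv_mem' := by
          rintro x ⟨hx, hx'⟩
          exact ⟨inv_mem hx, by rw [inv_pow, hx', inv_one]⟩ }
    have hPn : P.Normal := by
      refine ⟨fun x hx g => ⟨Subgroup.Normal.conj_mem inferInstance x hx.1 g, ?_⟩⟩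
      rw [conj_pow, hx.2, mul_one, mul_inv_cancel]
    have hP : _root_.commutator Q ≤ P := by
      rw [hcQ]
      apply normalClosure_le_normal
      rw [Set.singleton_subset_iff]
      exact ⟨hψc, by rw [← map_pow, hck, map_one]⟩
    intro m
    obtain ⟨g, rfl⟩ := mk_surjective m
    rw [Nat.cast_smul_eq_nsmul, ← mk_pow, ← mem_VV_iff]
    apply hφV
    · exact (g ^ k).2
    · have h1 : φ g ∈ _root_.commutator Q := by
        rw [← map_commutator_top φ hφ]; exact mem_map_of_mem φ g.2
      have h2 := (hP h1).2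
      show φ ((g : G) ^ k) = 1
      rw [map_pow, h2]

theorem JJ_map {A B : Type} [CommGroup A] [CommGroup B] (e : A ≃* B) (n N : ℕ) :
    (JJ A n N).map (mapDomainRingEquiv ℤ e) = JJ B n N := by
  rw [JJ, JJ, Ideal.map_span, Set.image_union, Set.image_singleton, map_natCast]
  congr 2
  ext x
  constructor
  · rintro ⟨_, ⟨a, rfl⟩, rfl⟩
    refine ⟨e a, ?_⟩
    rw [map_sub, map_pow, map_one]
    congr 2
    simp
  · rintro ⟨b, rfl⟩
    refine ⟨_, ⟨e.symm b, rfl⟩, ?_⟩
    rw [map_sub, map_pow, map_one]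
    congr 2
    simp

theorem card_ring {A B : Type} [CommGroup A] [CommGroup B] (e : A ≃* B) (k n N : ℕ) :
    Nat.card (MonoidAlgebra ℤ A ⧸ (Ideal.span {(k : MonoidAlgebra ℤ A)} ⊔ JJ A n N)) =
      Nat.card (MonoidAlgebra ℤ B ⧸ (Ideal.span {(k : MonoidAlgebra ℤ B)} ⊔ JJ B n N)) := by
  apply Nat.card_congr
  refine (Ideal.quotientEquiv _ _ (mapDomainRingEquiv ℤ e) ?_).toEquiv
  have h1 := JJ_map e n N
  rw [← h1]
  have h2 : Ideal.map (mapDomainRingEquiv ℤ e : MonoidAlgebra ℤ A →+* MonoidAlgebra ℤ B)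
      (Ideal.span {(k : MonoidAlgebra ℤ A)} ⊔ JJ A n N) =
      Ideal.map (mapDomainRingEquiv ℤ e : MonoidAlgebra ℤ A →+* MonoidAlgebra ℤ B)
        (Ideal.span {(k : MonoidAlgebra ℤ A)}) ⊔
      Ideal.map (mapDomainRingEquiv ℤ e : MonoidAlgebra ℤ A →+* MonoidAlgebra ℤ B) (JJ A n N) :=
    Ideal.map_sup _ _ _
  rw [h2, Ideal.map_span, Set.image_singleton, map_natCast]
  rfl

/-- lower bound for the model -/
theorem card_model {H : Type} [Group H] [Group.FG H] {c : _root_.commutator H}
    (hcH : _root_.commutator H = normalClosure {(c : H)}) {k : ℕ}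
    (hann : ∀ r : MonoidAlgebra ℤ (Abelianization H), r • mk c = 0 →
      r ∈ Ideal.span {(k : MonoidAlgebra ℤ (Abelianization H))}) {n N : ℕ} (hn : 0 < n)
    (hN : 0 < N) :
    Nat.card (MonoidAlgebra ℤ (Abelianization H) ⧸
      (Ideal.span {(k : MonoidAlgebra ℤ (Abelianization H))} ⊔ JJ (Abelianization H) n N)) ≤
    (VV H n N).relIndex (_root_.commutator H) := by
  rw [← card_quot]
  set J := JJ (Abelianization H) n N with hJ
  set T := (J • ⊤ : Submodule (MonoidAlgebra ℤ (Abelianization H)) (MM H)) with hT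
  have hspan : Submodule.span (MonoidAlgebra ℤ (Abelianization H)) {mk c} = ⊤ := by
    rw [eq_top_iff]
    intro m _
    obtain ⟨g, rfl⟩ := mk_surjective m
    have h1 : _root_.commutator H ≤
        subOf (Submodule.span (MonoidAlgebra ℤ (Abelianization H)) {mk c}) := by
      conv_lhs => rw [hcH]
      apply normalClosure_le_normal
      rw [Set.singleton_subset_iff]
      exact ⟨c.2, Submodule.mem_span_singleton_self _⟩
    exact (h1 g.2).2
  let f : MonoidAlgebra ℤ (Abelianization H) →ₗ[MonoidAlgebra ℤ (Abelianization H)] MM H ⧸ T :=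
    T.mkQ.comp (LinearMap.toSpanSingleton _ _ (mk c))
  have hf : Function.Surjective f := by
    intro x
    obtain ⟨m, rfl⟩ := T.mkQ_surjective x
    have : m ∈ Submodule.span (MonoidAlgebra ℤ (Abelianization H)) {mk c} := by
      rw [hspan]; trivial
    obtain ⟨r, rfl⟩ := Submodule.mem_span_singleton.mp this
    exact ⟨r, rfl⟩
  have hk : LinearMap.ker f ≤ Ideal.span {(k : MonoidAlgebra ℤ (Abelianization H))} ⊔ J := by
    intro r hr
    have h1 : r • mk c ∈ T := by
      have : T.mkQ (r • mk c) = 0 := hr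
      rwa [Submodule.mkQ_apply, Submodule.Quotient.mk_eq_zero] at this
    rw [hT, ← hspan, Submodule.mem_smul_span_singleton] at h1
    obtain ⟨j, hj, hjr⟩ := h1
    have h2 : (r - j) • mk c = 0 := by rw [sub_smul, hjr, sub_self]
    have h3 : r = (r - j) + j := by ring
    rw [h3]
    exact Submodule.add_mem_sup (hann _ h2) hj
  have e := (LinearMap.quotKerEquivOfSurjective f hf).toEquiv
  have hfin : Finite (MM H ⧸ T) := by
    apply Nat.finite_of_card_ne_zero
    rw [card_quot]
    exact VV_finite hn hN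
  have hfin' : Finite (MonoidAlgebra ℤ (Abelianization H) ⧸ LinearMap.ker f) :=
    Finite.of_equiv _ e.symm
  rw [← Nat.card_congr e]
  exact Nat.card_le_card_of_surjective _ (Submodule.factor_surjective hk)

/-- **Structure of `G' / G''`.** -/
theorem core {G H : Type} [Group G] [Group H] [Group.FG G] [Group.FG H]
    (h : SameFiniteQuotients G H) (eG : Abelianization G ≃* A0) (eH : Abelianization H ≃* A0)
    {c : _root_.commutator H} (hcH : _root_.commutator H = normalClosure {(c : H)}) {k : ℕ}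
    (hck : (c : H) ^ k = 1)
    (hann : ∀ r : MonoidAlgebra ℤ (Abelianization H), r • mk c = 0 →
      r ∈ Ideal.span {(k : MonoidAlgebra ℤ (Abelianization H))}) :
    (∃ x : MM G, Submodule.span (MonoidAlgebra ℤ (Abelianization G)) {x} = ⊤ ∧
      ∀ r : MonoidAlgebra ℤ (Abelianization G), r • x = 0 →
        r ∈ Ideal.span {(k : MonoidAlgebra ℤ (Abelianization G))}) ∧
    ∀ x : MM G, (k : MonoidAlgebra ℤ (Abelianization G)) • x = 0 := by
  have := noeth (Abelianization G)
  let 𝒥 : Set (Ideal (MonoidAlgebra ℤ (Abelianization G))) :=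
    {J | ∃ n N : ℕ, 0 < n ∧ 0 < N ∧ J = JJ (Abelianization G) n N}
  have hfin := finite_residue (Abelianization G)
  have h𝒥 : ∀ I : Ideal (MonoidAlgebra ℤ (Abelianization G)),
      Finite (MonoidAlgebra ℤ (Abelianization G) ⧸ I) → ∃ J ∈ 𝒥, J ≤ I := by
    intro I hI
    obtain ⟨n, N, hn, hN, hle⟩ := JJ_cofinal _ I hI
    exact ⟨_, ⟨n, N, hn, hN, rfl⟩, hle⟩
  have hb : ∀ J ∈ 𝒥, ∀ y : MM G, (k : MonoidAlgebra ℤ (Abelianization G)) • y ∈
      (J • ⊤ : Submodule (MonoidAlgebra ℤ (Abelianization G)) (MM G)) := by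
    rintro J ⟨n, N, hn, hN, rfl⟩ y
    exact (gen_and_pow h hcH hck hn hN).2 y
  refine ⟨rigid hfin 𝒥 h𝒥 ?_ k ?_ hb ?_ ?_ ?_, ?_⟩
  · rintro J ⟨n, N, hn, hN, rfl⟩
    exact JJ_finite _ hn hN
  · rintro J ⟨n, N, hn, hN, rfl⟩
    obtain ⟨c', hc'⟩ := (gen_and_pow h hcH hck hn hN).1
    exact ⟨mk c', hc'⟩
  · rintro J ⟨n, N, hn, hN, rfl⟩
    rw [card_quot, relIndex_eq h hn hN, card_ring (eG.trans eH.symm)]
    exact card_model hcH hann hn hN
  · intro _
    exact ufd_A eG ℤ
  · intro p hp _
    exact ufd_quot eG p hp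
  · intro y
    by_contra hne
    obtain ⟨J, hJ, h1⟩ := exists_notMem_smul_top hfin 𝒥 h𝒥 hne
    exact h1 (hb J hJ y)

end Pool.Agent.Lib.MP_305fdd_al.Solv
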