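import Mathlib
import Pool.Agent.Lib.MP_305fdd_al.Solv.Transfer

/-!
# The groups `⟨a, b | [a, b] ^ k⟩`
-/

set_option autoImplicit false

namespace Pool.Agent.Lib.MP_305fdd_al.Solv

open MonoidAlgebra Subgroup
open scoped commutatorElement

/-- The relator `[a, b] ^ k` in the free group on `a = of 0` and `b = of 1`. -/
def relG (k : ℕ) : Set (FreeGroup (Fin 2)) :=
  {⁅(FreeGroup.of 0 : FreeGroup (Fin 2)), (FreeGroup.of 1 : FreeGroup (Fin 2))⁆ ^ k}

/-- The group `⟨a, b | [a, b] ^ k = 1⟩`. -/
abbrev Gam (k : ℕ) : Type := PresentedGroup (relG k)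

/-! ### Affine groups -/

/-- the maps `x ↦ b + a x` of a ring -/
@[ext] structure Aff (S : Type) [CommRing S] where
  /-- translation part -/
  b : S
  /-- linear part -/
  a : Sˣ

namespace Aff

variable {S : Type} [CommRing S]

instance : Mul (Aff S) := ⟨fun x y => ⟨x.b + x.a * y.b, x.a * y.a⟩⟩
instance : One (Aff S) := ⟨⟨0, 1⟩⟩
instance : Inv (Aff S) := ⟨fun x => ⟨-((x.a⁻¹ : Sˣ) * x.b), x.a⁻¹⟩⟩

theorem mul_b (x y : Aff S) : (x * y).b = x.b + x.a * y.b := rfl
theorem mul_a (x y : Aff S) : (x * y).a = x.a * y.a := rfl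
theorem one_b : (1 : Aff S).b = 0 := rfl
theorem one_a : (1 : Aff S).a = 1 := rfl
theorem inv_b (x : Aff S) : (x⁻¹).b = -((x.a⁻¹ : Sˣ) * x.b) := rfl
theorem inv_a (x : Aff S) : (x⁻¹).a = x.a⁻¹ := rfl

instance : Group (Aff S) := Group.ofLeftAxioms
  (by
    intro x y z
    ext
    · simp only [mul_b, mul_a, Units.val_mul]; ring
    · simp only [mul_a, Units.val_mul]; ring)
  (by
    intro x
    ext
    · simp [mul_b, one_b, one_a]
    · simp [mul_a, one_a])
  (by
    intro x
    ext
    · simp [mul_b, inv_b, inv_a, one_b]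
    · simp [mul_a, inv_a, one_a])

/-- the linear part -/
def lin : Aff S →* Sˣ where
  toFun := Aff.a
  map_one' := rfl
  map_mul' _ _ := rfl

theorem pow_b_of_a {x : Aff S} (hx : x.a = 1) (n : ℕ) : (x ^ n).b = n * x.b ∧ (x ^ n).a = 1 := by
  induction n with
  | zero => simp [one_b, one_a]
  | succ n ih =>
    rw [pow_succ, mul_b, mul_a, ih.1, ih.2, hx]
    constructor
    · push_cast; ring
    · simp

/-- The commutator of `(1, u)` and `(0, v)`. -/
theorem comm_b (u v : Sˣ) : (⁅(⟨1, u⟩ : Aff S), (⟨0, v⟩ : Aff S)⁆).b = 1 - (v : S) ∧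
    (⁅(⟨1, u⟩ : Aff S), (⟨0, v⟩ : Aff S)⁆).a = 1 := by
  rw [commutatorElement_def]
  constructor
  · simp only [mul_b, mul_a, inv_b, inv_a]
    have h1 : ((u * v : Sˣ) : S) * ((u⁻¹ : Sˣ) : S) = v := by
      rw [Units.val_mul, mul_right_comm, Units.mul_inv, one_mul]
    rw [Units.val_mul] at h1
    simp only [Units.val_mul, mul_zero, add_zero, mul_one, mul_neg, neg_zero, h1]
    ring
  · simp only [mul_a, inv_a]
    rw [mul_right_comm, mul_inv_cancel_right, mul_inv_cancel]

end Aff

/-- `1 - g` is a nonzerodivisor for elements `g` of infinite order -/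
theorem eq_zero_of_mul_one_sub {K A : Type} [CommRing K] [CommGroup A] {g : A}
    (hg : ∀ n : ℕ, 0 < n → g ^ n ≠ 1) {s : MonoidAlgebra K A} (h : s * (1 - of K A g) = 0) :
    s = 0 := by
  have h1 : s * of K A g = s := by
    rw [mul_sub, mul_one, sub_eq_zero] at h
    exact h.symm
  have h2 : ∀ y : A, s.coeff (y * g) = s.coeff y := by
    intro y
    conv_lhs => rw [← h1]
    rw [of_apply, MonoidAlgebra.coeff_mul_single_eq_coeff_mul y (fun m' _ => by
      constructor
      · intro h; exact mul_right_cancel h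
      · rintro rfl; rfl), mul_one]
  have h3 : ∀ (n : ℕ) (y : A), s.coeff (y * g ^ n) = s.coeff y := by
    intro n
    induction n with
    | zero => intro y; simp
    | succ n ih => intro y; rw [pow_succ, ← mul_assoc, h2, ih]
  by_contra hne
  have h4 : s.coeff ≠ 0 := fun h => hne (MonoidAlgebra.coeff_eq_zero.mp h)
  obtain ⟨y, hy⟩ := Finsupp.ne_iff.mp h4
  have hinj : Function.Injective (fun n : ℕ => y * g ^ n) := by
    intro m n hmn
    have h5 : g ^ m = g ^ n := mul_left_cancel hmn
    rcases lt_trichotomy m n with h | h | h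
    · exfalso
      apply hg (n - m) (Nat.sub_pos_of_lt h)
      have : g ^ m * g ^ (n - m) = g ^ m * 1 := by rw [← pow_add, Nat.add_sub_cancel' h.le, ← h5, mul_one]
      exact mul_left_cancel this
    · exact h
    · exfalso
      apply hg (m - n) (Nat.sub_pos_of_lt h)
      have : g ^ n * g ^ (m - n) = g ^ n * 1 := by rw [← pow_add, Nat.add_sub_cancel' h.le, h5, mul_one]
      exact mul_left_cancel this
  have h6 : Set.range (fun n : ℕ => y * g ^ n) ⊆ (s.coeff.support : Set A) := by
    rintro _ ⟨n, rfl⟩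
    rw [Finset.mem_coe, Finsupp.mem_support_iff, h3]
    simpa using hy
  exact Set.infinite_range_of_injective hinj ((Finset.finite_toSet _).subset h6)

/-- A lower bound for `G' / G''` from a homomorphism to an affine group. -/
theorem ann_of_aff {H : Type} [Group H] (k : ℕ)
    (φ : H →* Aff (MonoidAlgebra (ZMod k) (Abelianization H)))
    (hφ : ∀ g : H, ((φ g).a : MonoidAlgebra (ZMod k) (Abelianization H)) =
      of _ _ (Abelianization.of g))
    {c : _root_.commutator H} {b : H}
    (hc : (φ c).b = 1 - of (ZMod k) _ (Abelianization.of b))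
    (hb : ∀ n : ℕ, 0 < n → (Abelianization.of b) ^ n ≠ 1)
    (r : MonoidAlgebra ℤ (Abelianization H)) (hr : r • mk c = 0) :
    r ∈ Ideal.span {(k : MonoidAlgebra ℤ (Abelianization H))} := by
  have ha : ∀ x : _root_.commutator H, (φ x).a = 1 := by
    intro x
    apply Units.ext
    rw [hφ]
    have h1 : Abelianization.of (x : H) = 1 := by
      rw [← MonoidHom.mem_ker, Abelianization.ker_of]
      exact x.2
    rw [h1, map_one]
    rfl
  -- the translation part on the derived subgroup
  let δ0 : _root_.commutator H →* Multiplicative (MonoidAlgebra (ZMod k) (Abelianization H)) :=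
    { toFun := fun x => Multiplicative.ofAdd (φ x).b
      map_one' := by
        show Multiplicative.ofAdd (φ (1 : H)).b = 1
        rw [map_one]; rfl
      map_mul' := by
        intro x y
        show Multiplicative.ofAdd (φ ((x : H) * y)).b = _
        rw [map_mul, Aff.mul_b, ha x]
        simp }
  let δ : MM H →+ MonoidAlgebra (ZMod k) (Abelianization H) :=
    MonoidHom.toAdditiveLeft (Abelianization.lift δ0)
  have hδ : ∀ x, δ (mk x) = (φ x).b := by
    intro x
    show Multiplicative.toAdd (Abelianization.lift δ0 (Abelianization.of x)) = _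
    rw [Abelianization.lift_apply_of]
    rfl
  have hconj : ∀ (g : H) (m : MM H), δ (act g m) = of (ZMod k) _ (Abelianization.of g) * δ m := by
    intro g m
    obtain ⟨x, rfl⟩ := mk_surjective m
    rw [act_mk, hδ, hδ, cj_val, map_mul, map_mul, Aff.mul_b, Aff.mul_b, Aff.mul_a, ha x, map_inv,
      Aff.inv_b, ← hφ]
    simp
  have hsmul : ∀ (r : MonoidAlgebra ℤ (Abelianization H)) (m : MM H), δ (r • m) =
      mapRingHom _ (Int.castRingHom (ZMod k)) r * δ m := by
    intro r m
    induction r using MonoidAlgebra.induction_linear with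
    | zero => rw [zero_smul, map_zero, map_zero, zero_mul]
    | add r s hr hs => rw [add_smul, map_add, hr, hs, map_add, add_mul]
    | single a z =>
      obtain ⟨g, rfl⟩ := of_surj a
      rw [single_smul, map_zsmul, of_smul, hconj]
      have h1 : mapRingHom _ (Int.castRingHom (ZMod k))
          (single (Abelianization.of g) z : MonoidAlgebra ℤ (Abelianization H)) =
          z • of (ZMod k) _ (Abelianization.of g) := by
        simp
      rw [h1, smul_mul_assoc]
  have h1 := hsmul r (mk c)
  rw [hr, map_zero, hδ, hc] at h1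
  have h2 := eq_zero_of_mul_one_sub hb h1.symm
  rw [← ker_map]
  exact h2

/-! ### The groups `Gam k` -/

section Gam

variable (k : ℕ)

/-- the generator `a` -/
abbrev ga : Gam k := PresentedGroup.of 0
/-- the generator `b` -/
abbrev gb : Gam k := PresentedGroup.of 1

theorem Gam_rel : (⁅ga k, gb k⁆ : Gam k) ^ k = 1 := by
  have h := PresentedGroup.one_of_mem (rels := relG k)
    (x := ⁅(FreeGroup.of 0 : FreeGroup (Fin 2)), (FreeGroup.of 1 : FreeGroup (Fin 2))⁆ ^ k) rfl
  rw [map_pow, map_commutatorElement] at h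
  exact h

theorem Gam_gen : closure ({ga k, gb k} : Set (Gam k)) = ⊤ := by
  rw [← PresentedGroup.closure_range_of]
  congr 1
  ext x
  constructor
  · rintro (rfl | rfl)
    · exact ⟨0, rfl⟩
    · exact ⟨1, rfl⟩
  · rintro ⟨i, rfl⟩
    fin_cases i
    · exact Or.inl rfl
    · exact Or.inr rfl

instance Gam_fg : Group.FG (Gam k) := by
  rw [Group.fg_iff]
  exact ⟨_, Gam_gen k, by simp⟩

variable {k}

/-- homomorphisms out of `Gam k` -/
def Gam_lift {G : Type*} [Group G] (x y : G) (h : ⁅x, y⁆ ^ k = 1) : Gam k →* G :=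
  PresentedGroup.toGroup (f := ![x, y]) (by
    intro r hr
    rw [relG, Set.mem_singleton_iff] at hr
    subst hr
    rw [map_pow, map_commutatorElement, FreeGroup.lift_apply_of, FreeGroup.lift_apply_of]
    exact h)

theorem Gam_lift_a {G : Type*} [Group G] (x y : G) (h : ⁅x, y⁆ ^ k = 1) :
    Gam_lift x y h (ga k) = x := PresentedGroup.toGroup.of _

theorem Gam_lift_b {G : Type*} [Group G] (x y : G) (h : ⁅x, y⁆ ^ k = 1) :
    Gam_lift x y h (gb k) = y := PresentedGroup.toGroup.of _

theorem Gam_ext {G : Type*} [Group G] {f g : Gam k →* G} (ha : f (ga k) = g (ga k))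
    (hb : f (gb k) = g (gb k)) : f = g := by
  apply PresentedGroup.ext
  intro x
  fin_cases x
  · exact ha
  · exact hb

theorem commutator_of_two {G : Type} [Group G] {a b : G} (h : closure ({a, b} : Set G) = ⊤) :
    _root_.commutator G = normalClosure {⁅a, b⁆} := by
  apply le_antisymm
  · have h1 : ⁅a, b⁆ ∈ normalClosure {⁅a, b⁆} := subset_normalClosure rfl
    have h2 : ⁅b, a⁆ ∈ normalClosure {⁅a, b⁆} := by
      have h3 := inv_mem h1
      rwa [commutatorElement_inv] at h3
    apply commutator_le_of_gens h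
    rintro s (rfl | rfl) t (rfl | rfl)
    · rw [commutatorElement_self]; exact one_mem _
    · exact h1
    · exact h2
    · rw [commutatorElement_self]; exact one_mem _
  · apply normalClosure_le_normal
    rw [Set.singleton_subset_iff]
    exact commutator_mem a b

variable (k)

theorem Gam_commutator : _root_.commutator (Gam k) = normalClosure {⁅ga k, gb k⁆} :=
  commutator_of_two (Gam_gen k)

theorem A0_rel : ⁅((Multiplicative.ofAdd 1, 1) : A0), ((1, Multiplicative.ofAdd 1) : A0)⁆ ^ k = 1 := by
  rw [commutatorElement_eq_one_iff_mul_comm.mpr (mul_comm _ _), one_pow]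

/-- the abelianization of `Gam k` -/
noncomputable def Gam_ab : Abelianization (Gam k) ≃* A0 :=
  MonoidHom.toMulEquiv
    (Abelianization.lift (Gam_lift (Multiplicative.ofAdd 1, 1) (1, Multiplicative.ofAdd 1)
      (A0_rel k)))
    (MonoidHom.coprod (zpowersHom _ (Abelianization.of (ga k)))
      (zpowersHom _ (Abelianization.of (gb k))))
    (by
      apply Abelianization.hom_ext
      apply Gam_ext
      · simp [Gam_lift_a]
      · simp [Gam_lift_b])
    (by
      apply MonoidHom.ext
      rintro ⟨x, y⟩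
      induction x using Multiplicative.rec with
      | ofAdd x =>
      induction y using Multiplicative.rec with
      | ofAdd y =>
      simp only [MonoidHom.comp_apply, MonoidHom.coprod_apply, zpowersHom_apply, map_mul, map_zpow,
        Abelianization.lift_apply_of, Gam_lift_a, Gam_lift_b]
      ext
      · simp
      · simp)

theorem Gam_ann (r : MonoidAlgebra ℤ (Abelianization (Gam k)))
    (hr : r • mc (ga k) (gb k) = 0) :
    r ∈ Ideal.span {(k : MonoidAlgebra ℤ (Abelianization (Gam k)))} := by
  let S := MonoidAlgebra (ZMod k) (Abelianization (Gam k))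
  let u : Gam k →* Sˣ :=
    ((Units.map (of (ZMod k) (Abelianization (Gam k)))).comp
      (toUnits (G := Abelianization (Gam k))).toMonoidHom).comp Abelianization.of
  have hu : ∀ g, ((u g : Sˣ) : S) = of _ _ (Abelianization.of g) := fun g => rfl
  have hrel : ⁅(⟨1, u (ga k)⟩ : Aff S), (⟨0, u (gb k)⟩ : Aff S)⁆ ^ k = 1 := by
    obtain ⟨h1, h2⟩ := Aff.comm_b (u (ga k)) (u (gb k))
    obtain ⟨h3, h4⟩ := Aff.pow_b_of_a h2 k
    have hk : ((k : ℕ) : S) = 0 := by
      have h5 : ((k : ℕ) : ZMod k) = 0 := ZMod.natCast_self k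
      have h6 : algebraMap (ZMod k) S ((k : ℕ) : ZMod k) = ((k : ℕ) : S) := map_natCast _ _
      rw [← h6, h5, map_zero]
    apply Aff.ext
    · rw [h3, hk, zero_mul]; rfl
    · rw [h4]; rfl
  let φ : Gam k →* Aff S := Gam_lift _ _ hrel
  have hφ : ∀ g, (φ g).a = u g := by
    have : Aff.lin.comp φ = u := by
      apply Gam_ext
      · show (φ (ga k)).a = _
        rw [Gam_lift_a]
      · show (φ (gb k)).a = _
        rw [Gam_lift_b]
    intro g
    exact DFunLike.congr_fun this g
  refine ann_of_aff k φ (fun g => by rw [hφ]; rfl) (c := ⟨⁅ga k, gb k⁆, commutator_mem _ _⟩)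
    (b := gb k) ?_ ?_ r hr
  · show (φ ⁅ga k, gb k⁆).b = _
    rw [map_commutatorElement, Gam_lift_a, Gam_lift_b, (Aff.comm_b _ _).1]
    rfl
  · intro n hn h
    have h1 := congrArg (Gam_ab k) h
    rw [map_pow, map_one] at h1
    have h2 : Gam_ab k (Abelianization.of (gb k)) = (1, Multiplicative.ofAdd 1) :=
      Gam_lift_b (k := k) _ _ (A0_rel k)
    rw [h2] at h1
    have h3 := congrArg (fun x : A0 => Multiplicative.toAdd x.2) h1
    simp at h3
    omega

end Gam

end Pool.Agent.Lib.MP_305fdd_al.Solv
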