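import Mathlib
import Pool.Agent.Lib.MP_305fdd_al.Solv.Gam

/-!
# Abelianizations of groups with the same finite quotients
-/

set_option autoImplicit false

namespace Pool.Agent.Lib.MP_305fdd_al.Solv

open Subgroup Pool.Agent.MP_305fdd_al

theorem same_ab {G H : Type} [Group G] [Group H] (h : SameFiniteQuotients G H) :
    SameFiniteQuotients (Abelianization G) (Abelianization H) := by
  have aux : ∀ {G H : Type} [Group G] [Group H] (_ : SameFiniteQuotients G H) (Q : Type) [Group Q]
      [Finite Q], (∃ φ : Abelianization G →* Q, Function.Surjective φ) →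
      ∃ φ : Abelianization H →* Q, Function.Surjective φ := by
    intro G H _ _ h Q _ _ ⟨φ, hφ⟩
    let _ : CommGroup Q :=
      { (inferInstance : Group Q) with
        mul_comm := by
          intro a b
          obtain ⟨a, rfl⟩ := hφ a
          obtain ⟨b, rfl⟩ := hφ b
          rw [← map_mul, mul_comm, map_mul] }
    obtain ⟨ψ, hψ⟩ := (h Q).mp ⟨φ.comp Abelianization.of, hφ.comp of_surj⟩
    refine ⟨Abelianization.lift ψ, ?_⟩
    intro q
    obtain ⟨x, rfl⟩ := hψ q
    exact ⟨Abelianization.of x, Abelianization.lift_apply_of ψ x⟩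
  exact fun Q _ _ => ⟨aux h Q, aux h.symm Q⟩

/-- the index of the subgroup of `n`-th powers -/
noncomputable def ix (B : Type) [CommGroup B] (n : ℕ) : ℕ := (powMonoidHom n : B →* B).range.index

theorem ix_finite (B : Type) [CommGroup B] [Group.FG B] {n : ℕ} (hn : 0 < n) :
    Finite (B ⧸ (powMonoidHom n : B →* B).range) := by
  apply CommGroup.finite_of_fg_isMulTorsion
  intro x
  obtain ⟨a, rfl⟩ := QuotientGroup.mk_surjective x
  rw [isOfFinOrder_iff_pow_eq_one]
  refine ⟨n, hn, ?_⟩
  rw [← QuotientGroup.mk_pow, QuotientGroup.eq_one_iff]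
  exact ⟨a, rfl⟩

theorem ix_le {B C : Type} [CommGroup B] [CommGroup C] [Group.FG B] [Group.FG C]
    (h : SameFiniteQuotients B C) {n : ℕ} (hn : 0 < n) : ix B n ≤ ix C n := by
  have h1 := ix_finite B hn
  have h2 := ix_finite C hn
  obtain ⟨ψ, hψ⟩ := (h (B ⧸ (powMonoidHom n : B →* B).range)).mp
    ⟨QuotientGroup.mk' _, QuotientGroup.mk'_surjective _⟩
  have h3 : (powMonoidHom n : C →* C).range ≤ ψ.ker := by
    rintro _ ⟨x, rfl⟩
    rw [MonoidHom.mem_ker, powMonoidHom_apply, map_pow]
    obtain ⟨y, hy⟩ := QuotientGroup.mk_surjective (ψ x)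
    rw [← hy, ← QuotientGroup.mk_pow, QuotientGroup.eq_one_iff]
    exact ⟨y, rfl⟩
  refine Nat.card_le_card_of_surjective
    (QuotientGroup.lift (powMonoidHom n : C →* C).range ψ h3) ?_
  intro q
  obtain ⟨x, rfl⟩ := hψ q
  exact ⟨(x : C ⧸ _), rfl⟩

theorem ix_eq {B C : Type} [CommGroup B] [CommGroup C] [Group.FG B] [Group.FG C]
    (h : SameFiniteQuotients B C) {n : ℕ} (hn : 0 < n) : ix B n = ix C n :=
  le_antisymm (ix_le h hn) (ix_le h.symm hn)

theorem ix_congr {B C : Type} [CommGroup B] [CommGroup C] (e : B ≃* C) (n : ℕ) :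
    ix B n = ix C n := by
  have h1 : ((powMonoidHom n : B →* B).range).map e.toMonoidHom = (powMonoidHom n : C →* C).range := by
    ext x
    constructor
    · rintro ⟨_, ⟨y, rfl⟩, rfl⟩
      exact ⟨e y, by simp⟩
    · rintro ⟨y, rfl⟩
      exact ⟨(e.symm y) ^ n, ⟨e.symm y, rfl⟩, by simp⟩
  unfold ix
  rw [← h1]
  exact (Subgroup.index_map_of_bijective e.bijective _).symm

theorem ix_prod (B C : Type) [CommGroup B] [CommGroup C] (n : ℕ) :
    ix (B × C) n = ix B n * ix C n := by
  have h1 : (powMonoidHom n : B × C →* B × C).range =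
      ((powMonoidHom n : B →* B).range).prod (powMonoidHom n : C →* C).range := by
    ext ⟨x, y⟩
    rw [Subgroup.mem_prod]
    constructor
    · rintro ⟨⟨a, b⟩, h⟩
      rw [powMonoidHom_apply, Prod.pow_mk, Prod.mk.injEq] at h
      exact ⟨⟨a, h.1⟩, ⟨b, h.2⟩⟩
    · rintro ⟨⟨a, ha⟩, ⟨b, hb⟩⟩
      exact ⟨(a, b), Prod.ext ha hb⟩
  unfold ix
  rw [h1, Subgroup.index_prod]

theorem ix_free (r n : ℕ) (hn : 0 < n) : ix (Multiplicative (Fin r → ℤ)) n = n ^ r := by
  have : NeZero n := ⟨hn.ne'⟩
  let f : Multiplicative (Fin r → ℤ) →* Multiplicative (Fin r → ZMod n) :=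
    AddMonoidHom.toMultiplicative
      { toFun := fun v i => (v i : ZMod n)
        map_zero' := by ext i; simp
        map_add' := by intro v w; ext i; simp }
  have hf : Function.Surjective f := by
    intro w
    refine ⟨Multiplicative.ofAdd fun i => ((Multiplicative.toAdd w i).val : ℤ), ?_⟩
    apply Multiplicative.toAdd.injective
    funext i
    show (((Multiplicative.toAdd w i).val : ℤ) : ZMod n) = Multiplicative.toAdd w i
    simp
  have hk : f.ker = (powMonoidHom n : Multiplicative (Fin r → ℤ) →* _).range := by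
    ext v
    rw [MonoidHom.mem_ker]
    constructor
    · intro h
      have h1 : ∀ i, (n : ℤ) ∣ Multiplicative.toAdd v i := by
        intro i
        have := congrFun (congrArg Multiplicative.toAdd h) i
        exact (ZMod.intCast_zmod_eq_zero_iff_dvd _ _).mp this
      choose w hw using h1
      refine ⟨Multiplicative.ofAdd w, ?_⟩
      apply Multiplicative.toAdd.injective
      funext i
      rw [powMonoidHom_apply, toAdd_pow, toAdd_ofAdd, Pi.smul_apply, hw i, nsmul_eq_mul]
    · rintro ⟨w, rfl⟩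
      apply Multiplicative.toAdd.injective
      funext i
      show (((n • Multiplicative.toAdd w) i : ℤ) : ZMod n) = 0
      simp
  unfold ix
  rw [← hk, Subgroup.index_ker, MonoidHom.range_eq_top.mpr hf, Subgroup.card_top]
  show Nat.card (Fin r → ZMod n) = n ^ r
  rw [Nat.card_fun, Nat.card_zmod, Nat.card_fin]

theorem exists_free_prod (B : Type) [CommGroup B] [Group.FG B] : ∃ (r : ℕ) (T : Type)
    (_ : CommGroup T) (_ : Finite T), Nonempty (B ≃* Multiplicative (Fin r → ℤ) × T) := by
  obtain ⟨r, ι, _, p, hp, e, ⟨f⟩⟩ := AddCommGroup.equiv_free_prod_directSum_zmod (Additive B)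
  have : ∀ i, NeZero (p i ^ e i) := fun i => ⟨pow_ne_zero _ (hp i).ne_zero⟩
  have hfin : Finite (DirectSum ι fun i => ZMod (p i ^ e i)) :=
    Finite.of_equiv _ (DFinsupp.equivFunOnFintype (β := fun i => ZMod (p i ^ e i))).symm
  refine ⟨r, Multiplicative (DirectSum ι fun i => ZMod (p i ^ e i)), inferInstance, inferInstance, ⟨?_⟩⟩
  let g : Additive B ≃+ (Fin r → ℤ) × (DirectSum ι fun i => ZMod (p i ^ e i)) :=
    f.trans ((Finsupp.linearEquivFunOnFinite ℤ ℤ (Fin r)).toAddEquiv.prodCongr (AddEquiv.refl _))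
  exact
    { toFun := fun b => (Multiplicative.ofAdd (g (Additive.ofMul b)).1,
        Multiplicative.ofAdd (g (Additive.ofMul b)).2)
      invFun := fun x => Additive.toMul (g.symm (Multiplicative.toAdd x.1, Multiplicative.toAdd x.2))
      left_inv := by intro b; simp
      right_inv := by intro x; simp
      map_mul' := by intro a b; simp }

theorem ab_of_same {B : Type} [CommGroup B] [Group.FG B] (h : SameFiniteQuotients B A0) :
    Nonempty (B ≃* A0) := by
  obtain ⟨r, T, _, _, ⟨e⟩⟩ := exists_free_prod B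
  have e0 : A0 ≃* Multiplicative (Fin 2 → ℤ) :=
    { toFun := fun x => Multiplicative.ofAdd ![Multiplicative.toAdd x.1, Multiplicative.toAdd x.2]
      invFun := fun v => (Multiplicative.ofAdd (Multiplicative.toAdd v 0),
        Multiplicative.ofAdd (Multiplicative.toAdd v 1))
      left_inv := by intro x; rfl
      right_inv := by
        intro v
        apply Multiplicative.toAdd.injective
        funext i
        fin_cases i <;> rfl
      map_mul' := by
        intro x y
        apply Multiplicative.toAdd.injective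
        funext i
        fin_cases i <;> rfl }
  have hfg : Group.FG A0 := Group.fg_of_surjective (f := (Gam_ab 0).toMonoidHom) (Gam_ab 0).surjective
  have key : ∀ n : ℕ, 0 < n → n ^ r * ix T n = n ^ 2 := by
    intro n hn
    rw [← ix_free r n hn, ← ix_prod, ← ix_congr e, ix_eq h hn, ix_congr e0, ix_free 2 n hn]
  have hT1 : ∀ n : ℕ, (∀ t : T, t ^ n = 1) → ix T n = Nat.card T := by
    intro n hn
    have : (powMonoidHom n : T →* T).range = ⊥ := by
      rw [eq_bot_iff]
      rintro _ ⟨t, rfl⟩
      rw [Subgroup.mem_bot, powMonoidHom_apply, hn]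
    unfold ix
    rw [this, Subgroup.index_bot]
  set t := Nat.card T with ht
  have htpos : 0 < t := Nat.card_pos
  have h1 := key t htpos
  rw [hT1 t (fun x => pow_card_eq_one')] at h1
  have h2 := key (2 * t) (by omega)
  rw [hT1 (2 * t) (fun x => by rw [mul_comm, pow_mul, pow_card_eq_one', one_pow]), mul_pow, mul_assoc,
    h1, mul_pow] at h2
  have h3 : 2 ^ r = 2 ^ 2 := Nat.eq_of_mul_eq_mul_right (by positivity) h2
  have hr : r = 2 := Nat.pow_right_injective (le_refl 2) h3
  subst hr
  have h4 : t = 1 := by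
    have : t ^ 2 * t = t ^ 2 * 1 := by rw [h1, mul_one]
    exact Nat.eq_of_mul_eq_mul_left (by positivity) this
  have hsub : Subsingleton T := (Nat.card_eq_one_iff_unique.mp h4).1
  let _ : Unique T := ⟨⟨1⟩, fun x => Subsingleton.elim _ _⟩
  exact ⟨e.trans (MulEquiv.prodUnique.trans e0.symm)⟩

theorem ab_equiv {G H : Type} [Group G] [Group H] [Group.FG G] (h : SameFiniteQuotients G H)
    (e : Abelianization H ≃* A0) : Nonempty (Abelianization G ≃* A0) := by
  apply ab_of_same
  have h1 := same_ab h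
  intro Q _ _
  rw [h1 Q]
  constructor
  · rintro ⟨φ, hφ⟩
    exact ⟨φ.comp e.symm.toMonoidHom, hφ.comp e.symm.surjective⟩
  · rintro ⟨φ, hφ⟩
    exact ⟨φ.comp e.toMonoidHom, hφ.comp e.surjective⟩

end Pool.Agent.Lib.MP_305fdd_al.Solv
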