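import Mathlib
import Pool.Agent.Lib.MP_305fdd_al.Solv.Abel

/-!
# Choosing generators whose commutator generates `G' / G''`
-/

set_option autoImplicit false

namespace Pool.Agent.Lib.MP_305fdd_al.Solv

open MonoidAlgebra Subgroup Pool.Agent.MP_305fdd_al
open scoped commutatorElement

noncomputable section

/-- the augmentation -/
def aug (A : Type) [CommGroup A] : MonoidAlgebra ℤ A →ₐ[ℤ] ℤ := MonoidAlgebra.lift ℤ ℤ A 1

theorem aug_of {A : Type} [CommGroup A] (a : A) : aug A (of ℤ A a) = 1 := by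
  unfold aug
  rw [MonoidAlgebra.lift_of]
  rfl

theorem aug_intCast {A : Type} [CommGroup A] (z : ℤ) : aug A (z : MonoidAlgebra ℤ A) = z := by
  rw [map_intCast]; rfl

/-- the ideal generated by `1 - x` and `1 - y` -/
def II {A : Type} [CommGroup A] (x y : A) : Ideal (MonoidAlgebra ℤ A) :=
  Ideal.span {1 - of ℤ A x, 1 - of ℤ A y}

theorem aug_II {A : Type} [CommGroup A] {x y : A} {r : MonoidAlgebra ℤ A} (hr : r ∈ II x y) :
    aug A r = 0 := by
  obtain ⟨a, b, rfl⟩ := Ideal.mem_span_pair.mp hr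
  rw [map_add, map_mul, map_mul, map_sub, map_sub, map_one, aug_of, aug_of]
  ring

theorem of_sub_one_mem {A : Type} [CommGroup A] {x y : A} (h : closure ({x, y} : Set A) = ⊤)
    (a : A) : of ℤ A a - 1 ∈ II x y := by
  have ha : a ∈ closure ({x, y} : Set A) := by rw [h]; trivial
  induction ha using Subgroup.closure_induction with
  | mem a ha =>
    rcases ha with rfl | rfl
    · rw [← neg_sub]; exact neg_mem (Ideal.subset_span (Or.inl rfl))
    · rw [← neg_sub]; exact neg_mem (Ideal.subset_span (Or.inr rfl))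
  | one => rw [map_one, sub_self]; exact zero_mem _
  | mul a b _ _ ha hb =>
    have : of ℤ A (a * b) - 1 = of ℤ A a * (of ℤ A b - 1) + (of ℤ A a - 1) := by
      rw [map_mul]; ring
    rw [this]
    exact add_mem (Ideal.mul_mem_left _ _ hb) ha
  | inv a _ ha =>
    have : of ℤ A a⁻¹ - 1 = -(of ℤ A a⁻¹ * (of ℤ A a - 1)) := by
      rw [mul_sub, ← map_mul, inv_mul_cancel, map_one, mul_one, neg_sub]
    rw [this]
    exact neg_mem (Ideal.mul_mem_left _ _ ha)

theorem sub_aug_mem {A : Type} [CommGroup A] {x y : A} (h : closure ({x, y} : Set A) = ⊤)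
    (r : MonoidAlgebra ℤ A) : r - ((aug A r : ℤ) : MonoidAlgebra ℤ A) ∈ II x y := by
  induction r using MonoidAlgebra.induction_linear with
  | zero => rw [map_zero, Int.cast_zero, sub_self]; exact zero_mem _
  | add r s hr hs =>
    have : r + s - ((aug A (r + s) : ℤ) : MonoidAlgebra ℤ A) =
        (r - ((aug A r : ℤ) : MonoidAlgebra ℤ A)) + (s - ((aug A s : ℤ) : MonoidAlgebra ℤ A)) := by
      rw [map_add]; push_cast; ring
    rw [this]
    exact add_mem hr hs
  | single a z =>
    have h1 : (single a z : MonoidAlgebra ℤ A) = (z : MonoidAlgebra ℤ A) * of ℤ A a := by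
      rw [← zsmul_eq_mul]; simp
    have : (single a z : MonoidAlgebra ℤ A) - ((aug A (single a z) : ℤ) : MonoidAlgebra ℤ A) =
        (z : MonoidAlgebra ℤ A) * (of ℤ A a - 1) := by
      rw [h1, map_mul, aug_of, aug_intCast, mul_one]; ring
    rw [this]
    exact Ideal.mul_mem_left _ _ (of_sub_one_mem h a)

variable {G : Type} [Group G]

theorem of_mem_one {c : G} (hc : c ∈ _root_.commutator G) : Abelianization.of c = 1 := by
  rw [← MonoidHom.mem_ker, Abelianization.ker_of]; exact hc

/-- `mc` is changed by the Fox formula if the arguments are changed by elements of `G'` -/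
theorem mc_mul (α β : _root_.commutator G) (x y : G) :
    mc ((α : G) * x) ((β : G) * y) = mc x y + (1 - of ℤ _ (Abelianization.of y)) • mk α -
      (1 - of ℤ _ (Abelianization.of x)) • mk β := by
  have h1 : (⟨⁅(α : G) * x, (β : G) * y⁆, commutator_mem _ _⟩ : _root_.commutator G) =
      α * cj x β * (cj (x * y * x⁻¹) α)⁻¹ * ⟨⁅x, y⁆, commutator_mem _ _⟩ * β⁻¹ := by
    apply Subtype.ext
    show ⁅(α : G) * x, (β : G) * y⁆ = (α : G) * (cj x β : G) * ((cj (x * y * x⁻¹) α : G))⁻¹ *
      ⁅x, y⁆ * (β : G)⁻¹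
    rw [cj_val, cj_val, commutatorElement_def, commutatorElement_def]
    group
  have h2 : Abelianization.of (x * y * x⁻¹) = Abelianization.of y := by
    rw [map_mul, map_mul, map_inv]
    exact mul_inv_cancel_comm _ _
  unfold mc
  rw [h1, mk_mul, mk_mul, mk_mul, mk_mul, mk_inv, mk_inv, ← of_smul_mk, ← of_smul_mk, h2,
    sub_smul, sub_smul, one_smul, one_smul]
  abel

theorem mem_II_smul {x y : Abelianization G} {m : MM G}
    (hm : m ∈ (II x y • ⊤ : Submodule (MonoidAlgebra ℤ (Abelianization G)) (MM G))) :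
    ∃ α β : MM G, m = (1 - of ℤ _ x) • α + (1 - of ℤ _ y) • β := by
  let W : Submodule (MonoidAlgebra ℤ (Abelianization G)) (MM G) :=
    { carrier := {m | ∃ α β : MM G, m = (1 - of ℤ _ x) • α + (1 - of ℤ _ y) • β}
      zero_mem' := ⟨0, 0, by rw [smul_zero, smul_zero, add_zero]⟩
      add_mem' := by
        rintro _ _ ⟨α, β, rfl⟩ ⟨α', β', rfl⟩
        exact ⟨α + α', β + β', by rw [smul_add, smul_add]; abel⟩
      smul_mem' := by
        rintro r _ ⟨α, β, rfl⟩
        refine ⟨r • α, r • β, ?_⟩
        rw [smul_add, smul_smul, smul_smul, smul_smul, smul_smul, mul_comm r, mul_comm r] }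
  have h1 : (II x y • ⊤ : Submodule (MonoidAlgebra ℤ (Abelianization G)) (MM G)) ≤ W := by
    rw [Submodule.smul_le]
    intro r hr m _
    obtain ⟨a, b, rfl⟩ := Ideal.mem_span_pair.mp hr
    refine ⟨a • m, b • m, ?_⟩
    rw [add_smul, smul_smul, smul_smul, mul_comm a, mul_comm b]
  exact h1 hm

theorem closure_of_top {x y : G}
    (h : closure ({Abelianization.of x, Abelianization.of y} : Set (Abelianization G)) = ⊤) :
    closure ({x, y} : Set G) ⊔ _root_.commutator G = ⊤ := by
  rw [eq_top_iff]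
  intro g _
  have h1 : (closure ({x, y} : Set G)).map Abelianization.of = ⊤ := by
    rw [MonoidHom.map_closure, Set.image_pair, h]
  have h2 : Abelianization.of g ∈ (closure ({x, y} : Set G)).map Abelianization.of := by
    rw [h1]; trivial
  obtain ⟨g', hg', hgg⟩ := h2
  have h3 : g'⁻¹ * g ∈ _root_.commutator G := by
    rw [← Abelianization.ker_of, MonoidHom.mem_ker, map_mul, map_inv, hgg, inv_mul_cancel]
  have h4 : g = g' * (g'⁻¹ * g) := by group
  rw [h4]
  exact mul_mem_sup hg' h3

theorem span_II {x y : G}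
    (h : closure ({Abelianization.of x, Abelianization.of y} : Set (Abelianization G)) = ⊤) :
    (II (Abelianization.of x) (Abelianization.of y) • ⊤ ⊔ Submodule.span _ {mc x y} :
      Submodule (MonoidAlgebra ℤ (Abelianization G)) (MM G)) = ⊤ := by
  set T := (II (Abelianization.of x) (Abelianization.of y) • ⊤ ⊔ Submodule.span _ {mc x y} :
      Submodule (MonoidAlgebra ℤ (Abelianization G)) (MM G)) with hT
  have hI : ∀ (g : G) (c : _root_.commutator G), ⁅g, (c : G)⁆ ∈ subOf T := by
    intro g c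
    refine ⟨commutator_mem _ _, (le_sup_left : _ ≤ T) ?_⟩
    have h1 : (⟨⁅g, (c : G)⁆, commutator_mem _ _⟩ : _root_.commutator G) = cj g c * c⁻¹ := by
      apply Subtype.ext
      show ⁅g, (c : G)⁆ = (cj g c : G) * (c : G)⁻¹
      rw [cj_val, commutatorElement_def]
    rw [h1, mk_mul, mk_inv, ← of_smul_mk, ← sub_eq_add_neg]
    have h2 : of ℤ _ (Abelianization.of g) • mk c - mk c =
        (of ℤ _ (Abelianization.of g) - 1) • mk c := by rw [sub_smul, one_smul]
    rw [h2]
    exact Submodule.smul_mem_smul (of_sub_one_mem h _) trivial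
  have hI' : ∀ (g : G) (c : _root_.commutator G), ⁅(c : G), g⁆ ∈ subOf T := by
    intro g c
    have := inv_mem (hI g c)
    rwa [commutatorElement_inv] at this
  have hxy : ⁅x, y⁆ ∈ subOf T :=
    ⟨commutator_mem _ _, (le_sup_right : _ ≤ T) (Submodule.mem_span_singleton_self _)⟩
  have hyx : ⁅y, x⁆ ∈ subOf T := by
    have := inv_mem hxy
    rwa [commutatorElement_inv] at this
  have hgen : closure (({x, y} : Set G) ∪ (_root_.commutator G : Set G)) = ⊤ := by
    rw [Subgroup.closure_union, Subgroup.closure_eq, closure_of_top h]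
  have h1 := commutator_le_of_gens hgen (subOf T) (by
    rintro s ((rfl | rfl) | hs) t ((rfl | rfl) | ht)
    · rw [commutatorElement_self]; exact one_mem _
    · exact hxy
    · exact hI _ ⟨t, ht⟩
    · exact hyx
    · rw [commutatorElement_self]; exact one_mem _
    · exact hI _ ⟨t, ht⟩
    · exact hI' _ ⟨s, hs⟩
    · exact hI' _ ⟨s, hs⟩
    · exact hI _ ⟨t, ht⟩)
  rw [eq_top_iff]
  intro m _
  obtain ⟨c, rfl⟩ := mk_surjective m
  exact (h1 c.2).2

/-- **Choice of generators.** -/
theorem exists_gens {k : ℕ} {m : MM G}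
    (hm : Submodule.span (MonoidAlgebra ℤ (Abelianization G)) {m} = ⊤)
    (hann : ∀ r : MonoidAlgebra ℤ (Abelianization G), r • m = 0 →
        r ∈ Ideal.span {(k : MonoidAlgebra ℤ (Abelianization G))})
    (hk : ∀ x : MM G, (k : MonoidAlgebra ℤ (Abelianization G)) • x = 0) {x₀ y₀ : G}
    (h : closure ({Abelianization.of x₀, Abelianization.of y₀} : Set (Abelianization G)) = ⊤) :
    ∃ x y : G, Abelianization.of x = Abelianization.of x₀ ∧
      Abelianization.of y = Abelianization.of y₀ ∧
      Submodule.span (MonoidAlgebra ℤ (Abelianization G)) {mc x y} = ⊤ ∧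
      ∀ r : MonoidAlgebra ℤ (Abelianization G), r • mc x y = 0 →
        r ∈ Ideal.span {(k : MonoidAlgebra ℤ (Abelianization G))} := by
  set I := II (Abelianization.of x₀) (Abelianization.of y₀) with hI
  set R := MonoidAlgebra ℤ (Abelianization G) with hR
  set s := mc x₀ y₀ with hs
  have hgen : ∀ z : MM G, ∃ r : R, r • m = z := by
    intro z
    have : z ∈ Submodule.span R {m} := by rw [hm]; trivial
    exact Submodule.mem_span_singleton.mp this
  obtain ⟨r', hr'⟩ := hgen s
  set ε := aug (Abelianization G) r' with hε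
  have h1 : s - (ε : R) • m ∈ (I • ⊤ : Submodule R (MM G)) := by
    rw [← hr', ← sub_smul]
    exact Submodule.smul_mem_smul (sub_aug_mem h r') trivial
  have h2 : m ∈ (I • ⊤ ⊔ Submodule.span R {s} : Submodule R (MM G)) := by
    rw [span_II h]; trivial
  obtain ⟨i, hi, rs, hrs, hirs⟩ := Submodule.mem_sup.mp h2
  obtain ⟨r, rfl⟩ := Submodule.mem_span_singleton.mp hrs
  set z := aug (Abelianization G) r with hz
  have h3 : m - (z : R) • s ∈ (I • ⊤ : Submodule R (MM G)) := by
    have : m - (z : R) • s = i + (r - (z : R)) • s := by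
      rw [← hirs, sub_smul]; abel
    rw [this]
    exact add_mem hi (Submodule.smul_mem_smul (sub_aug_mem h r) trivial)
  have h4 : (1 - (z * ε : ℤ) : R) • m ∈ (I • ⊤ : Submodule R (MM G)) := by
    have : (1 - (z * ε : ℤ) : R) • m = (m - (z : R) • s) + (z : R) • (s - (ε : R) • m) := by
      rw [sub_smul, one_smul, smul_sub, smul_smul]
      push_cast
      abel
    rw [this]
    exact add_mem h3 (Submodule.smul_mem _ _ h1)
  rw [← hm, Submodule.mem_smul_span_singleton] at h4
  obtain ⟨j, hj, hjm⟩ := h4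
  have h5 : (1 - (z * ε : ℤ) - j : R) • m = 0 := by
    rw [sub_smul, hjm, sub_self]
  have h6 : (k : ℤ) ∣ 1 - z * ε := by
    obtain ⟨w, hw⟩ := Ideal.mem_span_singleton.mp (hann _ h5)
    have h7 := congrArg (aug (Abelianization G)) hw
    rw [map_sub, map_sub, map_one, aug_II hj, sub_zero, map_mul, map_natCast, aug_intCast] at h7
    exact ⟨_, h7⟩
  obtain ⟨q, hq⟩ := h6
  -- the new generator
  have h7 : (z : R) • (ε : R) • m = m := by
    have h8 : (z : R) * (ε : R) = 1 - (q : R) * (k : R) := by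
      have := congrArg (fun t : ℤ => (t : R)) hq
      push_cast at this
      linear_combination -this
    rw [smul_smul, h8, sub_smul, one_smul, mul_smul, hk, smul_zero, sub_zero]
  have hm' : Submodule.span R {(ε : R) • m} = ⊤ := by
    rw [eq_top_iff, ← hm, Submodule.span_singleton_le_iff_mem, Submodule.mem_span_singleton]
    exact ⟨_, h7⟩
  have hann' : ∀ t : R, t • (ε : R) • m = 0 → t ∈ Ideal.span {(k : R)} := by
    intro t ht
    rw [smul_smul] at ht
    have h8 := hann _ ht
    have h9 : t = (z : R) * (t * (ε : R)) + t * q * (k : R) := by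
      have := congrArg (fun t : ℤ => (t : R)) hq
      push_cast at this
      linear_combination t * this
    rw [h9]
    exact add_mem (Ideal.mul_mem_left _ _ h8) (Ideal.mul_mem_left _ _ (Ideal.mem_span_singleton_self _))
  obtain ⟨β, α, hβα⟩ := mem_II_smul h1
  obtain ⟨α, rfl⟩ := mk_surjective α
  obtain ⟨β, rfl⟩ := mk_surjective β
  refine ⟨((α⁻¹ : _root_.commutator G) : G) * x₀, (β : G) * y₀, ?_, ?_, ?_⟩
  · rw [map_mul, of_mem_one (α⁻¹).2, one_mul]
  · rw [map_mul, of_mem_one β.2, one_mul]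
  · have h8 : mc (((α⁻¹ : _root_.commutator G) : G) * x₀) ((β : G) * y₀) = (ε : R) • m := by
      rw [mc_mul, mk_inv, smul_neg]
      have : (ε : R) • m = s - (s - (ε : R) • m) := by abel
      rw [this, hβα]
      abel
    rw [h8]
    exact ⟨hm', hann'⟩

/-- generators of `G` modulo `G''` -/
theorem sup_derived {x y : G}
    (h : closure ({Abelianization.of x, Abelianization.of y} : Set (Abelianization G)) = ⊤)
    (hm : Submodule.span (MonoidAlgebra ℤ (Abelianization G)) {mc x y} = ⊤) :
    closure ({x, y} : Set G) ⊔ ⁅_root_.commutator G, _root_.commutator G⁆ = ⊤ := by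
  set H := closure ({x, y} : Set G) with hH
  set N := H ⊔ ⁅_root_.commutator G, _root_.commutator G⁆ with hN
  let S : AddSubgroup (MM G) :=
    { carrier := {m | ∃ c : _root_.commutator G, (c : G) ∈ N ∧ mk c = m}
      zero_mem' := ⟨1, one_mem _, mk_one⟩
      add_mem' := by
        rintro _ _ ⟨c, hc, rfl⟩ ⟨d, hd, rfl⟩
        exact ⟨c * d, mul_mem hc hd, mk_mul c d⟩
      neg_mem' := by
        rintro _ ⟨c, hc, rfl⟩
        exact ⟨c⁻¹, inv_mem hc, mk_inv c⟩ }
  have hSc : ∀ g : G, ∀ m ∈ S, act g m ∈ S := by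
    rintro g _ ⟨c, hc, rfl⟩
    have hg : g ∈ H ⊔ _root_.commutator G := by rw [closure_of_top h]; trivial
    obtain ⟨u, hu, d, hd, rfl⟩ := mem_sup_of_normal_right.mp hg
    have h1 : act (u * d) (mk c) = act u (mk c) := by
      rw [map_mul, act_of_mem d hd, mul_one]
    rw [h1]
    refine ⟨cj u c, ?_, rfl⟩
    rw [cj_val]
    exact mul_mem (mul_mem (mem_sup_left hu) hc) (inv_mem (mem_sup_left hu))
  have hST : subMod S hSc = ⊤ := by
    rw [eq_top_iff, ← hm, Submodule.span_singleton_le_iff_mem]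
    refine ⟨⟨⁅x, y⁆, commutator_mem x y⟩, ?_, rfl⟩
    apply mem_sup_left
    have hx : x ∈ H := subset_closure (Or.inl rfl)
    have hy : y ∈ H := subset_closure (Or.inr rfl)
    exact mul_mem (mul_mem (mul_mem hx hy) (inv_mem hx)) (inv_mem hy)
  have hcN : _root_.commutator G ≤ N := by
    intro c hc
    have h1 : mk ⟨c, hc⟩ ∈ subMod S hSc := by rw [hST]; trivial
    obtain ⟨d, hd, hdc⟩ := h1
    have h2 : mk (d⁻¹ * ⟨c, hc⟩) = 0 := by rw [mk_mul, mk_inv, hdc, neg_add_cancel]
    rw [mk_eq_zero_iff] at h2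
    have h3 : c = d * ((d⁻¹ * ⟨c, hc⟩ : _root_.commutator G) : G) := by
      show c = d * ((d : G)⁻¹ * c)
      group
    rw [h3]
    exact mul_mem hd (mem_sup_right h2)
  rw [eq_top_iff, ← closure_of_top h]
  exact sup_le le_sup_left hcN

end

end Pool.Agent.Lib.MP_305fdd_al.Solv
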