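import Mathlib
import Pool.Agent.Lib.MP_305fdd_al.Solv.Gen

/-!
# The metabelian quotients of the groups in the genus of `⟨a, b | [a, b] ^ k⟩`
-/

set_option autoImplicit false

namespace Pool.Agent.Lib.MP_305fdd_al.Solv

open MonoidAlgebra Subgroup Pool.Agent.MP_305fdd_al
open scoped commutatorElement

/-- Separation in metabelian quotients (P. Hall). -/
theorem sep_two {G : Type} [Group G] [Group.FG G] {g : G} (hg : g ∉ derivedSeries G 2) :
    ∃ (Q : Type) (_ : Group Q) (_ : Finite Q) (φ : G →* Q), derivedSeries Q 2 = ⊥ ∧ φ g ≠ 1 := by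
  by_cases hc : g ∈ _root_.commutator G
  · have h1 : mk ⟨g, hc⟩ ≠ 0 := by
      rw [Ne, mk_eq_zero_iff]
      exact hg
    have := noeth (Abelianization G)
    obtain ⟨J, ⟨n, N, hn, hN, rfl⟩, h2⟩ := exists_notMem_smul_top
      (R := MonoidAlgebra ℤ (Abelianization G)) (M := MM G)
      (finite_residue (Abelianization G))
      {J | ∃ n N : ℕ, 0 < n ∧ 0 < N ∧ J = JJ (Abelianization G) n N}
      (by
        intro I hI
        obtain ⟨n, N, hn, hN, hle⟩ := JJ_cofinal _ I hI
        exact ⟨_, ⟨n, N, hn, hN, rfl⟩, hle⟩) h1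
    obtain ⟨Q, _, _, φ, hφ, hQ, hφV⟩ := exists_quot G hn hN
    refine ⟨Q, inferInstance, inferInstance, φ, ?_, ?_⟩
    · rw [eq_bot_iff, ← hQ]
      intro x hx
      exact subset_closure (Or.inl hx)
    · intro h3
      exact h2 ((mem_VV_iff n N ⟨g, hc⟩).mp (hφV g hc h3))
  · have h1 : (Abelianization.of g) ≠ 1 := by
      rw [Ne, ← MonoidHom.mem_ker, Abelianization.ker_of]
      exact hc
    have := rf_comm (Abelianization G)
    obtain ⟨N, hN⟩ := Group.exists_finiteIndexNormalSubgroup_notMem _ h1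
    refine ⟨Abelianization G ⧸ N.toSubgroup, inferInstance,
      Subgroup.finite_quotient_of_finiteIndex,
      (QuotientGroup.mk' N.toSubgroup).comp Abelianization.of, ?_, ?_⟩
    · have h2 : _root_.commutator (Abelianization G ⧸ N.toSubgroup) = ⊥ := by
        rw [_root_.commutator_def, eq_bot_iff, commutator_le]
        intro a _ b _
        rw [Subgroup.mem_bot, commutatorElement_eq_one_iff_mul_comm]
        obtain ⟨a, rfl⟩ := QuotientGroup.mk_surjective a
        obtain ⟨b, rfl⟩ := QuotientGroup.mk_surjective b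
        rw [← QuotientGroup.mk_mul, ← QuotientGroup.mk_mul, mul_comm]
      rw [eq_bot_iff, ← h2]
      exact derivedSeries_antitone _ (show 1 ≤ 2 by norm_num)
    · intro h2
      exact hN ((QuotientGroup.eq_one_iff _).mp h2)

instance rf_two (G : Type) [Group G] [Group.FG G] :
    Group.ResiduallyFinite (G ⧸ derivedSeries G 2) := by
  rw [Group.residuallyFinite_iff_exists_finiteIndex]
  intro x hx
  obtain ⟨g, rfl⟩ := QuotientGroup.mk_surjective x
  have hg : g ∉ derivedSeries G 2 := fun h => hx ((QuotientGroup.eq_one_iff g).mpr h)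
  obtain ⟨Q, _, _, φ, hQ, hφ⟩ := sep_two hg
  have hk : derivedSeries G 2 ≤ φ.ker := by
    intro y hy
    have h1 : φ y ∈ derivedSeries Q 2 :=
      map_derivedSeries_le_derivedSeries φ 2 (mem_map_of_mem φ hy)
    rw [hQ, Subgroup.mem_bot] at h1
    exact h1
  refine ⟨(QuotientGroup.lift _ φ hk).ker, Subgroup.finiteIndex_ker _, fun h => hφ ?_⟩
  rw [MonoidHom.mem_ker] at h
  exact h

theorem same_derived {G H : Type} [Group G] [Group H] (h : SameFiniteQuotients G H) (n : ℕ) :
    SameFiniteQuotients (G ⧸ derivedSeries G n) (H ⧸ derivedSeries H n) := by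
  have aux : ∀ {G H : Type} [Group G] [Group H] (_ : SameFiniteQuotients G H) (Q : Type) [Group Q]
      [Finite Q], (∃ φ : G ⧸ derivedSeries G n →* Q, Function.Surjective φ) →
      ∃ φ : H ⧸ derivedSeries H n →* Q, Function.Surjective φ := by
    intro G H _ _ h Q _ _ ⟨φ, hφ⟩
    have hφ' : Function.Surjective (φ.comp (QuotientGroup.mk' (derivedSeries G n))) :=
      hφ.comp (QuotientGroup.mk'_surjective _)
    obtain ⟨ψ, hψ⟩ := (h Q).mp ⟨_, hφ'⟩
    have hQ : derivedSeries Q n = ⊥ := by
      rw [← map_derivedSeries_eq hφ' n, ← Subgroup.map_map]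
      have : (derivedSeries G n).map (QuotientGroup.mk' (derivedSeries G n)) = ⊥ := by
        rw [Subgroup.map_eq_bot_iff, QuotientGroup.ker_mk']
      rw [this, Subgroup.map_bot]
    have hk : derivedSeries H n ≤ ψ.ker := by
      intro y hy
      have h1 : ψ y ∈ derivedSeries Q n :=
        map_derivedSeries_le_derivedSeries ψ n (mem_map_of_mem ψ hy)
      rw [hQ, Subgroup.mem_bot] at h1
      exact h1
    refine ⟨QuotientGroup.lift _ ψ hk, ?_⟩
    intro q
    obtain ⟨x, rfl⟩ := hψ q
    exact ⟨QuotientGroup.mk x, rfl⟩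
  exact fun Q _ _ => ⟨aux h Q, aux h.symm Q⟩

/-- A homomorphism from `H` which is onto modulo the `n`-th derived subgroup induces an
isomorphism of the quotients, if the groups have the same finite quotients. -/
theorem iso_of_surj {G H : Type} [Group G] [Group H] [Group.FG G] [Group.FG H]
    (h : SameFiniteQuotients G H) {n : ℕ} [Group.ResiduallyFinite (H ⧸ derivedSeries H n)]
    (f : H →* G ⧸ derivedSeries G n) (hf : Function.Surjective f) :
    Nonempty (G ⧸ derivedSeries G n ≃* H ⧸ derivedSeries H n) := by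
  have hk : derivedSeries H n ≤ f.ker := by
    intro y hy
    have h1 : f y ∈ derivedSeries (G ⧸ derivedSeries G n) n :=
      map_derivedSeries_le_derivedSeries f n (mem_map_of_mem f hy)
    have h2 : derivedSeries (G ⧸ derivedSeries G n) n = ⊥ := by
      rw [← map_derivedSeries_eq (QuotientGroup.mk'_surjective (derivedSeries G n)) n,
        Subgroup.map_eq_bot_iff, QuotientGroup.ker_mk']
    rw [h2, Subgroup.mem_bot] at h1
    exact h1
  let F : H ⧸ derivedSeries H n →* G ⧸ derivedSeries G n := QuotientGroup.lift _ f hk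
  have hF : Function.Surjective F := by
    intro q
    obtain ⟨x, rfl⟩ := hf q
    exact ⟨QuotientGroup.mk x, rfl⟩
  have hinj := injective_of_surj (same_derived h n).symm F hF
  exact ⟨(MulEquiv.ofBijective F ⟨hinj, hF⟩).symm⟩

/-- a basis of the abelianization -/
theorem exists_basis {A : Type} [CommGroup A] (e : A ≃* A0) :
    closure ({e.symm (Multiplicative.ofAdd 1, 1), e.symm (1, Multiplicative.ofAdd 1)} : Set A) =
      ⊤ := by
  have h1 : Subgroup.closure ({((Multiplicative.ofAdd 1, 1) : A0),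
      ((1, Multiplicative.ofAdd 1) : A0)} : Set A0) = ⊤ := by
    rw [eq_top_iff]
    rintro ⟨x, y⟩ _
    induction x using Multiplicative.rec with
    | ofAdd x =>
    induction y using Multiplicative.rec with
    | ofAdd y =>
    have h2 : ((Multiplicative.ofAdd x, Multiplicative.ofAdd y) : A0) =
        ((Multiplicative.ofAdd 1, 1) : A0) ^ x * ((1, Multiplicative.ofAdd 1) : A0) ^ y := by
      ext
      · simp
      · simp
    rw [h2]
    have h3 : ((Multiplicative.ofAdd 1, 1) : A0) ∈
        Subgroup.closure ({((Multiplicative.ofAdd 1, 1) : A0),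
          ((1, Multiplicative.ofAdd 1) : A0)} : Set A0) :=
      Subgroup.subset_closure (Set.mem_insert _ _)
    have h4 : ((1, Multiplicative.ofAdd 1) : A0) ∈
        Subgroup.closure ({((Multiplicative.ofAdd 1, 1) : A0),
          ((1, Multiplicative.ofAdd 1) : A0)} : Set A0) :=
      Subgroup.subset_closure (Set.mem_insert_of_mem _ rfl)
    exact mul_mem (zpow_mem h3 x) (zpow_mem h4 y)
  have h2 := MonoidHom.map_closure e.symm.toMonoidHom
    ({((Multiplicative.ofAdd 1, 1) : A0), ((1, Multiplicative.ofAdd 1) : A0)} : Set A0)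
  rw [h1, Set.image_pair, ← MonoidHom.range_eq_map,
    MonoidHom.range_eq_top.mpr e.symm.surjective] at h2
  exact h2.symm

/-- The structure of `G / G''` for the groups `G` in the genus of `⟨a, b | [a, b] ^ k⟩`. -/
theorem structA {G : Type} [Group G] [Group.FG G] (k : ℕ) (h : SameFiniteQuotients G (Gam k))
    {x₀ y₀ : G}
    (hxy : closure ({Abelianization.of x₀, Abelianization.of y₀} : Set (Abelianization G)) = ⊤) :
    ∃ x y : G, Abelianization.of x = Abelianization.of x₀ ∧
      Abelianization.of y = Abelianization.of y₀ ∧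
      Submodule.span (MonoidAlgebra ℤ (Abelianization G)) {mc x y} = ⊤ ∧
      (∀ r : MonoidAlgebra ℤ (Abelianization G), r • mc x y = 0 →
        r ∈ Ideal.span {(k : MonoidAlgebra ℤ (Abelianization G))}) ∧
      ∀ m : MM G, (k : MonoidAlgebra ℤ (Abelianization G)) • m = 0 := by
  obtain ⟨eG⟩ := ab_equiv h (Gam_ab k)
  obtain ⟨⟨m, hm, hann⟩, hk⟩ := core h eG (Gam_ab k)
    (c := ⟨⁅ga k, gb k⁆, commutator_mem _ _⟩) (Gam_commutator k) (Gam_rel k) (Gam_ann k)
  obtain ⟨x, y, hx, hy, h1, h2⟩ := exists_gens hm hann hk hxy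
  exact ⟨x, y, hx, hy, h1, h2, hk⟩

theorem pow_mem_of_killed {G : Type} [Group G] {k : ℕ} {x y : G}
    (hk : ∀ m : MM G, (k : MonoidAlgebra ℤ (Abelianization G)) • m = 0) :
    ⁅x, y⁆ ^ k ∈ derivedSeries G 2 := by
  have h1 := hk (mc x y)
  rw [Nat.cast_smul_eq_nsmul, mc, ← mk_pow, mk_eq_zero_iff] at h1
  exact h1

theorem thmA {G : Type} [Group G] [Group.FG G] (k : ℕ) (h : SameFiniteQuotients G (Gam k)) :
    Nonempty (G ⧸ derivedSeries G 2 ≃* Gam k ⧸ derivedSeries (Gam k) 2) := by
  obtain ⟨eG⟩ := ab_equiv h (Gam_ab k)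
  obtain ⟨x₀, hx₀⟩ := of_surj (eG.symm (Multiplicative.ofAdd 1, 1))
  obtain ⟨y₀, hy₀⟩ := of_surj (eG.symm (1, Multiplicative.ofAdd 1))
  have hxy : closure ({Abelianization.of x₀, Abelianization.of y₀} : Set (Abelianization G)) = ⊤ := by
    rw [hx₀, hy₀]; exact exists_basis eG
  obtain ⟨x, y, hx, hy, h1, h2, hk⟩ := structA k h hxy
  rw [← hx, ← hy] at hxy
  have hrel : ⁅(QuotientGroup.mk' (derivedSeries G 2) x), (QuotientGroup.mk' (derivedSeries G 2) y)⁆ ^ k
      = 1 := by
    rw [← map_commutatorElement, ← map_pow]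
    exact (QuotientGroup.eq_one_iff _).mpr (pow_mem_of_killed hk)
  refine iso_of_surj h (Gam_lift _ _ hrel) ?_
  rw [← MonoidHom.range_eq_top, eq_top_iff]
  have h3 := sup_derived hxy h1
  have h4 : (closure ({x, y} : Set G)).map (QuotientGroup.mk' (derivedSeries G 2)) = ⊤ := by
    have h5 : (closure ({x, y} : Set G) ⊔ ⁅_root_.commutator G, _root_.commutator G⁆).map
        (QuotientGroup.mk' (derivedSeries G 2)) =
        (⊤ : Subgroup G).map (QuotientGroup.mk' (derivedSeries G 2)) := by rw [h3]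
    rw [Subgroup.map_sup, ← MonoidHom.range_eq_map, QuotientGroup.range_mk'] at h5
    have h6 : (⁅_root_.commutator G, _root_.commutator G⁆ : Subgroup G).map
        (QuotientGroup.mk' (derivedSeries G 2)) = ⊥ := by
      rw [Subgroup.map_eq_bot_iff, QuotientGroup.ker_mk']
      exact le_rfl
    rw [h6, sup_bot_eq] at h5
    exact h5
  rw [← h4, MonoidHom.map_closure, Set.image_pair, closure_le]
  rintro _ (rfl | rfl)
  · exact ⟨ga k, Gam_lift_a _ _ hrel⟩
  · exact ⟨gb k, Gam_lift_b _ _ hrel⟩

end Pool.Agent.Lib.MP_305fdd_al.Solv
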