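import Mathlib
import Pool.Agent.Lib.MP_305fdd_al.Solv.RFNil

/-!
# Separation in the nilpotent-by-abelian quotients `F / γ_c(F')` of the free group of rank two
-/

set_option autoImplicit false

namespace Pool.Agent.Lib.MP_305fdd_al.Solv

open Subgroup
open scoped commutatorElement

/-! ### Wreath products -/

/-- the (unrestricted) wreath product of `T` by the abelian group `A` -/
@[ext] structure Wr (T A : Type) where
  /-- base part -/
  f : A → T
  /-- top part -/
  a : A

namespace Wr

variable {T A : Type} [Group T] [CommGroup A]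

instance : Mul (Wr T A) := ⟨fun u v => ⟨fun x => u.f x * v.f (x * u.a), u.a * v.a⟩⟩
instance : One (Wr T A) := ⟨⟨fun _ => 1, 1⟩⟩
instance : Inv (Wr T A) := ⟨fun u => ⟨fun x => (u.f (x * u.a⁻¹))⁻¹, u.a⁻¹⟩⟩

theorem mul_f (u v : Wr T A) (x : A) : (u * v).f x = u.f x * v.f (x * u.a) := rfl
theorem mul_a (u v : Wr T A) : (u * v).a = u.a * v.a := rfl
theorem one_f (x : A) : (1 : Wr T A).f x = 1 := rfl
theorem one_a : (1 : Wr T A).a = 1 := rfl
theorem inv_f (u : Wr T A) (x : A) : (u⁻¹).f x = (u.f (x * u.a⁻¹))⁻¹ := rfl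
theorem inv_a (u : Wr T A) : (u⁻¹).a = u.a⁻¹ := rfl

instance : Group (Wr T A) := Group.ofLeftAxioms
  (by
    intro u v w
    ext x
    · simp only [mul_f, mul_a, mul_assoc]
    · simp only [mul_a, mul_assoc])
  (by
    intro u
    ext x
    · simp [mul_f, one_f, one_a]
    · simp [mul_a, one_a])
  (by
    intro u
    ext x
    · simp [mul_f, inv_f, inv_a, one_f]
    · simp [mul_a, inv_a, one_a])

instance [Finite T] [Finite A] : Finite (Wr T A) :=
  Finite.of_injective (fun u : Wr T A => (u.f, u.a)) (by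
    intro u v h
    rw [Prod.mk.injEq] at h
    exact Wr.ext h.1 h.2)

/-- projection to the top group -/
def top : Wr T A →* A where
  toFun := Wr.a
  map_one' := rfl
  map_mul' _ _ := rfl

/-- evaluation on the base group -/
def ev (x : A) : (top : Wr T A →* A).ker →* T where
  toFun u := u.1.f x
  map_one' := rfl
  map_mul' := by
    intro u v
    show u.1.f x * v.1.f (x * u.1.a) = _
    have : u.1.a = 1 := u.2
    rw [this, mul_one]

theorem lcs_eq_bot {c : ℕ} (h : (⊤ : Subgroup T).lowerCentralSeries c = ⊥) :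
    (_root_.commutator (Wr T A)).lowerCentralSeries c = ⊥ := by
  rw [eq_bot_iff]
  have h1 : _root_.commutator (Wr T A) ≤ (top : Wr T A →* A).ker :=
    Abelianization.commutator_subset_ker _
  refine (lowerCentralSeries_mono c h1).trans ?_
  show (top : Wr T A →* A).ker.lowerCentralSeries c ≤ ⊥
  rw [← top_subtype_lowerCentralSeries]
  rintro _ ⟨u, hu, rfl⟩
  rw [Subgroup.mem_bot]
  have h2 : ∀ x : A, u.1.f x = 1 := by
    intro x
    have h3 : ev x u ∈ ((⊤ : Subgroup (top : Wr T A →* A).ker).lowerCentralSeries c).map (ev x) :=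
      mem_map_of_mem _ hu
    rw [map_lowerCentralSeries] at h3
    have h4 : ev x u ∈ (⊤ : Subgroup T).lowerCentralSeries c :=
      lowerCentralSeries_mono c (le_top : (⊤ : Subgroup _).map (ev x) ≤ ⊤) h3
    rw [h, Subgroup.mem_bot] at h4
    exact h4
  apply Wr.ext
  · funext x
    exact h2 x
  · exact u.2

/-- functoriality in the base -/
def mapBase {T' : Type} [Group T'] (τ : T →* T') : Wr T A →* Wr T' A where
  toFun u := ⟨fun x => τ (u.f x), u.a⟩
  map_one' := Wr.ext (funext fun _ => map_one τ) rfl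
  map_mul' _ _ := Wr.ext (funext fun _ => map_mul τ _ _) rfl

theorem mapBase_f {T' : Type} [Group T'] (τ : T →* T') (u : Wr T A) (x : A) :
    (mapBase τ u).f x = τ (u.f x) := rfl

end Wr

/-! ### Labelled paths -/

section path

variable {T A : Type} [Group T] [CommGroup A] {ι : Type}

/-- the homomorphism to the wreath product given by a labelling of the edges of a Cayley graph -/
def lab (st : ι → A) (l : A → ι → T) : FreeGroup ι →* Wr T A :=
  FreeGroup.lift fun s => ⟨fun x => l x s, st s⟩

theorem lab_of (st : ι → A) (l : A → ι → T) (s : ι) :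
    lab st l (FreeGroup.of s) = ⟨fun x => l x s, st s⟩ := FreeGroup.lift_apply_of

theorem lab_a (st : ι → A) (l : A → ι → T) (w : FreeGroup ι) :
    (lab st l w).a = FreeGroup.lift st w := by
  have : (Wr.top.comp (lab st l) : FreeGroup ι →* A) = FreeGroup.lift st := by
    ext s
    rw [MonoidHom.comp_apply, lab_of, FreeGroup.lift_apply_of]
    rfl
  exact DFunLike.congr_fun this w

/-- the vertices visited by a path -/
def visited (st : ι → A) : List (ι × Bool) → A → Set A
  | [], x => {x}
  | (s, true) :: L, x => insert x (visited st L (x * st s))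
  | (s, false) :: L, x => insert (x * (st s)⁻¹) (visited st L (x * (st s)⁻¹))

theorem visited_finite (st : ι → A) (L : List (ι × Bool)) (x : A) : (visited st L x).Finite := by
  induction L generalizing x with
  | nil => exact Set.finite_singleton x
  | cons p L ih =>
    obtain ⟨s, b⟩ := p
    cases b
    · exact (ih _).insert _
    · exact (ih _).insert _

/-- comparison of two labellings along a path -/
theorem lab_compare {B : Type} [CommGroup B] (π : A →* B) (st : ι → A) (l : A → ι → T)
    (l' : B → ι → T) (L : List (ι × Bool)) (x : A)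
    (h : ∀ y ∈ visited st L x, ∀ s, l' (π y) s = l y s) :
    (lab (fun s => π (st s)) l' (FreeGroup.mk L)).f (π x) = (lab st l (FreeGroup.mk L)).f x := by
  induction L generalizing x with
  | nil =>
    rw [← FreeGroup.one_eq_mk, map_one, map_one]
    rfl
  | cons p L ih =>
    obtain ⟨s, b⟩ := p
    have hsplit : FreeGroup.mk ((s, b) :: L) = FreeGroup.mk [(s, b)] * FreeGroup.mk L := by
      rw [FreeGroup.mul_mk]; rfl
    cases b
    · have h1 : (FreeGroup.mk [(s, false)] : FreeGroup ι) = (FreeGroup.of s)⁻¹ := rfl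
      rw [hsplit, h1, map_mul, map_mul, map_inv, map_inv, lab_of, lab_of, Wr.mul_f, Wr.mul_f,
        Wr.inv_f, Wr.inv_f, Wr.inv_a, Wr.inv_a]
      have h2 : π x * (π (st s))⁻¹ = π (x * (st s)⁻¹) := by rw [map_mul, map_inv]
      simp only
      rw [h2, ih _ (fun y hy => h y (Or.inr hy)), h _ (Or.inl rfl)]
    · have h1 : (FreeGroup.mk [(s, true)] : FreeGroup ι) = FreeGroup.of s := rfl
      rw [hsplit, h1, map_mul, map_mul, lab_of, lab_of, Wr.mul_f, Wr.mul_f]
      have h2 : π x * π (st s) = π (x * st s) := by rw [map_mul]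
      simp only
      rw [h2, ih _ (fun y hy => h y (Or.inr hy)), h _ (Or.inl rfl)]

end path

/-! ### Free groups modulo terms of the lower central series -/

theorem exists_support {E : Type} (u : FreeGroup E) :
    ∃ E₀ : Set E, E₀.Finite ∧ u ∈ closure ((fun e => FreeGroup.of e) '' E₀) := by
  have : u ∈ closure (Set.range (FreeGroup.of (α := E))) := by
    rw [FreeGroup.closure_range_of]; trivial
  induction this using Subgroup.closure_induction with
  | mem x hx =>
    obtain ⟨e, rfl⟩ := hx
    exact ⟨{e}, Set.finite_singleton e, subset_closure ⟨e, rfl, rfl⟩⟩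
  | one => exact ⟨∅, Set.finite_empty, one_mem _⟩
  | mul x y _ _ hx hy =>
    obtain ⟨E₁, h1, hx⟩ := hx
    obtain ⟨E₂, h2, hy⟩ := hy
    refine ⟨E₁ ∪ E₂, h1.union h2, mul_mem ?_ ?_⟩
    · exact Subgroup.closure_mono (Set.image_mono Set.subset_union_left) hx
    · exact Subgroup.closure_mono (Set.image_mono Set.subset_union_right) hy
  | inv x _ hx =>
    obtain ⟨E₁, h1, hx⟩ := hx
    exact ⟨E₁, h1, inv_mem hx⟩

theorem free_sep {E : Type} {c : ℕ} {u : FreeGroup E}
    (hu : u ∉ (⊤ : Subgroup (FreeGroup E)).lowerCentralSeries c) :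
    ∃ (T : Type) (_ : Group T) (_ : Finite T) (τ : FreeGroup E →* T),
      (⊤ : Subgroup T).lowerCentralSeries c = ⊥ ∧ τ u ≠ 1 := by
  classical
  obtain ⟨E₀, hfin, hE₀⟩ := exists_support u
  have hfin' : Finite E₀ := hfin
  let ρ : FreeGroup E →* FreeGroup E₀ :=
    FreeGroup.lift fun e => if h : e ∈ E₀ then FreeGroup.of ⟨e, h⟩ else 1
  let i : FreeGroup E₀ →* FreeGroup E := FreeGroup.map Subtype.val
  have hir : i (ρ u) = u := by
    have h1 : closure ((fun e => FreeGroup.of e) '' E₀) ≤
        MonoidHom.eqLocus (i.comp ρ) (MonoidHom.id _) := by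
      rw [closure_le]
      rintro _ ⟨e, he, rfl⟩
      show i (ρ (FreeGroup.of e)) = FreeGroup.of e
      have h2 : ρ (FreeGroup.of e) = FreeGroup.of ⟨e, he⟩ := by
        show FreeGroup.lift _ (FreeGroup.of e) = _
        rw [FreeGroup.lift_apply_of, dif_pos he]
      rw [h2]
      exact FreeGroup.map.of
    exact h1 hE₀
  have hρ : ρ u ∉ (⊤ : Subgroup (FreeGroup E₀)).lowerCentralSeries c := by
    intro h
    apply hu
    rw [← hir]
    have h1 : i (ρ u) ∈ ((⊤ : Subgroup (FreeGroup E₀)).lowerCentralSeries c).map i :=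
      mem_map_of_mem i h
    rw [map_lowerCentralSeries] at h1
    exact lowerCentralSeries_mono c le_top h1
  let L := (⊤ : Subgroup (FreeGroup E₀)).lowerCentralSeries c
  let N := FreeGroup E₀ ⧸ L
  have hNL : (⊤ : Subgroup N).lowerCentralSeries c = ⊥ := by
    have h1 : (⊤ : Subgroup N) = (⊤ : Subgroup (FreeGroup E₀)).map (QuotientGroup.mk' L) := by
      rw [← MonoidHom.range_eq_map, QuotientGroup.range_mk']
    rw [h1, ← map_lowerCentralSeries, Subgroup.map_eq_bot_iff, QuotientGroup.ker_mk']
  have hfg0 : Group.FG (FreeGroup E₀) := by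
    rw [Group.fg_iff]
    exact ⟨Set.range FreeGroup.of, FreeGroup.closure_range_of _, Set.finite_range _⟩
  have hfg : Group.FG N := Group.fg_of_surjective (QuotientGroup.mk'_surjective L)
  have hrf : Group.ResiduallyFinite N := by
    apply rf_lcs c
    rw [hNL]
    infer_instance
  have h1 : QuotientGroup.mk' L (ρ u) ≠ 1 := by
    intro h
    exact hρ ((QuotientGroup.eq_one_iff _).mp h)
  obtain ⟨K, hK⟩ := Group.exists_finiteIndexNormalSubgroup_notMem _ h1
  refine ⟨N ⧸ K.toSubgroup, inferInstance, Subgroup.finite_quotient_of_finiteIndex,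
    (QuotientGroup.mk' K.toSubgroup).comp ((QuotientGroup.mk' L).comp ρ), ?_, ?_⟩
  · have h2 : (⊤ : Subgroup (N ⧸ K.toSubgroup)) =
        (⊤ : Subgroup N).map (QuotientGroup.mk' K.toSubgroup) := by
      rw [← MonoidHom.range_eq_map, QuotientGroup.range_mk']
    rw [h2, ← map_lowerCentralSeries, hNL, Subgroup.map_bot]
  · intro h
    exact hK ((QuotientGroup.eq_one_iff _).mp h)

/-! ### The free group of rank two -/

section F2

/-- the free abelian group of rank two -/
abbrev Z2 : Type := Multiplicative ℤ × Multiplicative ℤ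

/-- the steps -/
def st2 : Fin 2 → Z2 := ![(Multiplicative.ofAdd 1, 1), (1, Multiplicative.ofAdd 1)]

/-- the abelianization map -/
def p2 : FreeGroup (Fin 2) →* Z2 := FreeGroup.lift st2

/-- the transversal `a ^ i b ^ j` -/
def t2 (v : Z2) : FreeGroup (Fin 2) :=
  (FreeGroup.of 0) ^ (Multiplicative.toAdd v.1) * (FreeGroup.of 1) ^ (Multiplicative.toAdd v.2)

theorem p2_t2 (v : Z2) : p2 (t2 v) = v := by
  unfold p2 t2
  rw [map_mul, map_zpow, map_zpow, FreeGroup.lift_apply_of, FreeGroup.lift_apply_of]
  ext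
  · simp [st2]
  · simp [st2]

theorem t2_one : t2 1 = 1 := by
  unfold t2
  simp

theorem ker_p2 : p2.ker = _root_.commutator (FreeGroup (Fin 2)) := by
  apply le_antisymm
  · intro w hw
    have h1 : (MonoidHom.coprod (zpowersHom _ (Abelianization.of (FreeGroup.of (0 : Fin 2))))
        (zpowersHom _ (Abelianization.of (FreeGroup.of (1 : Fin 2))))).comp p2 =
        (Abelianization.of : FreeGroup (Fin 2) →* _) := by
      apply FreeGroup.ext_hom
      intro s
      rw [MonoidHom.comp_apply]
      unfold p2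
      rw [FreeGroup.lift_apply_of]
      fin_cases s
      · simp [st2]
      · simp [st2]
    rw [← Abelianization.ker_of, MonoidHom.mem_ker, ← h1, MonoidHom.comp_apply,
      MonoidHom.mem_ker.mp hw, map_one]
  · exact Abelianization.commutator_subset_ker _

/-- closing up the edges of the grid along the transversal -/
def ψ2 : FreeGroup (Z2 × Fin 2) →* FreeGroup (Fin 2) :=
  FreeGroup.lift fun e => t2 e.1 * FreeGroup.of e.2 * (t2 (e.1 * st2 e.2))⁻¹

theorem ψ2_mem (u : FreeGroup (Z2 × Fin 2)) : ψ2 u ∈ _root_.commutator (FreeGroup (Fin 2)) := by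
  rw [← ker_p2, MonoidHom.mem_ker]
  have : p2.comp ψ2 = 1 := by
    apply FreeGroup.ext_hom
    intro e
    rw [MonoidHom.comp_apply]
    unfold ψ2
    rw [FreeGroup.lift_apply_of, map_mul, map_mul, map_inv, p2_t2, p2_t2]
    have : p2 (FreeGroup.of e.2) = st2 e.2 := FreeGroup.lift_apply_of
    rw [this, mul_inv_cancel]
    rfl
  exact DFunLike.congr_fun this u

/-- the universal labelling -/
def labU : FreeGroup (Fin 2) →* Wr (FreeGroup (Z2 × Fin 2)) Z2 :=
  lab st2 fun x s => FreeGroup.of (x, s)

theorem ψ2_labU (w : FreeGroup (Fin 2)) (x : Z2) :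
    ψ2 ((labU w).f x) = t2 x * w * (t2 (x * p2 w))⁻¹ := by
  let f2 : FreeGroup (Fin 2) →* Wr (FreeGroup (Fin 2)) Z2 :=
    { toFun := fun w => ⟨fun x => t2 x * w * (t2 (x * p2 w))⁻¹, p2 w⟩
      map_one' := by
        refine Wr.ext (funext fun x => ?_) (map_one p2)
        show t2 x * 1 * (t2 (x * p2 1))⁻¹ = 1
        rw [map_one, mul_one, mul_one, mul_inv_cancel]
      map_mul' := by
        intro v w
        refine Wr.ext (funext fun x => ?_) (map_mul p2 v w)
        show t2 x * (v * w) * (t2 (x * p2 (v * w)))⁻¹ = (t2 x * v * (t2 (x * p2 v))⁻¹) *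
          (t2 (x * p2 v) * w * (t2 (x * p2 v * p2 w))⁻¹)
        rw [map_mul, mul_assoc x]
        group }
  have h : (Wr.mapBase ψ2).comp labU = f2 := by
    apply FreeGroup.ext_hom
    intro s
    have hp : p2 (FreeGroup.of s) = st2 s := FreeGroup.lift_apply_of
    have hl : labU (FreeGroup.of s) = ⟨fun x => FreeGroup.of (x, s), st2 s⟩ := lab_of _ _ _
    rw [MonoidHom.comp_apply, hl]
    refine Wr.ext (funext fun x => ?_) ?_
    · show ψ2 (FreeGroup.of (x, s)) = t2 x * FreeGroup.of s * (t2 (x * p2 (FreeGroup.of s)))⁻¹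
      rw [hp]
      exact FreeGroup.lift_apply_of
    · exact hp.symm
  have h2 := congrArg (fun f : FreeGroup (Fin 2) →* Wr (FreeGroup (Fin 2)) Z2 => (f w).f x) h
  exact h2

/-- finite sets of lattice points embed into finite tori -/
theorem exists_torus (P : Set Z2) (hP : P.Finite) : ∃ m : ℕ, 0 < m ∧ ∀ x ∈ P, ∀ y ∈ P,
    ((Multiplicative.toAdd x.1 : ℤ) : ZMod m) = (Multiplicative.toAdd y.1 : ℤ) →
    ((Multiplicative.toAdd x.2 : ℤ) : ZMod m) = (Multiplicative.toAdd y.2 : ℤ) → x = y := by
  obtain ⟨N, hN⟩ : ∃ N : ℕ, ∀ x ∈ P, (Multiplicative.toAdd x.1).natAbs ≤ N ∧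
      (Multiplicative.toAdd x.2).natAbs ≤ N := by
    have h1 := (hP.image (fun x : Z2 => (Multiplicative.toAdd x.1).natAbs +
      (Multiplicative.toAdd x.2).natAbs)).bddAbove
    obtain ⟨N, hN⟩ := h1
    refine ⟨N, fun x hx => ?_⟩
    have := hN ⟨x, hx, rfl⟩
    simp only at this
    omega
  refine ⟨2 * N + 1, by omega, ?_⟩
  intro x hx y hy h1 h2
  obtain ⟨hx1, hx2⟩ := hN x hx
  obtain ⟨hy1, hy2⟩ := hN y hy
  have key : ∀ a b : ℤ, a.natAbs ≤ N → b.natAbs ≤ N → ((a : ℤ) : ZMod (2 * N + 1)) = b → a = b := by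
    intro a b ha hb hab
    rw [ZMod.intCast_eq_intCast_iff_dvd_sub] at hab
    obtain ⟨q, hq⟩ := hab
    push_cast at hq
    have h3 : q = 0 := by
      by_contra hne
      rcases lt_or_gt_of_ne hne with h | h
      · have : (2 * (N : ℤ) + 1) * q ≤ (2 * (N : ℤ) + 1) * (-1) := by
          apply mul_le_mul_of_nonneg_left
          · omega
          · omega
        omega
      · have : (2 * (N : ℤ) + 1) * 1 ≤ (2 * (N : ℤ) + 1) * q := by
          apply mul_le_mul_of_nonneg_left
          · omega
          · omega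
        omega
    rw [h3, mul_zero] at hq
    omega
  ext
  · exact congrArg Multiplicative.ofAdd (key _ _ hx1 hy1 h1)
  · exact congrArg Multiplicative.ofAdd (key _ _ hx2 hy2 h2)

/-- **Separation.** -/
theorem sep_nil {c : ℕ} {w : FreeGroup (Fin 2)}
    (hw : w ∉ (_root_.commutator (FreeGroup (Fin 2))).lowerCentralSeries c) :
    ∃ (Q : Type) (_ : Group Q) (_ : Finite Q) (θ : FreeGroup (Fin 2) →* Q),
      (_root_.commutator Q).lowerCentralSeries c = ⊥ ∧ θ w ≠ 1 := by
  classical
  by_cases hwc : w ∈ _root_.commutator (FreeGroup (Fin 2))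
  · have hpw : p2 w = 1 := by
      rw [← MonoidHom.mem_ker, ker_p2]; exact hwc
    set u := (labU w).f 1 with hu
    have hψ : ψ2 u = w := by
      rw [hu, ψ2_labU, hpw, mul_one, t2_one]
      simp
    have huc : u ∉ (⊤ : Subgroup (FreeGroup (Z2 × Fin 2))).lowerCentralSeries c := by
      intro h
      apply hw
      rw [← hψ]
      have h1 : ψ2 u ∈ ((⊤ : Subgroup (FreeGroup (Z2 × Fin 2))).lowerCentralSeries c).map ψ2 :=
        mem_map_of_mem ψ2 h
      rw [map_lowerCentralSeries] at h1
      refine lowerCentralSeries_mono c ?_ h1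
      rintro _ ⟨v, -, rfl⟩
      exact ψ2_mem v
    obtain ⟨T, _, _, τ, hT, hτ⟩ := free_sep huc
    -- the labels
    let l : Z2 → Fin 2 → T := fun x s => τ (FreeGroup.of (x, s))
    have hl : (lab st2 l w).f 1 = τ u := by
      have h1 : lab st2 l = (Wr.mapBase τ).comp labU := by
        apply FreeGroup.ext_hom
        intro s
        have hl : labU (FreeGroup.of s) = ⟨fun x => FreeGroup.of (x, s), st2 s⟩ := lab_of _ _ _
        rw [lab_of, MonoidHom.comp_apply, hl]
        rfl
      rw [h1]
      rfl
    -- the torus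
    obtain ⟨m, hm, hinj⟩ := exists_torus (visited st2 w.toWord 1) (visited_finite _ _ _)
    have : NeZero m := ⟨hm.ne'⟩
    let B : Type := Multiplicative (ZMod m) × Multiplicative (ZMod m)
    let π : Z2 →* B := MonoidHom.prodMap
      (AddMonoidHom.toMultiplicative (Int.castAddHom (ZMod m)))
      (AddMonoidHom.toMultiplicative (Int.castAddHom (ZMod m)))
    let P := visited st2 w.toWord 1
    have hinj' : ∀ x ∈ P, ∀ y ∈ P, π x = π y → x = y := by
      intro x hx y hy hxy
      refine hinj x hx y hy ?_ ?_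
      · exact congrArg (fun z : B => Multiplicative.toAdd z.1) hxy
      · exact congrArg (fun z : B => Multiplicative.toAdd z.2) hxy
    let l' : B → Fin 2 → T := fun y s =>
      if h : ∃ x ∈ P, π x = y then l h.choose s else 1
    have hl' : ∀ x ∈ P, ∀ s, l' (π x) s = l x s := by
      intro x hx s
      have h : ∃ x' ∈ P, π x' = π x := ⟨x, hx, rfl⟩
      show (if h : ∃ x' ∈ P, π x' = π x then l h.choose s else 1) = l x s
      rw [dif_pos h]
      rw [hinj' _ h.choose_spec.1 x hx h.choose_spec.2]
    have hcomp := lab_compare π st2 l l' w.toWord 1 hl'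
    rw [FreeGroup.mk_toWord, map_one, hl] at hcomp
    have hBfin : Finite B := inferInstanceAs (Finite (Multiplicative (ZMod m) × Multiplicative (ZMod m)))
    refine ⟨Wr T B, inferInstance, inferInstance, lab (fun s => π (st2 s)) l', ?_, ?_⟩
    · exact Wr.lcs_eq_bot hT
    · intro h
      rw [h] at hcomp
      exact hτ hcomp.symm
  · -- abelian case
    have hpw : p2 w ≠ 1 := by
      intro h
      apply hwc
      rw [← ker_p2]
      exact h
    obtain ⟨m, hm, hinj⟩ := exists_torus {1, p2 w} (by simp)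
    have : NeZero m := ⟨hm.ne'⟩
    let B : Type := Multiplicative (ZMod m) × Multiplicative (ZMod m)
    let π : Z2 →* B := MonoidHom.prodMap
      (AddMonoidHom.toMultiplicative (Int.castAddHom (ZMod m)))
      (AddMonoidHom.toMultiplicative (Int.castAddHom (ZMod m)))
    refine ⟨B, inferInstance, inferInstanceAs (Finite (Multiplicative (ZMod m) × Multiplicative (ZMod m))),
      π.comp p2, ?_, ?_⟩
    · have h1 : _root_.commutator B = ⊥ := by
        rw [_root_.commutator_def, eq_bot_iff, commutator_le]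
        intro a _ b _
        rw [Subgroup.mem_bot, commutatorElement_eq_one_iff_mul_comm]
        exact mul_comm a b
      rw [h1, eq_bot_iff]
      exact lowerCentralSeries_le_self _ _
    · intro h
      apply hpw
      symm
      refine hinj 1 (Or.inl rfl) (p2 w) (Or.inr rfl) ?_ ?_
      · exact congrArg (fun z : B => Multiplicative.toAdd z.1) (by
          show π 1 = π (p2 w)
          rw [map_one]; exact h.symm)
      · exact congrArg (fun z : B => Multiplicative.toAdd z.2) (by
          show π 1 = π (p2 w)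
          rw [map_one]; exact h.symm)

end F2

end Pool.Agent.Lib.MP_305fdd_al.Solv
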