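import Mathlib
import Pool.Agent.Lib.MP_305fdd_al.Solv.ThmA
import Pool.Agent.Lib.MP_305fdd_al.Solv.Wreath

/-!
# The nilpotent-by-abelian quotients of the groups in the genus of the free group of rank two
-/

set_option autoImplicit false

namespace Pool.Agent.Lib.MP_305fdd_al.Solv

open MonoidAlgebra Subgroup Pool.Agent.MP_305fdd_al
open scoped commutatorElement

/-- the free group of rank two as `Gam 0` -/
def free_equiv : FreeGroup (Fin 2) ≃* Gam 0 :=
  MonoidHom.toMulEquiv (PresentedGroup.mk (relG 0))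
    (Gam_lift (FreeGroup.of 0) (FreeGroup.of 1) (pow_zero _))
    (by
      apply FreeGroup.ext_hom
      intro s
      fin_cases s
      · exact Gam_lift_a (k := 0) _ _ (pow_zero _)
      · exact Gam_lift_b (k := 0) _ _ (pow_zero _))
    (by
      apply Gam_ext
      · rw [MonoidHom.comp_apply, Gam_lift_a]
        rfl
      · rw [MonoidHom.comp_apply, Gam_lift_b]
        rfl)

theorem same_of_equiv {G H K : Type} [Group G] [Group H] [Group K] (h : SameFiniteQuotients G H)
    (e : H ≃* K) : SameFiniteQuotients G K := by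
  intro Q _ _
  rw [h Q]
  constructor
  · rintro ⟨φ, hφ⟩
    exact ⟨φ.comp e.symm.toMonoidHom, hφ.comp e.symm.surjective⟩
  · rintro ⟨φ, hφ⟩
    exact ⟨φ.comp e.toMonoidHom, hφ.comp e.surjective⟩

/-- supplements of the second term of the lower central series -/
theorem sup_lcs {G : Type} [Group G] {N K : Subgroup G} [N.Normal] (hKN : K ≤ N)
    (h : K ⊔ ⁅N, N⁆ = N) (c : ℕ) : K ⊔ N.lowerCentralSeries (c + 1) = N := by
  induction c with
  | zero => exact h
  | succ c ih =>
    set L := N.lowerCentralSeries (c + 1) with hL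
    set L' := N.lowerCentralSeries (c + 1 + 1) with hL'
    have hLN : L ≤ N := lowerCentralSeries_le_self N _
    have hL'L : L' ≤ L := Subgroup.lowerCentralSeries_antitone N (Nat.le_succ _)
    apply le_antisymm (sup_le hKN (hL'L.trans hLN))
    have h1 : ⁅N, N⁆ ≤ K ⊔ L' := by
      rw [commutator_le]
      intro u hu v hv
      rw [← ih] at hu hv
      obtain ⟨k, hk, l, hl, rfl⟩ := mem_sup_of_normal_right.mp hu
      obtain ⟨k', hk', l', hl', rfl⟩ := mem_sup_of_normal_right.mp hv
      have hcen : ∀ x ∈ L, ∀ y ∈ N, Commute (QuotientGroup.mk' L' x) (QuotientGroup.mk' L' y) := by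
        intro x hx y hy
        rw [← commutatorElement_eq_one_iff_commute, ← map_commutatorElement]
        exact (QuotientGroup.eq_one_iff _).mpr (commutator_mem_commutator hx hy)
      have h2 : QuotientGroup.mk' L' ⁅k * l, k' * l'⁆ = QuotientGroup.mk' L' ⁅k, k'⁆ := by
        have c1 := hcen l hl k' (hKN hk')
        have c2 := hcen l' hl' k (hKN hk)
        have c3 := hcen l hl l' (hLN hl')
        have c4 := hcen l hl k (hKN hk)
        have c5 := hcen l' hl' k' (hKN hk')
        rw [map_commutatorElement, map_commutatorElement, map_mul, map_mul]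
        generalize QuotientGroup.mk' L' k = K1 at *
        generalize QuotientGroup.mk' L' l = L1 at *
        generalize QuotientGroup.mk' L' k' = K2 at *
        generalize QuotientGroup.mk' L' l' = L2 at *
        rw [commutatorElement_def, commutatorElement_def, mul_inv_rev, mul_inv_rev]
        calc K1 * L1 * (K2 * L2) * (L1⁻¹ * K1⁻¹) * (L2⁻¹ * K2⁻¹)
            = K1 * (L1 * (K2 * L2) * L1⁻¹) * K1⁻¹ * (L2⁻¹ * K2⁻¹) := by group
          _ = K1 * (K2 * L2) * K1⁻¹ * (L2⁻¹ * K2⁻¹) := by
              rw [(c1.mul_right c3).eq, mul_inv_cancel_right]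
          _ = K1 * K2 * (L2 * K1⁻¹) * (L2⁻¹ * K2⁻¹) := by group
          _ = K1 * K2 * (K1⁻¹ * L2) * (L2⁻¹ * K2⁻¹) := by rw [(c2.inv_right).eq]
          _ = K1 * K2 * K1⁻¹ * K2⁻¹ := by group
      have h3 : (⁅k, k'⁆)⁻¹ * ⁅k * l, k' * l'⁆ ∈ L' := by
        rw [← QuotientGroup.eq_one_iff]
        show QuotientGroup.mk' L' ((⁅k, k'⁆)⁻¹ * ⁅k * l, k' * l'⁆) = 1
        rw [map_mul, map_inv, h2, inv_mul_cancel]
      have h4 : ⁅k * l, k' * l'⁆ = ⁅k, k'⁆ * ((⁅k, k'⁆)⁻¹ * ⁅k * l, k' * l'⁆) := by group
      rw [h4]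
      refine mul_mem (mem_sup_left ?_) (mem_sup_right h3)
      exact mul_mem (mul_mem (mul_mem hk hk') (inv_mem hk)) (inv_mem hk')
    calc N = K ⊔ L := ih.symm
      _ ≤ K ⊔ ⁅N, N⁆ := by
          apply sup_le_sup_left
          show ⁅N.lowerCentralSeries c, N⁆ ≤ ⁅N, N⁆
          exact commutator_mono (lowerCentralSeries_le_self N c) le_rfl
      _ ≤ K ⊔ L' := sup_le le_sup_left h1

/-- The derived subgroup and supplements. -/
theorem commutator_sup {G : Type} [Group G] {H N : Subgroup G} [N.Normal]
    (h : H ⊔ N = ⊤) : _root_.commutator G ≤ ⁅H, H⁆ ⊔ N := by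
  have h1 : H.map (QuotientGroup.mk' N) = ⊤ := by
    have h2 : (H ⊔ N).map (QuotientGroup.mk' N) = (⊤ : Subgroup G).map (QuotientGroup.mk' N) := by
      rw [h]
    rw [Subgroup.map_sup, ← MonoidHom.range_eq_map, QuotientGroup.range_mk'] at h2
    have h3 : N.map (QuotientGroup.mk' N) = ⊥ := by
      rw [Subgroup.map_eq_bot_iff, QuotientGroup.ker_mk']
    rwa [h3, sup_bot_eq] at h2
  intro g hg
  have h2 : QuotientGroup.mk' N g ∈ (_root_.commutator G).map (QuotientGroup.mk' N) :=
    mem_map_of_mem _ hg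
  rw [map_commutator_top _ (QuotientGroup.mk'_surjective N), _root_.commutator_def, ← h1,
    ← map_commutator] at h2
  obtain ⟨k, hk, hkg⟩ := h2
  have h3 : k⁻¹ * g ∈ N := by
    rw [← QuotientGroup.eq_one_iff]
    show QuotientGroup.mk' N (k⁻¹ * g) = 1
    rw [map_mul, map_inv, hkg, inv_mul_cancel]
  have h4 : g = k * (k⁻¹ * g) := by group
  rw [h4]
  exact mul_mem (mem_sup_left hk) (mem_sup_right h3)

/-- **Nilpotent-by-abelian quotients in the genus of the free group of rank two.** -/
theorem thmB {G : Type} [Group G] [Group.FG G] (h : SameFiniteQuotients G (FreeGroup (Fin 2))) :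
    ∃ f : FreeGroup (Fin 2) →* G, ∀ c : ℕ,
      f.range ⊔ (_root_.commutator G).lowerCentralSeries c = ⊤ ∧
      ((_root_.commutator G).lowerCentralSeries c).comap f =
        (_root_.commutator (FreeGroup (Fin 2))).lowerCentralSeries c := by
  have h0 : SameFiniteQuotients G (Gam 0) := same_of_equiv h free_equiv
  obtain ⟨eG⟩ := ab_equiv h0 (Gam_ab 0)
  obtain ⟨x₀, hx₀⟩ := of_surj (eG.symm (Multiplicative.ofAdd 1, 1))
  obtain ⟨y₀, hy₀⟩ := of_surj (eG.symm (1, Multiplicative.ofAdd 1))
  have hxy : closure ({Abelianization.of x₀, Abelianization.of y₀} : Set (Abelianization G)) = ⊤ := by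
    rw [hx₀, hy₀]; exact exists_basis eG
  obtain ⟨x, y, hx, hy, h1, -, -⟩ := structA 0 h0 hxy
  rw [← hx, ← hy] at hxy
  have hsup := sup_derived hxy h1
  let f : FreeGroup (Fin 2) →* G := FreeGroup.lift ![x, y]
  have hfr : f.range = closure ({x, y} : Set G) := by
    rw [MonoidHom.range_eq_map, ← FreeGroup.closure_range_of, MonoidHom.map_closure]
    congr 1
    ext z
    constructor
    · rintro ⟨_, ⟨s, rfl⟩, rfl⟩
      have : f (FreeGroup.of s) = ![x, y] s := FreeGroup.lift_apply_of
      rw [this]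
      fin_cases s
      · exact Or.inl rfl
      · exact Or.inr rfl
    · rintro (rfl | rfl)
      · exact ⟨_, ⟨0, rfl⟩, FreeGroup.lift_apply_of⟩
      · exact ⟨_, ⟨1, rfl⟩, FreeGroup.lift_apply_of⟩
  rw [← hfr] at hsup
  set H := f.range with hH
  have hKN : ⁅H, H⁆ ≤ _root_.commutator G := commutator_mono le_top le_top
  have hN : ⁅H, H⁆ ⊔ ⁅_root_.commutator G, _root_.commutator G⁆ = _root_.commutator G :=
    le_antisymm (sup_le hKN (commutator_le_left _ _)) (commutator_sup hsup)
  have hgen : ∀ c, H ⊔ (_root_.commutator G).lowerCentralSeries c = ⊤ := by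
    intro c
    rcases c with _ | c
    · rw [eq_top_iff, ← hsup]
      exact sup_le_sup_left (commutator_le_left _ _) _
    · have h2 := sup_lcs hKN hN c
      rw [eq_top_iff, ← hsup]
      apply sup_le le_sup_left
      refine (commutator_le_left _ _).trans ?_
      conv_lhs => rw [← h2]
      exact sup_le_sup_right (commutator_le_self H) _
  refine ⟨f, fun c => ⟨hgen c, le_antisymm ?_ ?_⟩⟩
  · intro w hw
    by_contra hne
    obtain ⟨Q, _, _, θ, hQ, hθ⟩ := sep_nil hne
    have hfg : Group.FG (FreeGroup (Fin 2)) := by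
      rw [Group.fg_iff]
      exact ⟨Set.range FreeGroup.of, FreeGroup.closure_range_of _, Set.finite_range _⟩
    have hker : ∀ φ : G →* Q, ∀ g ∈ (_root_.commutator G).lowerCentralSeries c, φ g = 1 := by
      intro φ g hg
      have h2 : φ g ∈ ((_root_.commutator G).lowerCentralSeries c).map φ := mem_map_of_mem φ hg
      rw [map_lowerCentralSeries] at h2
      have h3 : (_root_.commutator G).map φ ≤ _root_.commutator Q := by
        rw [_root_.commutator_def, _root_.commutator_def, map_commutator]
        exact commutator_mono le_top le_top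
      have h4 : φ g ∈ (_root_.commutator Q).lowerCentralSeries c := lowerCentralSeries_mono c h3 h2
      rw [hQ, Subgroup.mem_bot] at h4
      exact h4
    have hinj : Function.Injective (fun φ : G →* Q => φ.comp f) := by
      intro φ φ' hφ
      have h2 : H ⊔ (_root_.commutator G).lowerCentralSeries c ≤ MonoidHom.eqLocus φ φ' := by
        apply sup_le
        · rintro _ ⟨v, rfl⟩
          exact DFunLike.congr_fun hφ v
        · intro g hg
          show φ g = φ' g
          rw [hker φ g hg, hker φ' g hg]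
      rw [hgen c] at h2
      ext g
      exact h2 (mem_top g)
    have hcard : Nat.card (G →* Q) = Nat.card (FreeGroup (Fin 2) →* Q) := hc_eq_of_same Q h
    have hfin1 : Finite (G →* Q) := finite_hom G Q
    have hfin2 : Finite (FreeGroup (Fin 2) →* Q) := finite_hom _ Q
    have hbij := (Nat.bijective_iff_injective_and_card _).mpr ⟨hinj, hcard⟩
    obtain ⟨φ, hφ⟩ := hbij.2 θ
    apply hθ
    rw [← hφ]
    exact hker φ (f w) hw
  · rw [← map_le_iff_le_comap, map_lowerCentralSeries]
    apply lowerCentralSeries_mono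
    rw [_root_.commutator_def, _root_.commutator_def, map_commutator]
    exact commutator_mono le_top le_top

end Pool.Agent.Lib.MP_305fdd_al.Solv
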