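import Mathlib
import Pool.Agent.Lib.MP_305fdd_al.Solv.ThmB

/-!
# The free group of rank two is residually nilpotent
-/

set_option autoImplicit false

namespace Pool.Agent.Lib.MP_305fdd_al.Solv

open Subgroup Pool.Agent.MP_305fdd_al
open scoped commutatorElement Pointwise

/-- automorphisms of `ℤ × ℤ` -/
abbrev AA : Type := (ℤ × ℤ) ≃ₗ[ℤ] (ℤ × ℤ)

/-- nonzero vectors -/
def NZ : Type := {v : ℤ × ℤ // v ≠ 0}

instance actNZ : MulAction AA NZ where
  smul σ v := ⟨σ v.1, fun h => v.2 (by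
    have := congrArg σ.symm h
    simpa using this)⟩
  one_smul v := rfl
  mul_smul σ τ v := rfl

theorem smul_val (σ : AA) (v : NZ) : (σ • v).1 = σ v.1 := rfl

/-- the first elementary automorphism -/
def ea : AA where
  toFun v := (v.1 + 4 * v.2, v.2)
  invFun v := (v.1 - 4 * v.2, v.2)
  left_inv v := by ext <;> simp
  right_inv v := by ext <;> simp
  map_add' v w := by
    ext
    · simp only [Prod.fst_add, Prod.snd_add]; ring
    · simp only [Prod.snd_add]
  map_smul' c v := by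
    ext
    · simp only [Prod.smul_fst, Prod.smul_snd, smul_eq_mul, RingHom.id_apply]; ring
    · simp

/-- the second elementary automorphism -/
def eb : AA where
  toFun v := (v.1, v.2 + 4 * v.1)
  invFun v := (v.1, v.2 - 4 * v.1)
  left_inv v := by ext <;> simp
  right_inv v := by ext <;> simp
  map_add' v w := by
    ext
    · simp only [Prod.fst_add]
    · simp only [Prod.fst_add, Prod.snd_add]; ring
  map_smul' c v := by
    ext
    · simp
    · simp only [Prod.smul_fst, Prod.smul_snd, smul_eq_mul, RingHom.id_apply]; ring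

theorem ea_apply (v : ℤ × ℤ) : ea v = (v.1 + 4 * v.2, v.2) := rfl
theorem eb_apply (v : ℤ × ℤ) : eb v = (v.1, v.2 + 4 * v.1) := rfl
theorem ea_inv_apply (v : ℤ × ℤ) : (ea⁻¹ : AA) v = (v.1 - 4 * v.2, v.2) := rfl
theorem eb_inv_apply (v : ℤ × ℤ) : (eb⁻¹ : AA) v = (v.1, v.2 - 4 * v.1) := rfl

/-- the representation -/
def rho : FreeGroup (Fin 2) →* AA := FreeGroup.lift ![ea, eb]

/-- ping-pong sets -/
def PX : Fin 2 → Set NZ :=
  ![{v | v.1.2 ^ 2 < v.1.1 ^ 2 ∧ 0 ≤ v.1.1 * v.1.2}, {v | v.1.1 ^ 2 < v.1.2 ^ 2 ∧ 0 ≤ v.1.1 * v.1.2}]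

/-- ping-pong sets -/
def PY : Fin 2 → Set NZ :=
  ![{v | v.1.2 ^ 2 < v.1.1 ^ 2 ∧ v.1.1 * v.1.2 < 0}, {v | v.1.1 ^ 2 < v.1.2 ^ 2 ∧ v.1.1 * v.1.2 < 0}]

theorem nz_pos (v : NZ) : 0 < v.1.1 ^ 2 + v.1.2 ^ 2 := by
  obtain ⟨⟨x, y⟩, h⟩ := v
  show 0 < x ^ 2 + y ^ 2
  by_contra hcon
  rw [not_lt] at hcon
  have hx : x = 0 := by nlinarith [sq_nonneg x, sq_nonneg y]
  have hy : y = 0 := by nlinarith [sq_nonneg x, sq_nonneg y]
  exact h (by rw [hx, hy]; rfl)

theorem pp1 {x y : ℤ} (h0 : 0 < x ^ 2 + y ^ 2) (h : ¬ (y ^ 2 < x ^ 2 ∧ x * y < 0)) :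
    y ^ 2 < (x + 4 * y) ^ 2 ∧ 0 ≤ (x + 4 * y) * y := by
  rw [not_and_or, not_lt, not_lt] at h
  rcases h with h | h
  · constructor <;> nlinarith [sq_nonneg (x + y), sq_nonneg (x - y), sq_nonneg y]
  · constructor <;> nlinarith [sq_nonneg (x + y), sq_nonneg (x - y), sq_nonneg y, sq_nonneg x]

theorem pp2 {x y : ℤ} (h0 : 0 < x ^ 2 + y ^ 2) (h : ¬ (y ^ 2 < x ^ 2 ∧ 0 ≤ x * y)) :
    y ^ 2 < (x - 4 * y) ^ 2 ∧ (x - 4 * y) * y < 0 := by
  rw [not_and_or, not_lt, not_le] at h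
  rcases h with h | h
  · constructor <;> nlinarith [sq_nonneg (x + y), sq_nonneg (x - y), sq_nonneg y]
  · constructor <;> nlinarith [sq_nonneg (x + y), sq_nonneg (x - y), sq_nonneg y, sq_nonneg x]

theorem rho_injective : Function.Injective rho := by
  apply FreeGroup.injective_lift_of_ping_pong (α := NZ) _ PX PY
  · intro i
    fin_cases i
    · exact ⟨⟨(1, 0), by simp⟩, by show (0 : ℤ) ^ 2 < 1 ^ 2 ∧ (0 : ℤ) ≤ 1 * 0; norm_num⟩
    · exact ⟨⟨(0, 1), by simp⟩, by show (0 : ℤ) ^ 2 < 1 ^ 2 ∧ (0 : ℤ) ≤ 0 * 1; norm_num⟩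
  · intro i j hij
    show Disjoint (PX i) (PX j)
    rw [Set.disjoint_left]
    intro v h1 h2
    fin_cases i <;> fin_cases j
    · exact hij rfl
    · exact absurd h1.1 (not_lt.mpr h2.1.le)
    · exact absurd h1.1 (not_lt.mpr h2.1.le)
    · exact hij rfl
  · intro i j hij
    show Disjoint (PY i) (PY j)
    rw [Set.disjoint_left]
    intro v h1 h2
    fin_cases i <;> fin_cases j
    · exact hij rfl
    · exact absurd h1.1 (not_lt.mpr h2.1.le)
    · exact absurd h1.1 (not_lt.mpr h2.1.le)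
    · exact hij rfl
  · intro i j
    rw [Set.disjoint_left]
    intro v h1 h2
    fin_cases i <;> fin_cases j
    · exact absurd h2.2 (not_lt.mpr h1.2)
    · exact absurd h2.2 (not_lt.mpr h1.2)
    · exact absurd h2.2 (not_lt.mpr h1.2)
    · exact absurd h2.2 (not_lt.mpr h1.2)
  · intro i
    rintro _ ⟨v, hv, rfl⟩
    have hpos := nz_pos v
    fin_cases i
    · exact pp1 hpos hv
    · have h1 := pp1 (x := v.1.2) (y := v.1.1) (by linarith) (by
        rw [mul_comm]; exact hv)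
      show v.1.1 ^ 2 < (v.1.2 + 4 * v.1.1) ^ 2 ∧ 0 ≤ v.1.1 * (v.1.2 + 4 * v.1.1)
      rw [mul_comm v.1.1]
      exact h1
  · intro i
    rintro _ ⟨v, hv, rfl⟩
    have hpos := nz_pos v
    fin_cases i
    · exact pp2 hpos hv
    · have h1 := pp2 (x := v.1.2) (y := v.1.1) (by linarith) (by
        rw [mul_comm]; exact hv)
      show v.1.1 ^ 2 < (v.1.2 - 4 * v.1.1) ^ 2 ∧ v.1.1 * (v.1.2 - 4 * v.1.1) < 0
      rw [mul_comm v.1.1]
      exact h1

/-- congruence subgroups -/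
def UU (n : ℕ) : Subgroup AA where
  carrier := {σ | ∀ v, ∃ u, σ v = v + (2 ^ n : ℤ) • u}
  one_mem' v := ⟨0, by simp⟩
  mul_mem' := by
    intro σ τ hσ hτ v
    obtain ⟨u, hu⟩ := hτ v
    obtain ⟨w, hw⟩ := hσ v
    refine ⟨w + σ u, ?_⟩
    show σ (τ v) = _
    rw [hu, map_add, map_smul, hw, smul_add, add_assoc]
  inv_mem' := by
    intro σ hσ v
    obtain ⟨u, hu⟩ := hσ (σ.symm v)
    refine ⟨-u, ?_⟩
    show σ.symm v = _
    rw [LinearEquiv.apply_symm_apply] at hu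
    rw [smul_neg, ← sub_eq_add_neg, eq_sub_iff_add_eq]
    exact hu.symm

theorem UU_comm (a b : ℕ) : ⁅UU a, UU b⁆ ≤ UU (a + b) := by
  rw [commutator_le]
  intro σ hσ τ hτ v
  set w := σ.symm (τ.symm v) with hw
  have hv : τ (σ w) = v := by
    rw [hw, LinearEquiv.apply_symm_apply, LinearEquiv.apply_symm_apply]
  have h1 : ⁅σ, τ⁆ v = σ (τ w) := rfl
  obtain ⟨p, hp⟩ := hσ w
  obtain ⟨q, hq⟩ := hτ w
  obtain ⟨q', hq'⟩ := hσ q
  obtain ⟨p', hp'⟩ := hτ p
  refine ⟨q' - p', ?_⟩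
  rw [h1, ← hv, hq, hp, map_add, map_add, map_smul, map_smul, hp, hq, hp', hq']
  simp only [smul_add, smul_sub, smul_smul, ← pow_add, add_comm b a]
  abel

theorem rho_mem (w : FreeGroup (Fin 2)) : rho w ∈ UU 1 := by
  have h1 : (⊤ : Subgroup (FreeGroup (Fin 2))) ≤ (UU 1).comap rho := by
    rw [← FreeGroup.closure_range_of, closure_le]
    rintro _ ⟨i, rfl⟩
    show rho (FreeGroup.of i) ∈ UU 1
    rw [rho, FreeGroup.lift_apply_of]
    fin_cases i
    · intro v
      exact ⟨(2 * v.2, 0), by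
        show (v.1 + 4 * v.2, v.2) = _
        ext
        · simp; ring
        · simp⟩
    · intro v
      exact ⟨(0, 2 * v.1), by
        show (v.1, v.2 + 4 * v.1) = _
        ext
        · simp
        · simp; ring⟩
  exact h1 (mem_top w)

theorem lcs_le_UU (c : ℕ) : ((_root_.commutator (FreeGroup (Fin 2))).lowerCentralSeries c).map rho ≤
    UU (c + 1) := by
  induction c with
  | zero =>
    rintro _ ⟨w, _, rfl⟩
    exact rho_mem w
  | succ c ih =>
    have h1 : (_root_.commutator (FreeGroup (Fin 2))).lowerCentralSeries (c + 1) =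
        ⁅(_root_.commutator (FreeGroup (Fin 2))).lowerCentralSeries c,
          _root_.commutator (FreeGroup (Fin 2))⁆ := rfl
    rw [h1, map_commutator]
    refine (commutator_mono ih ?_).trans (UU_comm (c + 1) 1)
    rintro _ ⟨w, _, rfl⟩
    exact rho_mem w

theorem eq_zero_of_pow {x : ℤ} (h : ∀ n : ℕ, (2 ^ n : ℤ) ∣ x) : x = 0 := by
  apply Int.eq_zero_of_abs_lt_dvd (h x.natAbs)
  rw [Int.abs_eq_natAbs]
  exact_mod_cast Nat.lt_two_pow_self

/-- residual nilpotence -/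
theorem res_nil {w : FreeGroup (Fin 2)}
    (h : ∀ c, w ∈ (_root_.commutator (FreeGroup (Fin 2))).lowerCentralSeries c) : w = 1 := by
  apply rho_injective
  rw [map_one]
  apply LinearEquiv.ext
  intro v
  have h1 : ∀ n : ℕ, ∃ u, rho w v = v + (2 ^ n : ℤ) • u := by
    intro n
    obtain ⟨u, hu⟩ := lcs_le_UU n (mem_map_of_mem rho (h n)) v
    refine ⟨(2 : ℤ) • u, ?_⟩
    rw [hu, smul_smul, ← pow_succ]
  show rho w v = v
  have h2 : (rho w v).1 - v.1 = 0 := by
    apply eq_zero_of_pow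
    intro n
    obtain ⟨u, hu⟩ := h1 n
    exact ⟨u.1, by rw [hu]; simp⟩
  have h3 : (rho w v).2 - v.2 = 0 := by
    apply eq_zero_of_pow
    intro n
    obtain ⟨u, hu⟩ := h1 n
    exact ⟨u.2, by rw [hu]; simp⟩
  ext
  · linarith
  · linarith

/-- **Nilpotent-by-abelian quotients in the genus of the free group of rank two.** -/
theorem thmB' {G : Type} [Group G] [Group.FG G] (h : SameFiniteQuotients G (FreeGroup (Fin 2))) :
    ∃ f : FreeGroup (Fin 2) →* G, Function.Injective f ∧ ∀ c : ℕ,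
      f.range ⊔ (_root_.commutator G).lowerCentralSeries c = ⊤ ∧
      ((_root_.commutator G).lowerCentralSeries c).comap f =
        (_root_.commutator (FreeGroup (Fin 2))).lowerCentralSeries c := by
  obtain ⟨f, hf⟩ := thmB h
  refine ⟨f, ?_, hf⟩
  rw [injective_iff_map_eq_one]
  intro w hw
  apply res_nil
  intro c
  rw [← (hf c).2, Subgroup.mem_comap, hw]
  exact one_mem _

end Pool.Agent.Lib.MP_305fdd_al.Solv
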