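import Mathlib
import Pool.Agent.Lib.MP_305fdd_al.Solv.Gen

/-!
# Units of `(ℤ / k)[ℤ²]` and a vanishing theorem for the cohomology of the group of order six
-/

set_option autoImplicit false

namespace Pool.Agent.Lib.MP_305fdd_al.Solv

open MonoidAlgebra

section units

theorem two_unique {A : Type} [CommGroup A] (e : A ≃* A0) : TwoUniqueProds A :=
  e.twoUniqueProds_iff.mpr inferInstance

/-- units of group rings of torsion-free abelian groups over domains are trivial -/
theorem unit_single {K A : Type} [CommRing K] [IsDomain K] [CommGroup A] [TwoUniqueProds A]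
    {u v : MonoidAlgebra K A} (h : u * v = 1) : ∃ (a : A) (l : K), u = single a l := by
  classical
  have hu : u ≠ 0 := by
    rintro rfl
    rw [zero_mul] at h
    exact zero_ne_one h
  have hv : v ≠ 0 := by
    rintro rfl
    rw [mul_zero] at h
    exact zero_ne_one h
  have hu' : 0 < u.coeff.support.card := by
    rw [Finset.card_pos, Finsupp.support_nonempty_iff]
    exact fun h => hu (MonoidAlgebra.coeff_eq_zero.mp h)
  have hv' : 0 < v.coeff.support.card := by
    rw [Finset.card_pos, Finsupp.support_nonempty_iff]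
    exact fun h => hv (MonoidAlgebra.coeff_eq_zero.mp h)
  by_cases hc : 1 < u.coeff.support.card * v.coeff.support.card
  · exfalso
    obtain ⟨p1, h1, p2, h2, hne, hq1, hq2⟩ := TwoUniqueProds.uniqueMul_of_one_lt_card hc
    rw [Finset.mem_product] at h1 h2
    have e1 := coeff_mul_mul_of_uniqueMul hq1
    have e2 := coeff_mul_mul_of_uniqueMul hq2
    rw [h] at e1 e2
    have n1 : u.coeff p1.1 * v.coeff p1.2 ≠ 0 :=
      mul_ne_zero (Finsupp.mem_support_iff.mp h1.1) (Finsupp.mem_support_iff.mp h1.2)
    have n2 : u.coeff p2.1 * v.coeff p2.2 ≠ 0 :=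
      mul_ne_zero (Finsupp.mem_support_iff.mp h2.1) (Finsupp.mem_support_iff.mp h2.2)
    rw [← e1, MonoidAlgebra.one_def, MonoidAlgebra.coeff_single] at n1
    rw [← e2, MonoidAlgebra.one_def, MonoidAlgebra.coeff_single] at n2
    have m1 : p1.1 * p1.2 = 1 := by
      by_contra hne
      exact n1 (Finsupp.single_eq_of_ne (by simpa using hne))
    have m2 : p2.1 * p2.2 = 1 := by
      by_contra hne
      exact n2 (Finsupp.single_eq_of_ne (by simpa using hne))
    obtain ⟨a1, a2⟩ := hq1 h2.1 h2.2 (by rw [m1, m2])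
    exact hne (Prod.ext a1 a2).symm
  · have h1 : u.coeff.support.card = 1 := by
      have h2 : u.coeff.support.card * 1 ≤ u.coeff.support.card * v.coeff.support.card :=
        Nat.mul_le_mul_left _ hv'
      omega
    rw [Finsupp.card_support_eq_one'] at h1
    obtain ⟨a, l, -, hl⟩ := h1
    exact ⟨a, l, MonoidAlgebra.coeff_injective hl⟩

theorem dvd_iff_map {A : Type} [CommGroup A] {k : ℕ} {x : MonoidAlgebra ℤ A} :
    (k : MonoidAlgebra ℤ A) ∣ x ↔ mapRingHom A (Int.castRingHom (ZMod k)) x = 0 := by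
  rw [← RingHom.mem_ker, ker_map, Ideal.mem_span_singleton]

theorem aug_dvd {A : Type} [CommGroup A] {k : ℕ} {x : MonoidAlgebra ℤ A}
    (h : (k : MonoidAlgebra ℤ A) ∣ x) : (k : ℤ) ∣ aug A x := by
  obtain ⟨y, rfl⟩ := h
  rw [map_mul, map_natCast]
  exact Dvd.intro _ rfl

theorem coeff_dvd_iff {A : Type} [CommGroup A] {k : ℕ} {x : MonoidAlgebra ℤ A} :
    (k : MonoidAlgebra ℤ A) ∣ x ↔ ∀ a, (k : ℤ) ∣ x.coeff a := by
  rw [dvd_iff_map]
  constructor
  · intro h a
    have := congrArg (fun s => s.coeff a) h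
    simp only [coeff_mapRingHom] at this
    exact (ZMod.intCast_zmod_eq_zero_iff_dvd _ _).mp this
  · intro h
    ext a
    rw [coeff_mapRingHom]
    exact (ZMod.intCast_zmod_eq_zero_iff_dvd _ _).mpr (h a)

/-- units modulo `0` or a prime with augmentation one are group elements -/
theorem unit_base {A : Type} [CommGroup A] [TwoUniqueProds A] {k : ℕ} [IsDomain (ZMod k)]
    {u v : MonoidAlgebra ℤ A} (h : (k : MonoidAlgebra ℤ A) ∣ u * v - 1)
    (haug : (k : ℤ) ∣ aug A u - 1) : ∃ a : A, (k : MonoidAlgebra ℤ A) ∣ u - of ℤ A a := by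
  rw [dvd_iff_map, map_sub, map_mul, map_one, sub_eq_zero] at h
  obtain ⟨a, l, hl⟩ := unit_single h
  obtain ⟨z, rfl⟩ := ZMod.intCast_surjective l
  have h1 : (k : MonoidAlgebra ℤ A) ∣ u - (z : MonoidAlgebra ℤ A) * of ℤ A a := by
    rw [dvd_iff_map, map_sub, hl, sub_eq_zero, map_mul, map_intCast]
    rw [← zsmul_eq_mul]
    simp
  have h2 := aug_dvd h1
  rw [map_sub, map_mul, aug_of, aug_intCast, mul_one] at h2
  have h3 : (k : ℤ) ∣ z - 1 := by
    have := dvd_sub haug h2
    have e : aug A u - 1 - (aug A u - z) = z - 1 := by ring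
    rwa [e] at this
  refine ⟨a, ?_⟩
  have h4 : (k : MonoidAlgebra ℤ A) ∣ ((z - 1 : ℤ) : MonoidAlgebra ℤ A) := by
    obtain ⟨y, hy⟩ := h3
    exact ⟨y, by rw [hy]; push_cast; rfl⟩
  have h5 : u - of ℤ A a = (u - (z : MonoidAlgebra ℤ A) * of ℤ A a) +
      ((z - 1 : ℤ) : MonoidAlgebra ℤ A) * of ℤ A a := by push_cast; ring
  rw [h5]
  exact dvd_add h1 (Dvd.dvd.mul_right h4 _)

end units

section H1

variable {A : Type} [CommGroup A] {α : A →* A}

theorem alpha3 (hα : ∀ a, α (α a) * a = α a) (a : A) : α (α (α a)) = a⁻¹ := by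
  have h1 : ∀ a, α (α a) = α a * a⁻¹ := fun a => eq_mul_inv_of_mul_eq (hα a)
  rw [h1 a, map_mul, map_inv, h1 a]
  exact mul_inv_cancel_comm _ _

theorem alpha6 (hα : ∀ a, α (α a) * a = α a) (a : A) : α^[6] a = a := by
  show α (α (α (α (α (α a))))) = a
  rw [alpha3 hα, alpha3 hα, inv_inv]

theorem alpha_inj (hα : ∀ a, α (α a) * a = α a) : Function.Injective α := by
  intro a b h
  rw [← alpha6 hα a, ← alpha6 hα b]
  show α (α (α (α (α (α a))))) = α (α (α (α (α (α b)))))
  rw [h]

/-- the action is free outside the identity -/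
theorem alpha_free (hα : ∀ a, α (α a) * a = α a)
    (htf : ∀ (n : ℕ) (a : A), 0 < n → a ^ n = 1 → a = 1) {a : A} {i : ℕ} (hi : 0 < i)
    (hi6 : i < 6) (h : α^[i] a = a) : a = 1 := by
  have c1 : ∀ b : A, α b = b → b = 1 := by
    intro b hb
    have := hα b
    rw [hb, hb] at this
    exact mul_eq_left.mp this
  have c2 : ∀ b : A, α (α b) = b → b = 1 := by
    intro b hb
    have h1 := hα b
    rw [hb] at h1
    have h2 : α (α b) = α (b * b) := by rw [h1]
    rw [hb, map_mul, ← h1] at h2
    apply htf 3 b (by norm_num)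
    have h3 : b * 1 = b * (b ^ 3) := by
      rw [mul_one]
      calc b = b * b * (b * b) := h2
        _ = b * b ^ 3 := by rw [pow_succ, pow_two]; simp only [mul_assoc]
    exact (mul_left_cancel h3).symm
  interval_cases i
  · exact c1 a h
  · exact c2 a h
  · have h1 : α (α (α a)) = a := h
    rw [alpha3 hα] at h1
    apply htf 2 a (by norm_num)
    rw [pow_two]
    nth_rewrite 1 [← h1]
    exact inv_mul_cancel a
  · have h1 : α (α (α (α a))) = a := h
    rw [alpha3 hα] at h1
    apply c2
    have h2 : α a = a⁻¹ := by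
      have := congrArg (fun x => x⁻¹) h1
      simpa using this
    rw [h2, map_inv, h2, inv_inv]
  · have h1 : α (α (α (α (α a)))) = a := h
    apply c1
    have h2 := alpha6 hα a
    have h3 : α (α (α (α (α (α a))))) = a := h2
    rw [h1] at h3
    exact h3

theorem iter_inj (hα : ∀ a, α (α a) * a = α a) (n : ℕ) : Function.Injective (α^[n]) :=
  (alpha_inj hα).iterate n

/-- a position function on the orbits -/
theorem exists_index (hα : ∀ a, α (α a) * a = α a)
    (htf : ∀ (n : ℕ) (a : A), 0 < n → a ^ n = 1 → a = 1) :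
    ∃ (ρ : A → A) (i : A → ℕ), (∀ a, ρ (α a) = ρ a) ∧ (∀ a, a ≠ 1 → i a < 6) ∧
      (∀ a, α^[i a] (ρ a) = a) ∧ (∀ a, a ≠ 1 → (i a < 5 ∧ i (α a) = i a + 1) ∨
        (i a = 5 ∧ i (α a) = 0)) := by
  classical
  let orb : A → Set A := fun a => {b | ∃ j < 6, b = α^[j] a}
  have horb : ∀ a, orb (α a) = orb a := by
    intro a
    ext b
    constructor
    · rintro ⟨j, hj, rfl⟩
      rcases Nat.lt_or_ge j 5 with h | h
      · exact ⟨j + 1, by omega, by rw [Function.iterate_succ_apply]⟩
      · have : j = 5 := by omega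
        subst this
        exact ⟨0, by norm_num, (by
          rw [← Function.iterate_succ_apply]
          exact alpha6 hα a)⟩
    · rintro ⟨j, hj, rfl⟩
      rcases j with _ | j
      · exact ⟨5, by norm_num, (by
          rw [← Function.iterate_succ_apply]
          exact (alpha6 hα a).symm)⟩
      · exact ⟨j, by omega, by rw [Function.iterate_succ_apply]⟩
  have hne : ∀ a, a ∈ orb a := fun a => ⟨0, by norm_num, rfl⟩
  let ρ : A → A := fun a => if h : (orb a).Nonempty then h.some else a
  have hρ : ∀ a, ρ a ∈ orb a := by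
    intro a
    have h : (orb a).Nonempty := ⟨a, hne a⟩
    show (if h : (orb a).Nonempty then h.some else a) ∈ orb a
    rw [dif_pos h]
    exact h.some_mem
  have hρα : ∀ a, ρ (α a) = ρ a := by
    intro a
    have h : (orb a).Nonempty := ⟨a, hne a⟩
    have h' : (orb (α a)).Nonempty := ⟨α a, hne _⟩
    show (if h : (orb (α a)).Nonempty then h.some else α a) = (if h : (orb a).Nonempty then h.some else a)
    rw [dif_pos h, dif_pos h']
    have key : ∀ (S T : Set A) (hS : S.Nonempty) (hT : T.Nonempty), S = T → hS.some = hT.some := by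
      rintro S _ hS hT rfl
      rfl
    exact key _ _ _ _ (horb a)
  have hex : ∀ a, ∃ j, j < 6 ∧ α^[j] (ρ a) = a := by
    intro a
    obtain ⟨j, hj, h⟩ := hρ a
    rcases Nat.eq_zero_or_pos j with h0 | h0
    · subst h0
      exact ⟨0, by norm_num, by rw [h]; rfl⟩
    · refine ⟨6 - j, by omega, ?_⟩
      rw [h, ← Function.iterate_add_apply]
      have : 6 - j + j = 6 := by omega
      rw [this]
      exact alpha6 hα a
  choose i hi1 hi2 using hex
  have huniq : ∀ (b : A) (j l : ℕ), b ≠ 1 → j < 6 → l < 6 → α^[j] b = α^[l] b → j = l := by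
    have aux : ∀ (b : A) (j l : ℕ), b ≠ 1 → j < 6 → l < 6 → j < l → α^[j] b ≠ α^[l] b := by
      intro b j l hb hj hl hjl h
      apply hb
      have h1 : α^[j] (α^[l - j] b) = α^[j] b := by
        rw [← Function.iterate_add_apply, Nat.add_sub_cancel' hjl.le]
        exact h.symm
      exact alpha_free hα htf (by omega) (by omega) (iter_inj hα j h1)
    intro b j l hb hj hl h
    rcases lt_trichotomy j l with h1 | h1 | h1
    · exact absurd h (aux b j l hb hj hl h1)
    · exact h1
    · exact absurd h.symm (aux b l j hb hl hj h1)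
  have hρ1 : ∀ a, a ≠ 1 → ρ a ≠ 1 := by
    intro a ha h
    apply ha
    rw [← hi2 a, h]
    have : ∀ n : ℕ, α^[n] (1 : A) = 1 := by
      intro n
      induction n with
      | zero => rfl
      | succ n ih => rw [Function.iterate_succ_apply, map_one, ih]
    exact this _
  refine ⟨ρ, i, hρα, fun a _ => hi1 a, hi2, ?_⟩
  intro a ha
  have h1 : α^[i (α a)] (ρ a) = α a := by rw [← hρα a]; exact hi2 (α a)
  have h2 : α^[i a + 1] (ρ a) = α a := by
    rw [Function.iterate_succ_apply', hi2 a]
  rcases Nat.lt_or_ge (i a) 5 with h | h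
  · left
    exact ⟨h, huniq _ _ _ (hρ1 a ha) (hi1 _) (by omega) (h1.trans h2.symm)⟩
  · right
    have h5 : i a = 5 := by have := hi1 a; omega
    refine ⟨h5, huniq _ _ _ (hρ1 a ha) (hi1 _) (by norm_num) ?_⟩
    rw [h1, ← h2, h5]
    exact alpha6 hα _

/-- the induced automorphism of the group ring -/
noncomputable abbrev tau (α : A →* A) : MonoidAlgebra ℤ A →+* MonoidAlgebra ℤ A :=
  mapDomainRingHom ℤ α

theorem tau_of (α : A →* A) (a : A) : tau α (of ℤ A a) = of ℤ A (α a) := by
  simp

theorem coeff_tau (hinj : Function.Injective α) (s : MonoidAlgebra ℤ A) (a : A) :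
    (tau α s).coeff (α a) = s.coeff a := by
  show (MonoidAlgebra.mapDomain α s).coeff (α a) = s.coeff a
  rw [MonoidAlgebra.coeff_mapDomain]
  exact Finsupp.mapDomain_apply hinj _ _

theorem coeff_tau_iter (hinj : Function.Injective α) (n : ℕ) (s : MonoidAlgebra ℤ A) (a : A) :
    ((tau α)^[n] s).coeff (α^[n] a) = s.coeff a := by
  induction n with
  | zero => rfl
  | succ n ih =>
    rw [Function.iterate_succ_apply', Function.iterate_succ_apply', coeff_tau hinj, ih]

theorem aug_tau (s : MonoidAlgebra ℤ A) : aug A (tau α s) = aug A s := by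
  have : ((aug A).toRingHom.comp (tau α)) = (aug A).toRingHom := by
    apply MonoidAlgebra.ringHom_ext
    · intro z
      exact RingHom.congr_fun (RingHom.ext_int
        (((aug A).toRingHom.comp (tau α)).comp (algebraMap ℤ _))
        ((aug A).toRingHom.comp (algebraMap ℤ _))) z
    · intro a
      show aug A (tau α (of ℤ A a)) = aug A (of ℤ A a)
      rw [tau_of, aug_of, aug_of]
  exact RingHom.congr_fun this s

/-- additive vanishing theorem -/
theorem h1_add (hα : ∀ a, α (α a) * a = α a)
    (htf : ∀ (n : ℕ) (a : A), 0 < n → a ^ n = 1 → a = 1) {p : ℕ} {r : MonoidAlgebra ℤ A}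
    (hN : (p : MonoidAlgebra ℤ A) ∣ ∑ j ∈ Finset.range 6, (tau α)^[j] r)
    (haug : (p : ℤ) ∣ aug A r) :
    ∃ s : MonoidAlgebra ℤ A, aug A s = 0 ∧ (p : MonoidAlgebra ℤ A) ∣ r - s + tau α s := by
  classical
  have hinj := alpha_inj hα
  obtain ⟨ρ, i, hρα, hi6, hi, hii⟩ := exists_index hα htf
  let f : A → ℤ := fun a => if a = 1 then 0 else ∑ l ∈ Finset.range (i a), r.coeff (α^[l + 1] (ρ a))
  have hfin : (Function.support f).Finite := by
    have h1 : Function.support f ⊆ ⋃ j ∈ Finset.range 7, (α^[j]) ⁻¹' (r.coeff.support : Set A) := by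
      intro a ha
      have ha' : f a ≠ 0 := ha
      by_cases ha1 : a = 1
      · exact absurd (by show (if a = 1 then _ else _) = _; rw [if_pos ha1]) ha'
      · have ha2 : ∑ l ∈ Finset.range (i a), r.coeff (α^[l + 1] (ρ a)) ≠ 0 := by
          have : f a = ∑ l ∈ Finset.range (i a), r.coeff (α^[l + 1] (ρ a)) := if_neg ha1
          rwa [← this]
        obtain ⟨l, hl, hl'⟩ := Finset.exists_ne_zero_of_sum_ne_zero ha2
        rw [Finset.mem_range] at hl
        have h6 := hi6 a ha1
        have h3 : ρ a = α^[6 - i a] a := by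
          have h4 := congrArg (α^[6 - i a]) (hi a)
          rw [← Function.iterate_add_apply, Nat.sub_add_cancel h6.le] at h4
          rw [← h4]
          exact (alpha6 hα _).symm
        rw [h3, ← Function.iterate_add_apply] at hl'
        rw [Set.mem_iUnion₂]
        refine ⟨l + 1 + (6 - i a), by rw [Finset.mem_range]; omega, ?_⟩
        rw [Set.mem_preimage, Finset.mem_coe, Finsupp.mem_support_iff]
        exact hl'
    refine Set.Finite.subset ?_ h1
    refine Set.Finite.biUnion (Finset.finite_toSet _) ?_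
    intro j _
    exact Set.Finite.preimage ((iter_inj hα j).injOn) (Finset.finite_toSet _)
  let s : MonoidAlgebra ℤ A := MonoidAlgebra.ofCoeff (Finsupp.ofSupportFinite f hfin)
  have hs : ∀ a, s.coeff a = f a := fun a => rfl
  have key : ∀ b : A, b ≠ 1 → (p : ℤ) ∣ (r - s + tau α s).coeff b := by
    intro b hb
    obtain ⟨a, rfl⟩ : ∃ a, α a = b := ⟨α^[5] b, by
      rw [← Function.iterate_succ_apply' α]; exact alpha6 hα b⟩
    have ha : a ≠ 1 := by
      rintro rfl
      exact hb (map_one α)
    have e1 : (r - s + tau α s).coeff (α a) = r.coeff (α a) - f (α a) + f a := by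
      rw [MonoidAlgebra.coeff_add, MonoidAlgebra.coeff_sub, Finsupp.add_apply, Finsupp.sub_apply,
        coeff_tau hinj, hs, hs]
    have e2 : f a = ∑ l ∈ Finset.range (i a), r.coeff (α^[l + 1] (ρ a)) := if_neg ha
    have e3 : f (α a) = ∑ l ∈ Finset.range (i (α a)), r.coeff (α^[l + 1] (ρ a)) := by
      rw [← hρα a]
      exact if_neg hb
    rw [e1, e2, e3]
    have e4 : α a = α^[i a + 1] (ρ a) := by rw [Function.iterate_succ_apply', hi a]
    rcases hii a ha with ⟨h5, h⟩ | ⟨h5, h⟩
    · rw [h, Finset.sum_range_succ, ← e4]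
      have : r.coeff (α a) - (∑ l ∈ Finset.range (i a), r.coeff (α^[l + 1] (ρ a)) + r.coeff (α a)) +
          ∑ l ∈ Finset.range (i a), r.coeff (α^[l + 1] (ρ a)) = 0 := by ring
      rw [this]
      exact dvd_zero _
    · rw [h, h5, Finset.range_zero, Finset.sum_empty, sub_zero]
      have e5 : r.coeff (α a) = r.coeff (ρ a) := by
        rw [e4, h5]
        exact congrArg r.coeff (alpha6 hα _)
      have e6 := coeff_dvd_iff.mp hN (ρ a)
      have e7 : ∀ j ≤ 6, ((tau α)^[j] r).coeff (ρ a) = r.coeff (α^[6 - j] (ρ a)) := by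
        intro j hj
        have h1 : α^[j] (α^[6 - j] (ρ a)) = ρ a := by
          rw [← Function.iterate_add_apply, Nat.add_sub_cancel' hj]
          exact alpha6 hα _
        nth_rewrite 1 [← h1]
        exact coeff_tau_iter hinj j r _
      rw [MonoidAlgebra.coeff_sum, Finsupp.finsetSum_apply] at e6
      have e8 : r.coeff (α a) + ∑ l ∈ Finset.range 5, r.coeff (α^[l + 1] (ρ a)) =
          ∑ j ∈ Finset.range 6, ((tau α)^[j] r).coeff (ρ a) := by
        rw [e5]
        simp only [Finset.sum_range_succ, Finset.sum_range_zero, zero_add]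
        rw [e7 0 (by norm_num), e7 1 (by norm_num), e7 2 (by norm_num), e7 3 (by norm_num),
          e7 4 (by norm_num), e7 5 (by norm_num)]
        have h6 : α^[6] (ρ a) = ρ a := alpha6 hα _
        norm_num [h6]
        ring
      rw [e8]
      exact e6
  set x := r - s + tau α s with hx
  have hx1 : (p : MonoidAlgebra ℤ A) ∣ x - ((x.coeff 1 : ℤ) : MonoidAlgebra ℤ A) := by
    rw [coeff_dvd_iff]
    intro b
    have h1 : ((x.coeff 1 : ℤ) : MonoidAlgebra ℤ A) = single 1 (x.coeff 1) := by
      rw [← mul_one ((x.coeff 1 : ℤ) : MonoidAlgebra ℤ A), ← zsmul_eq_mul, MonoidAlgebra.one_def]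
      simp
    rw [MonoidAlgebra.coeff_sub, Finsupp.sub_apply, h1, MonoidAlgebra.coeff_single]
    by_cases hb : b = 1
    · subst hb
      rw [Finsupp.single_eq_same, sub_self]
      exact dvd_zero _
    · rw [Finsupp.single_eq_of_ne (by simpa using hb), sub_zero]
      exact key b hb
  have haugx : aug A x = aug A r := by
    rw [hx, map_add, map_sub, aug_tau]; ring
  have h2 := aug_dvd hx1
  rw [map_sub, haugx, aug_intCast] at h2
  have h3 : (p : ℤ) ∣ x.coeff 1 := by
    have := dvd_sub haug h2
    have e : aug A r - (aug A r - x.coeff 1) = x.coeff 1 := by ring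
    rwa [e] at this
  refine ⟨s - ((aug A s : ℤ) : MonoidAlgebra ℤ A), ?_, ?_⟩
  · rw [map_sub, aug_intCast, sub_self]
  · have e : r - (s - ((aug A s : ℤ) : MonoidAlgebra ℤ A)) +
        tau α (s - ((aug A s : ℤ) : MonoidAlgebra ℤ A)) = x := by
      rw [map_sub, map_intCast, hx]; ring
    rw [e, coeff_dvd_iff]
    intro b
    by_cases hb : b = 1
    · subst hb; exact h3
    · exact key b hb

/-! ### The multiplicative vanishing theorem -/

/-- the norm -/
noncomputable def nrm (α : A →* A) (u : MonoidAlgebra ℤ A) : MonoidAlgebra ℤ A :=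
  ∏ j ∈ Finset.range 6, (tau α)^[j] u

theorem iter_mul (n : ℕ) (u v : MonoidAlgebra ℤ A) :
    (tau α)^[n] (u * v) = (tau α)^[n] u * (tau α)^[n] v := by
  induction n with
  | zero => rfl
  | succ n ih => rw [Function.iterate_succ_apply', Function.iterate_succ_apply',
      Function.iterate_succ_apply', ih, map_mul]

theorem nrm_mul (u v : MonoidAlgebra ℤ A) : nrm α (u * v) = nrm α u * nrm α v := by
  unfold nrm
  rw [← Finset.prod_mul_distrib]
  exact Finset.prod_congr rfl fun j _ => iter_mul j u v

theorem tau6 (hα : ∀ a, α (α a) * a = α a) (u : MonoidAlgebra ℤ A) : (tau α)^[6] u = u := by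
  induction u using MonoidAlgebra.induction_linear with
  | zero =>
    have : ∀ n : ℕ, (tau α)^[n] (0 : MonoidAlgebra ℤ A) = 0 := by
      intro n
      induction n with
      | zero => rfl
      | succ n ih => rw [Function.iterate_succ_apply', ih, map_zero]
    exact this 6
  | add f g hf hg =>
    have : ∀ n : ℕ, (tau α)^[n] (f + g) = (tau α)^[n] f + (tau α)^[n] g := by
      intro n
      induction n with
      | zero => rfl
      | succ n ih => rw [Function.iterate_succ_apply', Function.iterate_succ_apply',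
          Function.iterate_succ_apply', ih, map_add]
    rw [this, hf, hg]
  | single a z =>
    have : ∀ n : ℕ, (tau α)^[n] (single a z : MonoidAlgebra ℤ A) = single (α^[n] a) z := by
      intro n
      induction n with
      | zero => rfl
      | succ n ih => rw [Function.iterate_succ_apply', Function.iterate_succ_apply', ih]; simp
    rw [this, alpha6 hα]

theorem nrm_tau (hα : ∀ a, α (α a) * a = α a) (u : MonoidAlgebra ℤ A) :
    nrm α (tau α u) = nrm α u := by
  unfold nrm
  have h1 : ∀ j, (tau α)^[j] (tau α u) = (tau α)^[j + 1] u := fun j => by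
    rw [Function.iterate_succ_apply]
  rw [Finset.prod_congr rfl fun j _ => h1 j, Finset.prod_range_succ, tau6 hα]
  rw [Finset.prod_range_succ' _ 5]
  rfl

theorem nrm_congr {k : ℕ} {u v : MonoidAlgebra ℤ A} (h : (k : MonoidAlgebra ℤ A) ∣ u - v) :
    (k : MonoidAlgebra ℤ A) ∣ nrm α u - nrm α v := by
  unfold nrm
  have h1 : ∀ j : ℕ, (k : MonoidAlgebra ℤ A) ∣ (tau α)^[j] u - (tau α)^[j] v := by
    intro j
    induction j with
    | zero => exact h
    | succ j ih =>
      rw [Function.iterate_succ_apply', Function.iterate_succ_apply', ← map_sub]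
      have := map_dvd (tau α) ih
      rwa [map_natCast] at this
  have h2 : ∀ n : ℕ, (k : MonoidAlgebra ℤ A) ∣ ∏ j ∈ Finset.range n, (tau α)^[j] u -
      ∏ j ∈ Finset.range n, (tau α)^[j] v := by
    intro n
    induction n with
    | zero => simp
    | succ n ih =>
      rw [Finset.prod_range_succ, Finset.prod_range_succ]
      have e : (∏ j ∈ Finset.range n, (tau α)^[j] u) * (tau α)^[n] u -
          (∏ j ∈ Finset.range n, (tau α)^[j] v) * (tau α)^[n] v =
          (∏ j ∈ Finset.range n, (tau α)^[j] u - ∏ j ∈ Finset.range n, (tau α)^[j] v) *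
            (tau α)^[n] u + (∏ j ∈ Finset.range n, (tau α)^[j] v) *
            ((tau α)^[n] u - (tau α)^[n] v) := by ring
      rw [e]
      exact dvd_add (ih.mul_right _) ((h1 n).mul_left _)
  exact h2 6

/-- norms of elements close to one -/
theorem nrm_near {k q : ℕ} (hkq : (k : MonoidAlgebra ℤ A) ∣ (q : MonoidAlgebra ℤ A) * q)
    (r : MonoidAlgebra ℤ A) : (k : MonoidAlgebra ℤ A) ∣
      nrm α (1 + q * r) - (1 + q * ∑ j ∈ Finset.range 6, (tau α)^[j] r) := by
  unfold nrm
  have h1 : ∀ j : ℕ, (tau α)^[j] (1 + (q : MonoidAlgebra ℤ A) * r) =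
      1 + q * (tau α)^[j] r := by
    intro j
    induction j with
    | zero => rfl
    | succ j ih => rw [Function.iterate_succ_apply', Function.iterate_succ_apply', ih, map_add,
        map_mul, map_one, map_natCast]
  have h2 : ∀ n : ℕ, (k : MonoidAlgebra ℤ A) ∣
      ∏ j ∈ Finset.range n, (tau α)^[j] (1 + (q : MonoidAlgebra ℤ A) * r) -
        (1 + q * ∑ j ∈ Finset.range n, (tau α)^[j] r) := by
    intro n
    induction n with
    | zero => simp
    | succ n ih =>
      rw [Finset.prod_range_succ, Finset.sum_range_succ, h1 n]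
      set P := ∏ j ∈ Finset.range n, (tau α)^[j] (1 + (q : MonoidAlgebra ℤ A) * r)
      set S := ∑ j ∈ Finset.range n, (tau α)^[j] r
      set t := (tau α)^[n] r
      have e : P * (1 + q * t) - (1 + q * (S + t)) =
          (P - (1 + q * S)) * (1 + q * t) + (q * q) * (S * t) := by ring
      rw [e]
      exact dvd_add (ih.mul_right _) (hkq.mul_right _)
  exact h2 6

end H1

end Pool.Agent.Lib.MP_305fdd_al.Solv
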