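import Mathlib
import Pool.Agent.Lib.MP_305fdd_al.Solv.H1

/-!
# A multiplicative Hilbert 90 for `(ℤ / k)[ℤ²]` and the automorphism of order six
-/

set_option autoImplicit false

namespace Pool.Agent.Lib.MP_305fdd_al.Solv

open MonoidAlgebra

section

variable {A : Type} [CommGroup A] {α : A →* A}

/-- the statement -/
def HOne (α : A →* A) (k : ℕ) : Prop :=
  ∀ u v : MonoidAlgebra ℤ A, (k : MonoidAlgebra ℤ A) ∣ u * v - 1 → (k : ℤ) ∣ aug A u - 1 →
    (k : MonoidAlgebra ℤ A) ∣ nrm α u - 1 →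
    ∃ w w' : MonoidAlgebra ℤ A, (k : MonoidAlgebra ℤ A) ∣ w * w' - 1 ∧
      (k : ℤ) ∣ aug A w - 1 ∧ (k : MonoidAlgebra ℤ A) ∣ tau α w * u - w

theorem tau_dvd {k : ℕ} {x : MonoidAlgebra ℤ A} (h : (k : MonoidAlgebra ℤ A) ∣ x) :
    (k : MonoidAlgebra ℤ A) ∣ tau α x := by
  have := map_dvd (tau α) h
  rwa [map_natCast] at this

theorem hOne_base [TwoUniqueProds A] (hα : ∀ a, α (α a) * a = α a) {k : ℕ} [IsDomain (ZMod k)] :
    HOne α k := by
  intro u v huv haug _
  obtain ⟨a, ha⟩ := unit_base huv haug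
  refine ⟨of ℤ A (α a), of ℤ A (α a)⁻¹, ?_, ?_, ?_⟩
  · rw [← map_mul, mul_inv_cancel, map_one, sub_self]
    exact dvd_zero _
  · rw [aug_of, sub_self]
    exact dvd_zero _
  · have e : tau α (of ℤ A (α a)) * u - of ℤ A (α a) =
        tau α (of ℤ A (α a)) * (u - of ℤ A a) := by
      have : tau α (of ℤ A (α a)) * of ℤ A a = of ℤ A (α a) := by
        rw [tau_of, ← map_mul, hα]
      rw [mul_sub, this]
    rw [e]
    exact ha.mul_left _

theorem hOne_one : HOne α 1 := by
  intro u v _ _ _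
  refine ⟨1, 1, ?_, ?_, ?_⟩ <;> simp

theorem hOne_coprime {a b : ℕ} (hab : Nat.Coprime a b) (ha : HOne α a) (hb : HOne α b) :
    HOne α (a * b) := by
  intro u v huv haug hN
  have hda : ∀ {x : MonoidAlgebra ℤ A}, ((a * b : ℕ) : MonoidAlgebra ℤ A) ∣ x →
      (a : MonoidAlgebra ℤ A) ∣ x := by
    intro x hx
    rw [Nat.cast_mul] at hx
    exact dvd_trans (Dvd.intro _ rfl) hx
  have hdb : ∀ {x : MonoidAlgebra ℤ A}, ((a * b : ℕ) : MonoidAlgebra ℤ A) ∣ x →
      (b : MonoidAlgebra ℤ A) ∣ x := by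
    intro x hx
    rw [Nat.cast_mul] at hx
    exact dvd_trans (Dvd.intro_left _ rfl) hx
  have haug' : (a : ℤ) * b ∣ aug A u - 1 := by rwa [Nat.cast_mul] at haug
  obtain ⟨wa, wa', h1, h2, h3⟩ := ha u v (hda huv) (dvd_trans (Dvd.intro _ rfl) haug') (hda hN)
  obtain ⟨wb, wb', h4, h5, h6⟩ := hb u v (hdb huv) (dvd_trans (Dvd.intro_left _ rfl) haug') (hdb hN)
  have hcop : IsCoprime (a : ℤ) (b : ℤ) := Nat.isCoprime_iff_coprime.mpr hab
  obtain ⟨x, y, hxy⟩ := id hcop
  have hcopA : IsCoprime (a : MonoidAlgebra ℤ A) (b : MonoidAlgebra ℤ A) := by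
    have := hcop.map (Int.castRingHom (MonoidAlgebra ℤ A))
    simpa using this
  have hxyA : (x : MonoidAlgebra ℤ A) * a + y * b = 1 := by
    have := congrArg (Int.cast : ℤ → MonoidAlgebra ℤ A) hxy
    push_cast at this
    exact this
  set e : MonoidAlgebra ℤ A := y * b with he
  set f : MonoidAlgebra ℤ A := x * a with hf
  have hef : f + e = 1 := hxyA
  have hfa : (a : MonoidAlgebra ℤ A) ∣ f := Dvd.intro_left _ rfl
  have heb : (b : MonoidAlgebra ℤ A) ∣ e := Dvd.intro_left _ rfl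
  have key1 : ∀ s t : MonoidAlgebra ℤ A, (a : MonoidAlgebra ℤ A) ∣ (e * s + f * t) - s := by
    intro s t
    have : (e * s + f * t) - s = f * (t - s) := by
      have : e = 1 - f := by rw [← hef]; ring
      rw [this]; ring
    rw [this]
    exact hfa.mul_right _
  have key2 : ∀ s t : MonoidAlgebra ℤ A, (b : MonoidAlgebra ℤ A) ∣ (e * s + f * t) - t := by
    intro s t
    have : (e * s + f * t) - t = e * (s - t) := by
      have : f = 1 - e := by rw [← hef]; ring
      rw [this]; ring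
    rw [this]
    exact heb.mul_right _
  have gen : ∀ (k : ℕ) (w w' z z' : MonoidAlgebra ℤ A), (k : MonoidAlgebra ℤ A) ∣ w - z →
      (k : MonoidAlgebra ℤ A) ∣ w' - z' → (k : MonoidAlgebra ℤ A) ∣ z * z' - 1 →
      (k : ℤ) ∣ aug A z - 1 → (k : MonoidAlgebra ℤ A) ∣ tau α z * u - z →
      (k : MonoidAlgebra ℤ A) ∣ w * w' - 1 ∧ (k : ℤ) ∣ aug A w - 1 ∧
        (k : MonoidAlgebra ℤ A) ∣ tau α w * u - w := by
    intro k w w' z z' g1 g2 g3 g4 g5
    refine ⟨?_, ?_, ?_⟩
    · have : w * w' - 1 = (w - z) * w' + z * (w' - z') + (z * z' - 1) := by ring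
      rw [this]
      exact dvd_add (dvd_add (g1.mul_right _) (g2.mul_left _)) g3
    · have g6 := aug_dvd g1
      rw [map_sub] at g6
      have : aug A w - 1 = (aug A w - aug A z) + (aug A z - 1) := by ring
      rw [this]
      exact dvd_add g6 g4
    · have g6 := tau_dvd (α := α) g1
      rw [map_sub] at g6
      have : tau α w * u - w = (tau α w - tau α z) * u + (tau α z * u - z) - (w - z) := by ring
      rw [this]
      exact dvd_sub (dvd_add (g6.mul_right _) g5) g1
  obtain ⟨k1, k2, k3⟩ := gen a (e * wa + f * wb) (e * wa' + f * wb') wa wa' (key1 _ _) (key1 _ _)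
    h1 h2 h3
  obtain ⟨k4, k5, k6⟩ := gen b (e * wa + f * wb) (e * wa' + f * wb') wb wb' (key2 _ _) (key2 _ _)
    h4 h5 h6
  refine ⟨e * wa + f * wb, e * wa' + f * wb', ?_, ?_, ?_⟩
  · rw [Nat.cast_mul]
    exact hcopA.mul_dvd k1 k4
  · rw [Nat.cast_mul]
    exact hcop.mul_dvd k2 k5
  · rw [Nat.cast_mul]
    exact hcopA.mul_dvd k3 k6

theorem cancel_nat {p q : ℕ} (hq : q ≠ 0) {x : MonoidAlgebra ℤ A}
    (h : ((p * q : ℕ) : MonoidAlgebra ℤ A) ∣ q * x) : (p : MonoidAlgebra ℤ A) ∣ x := by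
  rw [coeff_dvd_iff] at h ⊢
  intro a
  have h1 := h a
  have h2 : ((q : MonoidAlgebra ℤ A) * x).coeff a = q * x.coeff a := by
    rw [← nsmul_eq_mul, MonoidAlgebra.coeff_smul, Finsupp.smul_apply, nsmul_eq_mul]
  rw [h2, Nat.cast_mul, mul_comm (p : ℤ)] at h1
  exact Int.dvd_of_mul_dvd_mul_left (by exact_mod_cast hq) h1

theorem hOne_step (hα : ∀ a, α (α a) * a = α a)
    (htf : ∀ (n : ℕ) (a : A), 0 < n → a ^ n = 1 → a = 1) {p q : ℕ} (hq : q ≠ 0)
    (hpq : p ∣ q) (ih : HOne α q) : HOne α (p * q) := by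
  intro u v huv haug hN
  have hqk : (q : MonoidAlgebra ℤ A) ∣ ((p * q : ℕ) : MonoidAlgebra ℤ A) := by
    rw [Nat.cast_mul]; exact Dvd.intro_left _ rfl
  have hqkZ : (q : ℤ) ∣ ((p * q : ℕ) : ℤ) := by
    rw [Nat.cast_mul]; exact Dvd.intro_left _ rfl
  have hkqq : ((p * q : ℕ) : MonoidAlgebra ℤ A) ∣ (q : MonoidAlgebra ℤ A) * q := by
    rw [Nat.cast_mul]
    exact mul_dvd_mul_right (Nat.cast_dvd_cast hpq) _
  have hkqqZ : ((p * q : ℕ) : ℤ) ∣ (q : ℤ) * q := by
    rw [Nat.cast_mul]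
    exact mul_dvd_mul_right (Nat.cast_dvd_cast hpq) _
  obtain ⟨w0, w0', h1, h2, h3⟩ := ih u v (dvd_trans hqk huv) (dvd_trans hqkZ haug)
    (dvd_trans hqk hN)
  obtain ⟨g, hg⟩ := h1
  obtain ⟨m, hm⟩ := h2
  obtain ⟨r0, hr0⟩ := h3
  set k : ℕ := p * q with hk
  -- corrected element
  set w1 : MonoidAlgebra ℤ A := w0 * (1 - q * m) with hw1
  set w1' : MonoidAlgebra ℤ A := w0' * (1 - q * g) * (1 + q * m) with hw1'
  have hinv : (k : MonoidAlgebra ℤ A) ∣ w1 * w1' - 1 := by
    have e : w1 * w1' - 1 = (q * q) * (-(m * m : MonoidAlgebra ℤ A) * (w0 * w0') * (1 - q * g) -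
        g * g) := by
      have e1 : w0 * w0' = 1 + q * g := by rw [← hg]; ring
      have e2 : w1 * w1' = (w0 * w0') * ((1 - q * m) * (1 - q * g) * (1 + q * m)) := by
        rw [hw1, hw1']; ring
      rw [e2, e1]; ring
    rw [e]
    exact hkqq.mul_right _
  have haugw0 : aug A w0 = 1 + q * m := by rw [← hm]; ring
  have haug1 : (k : ℤ) ∣ aug A w1 - 1 := by
    have e : aug A w1 - 1 = (q * q) * (-(m * m)) := by
      rw [hw1, map_mul, map_sub, map_one, map_mul, map_natCast, aug_intCast, haugw0]; ring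
    rw [e]
    exact hkqqZ.mul_right _
  have htw : tau α w1 * u = w1 + q * (r0 * (1 - q * m)) := by
    have e1 : tau α w0 * u = w0 + q * r0 := by rw [← hr0]; ring
    have e2 : tau α w1 = tau α w0 * (1 - q * m) := by
      rw [hw1, map_mul, map_sub, map_one, map_mul, map_natCast, map_intCast]
    rw [e2, mul_right_comm, e1, hw1]; ring
  clear_value w1 w1'
  set r : MonoidAlgebra ℤ A := r0 * (1 - q * m) * w1' with hr
  have hmain : (k : MonoidAlgebra ℤ A) ∣ tau α w1 * u - w1 * (1 + q * r) := by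
    have e : tau α w1 * u - w1 * (1 + q * r) = (w1 * w1' - 1) * (-(q * (r0 * (1 - q * m)))) := by
      rw [htw, hr]; ring
    rw [e]
    exact hinv.mul_right _
  clear_value r
  -- augmentation of r
  have hr1 : (p : ℤ) ∣ aug A r := by
    have h4 := aug_dvd hmain
    rw [map_sub, map_mul, map_mul, aug_tau, map_add, map_one, map_mul, map_natCast] at h4
    have h5 : (k : ℤ) ∣ q * aug A r := by
      have e : (q : ℤ) * aug A r = -(aug A w1 * aug A u - aug A w1 * (1 + q * aug A r)) +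
          (aug A u - 1) * aug A w1 - (aug A w1 - 1) * (q * aug A r) := by ring
      rw [e]
      exact dvd_sub (dvd_add (dvd_neg.mpr h4) (haug.mul_right _)) (haug1.mul_right _)
    rw [hk, Nat.cast_mul, mul_comm (p : ℤ)] at h5
    exact Int.dvd_of_mul_dvd_mul_left (by exact_mod_cast hq) h5
  -- norm of r
  have hr2 : (p : MonoidAlgebra ℤ A) ∣ ∑ j ∈ Finset.range 6, (tau α)^[j] r := by
    apply cancel_nat hq
    have h4 := nrm_congr (α := α) hmain
    rw [nrm_mul, nrm_mul, nrm_tau hα] at h4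
    have h5 := nrm_near (α := α) hkqq r
    have h6 := nrm_congr (α := α) hinv
    have hn1 : nrm α (1 : MonoidAlgebra ℤ A) = 1 := by
      unfold nrm
      have : ∀ j : ℕ, (tau α)^[j] (1 : MonoidAlgebra ℤ A) = 1 := by
        intro j
        induction j with
        | zero => rfl
        | succ j ih => rw [Function.iterate_succ_apply', ih, map_one]
      simp [this]
    rw [nrm_mul, hn1] at h6
    set S := ∑ j ∈ Finset.range 6, (tau α)^[j] r
    set N1 := nrm α w1
    set N1' := nrm α w1'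
    set U := nrm α u
    set R := nrm α (1 + q * r)
    have e : (q : MonoidAlgebra ℤ A) * S = -(N1 * N1' - 1) * (R - 1) - (R - (1 + q * S)) -
        (N1 * U - N1 * R) * N1' + (U - 1) * (N1 * N1') := by ring
    rw [e]
    refine dvd_add (dvd_sub (dvd_sub ?_ h5) ?_) ?_
    · exact (dvd_neg.mpr h6).mul_right _
    · exact h4.mul_right _
    · exact hN.mul_right _
  obtain ⟨s, hs1, hs2⟩ := h1_add hα htf hr2 hr1
  refine ⟨w1 * (1 + q * s), w1' * (1 - q * s), ?_, ?_, ?_⟩
  · have e : w1 * (1 + q * s) * (w1' * (1 - q * s)) - 1 = (w1 * w1' - 1) * (1 - (q * q) * (s * s)) -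
        (q * q) * (s * s) := by ring
    rw [e]
    exact dvd_sub (hinv.mul_right _) (hkqq.mul_right _)
  · rw [map_mul, map_add, map_mul, hs1, mul_zero, map_one, add_zero, mul_one]
    exact haug1
  · have e0 : tau α (w1 * (1 + q * s)) = tau α w1 * (1 + q * tau α s) := by
      rw [map_mul, map_add, map_mul, map_one, map_natCast]
    have e : tau α (w1 * (1 + q * s)) * u - w1 * (1 + q * s) =
        (tau α w1 * u - w1 * (1 + q * r)) * (1 + q * tau α s) +
        w1 * (q * (r - s + tau α s)) + (q * q) * (w1 * r * tau α s) := by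
      rw [e0]; ring
    rw [e]
    refine dvd_add (dvd_add (hmain.mul_right _) ?_) (hkqq.mul_right _)
    apply Dvd.dvd.mul_left
    rw [hk, Nat.cast_mul, mul_comm (p : MonoidAlgebra ℤ A)]
    exact mul_dvd_mul_left _ hs2

/-- multiplicative vanishing theorem -/
theorem hOne (e : A ≃* A0) (hα : ∀ a, α (α a) * a = α a) (k : ℕ) : HOne α k := by
  have : TwoUniqueProds A := two_unique e
  have htf : ∀ (n : ℕ) (a : A), 0 < n → a ^ n = 1 → a = 1 := by
    intro n a hn h
    have h1 : (e a) ^ n = 1 := by rw [← map_pow, h, map_one]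
    have h2 : e a = 1 := by
      have h3 := congrArg (fun z => (Multiplicative.toAdd z.1, Multiplicative.toAdd z.2)) h1
      simp only [Prod.pow_fst, Prod.pow_snd, toAdd_pow, Prod.fst_one, Prod.snd_one, toAdd_one,
        Prod.mk.injEq, nsmul_eq_mul, mul_eq_zero, Nat.cast_eq_zero, hn.ne', false_or] at h3
      ext
      · exact h3.1
      · exact h3.2
    exact (map_eq_one_iff e e.injective).mp h2
  induction k using Nat.recOnPrimeCoprime with
  | zero =>
    have : IsDomain (ZMod 0) := inferInstanceAs (IsDomain ℤ)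
    exact hOne_base hα
  | prime_pow p n hp =>
    induction n with
    | zero => rw [pow_zero]; exact hOne_one
    | succ n ih =>
      rcases Nat.eq_zero_or_pos n with rfl | hn
      · rw [zero_add, pow_one]
        have : Fact p.Prime := ⟨hp⟩
        exact hOne_base hα
      · rw [pow_succ']
        exact hOne_step hα htf (pow_ne_zero _ hp.ne_zero) (dvd_pow_self p hn.ne') ih
  | coprime a b _ _ hab ha hb => exact hOne_coprime hab ha hb

end

end Pool.Agent.Lib.MP_305fdd_al.Solv
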