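import Mathlib

/-!
# Automorphisms of order six of a lattice of rank two
-/

set_option autoImplicit false

namespace Pool.Agent.Lib.MP_305fdd_al.Solv

open Matrix

/-- trace and determinant from `B ^ 6 = 1` and invertibility of `B - 1` -/
theorem trace_det {p q r s : ℤ} (h6 : (!![p, q; r, s] : Matrix (Fin 2) (Fin 2) ℤ) ^ 6 = 1)
    (hC : ∃ C : Matrix (Fin 2) (Fin 2) ℤ, (!![p, q; r, s] - 1) * C = 1) :
    p + s = 1 ∧ p * s - q * r = 1 := by
  set B : Matrix (Fin 2) (Fin 2) ℤ := !![p, q; r, s] with hB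
  obtain ⟨C, hC⟩ := hC
  set T := p + s with hT
  set D := p * s - q * r with hD
  have hCH : B * B = T • B - D • (1 : Matrix (Fin 2) (Fin 2) ℤ) := by
    have e : ∀ i j, (B * B) i j = T * B i j - D * (1 : Matrix (Fin 2) (Fin 2) ℤ) i j := by
      intro i j
      fin_cases i <;> fin_cases j <;>
        simp [hB, hT, hD, Matrix.mul_apply, Fin.sum_univ_two] <;> ring
    ext i j
    rw [e, Matrix.sub_apply, Matrix.smul_apply, Matrix.smul_apply, smul_eq_mul, smul_eq_mul]
  have hdet : D ^ 6 = 1 := by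
    have h1 := congrArg Matrix.det h6
    rw [Matrix.det_pow, Matrix.det_one, hB, Matrix.det_fin_two_of] at h1
    exact h1
  have hD1 : D = 1 ∨ D = -1 := by
    have h1 : IsUnit D := by
      rw [isUnit_iff_exists_inv]
      exact ⟨D ^ 5, by rw [← hdet]; ring⟩
    exact Int.isUnit_iff.mp h1
  have hdet1 : 1 - T + D = 1 ∨ 1 - T + D = -1 := by
    have h1 := congrArg Matrix.det hC
    rw [Matrix.det_mul, Matrix.det_one] at h1
    have h2 : (B - 1).det = 1 - T + D := by
      rw [Matrix.det_fin_two]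
      simp [hB, hT, hD]
      ring
    rw [h2] at h1
    exact Int.isUnit_iff.mp (IsUnit.of_mul_eq_one _ h1)
  have h66 : B ^ 6 = (T ^ 5 - 4 * T ^ 3 * D + 3 * T * D ^ 2) • B -
      (D * T ^ 4 - 3 * D ^ 2 * T ^ 2 + D ^ 3) • (1 : Matrix (Fin 2) (Fin 2) ℤ) := by
    have h2 : B ^ 2 = T • B - D • (1 : Matrix (Fin 2) (Fin 2) ℤ) := by rw [pow_two, hCH]
    have h3 : B ^ 3 = (T ^ 2 - D) • B - (T * D) • (1 : Matrix (Fin 2) (Fin 2) ℤ) := by
      rw [pow_succ, h2, sub_mul, smul_mul_assoc, smul_mul_assoc, one_mul, hCH]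
      module
    have h4 : B ^ 6 = B ^ 3 * B ^ 3 := by rw [← pow_add]
    rw [h4, h3]
    simp only [sub_mul, mul_sub, smul_mul_assoc, mul_smul_comm, one_mul, mul_one, hCH]
    module
  rw [h6] at h66
  have e00 := congrFun (congrFun h66 0) 0
  rw [Matrix.sub_apply, Matrix.smul_apply, Matrix.smul_apply, smul_eq_mul, smul_eq_mul,
    Matrix.one_apply_eq] at e00
  rcases hD1 with hD1 | hD1
  · rcases hdet1 with h | h
    · exact ⟨by omega, hD1⟩
    · exfalso
      have hT3 : T = 3 := by omega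
      rw [hT3, hD1] at e00
      norm_num at e00
      omega
  · rcases hdet1 with h | h
    · exfalso
      have hT3 : T = -1 := by omega
      rw [hT3, hD1] at e00
      norm_num at e00
      omega
    · exfalso
      have hT3 : T = 1 := by omega
      rw [hT3, hD1] at e00
      norm_num at e00
      omega

/-- rounding -/
theorem exists_round (a n : ℤ) (hn : n ≠ 0) : ∃ i : ℤ, 2 * |a - i * n| ≤ |n| := by
  refine ⟨round ((a : ℚ) / n), ?_⟩
  have h1 := abs_sub_round ((a : ℚ) / n)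
  have hn' : (n : ℚ) ≠ 0 := by exact_mod_cast hn
  have h2 : |(a : ℚ) - round ((a : ℚ) / n) * n| = |(a : ℚ) / n - round ((a : ℚ) / n)| * |(n : ℚ)| := by
    rw [← abs_mul]
    congr 1
    field_simp
  have h3 : 2 * |(a : ℚ) - round ((a : ℚ) / n) * n| ≤ |(n : ℚ)| := by
    rw [h2]
    have h4 : 0 ≤ |(n : ℚ)| := abs_nonneg _
    nlinarith
  exact_mod_cast h3

theorem small_of_round {A B N Q : ℤ} (hN : 0 < N) (hA0 : 0 ≤ A) (hB0 : 0 ≤ B) (hA : 2 * A ≤ N)
    (hB : 2 * B ≤ N) (h : N * Q ≤ A ^ 2 + A * B + B ^ 2) : Q < N := by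
  by_contra hcon
  push Not at hcon
  have c0 : N * N ≤ N * Q := mul_le_mul_of_nonneg_left hcon hN.le
  have c1 : (2 * A) ^ 2 ≤ N ^ 2 := pow_le_pow_left₀ (by positivity) hA 2
  have c2 : (2 * B) ^ 2 ≤ N ^ 2 := pow_le_pow_left₀ (by positivity) hB 2
  have c3 : (2 * A) * (2 * B) ≤ N * N := mul_le_mul hA hB (by positivity) hN.le
  have c4 : 0 < N * N := mul_pos hN hN
  nlinarith

/-- A lattice of rank two with an automorphism satisfying `B ^ 2 - B + 1 = 0` is cyclic. -/
theorem exists_cyclic {p q r s : ℤ} (hT : p + s = 1) (hD : p * s - q * r = 1) :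
    ∃ x y : ℤ, ∀ z w : ℤ, ∃ i j : ℤ, z = i * x + j * (p * x + q * y) ∧
      w = i * y + j * (r * x + s * y) := by
  -- the norm form
  let Q : ℤ × ℤ → ℤ := fun v => v.1 * (r * v.1 + s * v.2) - v.2 * (p * v.1 + q * v.2)
  have hr : r ≠ 0 := by
    rintro rfl
    have h1 : p * (1 - p) = 1 := by
      have : s = 1 - p := by omega
      rw [← this]; linarith
    nlinarith [sq_nonneg (2 * p - 1)]
  have hQ : ∀ v : ℤ × ℤ, Q v = 0 → v = 0 := by
    rintro ⟨x, y⟩ h
    have h1 : x * (r * x + s * y) - y * (p * x + q * y) = 0 := h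
    have h2 : (2 * r * x + (s - p) * y) ^ 2 + 3 * y ^ 2 = 0 := by
      have h3 : (2 * r * x + (s - p) * y) ^ 2 + 3 * y ^ 2 =
          4 * r * (x * (r * x + s * y) - y * (p * x + q * y)) + ((p + s) ^ 2 -
            4 * (p * s - q * r) + 3) * y ^ 2 := by ring
      rw [h3, h1, hT, hD]
      ring
    have hy : y = 0 := by
      have : 3 * y ^ 2 ≤ 0 := by nlinarith [sq_nonneg (2 * r * x + (s - p) * y)]
      have h4 : y ^ 2 ≤ 0 := by linarith
      exact pow_eq_zero_iff (two_ne_zero) |>.mp (le_antisymm h4 (sq_nonneg y))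
    subst hy
    have h5 : (2 * r * x) ^ 2 = 0 := by linarith [h2]
    have h6 : 2 * r * x = 0 := pow_eq_zero_iff (two_ne_zero) |>.mp h5
    have h7 : x = 0 := by
      rcases mul_eq_zero.mp h6 with h | h
      · omega
      · exact h
    rw [h7]
    rfl
  -- a nonzero vector of minimal norm
  obtain ⟨v, hv, hmin⟩ : ∃ v : ℤ × ℤ, v ≠ 0 ∧ ∀ w : ℤ × ℤ, w ≠ 0 → (Q v).natAbs ≤ (Q w).natAbs := by
    classical
    have hne : ∃ n : ℕ, ∃ v : ℤ × ℤ, v ≠ 0 ∧ (Q v).natAbs = n := ⟨_, (1, 0), by simp, rfl⟩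
    obtain ⟨v, hv, hvn⟩ := Nat.find_spec hne
    refine ⟨v, hv, fun w hw => ?_⟩
    rw [hvn]
    exact Nat.find_min' hne ⟨w, hw, rfl⟩
  obtain ⟨x, y⟩ := v
  set n := Q (x, y) with hn
  have hn0 : n ≠ 0 := fun h => hv (hQ _ h)
  have hn' : n = x * (r * x + s * y) - y * (p * x + q * y) := rfl
  refine ⟨x, y, fun z w => ?_⟩
  obtain ⟨i, hi⟩ := exists_round (z * (r * x + s * y) - w * (p * x + q * y)) n hn0
  obtain ⟨j, hj⟩ := exists_round (x * w - y * z) n hn0
  set a := z * (r * x + s * y) - w * (p * x + q * y) - i * n with ha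
  set b := x * w - y * z - j * n with hb
  set z' := z - i * x - j * (p * x + q * y) with hz'
  set w' := w - i * y - j * (r * x + s * y) with hw'
  have e1 : n * z' = a * x + b * (p * x + q * y) := by
    rw [ha, hb, hz', hn']; ring
  have e2 : n * w' = a * y + b * (r * x + s * y) := by
    rw [ha, hb, hw', hn']; ring
  have e3 : n * Q (z', w') = a ^ 2 + a * b + b ^ 2 := by
    have h1 : n * (n * Q (z', w')) = n * (a ^ 2 + a * b + b ^ 2) := by
      have h2 : n * (n * Q (z', w')) =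
          (n * z') * (r * (n * z') + s * (n * w')) - (n * w') * (p * (n * z') + q * (n * w')) := by
        show n * (n * (z' * (r * z' + s * w') - w' * (p * z' + q * w'))) = _
        ring
      rw [h2, e1, e2]
      have hs : s = 1 - p := by omega
      have hqr : q * r = p * (1 - p) - 1 := by rw [hs] at hD; linarith
      rw [hn', hs]
      have h3 : ∀ X Y : ℤ, p * (p * X + q * Y) + q * (r * X + (1 - p) * Y) = (p * X + q * Y) - X := by
        intro X Y
        linear_combination X * hqr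
      have h4 : ∀ X Y : ℤ, r * (p * X + q * Y) + (1 - p) * (r * X + (1 - p) * Y) =
          (r * X + (1 - p) * Y) - Y := by
        intro X Y
        linear_combination Y * hqr
      have h5 := h3 x y
      have h6 := h4 x y
      set X' := p * x + q * y with hX'
      set Y' := r * x + (1 - p) * y with hY'
      have h7 : r * (a * x + b * X') + (1 - p) * (a * y + b * Y') = a * Y' + b * (Y' - y) := by
        rw [← h6, hY']; ring
      have h8 : p * (a * x + b * X') + q * (a * y + b * Y') = a * X' + b * (X' - x) := by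
        rw [← h5, hX']; ring
      rw [h7, h8]
      ring
    exact mul_left_cancel₀ hn0 h1
  have hsmall : (Q (z', w')).natAbs < n.natAbs := by
    have h1 : |n| * |Q (z', w')| = |a ^ 2 + a * b + b ^ 2| := by rw [← abs_mul, e3]
    have h2 : |a ^ 2 + a * b + b ^ 2| ≤ |a| ^ 2 + |a| * |b| + |b| ^ 2 := by
      calc |a ^ 2 + a * b + b ^ 2| ≤ |a ^ 2 + a * b| + |b ^ 2| := abs_add_le _ _
        _ ≤ |a ^ 2| + |a * b| + |b ^ 2| := by gcongr; exact abs_add_le _ _
        _ = |a| ^ 2 + |a| * |b| + |b| ^ 2 := by rw [abs_pow, abs_mul, abs_pow]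
    have hna : 0 < |n| := abs_pos.mpr hn0
    have ha0 : 0 ≤ |a| := abs_nonneg a
    have hb0 : 0 ≤ |b| := abs_nonneg b
    have h5 : |Q (z', w')| < |n| := small_of_round hna ha0 hb0 hi hj (by rw [h1]; exact h2)
    have h6 : ((Q (z', w')).natAbs : ℤ) < (n.natAbs : ℤ) := by
      rw [Int.natCast_natAbs, Int.natCast_natAbs]; exact h5
    exact_mod_cast h6
  have hzero : (z', w') = (0 : ℤ × ℤ) := by
    by_contra hne
    exact absurd (hmin _ hne) (not_le.mpr hsmall)
  have hz0 : z' = 0 := congrArg Prod.fst hzero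
  have hw0 : w' = 0 := congrArg Prod.snd hzero
  exact ⟨i, j, by rw [hz'] at hz0; linarith, by rw [hw'] at hw0; linarith⟩

end Pool.Agent.Lib.MP_305fdd_al.Solv
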