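import Mathlib
import Pool.Agent.Lib.MP_305fdd_al.Solv.Eis
import Pool.Agent.Lib.MP_305fdd_al.Solv.Abel

/-!
# Automorphisms of order six of a free abelian group of rank two
-/

set_option autoImplicit false

namespace Pool.Agent.Lib.MP_305fdd_al.Solv

open Subgroup Pool.Agent.MP_305fdd_al

theorem fg_A0 : Group.FG A0 :=
  Group.fg_of_surjective (f := (Gam_ab 0).toMonoidHom) (Gam_ab 0).surjective

/-- two generators of a free abelian group of rank two form a basis -/
theorem basis_equiv {A : Type} [CommGroup A] (e : A ≃* A0) {p q : A}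
    (h : closure ({p, q} : Set A) = ⊤) :
    ∃ e' : A0 ≃* A, e' (Multiplicative.ofAdd 1, 1) = p ∧ e' (1, Multiplicative.ofAdd 1) = q := by
  let ε : A0 →* A := MonoidHom.coprod (zpowersHom _ p) (zpowersHom _ q)
  have h1 : ε (Multiplicative.ofAdd 1, 1) = p := by simp [ε]
  have h2 : ε (1, Multiplicative.ofAdd 1) = q := by simp [ε]
  have hs : Function.Surjective ε := by
    rw [← MonoidHom.range_eq_top, eq_top_iff, ← h, closure_le, Set.insert_subset_iff,
      Set.singleton_subset_iff]
    exact ⟨⟨_, h1⟩, ⟨_, h2⟩⟩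
  have := fg_A0
  have : Group.ResiduallyFinite A0 := rf_comm A0
  have hsame : SameFiniteQuotients A0 A0 := fun _ _ _ => Iff.rfl
  have hinj : Function.Injective (e.toMonoidHom.comp ε) :=
    injective_of_surj hsame (e.toMonoidHom.comp ε) (e.surjective.comp hs)
  have hinj' : Function.Injective ε := Function.Injective.of_comp hinj
  exact ⟨MulEquiv.ofBijective ε ⟨hinj', hs⟩, h1, h2⟩

theorem basis_inf {A : Type} [CommGroup A] (e' : A0 ≃* A) (n : ℕ) (hn : 0 < n) :
    e' (Multiplicative.ofAdd 1, 1) ^ n ≠ 1 ∧ e' (1, Multiplicative.ofAdd 1) ^ n ≠ 1 := by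
  constructor
  · intro h
    rw [← map_pow, map_eq_one_iff _ e'.injective] at h
    have h1 := congrArg (fun x : A0 => Multiplicative.toAdd x.1) h
    simp at h1
    omega
  · intro h
    rw [← map_pow, map_eq_one_iff _ e'.injective] at h
    have h1 := congrArg (fun x : A0 => Multiplicative.toAdd x.2) h
    simp at h1
    omega

theorem six_add (f : (Fin 2 → ℤ) →ₗ[ℤ] (Fin 2 → ℤ)) (h6 : f ^ 6 = 1)
    (hs : Function.Surjective (f - (1 : (Fin 2 → ℤ) →ₗ[ℤ] (Fin 2 → ℤ)))) :
    (∀ v, f (f v) + v = f v) ∧ ∃ v, ∀ w, ∃ i j : ℤ, w = i • v + j • f v := by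
  set B := LinearMap.toMatrixAlgEquiv' f with hB
  have hBf : ∀ v, f v = B.mulVec v := by
    intro v
    have : f = Matrix.toLinAlgEquiv' B := by rw [hB]; simp
    conv_lhs => rw [this]
    rw [Matrix.toLinAlgEquiv'_apply]
  have hB6 : B ^ 6 = 1 := by rw [hB, ← map_pow, h6, map_one]
  obtain ⟨g, hg⟩ := Module.projective_lifting_property (f - 1) LinearMap.id hs
  have hBC : (B - 1) * LinearMap.toMatrixAlgEquiv' g = 1 := by
    have h1 : (f - 1) * g = 1 := hg
    rw [hB, ← map_one LinearMap.toMatrixAlgEquiv', ← map_sub, ← map_mul, h1, map_one]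
  have hBe : B = !![B 0 0, B 0 1; B 1 0, B 1 1] := Matrix.eta_fin_two B
  rw [hBe] at hB6 hBC
  obtain ⟨hT, hD⟩ := trace_det hB6 ⟨_, hBC⟩
  have hf0 : ∀ v, f v 0 = B 0 0 * v 0 + B 0 1 * v 1 := by
    intro v
    rw [hBf]
    simp [Matrix.mulVec, dotProduct, Fin.sum_univ_two]
  have hf1 : ∀ v, f v 1 = B 1 0 * v 0 + B 1 1 * v 1 := by
    intro v
    rw [hBf]
    simp [Matrix.mulVec, dotProduct, Fin.sum_univ_two]
  constructor
  · intro v
    have hs' : B 1 1 = 1 - B 0 0 := by omega
    funext i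
    fin_cases i
    · show f (f v) 0 + v 0 = f v 0
      rw [hf0 (f v), hf0 v, hf1 v, hs']
      rw [hs'] at hD
      linear_combination (-v 0) * hD
    · show f (f v) 1 + v 1 = f v 1
      rw [hf1 (f v), hf0 v, hf1 v, hs']
      rw [hs'] at hD
      linear_combination (-v 1) * hD
  · obtain ⟨x, y, hxy⟩ := exists_cyclic hT hD
    refine ⟨![x, y], fun w => ?_⟩
    obtain ⟨i, j, h0, h1⟩ := hxy (w 0) (w 1)
    refine ⟨i, j, ?_⟩
    funext l
    fin_cases l
    · show w 0 = i * x + j * f ![x, y] 0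
      rw [hf0, h0]; simp
    · show w 1 = i * y + j * f ![x, y] 1
      rw [hf1, h1]; simp

/-- the standard identification -/
def eA0 : A0 ≃* Multiplicative (Fin 2 → ℤ) :=
  { toFun := fun x => Multiplicative.ofAdd ![Multiplicative.toAdd x.1, Multiplicative.toAdd x.2]
    invFun := fun v => (Multiplicative.ofAdd (Multiplicative.toAdd v 0),
      Multiplicative.ofAdd (Multiplicative.toAdd v 1))
    left_inv := by intro x; rfl
    right_inv := by
      intro v
      apply Multiplicative.toAdd.injective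
      funext i
      fin_cases i <;> rfl
    map_mul' := by
      intro x y
      apply Multiplicative.toAdd.injective
      funext i
      fin_cases i <;> rfl }

theorem six_mul {A : Type} [CommGroup A] (e : A ≃* A0) (α : A →* A) (h6 : ∀ a, α^[6] a = a)
    (hs : ∀ a, ∃ b, α b * b⁻¹ = a) :
    (∀ a, α (α a) * a = α a) ∧ ∃ v, closure ({v, α v} : Set A) = ⊤ := by
  let E : A ≃* Multiplicative (Fin 2 → ℤ) := e.trans eA0
  let f0 : Multiplicative (Fin 2 → ℤ) →* Multiplicative (Fin 2 → ℤ) :=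
    E.toMonoidHom.comp (α.comp E.symm.toMonoidHom)
  let f1 : (Fin 2 → ℤ) →+ (Fin 2 → ℤ) := AddMonoidHom.toMultiplicative.symm f0
  let f : (Fin 2 → ℤ) →ₗ[ℤ] (Fin 2 → ℤ) := f1.toIntLinearMap
  have hf : ∀ a : A, f (Multiplicative.toAdd (E a)) = Multiplicative.toAdd (E (α a)) := by
    intro a
    show Multiplicative.toAdd (E (α (E.symm (E a)))) = _
    rw [E.symm_apply_apply]
  have hex : ∀ v : Fin 2 → ℤ, ∃ a : A, v = Multiplicative.toAdd (E a) := fun v =>
    ⟨E.symm (Multiplicative.ofAdd v), by rw [E.apply_symm_apply, toAdd_ofAdd]⟩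
  have hit : ∀ (n : ℕ) (a : A), (f ^ n) (Multiplicative.toAdd (E a)) =
      Multiplicative.toAdd (E (α^[n] a)) := by
    intro n
    induction n with
    | zero => intro a; rfl
    | succ n ih =>
      intro a
      rw [pow_succ, Module.End.mul_apply, hf, ih, Function.iterate_succ_apply]
  have hf6 : f ^ 6 = 1 := by
    apply LinearMap.ext
    intro v
    obtain ⟨a, rfl⟩ := hex v
    rw [hit, h6]
    rfl
  have hfs : Function.Surjective (f - (1 : (Fin 2 → ℤ) →ₗ[ℤ] (Fin 2 → ℤ))) := by
    intro v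
    obtain ⟨a, rfl⟩ := hex v
    obtain ⟨b, rfl⟩ := hs a
    refine ⟨Multiplicative.toAdd (E b), ?_⟩
    rw [LinearMap.sub_apply, hf, map_mul, map_inv, toAdd_mul, toAdd_inv]
    exact sub_eq_add_neg _ _
  obtain ⟨h1, v, hv⟩ := six_add f hf6 hfs
  have hinj : Function.Injective (fun a : A => Multiplicative.toAdd (E a)) :=
    Multiplicative.toAdd.injective.comp E.injective
  constructor
  · intro a
    apply hinj
    show Multiplicative.toAdd (E (α (α a) * a)) = Multiplicative.toAdd (E (α a))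
    rw [map_mul, toAdd_mul, ← hf, ← hf]
    exact h1 _
  · obtain ⟨a, rfl⟩ := hex v
    refine ⟨a, ?_⟩
    rw [eq_top_iff]
    intro b _
    obtain ⟨i, j, hij⟩ := hv (Multiplicative.toAdd (E b))
    have : b = a ^ i * (α a) ^ j := by
      apply hinj
      show Multiplicative.toAdd (E b) = Multiplicative.toAdd (E (a ^ i * (α a) ^ j))
      rw [hij, map_mul, map_zpow, map_zpow, toAdd_mul, toAdd_zpow, toAdd_zpow, hf]
    rw [this]
    have m1 : a ∈ closure ({a, α a} : Set A) := Subgroup.subset_closure (by simp)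
    have m2 : α a ∈ closure ({a, α a} : Set A) := Subgroup.subset_closure (by simp)
    exact mul_mem (zpow_mem m1 i) (zpow_mem m2 j)

end Pool.Agent.Lib.MP_305fdd_al.Solv
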