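import Mathlib
import Pool.Agent.Lib.MP_305fdd_al.Solv.ThmA

/-!
# Passing to derived subgroups of finite index
-/

set_option autoImplicit false

namespace Pool.Agent.Lib.MP_305fdd_al.Solv

open Subgroup Pool.Agent.MP_305fdd_al
open scoped commutatorElement

/-- the homomorphism induced on derived subgroups -/
def cmap {G H : Type} [Group G] [Group H] (f : G →* H) :
    _root_.commutator G →* _root_.commutator H :=
  (f.comp (_root_.commutator G).subtype).codRestrict (_root_.commutator H) (fun x => by
    have h1 : (_root_.commutator G).map f ≤ _root_.commutator H := by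
      rw [_root_.commutator_def, _root_.commutator_def, map_commutator]
      exact commutator_mono le_top le_top
    exact h1 ⟨x, x.2, rfl⟩)

theorem cmap_val {G H : Type} [Group G] [Group H] (f : G →* H) (x : _root_.commutator G) :
    ((cmap f x : _root_.commutator H) : H) = f x := rfl

theorem cmap_surjective {G H : Type} [Group G] [Group H] (f : G →* H)
    (hf : Function.Surjective f) : Function.Surjective (cmap f) := by
  rintro ⟨y, hy⟩
  rw [← map_commutator_top f hf] at hy
  obtain ⟨x, hx, rfl⟩ := hy
  exact ⟨⟨x, hx⟩, rfl⟩

theorem same_commutator_aux {L H : Type} [Group L] [Group H] (h : SameFiniteQuotients L H)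
    [(_root_.commutator L).FiniteIndex] (Q : Type) [Group Q] [Finite Q]
    (φ : _root_.commutator L →* Q) (hφ : Function.Surjective φ) :
    ∃ ψ : _root_.commutator H →* Q, Function.Surjective ψ := by
  set K := φ.ker.map (_root_.commutator L).subtype with hK
  have hKi : K.index ≠ 0 := by
    have h1 : φ.ker.index ≠ 0 := (Subgroup.finiteIndex_ker φ).index_ne_zero
    have h2 := Subgroup.index_map_of_injective φ.ker (_root_.commutator L).subtype_injective
    rw [hK, h2, range_subtype]
    exact mul_ne_zero h1 (FiniteIndex.index_ne_zero)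
  have hKf : K.FiniteIndex := ⟨hKi⟩
  let N := K.normalCore
  have hNK : N ≤ K := K.normalCore_le
  have hfin : Finite (L ⧸ N) := Subgroup.finite_quotient_of_finiteIndex
  let π : L →* L ⧸ N := QuotientGroup.mk' N
  have hπ : Function.Surjective π := QuotientGroup.mk'_surjective N
  obtain ⟨ψ, hψ⟩ := (h (L ⧸ N)).mp ⟨π, hπ⟩
  have hker : (cmap π).ker ≤ φ.ker := by
    intro x hx
    have h1 : π x = 1 := by
      rw [MonoidHom.mem_ker] at hx
      exact congrArg Subtype.val hx
    have h2 : (x : L) ∈ K := hNK ((QuotientGroup.eq_one_iff _).mp h1)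
    obtain ⟨y, hy, hyx⟩ := h2
    have : y = x := Subtype.ext hyx
    rwa [← this]
  let ρ : _root_.commutator (L ⧸ N) →* Q :=
    (cmap π).liftOfSurjective (cmap_surjective π hπ) ⟨φ, hker⟩
  have hρ : ∀ x, ρ (cmap π x) = φ x := fun x =>
    MonoidHom.liftOfRightInverse_comp_apply _ _ _ _ x
  refine ⟨ρ.comp (cmap ψ), ?_⟩
  intro q
  obtain ⟨x, rfl⟩ := hφ q
  obtain ⟨y, hy⟩ := cmap_surjective ψ hψ (cmap π x)
  exact ⟨y, by rw [MonoidHom.comp_apply, hy, hρ]⟩

/-- Derived subgroups of finite index have the same finite quotients. -/
theorem same_commutator {L H : Type} [Group L] [Group H] (h : SameFiniteQuotients L H)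
    [(_root_.commutator L).FiniteIndex] [(_root_.commutator H).FiniteIndex] :
    SameFiniteQuotients (_root_.commutator L) (_root_.commutator H) := by
  intro Q _ _
  constructor
  · rintro ⟨φ, hφ⟩
    exact same_commutator_aux h Q φ hφ
  · rintro ⟨φ, hφ⟩
    exact same_commutator_aux h.symm Q φ hφ

theorem map_derived_commutator (E : Type) [Group E] (n : ℕ) :
    (derivedSeries (_root_.commutator E) n).map (_root_.commutator E).subtype =
      derivedSeries E (n + 1) := by
  induction n with
  | zero =>
    rw [derivedSeries_zero, ← MonoidHom.range_eq_map, range_subtype]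
    rfl
  | succ n ih =>
    rw [derivedSeries_succ, map_commutator, ih, ← derivedSeries_succ]

/-- Third derived quotients of finitely generated groups with finite abelianization are residually
finite. -/
theorem rf_three (G : Type) [Group G] [Group.FG G] [(_root_.commutator G).FiniteIndex] :
    Group.ResiduallyFinite (G ⧸ derivedSeries G 3) := by
  let E := G ⧸ derivedSeries G 3
  let π : G →* E := QuotientGroup.mk' (derivedSeries G 3)
  have hπ : Function.Surjective π := QuotientGroup.mk'_surjective _
  have hfi : (_root_.commutator E).FiniteIndex := by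
    rw [← map_commutator_top π hπ]
    refine ⟨fun h0 => ?_⟩
    have h1 := Subgroup.index_map_dvd (_root_.commutator G) hπ
    rw [h0, zero_dvd_iff] at h1
    exact FiniteIndex.index_ne_zero h1
  have hE3 : derivedSeries E 3 = ⊥ := by
    rw [← map_derivedSeries_eq hπ 3, Subgroup.map_eq_bot_iff, QuotientGroup.ker_mk']
  have h2 : derivedSeries (_root_.commutator E) 2 = ⊥ := by
    have h3 := map_derived_commutator E 2
    rw [hE3, Subgroup.map_eq_bot_iff_of_injective _ (subtype_injective _)] at h3
    exact h3
  have hFG : Group.FG (_root_.commutator E) := inferInstance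
  have hrf := rf_two (_root_.commutator E)
  have hrf' : Group.ResiduallyFinite (_root_.commutator E) :=
    rf_of_quotients fun g hg => ⟨derivedSeries _ 2, inferInstance, by
      rw [h2, Subgroup.mem_bot]; exact hg, hrf⟩
  exact rf_of_finiteIndex (_root_.commutator E)

end Pool.Agent.Lib.MP_305fdd_al.Solv
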