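import Mathlib
import Pool.Agent.Lib.MP_305fdd_al.Solv.Six
import Pool.Agent.Lib.MP_305fdd_al.Solv.Sub
import Pool.Agent.Lib.MP_305fdd_al.Solv.H1Mul

/-!
# The action of endomorphisms on `G' / G''`, and a regular sequence
-/

set_option autoImplicit false

namespace Pool.Agent.Lib.MP_305fdd_al.Solv

open MonoidAlgebra Subgroup Pool.Agent.MP_305fdd_al
open scoped commutatorElement

section fM

variable {G : Type} [Group G] (f : G →* G)

/-- the induced endomorphism of `G' / G''` -/
def fM : MM G →+ MM G := MonoidHom.toAdditive (Abelianization.map (cmap f))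

theorem fM_mk (c : _root_.commutator G) : fM f (mk c) = mk (cmap f c) := rfl

theorem fM_mc (x y : G) : fM f (mc x y) = mc (f x) (f y) := by
  unfold mc
  rw [fM_mk]
  congr 1
  apply Subtype.ext
  rw [cmap_val]
  exact map_commutatorElement _ _ _

theorem fM_act (g : G) (m : MM G) : fM f (act g m) = act (f g) (fM f m) := by
  obtain ⟨c, rfl⟩ := mk_surjective m
  rw [act_mk, fM_mk, fM_mk, act_mk]
  congr 1
  apply Subtype.ext
  rw [cmap_val, cj_val, cj_val, cmap_val, map_mul, map_mul, map_inv]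

theorem fM_smul (r : MonoidAlgebra ℤ (Abelianization G)) (m : MM G) :
    fM f (r • m) = tau (Abelianization.map f) r • fM f m := by
  induction r using MonoidAlgebra.induction_linear with
  | zero => rw [zero_smul, map_zero, map_zero, zero_smul]
  | add r s hr hs => rw [add_smul, map_add, hr, hs, map_add, add_smul]
  | single a z =>
    obtain ⟨g, rfl⟩ := of_surj a
    rw [single_smul, map_zsmul, of_smul, fM_act]
    have h1 : tau (Abelianization.map f) (single (Abelianization.of g) z) =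
        (single (Abelianization.of (f g)) z : MonoidAlgebra ℤ (Abelianization G)) := by
      simp
    rw [h1, single_smul, of_smul]

theorem fM_iter (n : ℕ) (c : _root_.commutator G) :
    (fM f)^[n] (mk c) = mk ((cmap f)^[n] c) := by
  induction n with
  | zero => rfl
  | succ n ih => rw [Function.iterate_succ_apply', Function.iterate_succ_apply', ih, fM_mk]

theorem cmap_iter (n : ℕ) (c : _root_.commutator G) :
    (((cmap f)^[n] c : _root_.commutator G) : G) = f^[n] c := by
  induction n with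
  | zero => rfl
  | succ n ih => rw [Function.iterate_succ_apply', Function.iterate_succ_apply', cmap_val, ih]

theorem fM_iter_smul {c : MM G} {u : MonoidAlgebra ℤ (Abelianization G)} (h : fM f c = u • c)
    (n : ℕ) : (fM f)^[n] c =
      (∏ j ∈ Finset.range n, (tau (Abelianization.map f))^[j] u) • c := by
  induction n with
  | zero => simp
  | succ n ih =>
    rw [Function.iterate_succ_apply', ih, fM_smul, h, smul_smul, map_prod,
      Finset.prod_range_succ']
    simp only [Function.iterate_succ_apply', Function.iterate_zero_apply]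

end fM

/-! ### A regular sequence -/

section reg

theorem dvd_of_zpowers {A : Type} [CommGroup A] {q a : A} (ha : a ∈ zpowers q) :
    (1 - of ℤ A q) ∣ of ℤ A a - 1 := by
  rw [zpowers_eq_closure] at ha
  rw [← Ideal.mem_span_singleton]
  induction ha using Subgroup.closure_induction with
  | mem a ha =>
    rw [Set.mem_singleton_iff] at ha
    have h1 : of ℤ A a - 1 = -(1 - of ℤ A q) := by rw [ha]; ring
    rw [h1]
    exact (Ideal.span {1 - of ℤ A q}).neg_mem (Ideal.mem_span_singleton_self (1 - of ℤ A q))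
  | one => rw [map_one, sub_self]; exact zero_mem _
  | mul a b _ _ ha hb =>
    have : of ℤ A (a * b) - 1 = of ℤ A a * (of ℤ A b - 1) + (of ℤ A a - 1) := by
      rw [map_mul]; ring
    rw [this]
    exact add_mem (Ideal.mul_mem_left _ _ hb) ha
  | inv a _ ha =>
    have : of ℤ A a⁻¹ - 1 = -(of ℤ A a⁻¹ * (of ℤ A a - 1)) := by
      rw [mul_sub, ← map_mul, inv_mul_cancel, map_one, mul_one, neg_sub]
    rw [this]
    exact neg_mem (Ideal.mul_mem_left _ _ ha)

/-- in the group ring of `ℤ²` over `ℤ / k` -/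
theorem reg_ring {A : Type} [CommGroup A] (e' : A0 ≃* A) {k : ℕ}
    {b g : MonoidAlgebra ℤ A}
    (h : (k : MonoidAlgebra ℤ A) ∣ (1 - of ℤ A (e' (Multiplicative.ofAdd 1, 1))) * b -
      (1 - of ℤ A (e' (1, Multiplicative.ofAdd 1))) * g) :
    ∃ r : MonoidAlgebra ℤ A,
      (k : MonoidAlgebra ℤ A) ∣ b - (1 - of ℤ A (e' (1, Multiplicative.ofAdd 1))) * r ∧
      (k : MonoidAlgebra ℤ A) ∣ g - (1 - of ℤ A (e' (Multiplicative.ofAdd 1, 1))) * r := by
  obtain ⟨p, hp⟩ : ∃ p, p = e' (Multiplicative.ofAdd 1, 1) := ⟨_, rfl⟩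
  obtain ⟨q, hq⟩ : ∃ q, q = e' (1, Multiplicative.ofAdd 1) := ⟨_, rfl⟩
  rw [← hp, ← hq] at h ⊢
  let pr : A0 →* A0 := (MonoidHom.inl _ _).comp (MonoidHom.fst _ _)
  let φ : A →* A := e'.toMonoidHom.comp (pr.comp e'.symm.toMonoidHom)
  have hφp : φ p = p := by
    show e' (pr (e'.symm p)) = p
    rw [hp, e'.symm_apply_apply]; rfl
  have hφq : φ q = 1 := by
    show e' (pr (e'.symm q)) = 1
    rw [hq, e'.symm_apply_apply, ← map_one e']; rfl
  have hφa : ∀ a, ∃ j : ℤ, a = φ a * q ^ j := by
    intro a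
    obtain ⟨⟨x, y⟩, rfl⟩ := e'.surjective a
    refine ⟨Multiplicative.toAdd y, ?_⟩
    show e' (x, y) = e' (pr (e'.symm (e' (x, y)))) * q ^ _
    rw [e'.symm_apply_apply, hq, ← map_zpow, ← map_mul]
    congr 1
    ext
    · simp [pr]
    · simp [pr]
  -- `s - φ s` is a multiple of `1 - q`
  have h1 : ∀ s : MonoidAlgebra ℤ A, (1 - of ℤ A q) ∣ s - tau φ s := by
    intro s
    induction s using MonoidAlgebra.induction_linear with
    | zero => rw [map_zero, sub_zero]; exact dvd_zero _
    | add s t hs ht =>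
      have : s + t - tau φ (s + t) = (s - tau φ s) + (t - tau φ t) := by rw [map_add]; ring
      rw [this]
      exact dvd_add hs ht
    | single a z =>
      have e1 : (single a z : MonoidAlgebra ℤ A) = (z : MonoidAlgebra ℤ A) * of ℤ A a := by
        rw [← zsmul_eq_mul]; simp
      rw [e1, map_mul, map_intCast, tau_of, ← mul_sub]
      apply Dvd.dvd.mul_left
      obtain ⟨j, hj⟩ := hφa a
      have h2 : (1 - of ℤ A q) ∣ of ℤ A (q ^ j) - 1 :=
        dvd_of_zpowers (zpow_mem (mem_zpowers q) j)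
      have h3 : of ℤ A a - of ℤ A (φ a) = of ℤ A (φ a) * (of ℤ A (q ^ j) - 1) := by
        have h4 : of ℤ A a = of ℤ A (φ a) * of ℤ A (q ^ j) := by rw [← map_mul, ← hj]
        rw [mul_sub, mul_one, ← h4]
      rw [h3]
      exact h2.mul_left _
  -- nonzerodivisors
  have hnz : ∀ (a : A), (∀ n : ℕ, 0 < n → a ^ n ≠ 1) → ∀ s : MonoidAlgebra ℤ A,
      (k : MonoidAlgebra ℤ A) ∣ (1 - of ℤ A a) * s → (k : MonoidAlgebra ℤ A) ∣ s := by
    intro a ha s hs
    rw [dvd_iff_map, map_mul, map_sub, map_one] at hs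
    rw [dvd_iff_map]
    apply eq_zero_of_mul_one_sub ha
    rw [mul_comm]
    have : mapRingHom A (Int.castRingHom (ZMod k)) (of ℤ A a) = of (ZMod k) A a := by simp
    rw [← this]
    exact hs
  have hpi : ∀ n : ℕ, 0 < n → p ^ n ≠ 1 := fun n hn => by rw [hp]; exact (basis_inf e' n hn).1
  have hqi : ∀ n : ℕ, 0 < n → q ^ n ≠ 1 := fun n hn => by rw [hq]; exact (basis_inf e' n hn).2
  have h2 := tau_dvd (α := φ) h
  have h3 : tau φ ((1 - of ℤ A p) * b - (1 - of ℤ A q) * g) = (1 - of ℤ A p) * tau φ b := by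
    rw [map_sub, map_mul, map_mul, map_sub, map_sub, map_one, tau_of, tau_of, hφp, hφq, map_one,
      sub_self, zero_mul, sub_zero]
  rw [h3] at h2
  have h4 := hnz p hpi _ h2
  obtain ⟨r, hr⟩ := h1 b
  refine ⟨r, ?_, ?_⟩
  · rw [← hr]
    have : b - (b - tau φ b) = tau φ b := by ring
    rw [this]
    exact h4
  · apply hnz q hqi
    have : (1 - of ℤ A q) * (g - (1 - of ℤ A p) * r) =
        (1 - of ℤ A p) * (b - (1 - of ℤ A q) * r) -
          ((1 - of ℤ A p) * b - (1 - of ℤ A q) * g) := by ring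
    rw [this]
    refine dvd_sub (Dvd.dvd.mul_left ?_ _) h
    rw [← hr]
    have : b - (b - tau φ b) = tau φ b := by ring
    rw [this]
    exact h4

variable {G : Type} [Group G]

theorem smul_eq_zero_of_dvd {k : ℕ} (hk : ∀ x : MM G, (k : MonoidAlgebra ℤ (Abelianization G)) • x = 0)
    {r : MonoidAlgebra ℤ (Abelianization G)} (h : (k : MonoidAlgebra ℤ (Abelianization G)) ∣ r)
    (m : MM G) : r • m = 0 := by
  obtain ⟨s, rfl⟩ := h
  rw [mul_smul, hk]

theorem reg_mod {k : ℕ} {c : MM G}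
    (hc : Submodule.span (MonoidAlgebra ℤ (Abelianization G)) {c} = ⊤)
    (hann : ∀ r : MonoidAlgebra ℤ (Abelianization G), r • c = 0 →
        r ∈ Ideal.span {(k : MonoidAlgebra ℤ (Abelianization G))})
    (hk : ∀ x : MM G, (k : MonoidAlgebra ℤ (Abelianization G)) • x = 0)
    (e : Abelianization G ≃* A0) {p q : Abelianization G}
    (hpq : closure ({p, q} : Set (Abelianization G)) = ⊤) {β γ : MM G}
    (h : (1 - of ℤ _ p) • β = (1 - of ℤ _ q) • γ) :
    ∃ ρ : MM G, β = (1 - of ℤ _ q) • ρ ∧ γ = (1 - of ℤ _ p) • ρ := by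
  have hgen : ∀ z : MM G, ∃ r : MonoidAlgebra ℤ (Abelianization G), r • c = z := by
    intro z
    have : z ∈ Submodule.span (MonoidAlgebra ℤ (Abelianization G)) {c} := by rw [hc]; trivial
    exact Submodule.mem_span_singleton.mp this
  obtain ⟨b, rfl⟩ := hgen β
  obtain ⟨g, rfl⟩ := hgen γ
  obtain ⟨e', hp, hq⟩ := basis_equiv e hpq
  have h1 : ((1 - of ℤ _ p) * b - (1 - of ℤ _ q) * g) • c = 0 := by
    rw [sub_smul, mul_smul, mul_smul, h, sub_self]
  have h2 := Ideal.mem_span_singleton.mp (hann _ h1)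
  rw [← hp, ← hq] at h2
  obtain ⟨r, hr1, hr2⟩ := reg_ring e' h2
  rw [hq] at hr1
  rw [hp] at hr2
  refine ⟨r • c, ?_, ?_⟩
  · have := smul_eq_zero_of_dvd hk hr1 c
    rw [sub_smul, sub_eq_zero, mul_smul] at this
    exact this
  · have := smul_eq_zero_of_dvd hk hr2 c
    rw [sub_smul, sub_eq_zero, mul_smul] at this
    exact this

/-- `1 - p` is a nonzerodivisor on `G' / G''` -/
theorem nzd_mod {k : ℕ} {c : MM G}
    (hc : Submodule.span (MonoidAlgebra ℤ (Abelianization G)) {c} = ⊤)
    (hann : ∀ r : MonoidAlgebra ℤ (Abelianization G), r • c = 0 →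
        r ∈ Ideal.span {(k : MonoidAlgebra ℤ (Abelianization G))})
    (hk : ∀ x : MM G, (k : MonoidAlgebra ℤ (Abelianization G)) • x = 0)
    (e : Abelianization G ≃* A0) {p q : Abelianization G}
    (hpq : closure ({p, q} : Set (Abelianization G)) = ⊤) {β : MM G}
    (h : (1 - of ℤ _ p) • β = 0) : β = 0 := by
  have hgen : ∀ z : MM G, ∃ r : MonoidAlgebra ℤ (Abelianization G), r • c = z := by
    intro z
    have : z ∈ Submodule.span (MonoidAlgebra ℤ (Abelianization G)) {c} := by rw [hc]; trivial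
    exact Submodule.mem_span_singleton.mp this
  obtain ⟨b, rfl⟩ := hgen β
  obtain ⟨e', hp, hq⟩ := basis_equiv e hpq
  rw [smul_smul] at h
  have h2 := Ideal.mem_span_singleton.mp (hann _ h)
  apply smul_eq_zero_of_dvd hk
  rw [dvd_iff_map, map_mul, map_sub, map_one] at h2
  rw [dvd_iff_map]
  apply eq_zero_of_mul_one_sub (g := p)
  · intro n hn
    rw [← hp]
    exact (basis_inf e' n hn).1
  rw [mul_comm]
  have : mapRingHom (Abelianization G) (Int.castRingHom (ZMod k)) (of ℤ _ p) = of (ZMod k) _ p := by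
    simp
  rw [← this]
  exact h2

end reg

end Pool.Agent.Lib.MP_305fdd_al.Solv
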