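import Mathlib
import Pool.Agent.Lib.MP_305fdd_al.Solv.Gam

/-!
# The triangle groups `(2, 3, 6k)` and their derived subgroups
-/

set_option autoImplicit false

namespace Pool.Agent.Lib.MP_305fdd_al.Solv

open Subgroup
open scoped commutatorElement

/-! ### Relations -/

section rel

variable {E : Type*} [Group E] {x y t : E}

/-- the element of order two -/
def trX (x y t : E) : E := y⁻¹ * x⁻¹ * t ^ 3

/-- the element of order three -/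
def trY (x t : E) : E := (t ^ 2)⁻¹ * x

theorem tr_XY (h1 : t * x * t⁻¹ = x * y) : trX x y t * trY x t = t := by
  have h1' : t * x = x * y * t := by rw [← h1]; group
  calc trX x y t * trY x t = y⁻¹ * x⁻¹ * (t * x) := by unfold trX trY; group
    _ = t := by rw [h1']; group

theorem tr_tau3 (h1 : t * x * t⁻¹ = x * y) (h2 : t * y * t⁻¹ = x⁻¹) :
    t ^ 3 * x * (t ^ 3)⁻¹ = ⁅x, y⁆ * x⁻¹ ∧ t ^ 3 * y * (t ^ 3)⁻¹ = x * y⁻¹ * x⁻¹ := by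
  have a2 : t ^ 2 * x * (t ^ 2)⁻¹ = x * y * x⁻¹ := by
    calc t ^ 2 * x * (t ^ 2)⁻¹ = t * (t * x * t⁻¹) * t⁻¹ := by
          simp only [pow_two, mul_inv_rev, mul_assoc]
      _ = t * (x * y) * t⁻¹ := by rw [h1]
      _ = (t * x * t⁻¹) * (t * y * t⁻¹) := by group
      _ = x * y * x⁻¹ := by rw [h1, h2]
  have b2 : t ^ 2 * y * (t ^ 2)⁻¹ = (x * y)⁻¹ := by
    calc t ^ 2 * y * (t ^ 2)⁻¹ = t * (t * y * t⁻¹) * t⁻¹ := by
          simp only [pow_two, mul_inv_rev, mul_assoc]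
      _ = t * x⁻¹ * t⁻¹ := by rw [h2]
      _ = (t * x * t⁻¹)⁻¹ := by group
      _ = (x * y)⁻¹ := by rw [h1]
  constructor
  · calc t ^ 3 * x * (t ^ 3)⁻¹ = t * (t ^ 2 * x * (t ^ 2)⁻¹) * t⁻¹ := by group
      _ = t * (x * y * x⁻¹) * t⁻¹ := by rw [a2]
      _ = (t * x * t⁻¹) * (t * y * t⁻¹) * (t * x * t⁻¹)⁻¹ := by group
      _ = x * y * x⁻¹ * (x * y)⁻¹ := by rw [h1, h2]
      _ = ⁅x, y⁆ * x⁻¹ := by rw [commutatorElement_def]; group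
  · calc t ^ 3 * y * (t ^ 3)⁻¹ = t * (t ^ 2 * y * (t ^ 2)⁻¹) * t⁻¹ := by group
      _ = t * (x * y)⁻¹ * t⁻¹ := by rw [b2]
      _ = (t * y * t⁻¹)⁻¹ * (t * x * t⁻¹)⁻¹ := by group
      _ = x * y⁻¹ * x⁻¹ := by rw [h1, h2]; group

theorem tr_c (h1 : t * x * t⁻¹ = x * y) (h2 : t * y * t⁻¹ = x⁻¹) :
    t * ⁅x, y⁆ * t⁻¹ = ⁅x, y⁆ := by
  calc t * ⁅x, y⁆ * t⁻¹ = (t * x * t⁻¹) * (t * y * t⁻¹) * (t * x * t⁻¹)⁻¹ * (t * y * t⁻¹)⁻¹ := by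
        rw [commutatorElement_def]; group
    _ = ⁅x, y⁆ := by rw [h1, h2, commutatorElement_def]; group

theorem tr_c3 (h1 : t * x * t⁻¹ = x * y) (h2 : t * y * t⁻¹ = x⁻¹) :
    t ^ 3 * ⁅x, y⁆ * (t ^ 3)⁻¹ = ⁅x, y⁆ := by
  have h := tr_c h1 h2
  calc t ^ 3 * ⁅x, y⁆ * (t ^ 3)⁻¹ = t * (t * (t * ⁅x, y⁆ * t⁻¹) * t⁻¹) * t⁻¹ := by
        simp only [pow_succ, pow_zero, one_mul, mul_inv_rev, mul_assoc]
    _ = ⁅x, y⁆ := by rw [h, h, h]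

theorem tr_tau6 (h1 : t * x * t⁻¹ = x * y) (h2 : t * y * t⁻¹ = x⁻¹) :
    t ^ 6 * x * (t ^ 6)⁻¹ = ⁅x, y⁆ * x * ⁅x, y⁆⁻¹ ∧
      t ^ 6 * y * (t ^ 6)⁻¹ = ⁅x, y⁆ * y * ⁅x, y⁆⁻¹ := by
  obtain ⟨a3, b3⟩ := tr_tau3 h1 h2
  have c3 := tr_c3 h1 h2
  set c := ⁅x, y⁆ with hc
  constructor
  · calc t ^ 6 * x * (t ^ 6)⁻¹ = t ^ 3 * (t ^ 3 * x * (t ^ 3)⁻¹) * (t ^ 3)⁻¹ := by group
      _ = t ^ 3 * (c * x⁻¹) * (t ^ 3)⁻¹ := by rw [a3]
      _ = (t ^ 3 * c * (t ^ 3)⁻¹) * (t ^ 3 * x * (t ^ 3)⁻¹)⁻¹ := by group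
      _ = c * x * c⁻¹ := by rw [a3, c3]; group
  · calc t ^ 6 * y * (t ^ 6)⁻¹ = t ^ 3 * (t ^ 3 * y * (t ^ 3)⁻¹) * (t ^ 3)⁻¹ := by group
      _ = t ^ 3 * (x * y⁻¹ * x⁻¹) * (t ^ 3)⁻¹ := by rw [b3]
      _ = (t ^ 3 * x * (t ^ 3)⁻¹) * (t ^ 3 * y * (t ^ 3)⁻¹)⁻¹ * (t ^ 3 * x * (t ^ 3)⁻¹)⁻¹ := by
        group
      _ = c * y * c⁻¹ := by rw [a3, b3]; group

theorem tr_X2 (h1 : t * x * t⁻¹ = x * y) (h2 : t * y * t⁻¹ = x⁻¹) (h3 : t ^ 6 = ⁅x, y⁆) :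
    trX x y t ^ 2 = 1 := by
  obtain ⟨a3, b3⟩ := tr_tau3 h1 h2
  calc trX x y t ^ 2 = y⁻¹ * x⁻¹ * ((t ^ 3 * y * (t ^ 3)⁻¹)⁻¹ * (t ^ 3 * x * (t ^ 3)⁻¹)⁻¹) * t ^ 6 := by
        unfold trX; rw [pow_two]; group
    _ = 1 := by rw [a3, b3, h3]; group

theorem tr_Y3 (h1 : t * x * t⁻¹ = x * y) (h2 : t * y * t⁻¹ = x⁻¹) (h3 : t ^ 6 = ⁅x, y⁆) :
    trY x t ^ 3 = 1 := by
  have e1 : t⁻¹ * x * t = y⁻¹ := by
    have : x = t * y⁻¹ * t⁻¹ := by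
      have := congrArg (fun z => z⁻¹) h2
      simp only [mul_inv_rev, inv_inv] at this
      rw [← this]; group
    rw [this]; group
  have e2 : t⁻¹ * y * t = y * x := by
    have h4 : t⁻¹ * (x * y) * t = x := by rw [← h1]; group
    have h5 : t⁻¹ * (x * y) * t = (t⁻¹ * x * t) * (t⁻¹ * y * t) := by group
    rw [h5, e1] at h4
    calc t⁻¹ * y * t = y * (y⁻¹ * (t⁻¹ * y * t)) := by group
      _ = y * x := by rw [h4]
  have f1 : (t ^ 2)⁻¹ * x * t ^ 2 = x⁻¹ * y⁻¹ := by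
    calc (t ^ 2)⁻¹ * x * t ^ 2 = t⁻¹ * (t⁻¹ * x * t) * t := by
          simp only [pow_two, mul_inv_rev, mul_assoc]
      _ = t⁻¹ * y⁻¹ * t := by rw [e1]
      _ = (t⁻¹ * y * t)⁻¹ := by group
      _ = x⁻¹ * y⁻¹ := by rw [e2]; group
  have f2 : (t ^ 2)⁻¹ * y * t ^ 2 = y * x * y⁻¹ := by
    calc (t ^ 2)⁻¹ * y * t ^ 2 = t⁻¹ * (t⁻¹ * y * t) * t := by
          simp only [pow_two, mul_inv_rev, mul_assoc]
      _ = t⁻¹ * (y * x) * t := by rw [e2]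
      _ = (t⁻¹ * y * t) * (t⁻¹ * x * t) := by group
      _ = y * x * y⁻¹ := by rw [e1, e2]
  have f3 : (t ^ 4)⁻¹ * x * t ^ 4 = y * x * y * x⁻¹ * y⁻¹ := by
    calc (t ^ 4)⁻¹ * x * t ^ 4 = (t ^ 2)⁻¹ * ((t ^ 2)⁻¹ * x * t ^ 2) * t ^ 2 := by group
      _ = (t ^ 2)⁻¹ * (x⁻¹ * y⁻¹) * t ^ 2 := by rw [f1]
      _ = ((t ^ 2)⁻¹ * x * t ^ 2)⁻¹ * ((t ^ 2)⁻¹ * y * t ^ 2)⁻¹ := by group
      _ = y * x * y * x⁻¹ * y⁻¹ := by rw [f1, f2]; group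
  calc trY x t ^ 3 = ((t ^ 2)⁻¹ * x * t ^ 2) * ((t ^ 4)⁻¹ * x * t ^ 4) * (t ^ 6)⁻¹ * x := by
        unfold trY; rw [pow_succ, pow_two]; group
    _ = 1 := by rw [f1, f3, h3, commutatorElement_def]; group

theorem tr_x (h1 : t * x * t⁻¹ = x * y) (h2 : t * y * t⁻¹ = x⁻¹) (h3 : t ^ 6 = ⁅x, y⁆) :
    ⁅trX x y t, trY x t⁆ = x := by
  have hX : (trX x y t)⁻¹ = trX x y t := by
    have := tr_X2 h1 h2 h3
    rw [pow_two] at this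
    exact inv_eq_of_mul_eq_one_left this
  have hY : (trY x t)⁻¹ = trY x t ^ 2 := by
    have := tr_Y3 h1 h2 h3
    rw [pow_succ] at this
    exact inv_eq_of_mul_eq_one_left this
  have hXY := tr_XY h1 (t := t)
  calc ⁅trX x y t, trY x t⁆ = trX x y t * trY x t * (trX x y t)⁻¹ * (trY x t)⁻¹ :=
        commutatorElement_def _ _
    _ = (trX x y t * trY x t) * (trX x y t * trY x t) * trY x t := by
        rw [hX, hY, pow_two]; simp only [mul_assoc]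
    _ = t * t * trY x t := by rw [hXY]
    _ = x := by unfold trY; group

theorem tr_y (h1 : t * x * t⁻¹ = x * y) (h2 : t * y * t⁻¹ = x⁻¹) (h3 : t ^ 6 = ⁅x, y⁆) :
    ⁅(trY x t)⁻¹, trX x y t⁆ = y := by
  have hX : (trX x y t)⁻¹ = trX x y t := by
    have := tr_X2 h1 h2 h3
    rw [pow_two] at this
    exact inv_eq_of_mul_eq_one_left this
  have hXY := tr_XY h1 (t := t)
  have hX' : trX x y t = t * (trY x t)⁻¹ := by
    rw [eq_mul_inv_iff_mul_eq]; exact hXY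
  obtain ⟨a3, b3⟩ := tr_tau3 h1 h2
  have a4 : t ^ 4 * x * (t ^ 4)⁻¹ = ⁅x, y⁆ * (x * y)⁻¹ := by
    calc t ^ 4 * x * (t ^ 4)⁻¹ = t * (t ^ 3 * x * (t ^ 3)⁻¹) * t⁻¹ := by group
      _ = t * (⁅x, y⁆ * x⁻¹) * t⁻¹ := by rw [a3]
      _ = (t * ⁅x, y⁆ * t⁻¹) * (t * x * t⁻¹)⁻¹ := by
        simp only [mul_inv_rev, inv_inv, mul_assoc, inv_mul_cancel_left]
      _ = ⁅x, y⁆ * (x * y)⁻¹ := by rw [tr_c h1 h2, h1]
  calc ⁅(trY x t)⁻¹, trX x y t⁆ = (trY x t)⁻¹ * (trX x y t * trY x t) * (trX x y t)⁻¹ := by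
        rw [commutatorElement_def]; group
    _ = (trY x t)⁻¹ * t * (t * (trY x t)⁻¹) := by rw [hXY, hX, hX']
    _ = x⁻¹ * (t ^ 4 * x * (t ^ 4)⁻¹)⁻¹ * t ^ 6 := by unfold trY; group
    _ = y := by rw [a4, h3]; group

end rel

/-! ### The converse relations -/

section conv

variable {E : Type} [Group E] {X Y : E}

theorem cv_rel (hX : X ^ 2 = 1) (hY : Y ^ 3 = 1) :
    (X * Y) * ⁅X, Y⁆ * (X * Y)⁻¹ = ⁅X, Y⁆ * ⁅Y⁻¹, X⁆ ∧ (X * Y) * ⁅Y⁻¹, X⁆ * (X * Y)⁻¹ = ⁅X, Y⁆⁻¹ ∧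
      (X * Y) ^ 6 = ⁅(⁅X, Y⁆ : E), ⁅Y⁻¹, X⁆⁆ := by
  rw [pow_two] at hX
  have hX' : X⁻¹ = X := inv_eq_of_mul_eq_one_left hX
  have hY0 : Y * (Y * Y) = 1 := by rw [← hY, pow_succ, pow_two, mul_assoc]
  have hY' : Y⁻¹ = Y * Y := inv_eq_of_mul_eq_one_right hY0
  have hX2 : ∀ z, X * (X * z) = z := fun z => by rw [← mul_assoc, hX, one_mul]
  have hY2 : ∀ z, Y * (Y * (Y * z)) = z := fun z => by
    rw [← mul_assoc Y Y z, ← mul_assoc Y (Y * Y) z, hY0, one_mul]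
  refine ⟨?_, ?_, ?_⟩
  · simp only [commutatorElement_def, mul_inv_rev, hX', hY', mul_assoc, hY0, hY2, mul_one]
  · simp only [commutatorElement_def, mul_inv_rev, hX', hY', mul_assoc, hY0, hX2, hY2,
      mul_one]
  · simp only [commutatorElement_def, mul_inv_rev, hX', hY', mul_assoc, hY0, hX2, hY2,
      mul_one, pow_succ, pow_zero, one_mul]

/-- The subgroup generated by `[X, Y]` and `[Y⁻¹, X]` is the derived subgroup. -/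
theorem cv_commutator (hX : X ^ 2 = 1) (hY : Y ^ 3 = 1) (h : closure ({X, Y} : Set E) = ⊤) :
    closure ({⁅X, Y⁆, ⁅Y⁻¹, X⁆} : Set E) = _root_.commutator E := by
  have hX1 := hX
  rw [pow_two] at hX1
  have hX' : X⁻¹ = X := inv_eq_of_mul_eq_one_left hX1
  have hY0 : Y * (Y * Y) = 1 := by rw [← hY, pow_succ, pow_two, mul_assoc]
  have hY' : Y⁻¹ = Y * Y := inv_eq_of_mul_eq_one_right hY0
  have hX2 : ∀ z, X * (X * z) = z := fun z => by rw [← mul_assoc, hX1, one_mul]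
  have hY2 : ∀ z, Y * (Y * (Y * z)) = z := fun z => by
    rw [← mul_assoc Y Y z, ← mul_assoc Y (Y * Y) z, hY0, one_mul]
  set H := closure ({⁅X, Y⁆, ⁅Y⁻¹, X⁆} : Set E) with hH
  have hx : ⁅X, Y⁆ ∈ H := subset_closure (Or.inl rfl)
  have hy : ⁅Y⁻¹, X⁆ ∈ H := subset_closure (Or.inr rfl)
  have conjle : ∀ g : E, g * ⁅X, Y⁆ * g⁻¹ ∈ H → g * ⁅Y⁻¹, X⁆ * g⁻¹ ∈ H →
      ∀ h ∈ H, g * h * g⁻¹ ∈ H := by
    intro g h1 h2 h hh
    have h3 : H ≤ H.comap (MulAut.conj g).toMonoidHom := by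
      rw [hH, closure_le, ← hH]
      rintro _ (rfl | rfl)
      · exact h1
      · exact h2
    exact h3 hh
  have cX : ∀ h ∈ H, X * h * X⁻¹ ∈ H := by
    apply conjle
    · have : X * ⁅X, Y⁆ * X⁻¹ = ⁅X, Y⁆⁻¹ := by
        simp only [commutatorElement_def, mul_inv_rev, hX', hY', mul_assoc, hX2, hY2]
      rw [this]; exact inv_mem hx
    · have : X * ⁅Y⁻¹, X⁆ * X⁻¹ = ⁅Y⁻¹, X⁆⁻¹ := by
        simp only [commutatorElement_def, mul_inv_rev, hX', hY', mul_assoc, hX1, mul_one, hY0]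
      rw [this]; exact inv_mem hy
  have cY : ∀ h ∈ H, Y⁻¹ * h * Y⁻¹⁻¹ ∈ H := by
    apply conjle
    · have : Y⁻¹ * ⁅X, Y⁆ * Y⁻¹⁻¹ = ⁅Y⁻¹, X⁆ := by
        simp only [commutatorElement_def, mul_inv_rev, hX', hY', mul_assoc, hY0, mul_one]
      rw [this]; exact hy
    · have : Y⁻¹ * ⁅Y⁻¹, X⁆ * Y⁻¹⁻¹ = ⁅X, Y⁆⁻¹ * ⁅Y⁻¹, X⁆⁻¹ := by
        simp only [commutatorElement_def, mul_inv_rev, hX', hY', mul_assoc, hY2, hX2]
      rw [this]; exact mul_mem (inv_mem hx) (inv_mem hy)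
  have hN : H.Normal := by
    have h1 : (⊤ : Subgroup E) ≤
        { carrier := {g | (∀ h ∈ H, g * h * g⁻¹ ∈ H) ∧ (∀ h ∈ H, g⁻¹ * h * g ∈ H)}
          one_mem' := ⟨fun h hh => by simpa using hh, fun h hh => by simpa using hh⟩
          mul_mem' := by
            rintro a b ⟨ha, ha'⟩ ⟨hb, hb'⟩
            refine ⟨fun h hh => ?_, fun h hh => ?_⟩
            · have : a * b * h * (a * b)⁻¹ = a * (b * h * b⁻¹) * a⁻¹ := by group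
              rw [this]; exact ha _ (hb _ hh)
            · have : (a * b)⁻¹ * h * (a * b) = b⁻¹ * (a⁻¹ * h * a) * b := by group
              rw [this]; exact hb' _ (ha' _ hh)
          inv_mem' := by
            rintro a ⟨ha, ha'⟩
            exact ⟨fun h hh => by rw [inv_inv]; exact ha' h hh,
              fun h hh => by rw [inv_inv]; exact ha h hh⟩ } := by
      rw [← h, closure_le, Set.insert_subset_iff, Set.singleton_subset_iff]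
      refine ⟨⟨cX, fun h hh => ?_⟩, ⟨fun h hh => ?_, fun h hh => ?_⟩⟩
      · have := cX h hh
        rwa [hX'] at this ⊢
      · have h1 := cY _ (cY _ hh)
        have h2 : Y⁻¹ * (Y⁻¹ * h * Y⁻¹⁻¹) * Y⁻¹⁻¹ = Y * h * Y⁻¹ := by
          simp only [inv_inv]
          rw [hY']
          simp only [mul_assoc, hY2]
        rwa [h2] at h1
      · have h1 := cY _ hh
        rwa [inv_inv] at h1
    refine ⟨fun n hn g => (h1 (mem_top g)).1 n hn⟩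
  apply le_antisymm
  · rw [hH, closure_le]
    rintro _ (rfl | rfl)
    · exact commutator_mem _ _
    · exact commutator_mem _ _
  · apply commutator_le_of_gens h
    rintro s (rfl | rfl) t (rfl | rfl)
    · rw [commutatorElement_self]; exact one_mem _
    · exact hx
    · rw [← commutatorElement_inv]; exact inv_mem hx
    · rw [commutatorElement_self]; exact one_mem _

end conv

end Pool.Agent.Lib.MP_305fdd_al.Solv
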