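import Mathlib
import Pool.Agent.Lib.MP_305fdd_al.Solv.Tri

/-!
# The derived subgroup of the triangle group `(2, 3, 6k)`
-/

set_option autoImplicit false

namespace Pool.Agent.Lib.MP_305fdd_al.Solv

open Subgroup
open scoped commutatorElement

/-- The relators `X ^ 2`, `Y ^ 3`, `(X Y) ^ (6 k)` in the free group on `X = of 0`, `Y = of 1`. -/
def relD (k : ℕ) : Set (FreeGroup (Fin 2)) :=
  {(FreeGroup.of 0) ^ 2, (FreeGroup.of 1) ^ 3, (FreeGroup.of 0 * FreeGroup.of 1) ^ (6 * k)}

/-- The group `⟨X, Y | X ^ 2, Y ^ 3, (X Y) ^ (6 k)⟩`. -/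
abbrev Del (k : ℕ) : Type := PresentedGroup (relD k)

section Del

variable (k : ℕ)

/-- the generator of order two -/
abbrev dX : Del k := PresentedGroup.of 0
/-- the generator of order three -/
abbrev dY : Del k := PresentedGroup.of 1

theorem Del_X : (dX k) ^ 2 = 1 := by
  have h := PresentedGroup.one_of_mem (rels := relD k)
    (x := (FreeGroup.of 0) ^ 2) (Or.inl rfl)
  rw [map_pow] at h
  exact h

theorem Del_Y : (dY k) ^ 3 = 1 := by
  have h := PresentedGroup.one_of_mem (rels := relD k)
    (x := (FreeGroup.of 1) ^ 3) (Or.inr (Or.inl rfl))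
  rw [map_pow] at h
  exact h

theorem Del_XY : (dX k * dY k) ^ (6 * k) = 1 := by
  have h := PresentedGroup.one_of_mem (rels := relD k)
    (x := (FreeGroup.of 0 * FreeGroup.of 1) ^ (6 * k)) (Or.inr (Or.inr rfl))
  rw [map_pow, map_mul] at h
  exact h

theorem Del_gen : closure ({dX k, dY k} : Set (Del k)) = ⊤ := by
  rw [← PresentedGroup.closure_range_of]
  congr 1
  ext x
  constructor
  · rintro (rfl | rfl)
    · exact ⟨0, rfl⟩
    · exact ⟨1, rfl⟩
  · rintro ⟨i, rfl⟩
    fin_cases i
    · exact Or.inl rfl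
    · exact Or.inr rfl

instance Del_fg : Group.FG (Del k) := by
  rw [Group.fg_iff]
  exact ⟨_, Del_gen k, by simp⟩

variable {k}

/-- homomorphisms out of `Del k` -/
def Del_lift {G : Type*} [Group G] (X Y : G) (h1 : X ^ 2 = 1) (h2 : Y ^ 3 = 1)
    (h3 : (X * Y) ^ (6 * k) = 1) : Del k →* G :=
  PresentedGroup.toGroup (f := ![X, Y]) (by
    intro r hr
    rcases hr with rfl | rfl | hr
    · rw [map_pow, FreeGroup.lift_apply_of]; exact h1
    · rw [map_pow, FreeGroup.lift_apply_of]; exact h2
    · rw [Set.mem_singleton_iff] at hr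
      subst hr
      rw [map_pow, map_mul, FreeGroup.lift_apply_of, FreeGroup.lift_apply_of]
      exact h3)

theorem Del_lift_X {G : Type*} [Group G] (X Y : G) (h1 : X ^ 2 = 1) (h2 : Y ^ 3 = 1)
    (h3 : (X * Y) ^ (6 * k) = 1) : Del_lift X Y h1 h2 h3 (dX k) = X :=
  PresentedGroup.toGroup.of _

theorem Del_lift_Y {G : Type*} [Group G] (X Y : G) (h1 : X ^ 2 = 1) (h2 : Y ^ 3 = 1)
    (h3 : (X * Y) ^ (6 * k) = 1) : Del_lift X Y h1 h2 h3 (dY k) = Y :=
  PresentedGroup.toGroup.of _

/-! ### The automorphism of `Gam k` -/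

variable (k)

/-- the automorphism `a ↦ a b`, `b ↦ a⁻¹` -/
def tauG : MulAut (Gam k) :=
  MonoidHom.toMulEquiv
    (Gam_lift (ga k * gb k) (ga k)⁻¹ (by
      have : ⁅ga k * gb k, (ga k)⁻¹⁆ = ⁅ga k, gb k⁆ := by
        rw [commutatorElement_def, commutatorElement_def]; group
      rw [this]; exact Gam_rel k))
    (Gam_lift (gb k)⁻¹ (gb k * ga k) (by
      have : ⁅(gb k)⁻¹, gb k * ga k⁆ = ⁅ga k, gb k⁆ := by
        rw [commutatorElement_def, commutatorElement_def]; group
      rw [this]; exact Gam_rel k))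
    (by
      apply Gam_ext
      · rw [MonoidHom.comp_apply, Gam_lift_a, map_mul, Gam_lift_a, Gam_lift_b, MonoidHom.id_apply,
          inv_mul_cancel_left]
      · rw [MonoidHom.comp_apply, Gam_lift_b, map_inv, Gam_lift_a, MonoidHom.id_apply, inv_inv])
    (by
      apply Gam_ext
      · rw [MonoidHom.comp_apply, Gam_lift_a, map_inv, Gam_lift_b, MonoidHom.id_apply, inv_inv]
      · rw [MonoidHom.comp_apply, Gam_lift_b, map_mul, Gam_lift_b, Gam_lift_a, MonoidHom.id_apply,
          inv_mul_cancel_left])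

theorem tauG_a : tauG k (ga k) = ga k * gb k := by
  rw [tauG, MonoidHom.toMulEquiv_apply, Gam_lift_a]

theorem tauG_b : tauG k (gb k) = (ga k)⁻¹ := by
  rw [tauG, MonoidHom.toMulEquiv_apply, Gam_lift_b]

/-- the semidirect product -/
abbrev SP : Type := Gam k ⋊[zpowersHom (MulAut (Gam k)) (tauG k)] Multiplicative ℤ

/-- the stable letter -/
def tt : SP k := SemidirectProduct.inr (Multiplicative.ofAdd 1)

theorem tt_conj (n : Gam k) : tt k * SemidirectProduct.inl n * (tt k)⁻¹ =
    SemidirectProduct.inl (tauG k n) := by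
  have := SemidirectProduct.inl_aut (φ := zpowersHom (MulAut (Gam k)) (tauG k))
    (Multiplicative.ofAdd 1) n
  rw [zpowersHom_apply, toAdd_ofAdd, zpow_one] at this
  exact this.symm

theorem sp1 : tt k * SemidirectProduct.inl (ga k) * (tt k)⁻¹ =
    SemidirectProduct.inl (ga k) * SemidirectProduct.inl (gb k) := by
  rw [tt_conj, tauG_a, map_mul]

theorem sp2 : tt k * SemidirectProduct.inl (gb k) * (tt k)⁻¹ =
    (SemidirectProduct.inl (ga k))⁻¹ := by
  rw [tt_conj, tauG_b, map_inv]

/-- the central element -/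
def zz : SP k := (SemidirectProduct.inl ⁅ga k, gb k⁆)⁻¹ * tt k ^ 6

theorem zz_central (e : SP k) : zz k * e = e * zz k := by
  obtain ⟨h6a, h6b⟩ := tr_tau6 (sp1 k) (sp2 k)
  have hc := tr_c (sp1 k) (sp2 k)
  rw [← map_commutatorElement] at h6a h6b hc
  set c : SP k := SemidirectProduct.inl ⁅ga k, gb k⁆ with hcdef
  have hinl : ∀ n : Gam k, zz k * SemidirectProduct.inl n * (zz k)⁻¹ =
      SemidirectProduct.inl n := by
    intro n
    have : (MulAut.conj (zz k)).toMonoidHom.comp
        (SemidirectProduct.inl : Gam k →* SP k) = SemidirectProduct.inl := by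
      apply Gam_ext
      · rw [MonoidHom.comp_apply, MulEquiv.coe_toMonoidHom, MulAut.conj_apply]
        calc zz k * SemidirectProduct.inl (ga k) * (zz k)⁻¹ =
              c⁻¹ * (tt k ^ 6 * SemidirectProduct.inl (ga k) * (tt k ^ 6)⁻¹) * c := by
              rw [zz, ← hcdef]; group
          _ = _ := by rw [h6a]; group
      · rw [MonoidHom.comp_apply, MulEquiv.coe_toMonoidHom, MulAut.conj_apply]
        calc zz k * SemidirectProduct.inl (gb k) * (zz k)⁻¹ =
              c⁻¹ * (tt k ^ 6 * SemidirectProduct.inl (gb k) * (tt k ^ 6)⁻¹) * c := by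
              rw [zz, ← hcdef]; group
          _ = _ := by rw [h6b]; group
    exact DFunLike.congr_fun this n
  have ht : zz k * tt k = tt k * zz k := by
    have h1 : c * tt k = tt k * c := by
      rw [mul_inv_eq_iff_eq_mul] at hc
      exact hc.symm
    have h2 : c⁻¹ * tt k = tt k * c⁻¹ := by
      rw [inv_mul_eq_iff_eq_mul, ← mul_assoc, h1, mul_inv_cancel_right]
    rw [zz, ← hcdef, mul_assoc, ← pow_succ, pow_succ', ← mul_assoc, h2, mul_assoc]
  have hinr : ∀ g : Multiplicative ℤ, (SemidirectProduct.inr g : SP k) =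
      tt k ^ (Multiplicative.toAdd g) := by
    intro g
    rw [tt, ← map_zpow]
    congr 1
    apply Multiplicative.toAdd.injective
    simp
  obtain ⟨n, g⟩ := e
  have he : (⟨n, g⟩ : SP k) = SemidirectProduct.inl n * SemidirectProduct.inr g := by
    ext <;> simp
  rw [he, hinr]
  have hcom : Commute (zz k) (tt k ^ (Multiplicative.toAdd g)) := Commute.zpow_right ht _
  have h3 : zz k * SemidirectProduct.inl n = SemidirectProduct.inl n * zz k := by
    have := hinl n
    rwa [mul_inv_eq_iff_eq_mul] at this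
  rw [← mul_assoc, h3, mul_assoc, hcom.eq, mul_assoc]

instance zz_normal : (zpowers (zz k)).Normal := by
  refine ⟨fun n hn g => ?_⟩
  obtain ⟨m, rfl⟩ := mem_zpowers_iff.mp hn
  have : Commute (zz k) g := zz_central k g
  have h1 : g * zz k ^ m * g⁻¹ = zz k ^ m := by
    rw [mul_inv_eq_iff_eq_mul]
    exact (this.zpow_left m).eq.symm
  rw [h1]
  exact hn

/-- the quotient by the central element -/
abbrev MQ : Type := SP k ⧸ zpowers (zz k)

/-- the inclusion of `Gam k` -/
def incl : Gam k →* MQ k := (QuotientGroup.mk' (zpowers (zz k))).comp SemidirectProduct.inl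

theorem incl_injective : Function.Injective (incl k) := by
  rw [injective_iff_map_eq_one]
  intro n hn
  have h1 : (SemidirectProduct.inl n : SP k) ∈ zpowers (zz k) := (QuotientGroup.eq_one_iff _).mp hn
  obtain ⟨m, hm⟩ := mem_zpowers_iff.mp h1
  have h2 := congrArg SemidirectProduct.rightHom hm
  rw [map_zpow, SemidirectProduct.rightHom_inl, zz, map_mul, map_inv,
    SemidirectProduct.rightHom_inl, inv_one, one_mul, map_pow, tt,
    SemidirectProduct.rightHom_inr] at h2
  have h3 := congrArg Multiplicative.toAdd h2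
  simp only [toAdd_zpow, toAdd_pow, toAdd_ofAdd, toAdd_one] at h3
  have h4 : m = 0 := by simpa using h3
  rw [h4, zpow_zero] at hm
  have h5 := SemidirectProduct.inl_injective (φ := zpowersHom (MulAut (Gam k)) (tauG k))
    (hm.symm.trans (map_one SemidirectProduct.inl).symm)
  exact h5

/-- the image of the stable letter -/
def tq : MQ k := QuotientGroup.mk' (zpowers (zz k)) (tt k)

theorem mq1 : tq k * incl k (ga k) * (tq k)⁻¹ = incl k (ga k) * incl k (gb k) := by
  have := congrArg (QuotientGroup.mk' (zpowers (zz k))) (sp1 k)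
  rw [map_mul, map_mul, map_mul, map_inv] at this
  exact this

theorem mq2 : tq k * incl k (gb k) * (tq k)⁻¹ = (incl k (ga k))⁻¹ := by
  have := congrArg (QuotientGroup.mk' (zpowers (zz k))) (sp2 k)
  rw [map_mul, map_mul, map_inv, map_inv] at this
  exact this

theorem mq3 : tq k ^ 6 = ⁅incl k (ga k), incl k (gb k)⁆ := by
  have h1 : QuotientGroup.mk' (zpowers (zz k)) (zz k) = 1 :=
    (QuotientGroup.eq_one_iff _).mpr (mem_zpowers _)
  have h2 : QuotientGroup.mk' (zpowers (zz k)) (zz k) =
      (⁅incl k (ga k), incl k (gb k)⁆)⁻¹ * tq k ^ 6 := by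
    rw [← map_commutatorElement, tq, ← map_pow]
    show _ = (QuotientGroup.mk' (zpowers (zz k)) (SemidirectProduct.inl ⁅ga k, gb k⁆))⁻¹ *
      QuotientGroup.mk' (zpowers (zz k)) (tt k ^ 6)
    rw [← map_inv, ← map_mul]
    rfl
  rw [h2, inv_mul_eq_one] at h1
  exact h1.symm

/-- the homomorphism from the triangle group -/
def Psi : Del k →* MQ k :=
  Del_lift (trX (incl k (ga k)) (incl k (gb k)) (tq k)) (trY (incl k (ga k)) (tq k))
    (tr_X2 (mq1 k) (mq2 k) (mq3 k)) (tr_Y3 (mq1 k) (mq2 k) (mq3 k)) (by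
      rw [tr_XY (mq1 k), pow_mul, mq3, ← map_commutatorElement, ← map_pow, Gam_rel, map_one])

/-- the embedding of `Gam k` -/
def kap : Gam k →* Del k := Gam_lift ⁅dX k, dY k⁆ ⁅(dY k)⁻¹, dX k⁆ (by
  rw [← (cv_rel (Del_X k) (Del_Y k)).2.2, ← pow_mul]
  exact Del_XY k)

theorem Psi_kap : (Psi k).comp (kap k) = incl k := by
  apply Gam_ext
  · rw [MonoidHom.comp_apply, kap, Gam_lift_a, map_commutatorElement, Psi, Del_lift_X, Del_lift_Y]
    exact tr_x (mq1 k) (mq2 k) (mq3 k)
  · rw [MonoidHom.comp_apply, kap, Gam_lift_b, map_commutatorElement, map_inv, Psi, Del_lift_X,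
      Del_lift_Y]
    exact tr_y (mq1 k) (mq2 k) (mq3 k)

theorem kap_injective : Function.Injective (kap k) := by
  have h := incl_injective k
  rw [← Psi_kap] at h
  exact Function.Injective.of_comp h

theorem kap_range : (kap k).range = _root_.commutator (Del k) := by
  rw [← cv_commutator (Del_X k) (Del_Y k) (Del_gen k), MonoidHom.range_eq_map, ← Gam_gen k,
    MonoidHom.map_closure, Set.image_pair, kap, Gam_lift_a, Gam_lift_b]

/-- **The derived subgroup of `Del k` is `Gam k`.** -/
noncomputable def Del_commutator : _root_.commutator (Del k) ≃* Gam k :=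
  ((MonoidHom.ofInjective (kap_injective k)).trans
    (MulEquiv.subgroupCongr (kap_range k))).symm

/-! ### The abelianization -/

theorem Del_ab6 : Abelianization.of (dX k * dY k) ^ 6 = 1 := by
  have h1 : (Abelianization.of (dX k)) ^ 2 = 1 := by rw [← map_pow, Del_X, map_one]
  have h2 : (Abelianization.of (dY k)) ^ 3 = 1 := by rw [← map_pow, Del_Y, map_one]
  rw [map_mul, mul_pow]
  have h3 : (Abelianization.of (dX k)) ^ 6 = 1 := by
    have : 6 = 2 * 3 := rfl
    rw [this, pow_mul, h1, one_pow]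
  have h4 : (Abelianization.of (dY k)) ^ 6 = 1 := by
    have : 6 = 3 * 2 := rfl
    rw [this, pow_mul, h2, one_pow]
  rw [h3, h4, one_mul]

theorem Del_abgen : zpowers (Abelianization.of (dX k * dY k)) = ⊤ := by
  have h1 : (Abelianization.of (dX k)) ^ 2 = 1 := by rw [← map_pow, Del_X, map_one]
  have h2 : (Abelianization.of (dY k)) ^ 3 = 1 := by rw [← map_pow, Del_Y, map_one]
  have h3 : Abelianization.of (dX k * dY k) ^ 3 = Abelianization.of (dX k) := by
    rw [map_mul, mul_pow, h2, mul_one, pow_succ, h1, one_mul]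
  have h4 : Abelianization.of (dX k * dY k) ^ 4 = Abelianization.of (dY k) := by
    rw [map_mul, mul_pow]
    have e1 : (Abelianization.of (dX k)) ^ 4 = 1 := by
      have : 4 = 2 * 2 := rfl
      rw [this, pow_mul, h1, one_pow]
    rw [e1, one_mul, pow_succ, h2, one_mul]
  have h5 : (closure ({dX k, dY k} : Set (Del k))).map Abelianization.of = ⊤ := by
    rw [Del_gen, ← MonoidHom.range_eq_map, MonoidHom.range_eq_top]
    exact of_surj
  rw [eq_top_iff, ← h5, MonoidHom.map_closure, Set.image_pair, closure_le, Set.insert_subset_iff,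
    Set.singleton_subset_iff]
  constructor
  · rw [← h3]; exact pow_mem (mem_zpowers _) 3
  · rw [← h4]; exact pow_mem (mem_zpowers _) 4

instance Del_abfin : Finite (Abelianization (Del k)) := by
  have h1 : IsOfFinOrder (Abelianization.of (dX k * dY k)) := by
    rw [isOfFinOrder_iff_pow_eq_one]
    exact ⟨6, by norm_num, Del_ab6 k⟩
  have h2 : (zpowers (Abelianization.of (dX k * dY k)) : Set (Abelianization (Del k))).Finite :=
    h1.finite_zpowers
  rw [Del_abgen] at h2
  exact Set.finite_univ_iff.mp h2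

end Del

end Pool.Agent.Lib.MP_305fdd_al.Solv
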