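import Mathlib
import Pool.Agent.Lib.MP_305fdd_al.Solv.Aut
import Pool.Agent.Lib.MP_305fdd_al.Solv.Del
import Pool.Agent.Lib.MP_305fdd_al.Solv.ThmB

/-!
# The element `t` in a group of the genus of the triangle group `(2, 3, 6k)`
-/

set_option autoImplicit false

namespace Pool.Agent.Lib.MP_305fdd_al.Solv

open MonoidAlgebra Subgroup Pool.Agent.MP_305fdd_al
open scoped commutatorElement

instance Del_fi (k : ℕ) : (_root_.commutator (Del k)).FiniteIndex := by
  have : Finite (Del k ⧸ _root_.commutator (Del k)) := Del_abfin k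
  exact Subgroup.finiteIndex_of_finite_quotient

theorem mem_of_of_eq_one {G : Type} [Group G] {c : G} (h : Abelianization.of c = 1) :
    c ∈ _root_.commutator G := by
  rw [← Abelianization.ker_of, MonoidHom.mem_ker]
  exact h

theorem exists_t {L : Type} [Group L] [Group.FG L] {k : ℕ} (h : SameFiniteQuotients L (Del k)) :
    (_root_.commutator L).FiniteIndex ∧ ∃ t : L, Abelianization.of t ^ 6 = 1 ∧
      zpowers (Abelianization.of t) = ⊤ := by
  have h1 := same_ab h
  obtain ⟨φ, hφ⟩ := (h1 (Abelianization (Del k))).mpr ⟨MonoidHom.id _, Function.surjective_id⟩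
  have : Group.ResiduallyFinite (Abelianization L) := rf_comm _
  have hinj := injective_of_surj h1 φ hφ
  let e := MulEquiv.ofBijective φ ⟨hinj, hφ⟩
  have hfin : Finite (Abelianization L) := Finite.of_injective φ hinj
  obtain ⟨t, ht⟩ := of_surj (e.symm (Abelianization.of (dX k * dY k)))
  refine ⟨?_, t, ?_, ?_⟩
  · have : Finite (L ⧸ _root_.commutator L) := hfin
    exact Subgroup.finiteIndex_of_finite_quotient
  · rw [ht, ← map_pow, Del_ab6, map_one]
  · rw [ht]
    have h2 := MonoidHom.map_zpowers e.symm.toMonoidHom (Abelianization.of (dX k * dY k))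
    rw [Del_abgen, ← MonoidHom.range_eq_map, MonoidHom.range_eq_top.mpr e.symm.surjective] at h2
    exact h2.symm

section tee

variable {L : Type} [Group L] {t : L}

theorem gen_t (ht : zpowers (Abelianization.of t) = ⊤) :
    zpowers t ⊔ _root_.commutator L = ⊤ := by
  rw [eq_top_iff]
  intro g _
  have h1 : Abelianization.of g ∈ zpowers (Abelianization.of t) := by rw [ht]; trivial
  obtain ⟨m, hm⟩ := mem_zpowers_iff.mp h1
  have h3 : (t ^ m)⁻¹ * g ∈ _root_.commutator L := by
    rw [← Abelianization.ker_of, MonoidHom.mem_ker, map_mul, map_inv, map_zpow, hm, inv_mul_cancel]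
  have h4 : g = t ^ m * ((t ^ m)⁻¹ * g) := by group
  rw [h4]
  exact mul_mem_sup (zpow_mem (mem_zpowers t) m) h3

theorem t_surj (ht : zpowers (Abelianization.of t) = ⊤) (m : MM L) :
    ∃ m' : MM L, act t m' - m' = m := by
  set x : MonoidAlgebra ℤ (Abelianization L) := of ℤ _ (Abelianization.of t) - 1 with hx
  set T := (Ideal.span {x} • ⊤ : Submodule (MonoidAlgebra ℤ (Abelianization L)) (MM L)) with hT
  have hxm : ∀ m : MM L, x • m ∈ T := fun m =>
    Submodule.smul_mem_smul (Ideal.mem_span_singleton_self x) trivial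
  have hxm' : ∀ m : MM L, x • m = act t m - m := by
    intro m
    rw [hx, sub_smul, one_smul, of_smul]
  have h1 : ∀ c ∈ _root_.commutator L, ⁅t, c⁆ ∈ subOf T := by
    intro c hc
    refine ⟨commutator_mem _ _, ?_⟩
    have h2 : (⟨⁅t, c⁆, commutator_mem _ _⟩ : _root_.commutator L) = cj t ⟨c, hc⟩ * ⟨c, hc⟩⁻¹ := by
      apply Subtype.ext
      show ⁅t, c⁆ = (cj t ⟨c, hc⟩ : L) * c⁻¹
      rw [cj_val, commutatorElement_def]
    rw [h2, mk_mul, mk_inv, ← act_mk, ← sub_eq_add_neg, ← hxm']
    exact hxm _
  have h2 : ∀ c ∈ _root_.commutator L, ⁅c, t⁆ ∈ subOf T := by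
    intro c hc
    have := inv_mem (h1 c hc)
    rwa [commutatorElement_inv] at this
  have hgen : closure ({t} ∪ (_root_.commutator L : Set L)) = ⊤ := by
    rw [Subgroup.closure_union, Subgroup.closure_eq, ← zpowers_eq_closure, gen_t ht]
  have h3 := commutator_le_of_gens hgen (subOf T) (by
    rintro a (ha | ha) b (hb | hb)
    · rw [Set.mem_singleton_iff] at ha hb
      rw [ha, hb, commutatorElement_self]; exact one_mem _
    · rw [Set.mem_singleton_iff] at ha
      rw [ha]; exact h1 b hb
    · rw [Set.mem_singleton_iff] at hb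
      rw [hb]; exact h2 a ha
    · refine ⟨commutator_mem _ _, ?_⟩
      have : mk ⟨⁅a, b⁆, commutator_mem a b⟩ = 0 := by
        rw [mk_eq_zero_iff]
        exact commutator_mem_commutator ha hb
      rw [this]
      exact T.zero_mem)
  obtain ⟨c, rfl⟩ := mk_surjective m
  obtain ⟨_, h4⟩ := h3 c.2
  have h5 : mk c ∈ T := h4
  rw [hT, Submodule.ideal_span_singleton_smul, Submodule.mem_smul_pointwise_iff_exists] at h5
  obtain ⟨m', _, hm'⟩ := h5
  exact ⟨m', by rw [← hxm']; exact hm'⟩

/-- the action of `t` on the abelianization of `L'` -/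
def alph (t : L) : Abelianization (_root_.commutator L) →* Abelianization (_root_.commutator L) :=
  Abelianization.map (cj t)

theorem alph_of (t : L) (c : _root_.commutator L) :
    alph t (Abelianization.of c) = Abelianization.of (cj t c) := rfl

theorem alph_surj (ht : zpowers (Abelianization.of t) = ⊤)
    (a : Abelianization (_root_.commutator L)) : ∃ b, alph t b * b⁻¹ = a := by
  obtain ⟨m', hm'⟩ := t_surj ht (Additive.ofMul a)
  refine ⟨Additive.toMul m', ?_⟩
  have h1 : Additive.toMul (act t m' - m') = a := by rw [hm']; rfl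
  rw [sub_eq_add_neg] at h1
  exact h1

theorem cj_iter (n : ℕ) (c : _root_.commutator L) : ((cj t)^[n] c : L) = t ^ n * c * (t ^ n)⁻¹ := by
  induction n with
  | zero => simp
  | succ n ih =>
    rw [Function.iterate_succ_apply', cj_val, ih, pow_succ']
    group

theorem cj_iter' (n : ℕ) (c : _root_.commutator L) : (cj t)^[n] c = cj (t ^ n) c := by
  apply Subtype.ext
  rw [cj_iter, cj_val]

theorem alph_iter (n : ℕ) (c : _root_.commutator L) :
    (alph t)^[n] (Abelianization.of c) = Abelianization.of (cj (t ^ n) c) := by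
  rw [← cj_iter']
  induction n with
  | zero => rfl
  | succ n ih => rw [Function.iterate_succ_apply', Function.iterate_succ_apply', ih, alph_of]

theorem cj_of_mem (z : _root_.commutator L) (c : _root_.commutator L) :
    cj (z : L) c = z * c * z⁻¹ := by
  apply Subtype.ext
  rw [cj_val]; rfl

theorem alph_six (h6 : Abelianization.of t ^ 6 = 1)
    (a : Abelianization (_root_.commutator L)) : (alph t)^[6] a = a := by
  obtain ⟨c, rfl⟩ := of_surj a
  have h1 : t ^ 6 ∈ _root_.commutator L := by
    rw [← Abelianization.ker_of, MonoidHom.mem_ker, map_pow, h6]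
  rw [alph_iter, cj_of_mem (⟨t ^ 6, h1⟩ : _root_.commutator L) c, map_mul, map_mul, map_inv]
  exact mul_inv_cancel_comm _ _

/-- the sixth power of `t` lies in the second derived subgroup -/
theorem t6_mem (h6 : Abelianization.of t ^ 6 = 1)
    (hα : ∀ a, alph t (alph t a) * a = alph t a) :
    ∃ z : _root_.commutator (_root_.commutator L), ((z : _root_.commutator L) : L) = t ^ 6 := by
  have h1 : t ^ 6 ∈ _root_.commutator L := by
    rw [← Abelianization.ker_of, MonoidHom.mem_ker, map_pow, h6]
  set a := Abelianization.of (⟨t ^ 6, h1⟩ : _root_.commutator L) with ha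
  have h2 : alph t a = a := by
    rw [ha, alph_of]
    congr 1
    apply Subtype.ext
    rw [cj_val]
    show t * t ^ 6 * t⁻¹ = t ^ 6
    rw [← pow_succ', pow_succ, mul_inv_cancel_right]
  have h3 := hα a
  rw [h2, h2] at h3
  have h4 : a = 1 := mul_eq_left.mp h3
  have h5 : (⟨t ^ 6, h1⟩ : _root_.commutator L) ∈ _root_.commutator (_root_.commutator L) :=
    mem_of_of_eq_one h4
  exact ⟨⟨_, h5⟩, rfl⟩

end tee

end Pool.Agent.Lib.MP_305fdd_al.Solv
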