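import Mathlib
import Pool.Agent.Lib.MP_305fdd_al.Solv.Tee

/-!
# Generators with a fixed commutator
-/

set_option autoImplicit false

namespace Pool.Agent.Lib.MP_305fdd_al.Solv

open MonoidAlgebra Subgroup Pool.Agent.MP_305fdd_al
open scoped commutatorElement

section

variable {G : Type} [Group G] {f : G →* G} {x y : G}

theorem fox (hx : Abelianization.of (f x) = Abelianization.of (x * y))
    (hy : Abelianization.of (f y) = Abelianization.of x⁻¹) :
    ∃ β γ : _root_.commutator G, f x = β * (x * y) ∧ f y = γ * x⁻¹ ∧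
      fM f (mc x y) = mc x y + (1 - of ℤ _ (Abelianization.of x⁻¹)) • mk β -
        (1 - of ℤ _ (Abelianization.of (x * y))) • mk γ := by
  have h1 : f x * (x * y)⁻¹ ∈ _root_.commutator G := by
    apply mem_of_of_eq_one
    rw [map_mul, map_inv, hx, mul_inv_cancel]
  have h2 : f y * x⁻¹⁻¹ ∈ _root_.commutator G := by
    apply mem_of_of_eq_one
    rw [map_mul, map_inv, hy, mul_inv_cancel]
  have e1 : f x = f x * (x * y)⁻¹ * (x * y) := by group
  have e2 : f y = f y * x⁻¹⁻¹ * x⁻¹ := by group
  refine ⟨⟨_, h1⟩, ⟨_, h2⟩, e1, e2, ?_⟩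
  have h3 := mc_mul (⟨_, h1⟩ : _root_.commutator G) (⟨_, h2⟩ : _root_.commutator G) (x * y) x⁻¹
  have h4 : mc (x * y) x⁻¹ = mc x y := by
    unfold mc
    congr 1
    apply Subtype.ext
    show ⁅x * y, x⁻¹⁆ = ⁅x, y⁆
    rw [commutatorElement_def, commutatorElement_def]
    group
  rw [h4] at h3
  rw [fM_mc, ← h3]
  congr 1

variable {k : ℕ} {c : MM G}

theorem exists_smul_eq
    (hc : Submodule.span (MonoidAlgebra ℤ (Abelianization G)) {c} = ⊤) (z : MM G) :
    ∃ r : MonoidAlgebra ℤ (Abelianization G), r • c = z := by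
  have : z ∈ Submodule.span (MonoidAlgebra ℤ (Abelianization G)) {c} := by rw [hc]; trivial
  exact Submodule.mem_span_singleton.mp this

/-- augmentations of elements which map the generator to `I M` -/
theorem aug_of_mem
    (hc : Submodule.span (MonoidAlgebra ℤ (Abelianization G)) {c} = ⊤)
    (hann : ∀ r : MonoidAlgebra ℤ (Abelianization G), r • c = 0 →
        r ∈ Ideal.span {(k : MonoidAlgebra ℤ (Abelianization G))})
    {p q : Abelianization G} {r : MonoidAlgebra ℤ (Abelianization G)}
    (h : r • c ∈ (II p q • ⊤ : Submodule (MonoidAlgebra ℤ (Abelianization G)) (MM G))) :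
    (k : ℤ) ∣ aug _ r := by
  rw [← hc, Submodule.mem_smul_span_singleton] at h
  obtain ⟨j, hj, hjm⟩ := h
  have h1 : (r - j) • c = 0 := by rw [sub_smul, hjm, sub_self]
  have h2 := aug_dvd (Ideal.mem_span_singleton.mp (hann _ h1))
  rwa [map_sub, aug_II hj, sub_zero] at h2

theorem smul_mem_II (p q : Abelianization G) (a b : MM G) :
    (1 - of ℤ _ p) • a - (1 - of ℤ _ q) • b ∈
      (II p q • ⊤ : Submodule (MonoidAlgebra ℤ (Abelianization G)) (MM G)) := by
  apply sub_mem
  · exact Submodule.smul_mem_smul (Ideal.subset_span (Set.mem_insert _ _)) trivial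
  · exact Submodule.smul_mem_smul (Ideal.subset_span (Set.mem_insert_of_mem _ rfl)) trivial

/-- change of generators by an element of augmentation one -/
theorem change_gens (hxy : closure ({Abelianization.of x, Abelianization.of y} :
      Set (Abelianization G)) = ⊤)
    (hk : ∀ x : MM G, (k : MonoidAlgebra ℤ (Abelianization G)) • x = 0)
    {w : MonoidAlgebra ℤ (Abelianization G)} (hw : (k : ℤ) ∣ aug _ w - 1) :
    ∃ x' y' : G, Abelianization.of x' = Abelianization.of x ∧
      Abelianization.of y' = Abelianization.of y ∧ mc x' y' = w • mc x y := by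
  have h1 : (w - 1) • mc x y ∈ (II (Abelianization.of x) (Abelianization.of y) • ⊤ :
      Submodule (MonoidAlgebra ℤ (Abelianization G)) (MM G)) := by
    have h2 := sub_aug_mem hxy w
    obtain ⟨m, hm⟩ := hw
    have h3 : (w - 1 : MonoidAlgebra ℤ (Abelianization G)) =
        (w - ((aug _ w : ℤ) : MonoidAlgebra ℤ (Abelianization G))) + (m : MonoidAlgebra ℤ (Abelianization G)) * k := by
      have h4 : aug _ w = k * m + 1 := by rw [← hm]; ring
      rw [h4]; push_cast; ring
    rw [h3, add_smul, mul_smul, hk, smul_zero, add_zero]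
    exact Submodule.smul_mem_smul h2 trivial
  obtain ⟨a, b, hab⟩ := mem_II_smul h1
  obtain ⟨a, rfl⟩ := mk_surjective a
  obtain ⟨b, rfl⟩ := mk_surjective b
  refine ⟨(b : G) * x, ((a⁻¹ : _root_.commutator G) : G) * y, ?_, ?_, ?_⟩
  · rw [map_mul, of_mem_one b.2, one_mul]
  · rw [map_mul, of_mem_one (a⁻¹).2, one_mul]
  · rw [mc_mul, mk_inv, smul_neg]
    have h5 : w • mc x y = mc x y + (w - 1) • mc x y := by rw [sub_smul, one_smul]; abel
    rw [h5, hab]
    abel

theorem nrm_eq (f : G →* G) (u : MonoidAlgebra ℤ (Abelianization G)) :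
    nrm (Abelianization.map f) u = u * ∏ j ∈ Finset.range 5, (tau (Abelianization.map f))^[j + 1] u := by
  unfold nrm
  rw [Finset.prod_range_succ', mul_comm]
  rfl

/-- **Generators with a fixed commutator.** -/
theorem gens_fixed (e : Abelianization G ≃* A0)
    (hα : ∀ a, Abelianization.map f (Abelianization.map f a) * a = Abelianization.map f a)
    {z : _root_.commutator G} (hz : ∀ c : G, f^[6] c = z * c * (z : G)⁻¹)
    (hxy : closure ({Abelianization.of x, Abelianization.of y} : Set (Abelianization G)) = ⊤)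
    (hx : Abelianization.of (f x) = Abelianization.of (x * y))
    (hy : Abelianization.of (f y) = Abelianization.of x⁻¹)
    (hc : Submodule.span (MonoidAlgebra ℤ (Abelianization G)) {mc x y} = ⊤)
    (hann : ∀ r : MonoidAlgebra ℤ (Abelianization G), r • mc x y = 0 →
        r ∈ Ideal.span {(k : MonoidAlgebra ℤ (Abelianization G))})
    (hk : ∀ x : MM G, (k : MonoidAlgebra ℤ (Abelianization G)) • x = 0) :
    ∃ x' y' : G, Abelianization.of x' = Abelianization.of x ∧
      Abelianization.of y' = Abelianization.of y ∧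
      Submodule.span (MonoidAlgebra ℤ (Abelianization G)) {mc x' y'} = ⊤ ∧
      (∀ r : MonoidAlgebra ℤ (Abelianization G), r • mc x' y' = 0 →
        r ∈ Ideal.span {(k : MonoidAlgebra ℤ (Abelianization G))}) ∧
      fM f (mc x' y') = mc x' y' := by
  obtain ⟨β, γ, -, -, hfox⟩ := fox hx hy
  obtain ⟨u, hu⟩ := exists_smul_eq hc (fM f (mc x y))
  -- the augmentation of `u`
  have haug : (k : ℤ) ∣ aug _ u - 1 := by
    have h1 : (u - 1) • mc x y ∈ (II (Abelianization.of x⁻¹) (Abelianization.of (x * y)) • ⊤ :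
        Submodule (MonoidAlgebra ℤ (Abelianization G)) (MM G)) := by
      have h2 : (u - 1) • mc x y = (1 - of ℤ _ (Abelianization.of x⁻¹)) • mk β -
        (1 - of ℤ _ (Abelianization.of (x * y))) • mk γ := by
        rw [sub_smul, one_smul, hu, hfox]; abel
      rw [h2]
      exact smul_mem_II _ _ _ _
    have h3 := aug_of_mem hc hann h1
    rwa [map_sub, map_one] at h3
  -- the norm of `u`
  have hnrm : (k : MonoidAlgebra ℤ (Abelianization G)) ∣ nrm (Abelianization.map f) u - 1 := by
    have h1 := fM_iter_smul f hu.symm 6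
    have h2 : (fM f)^[6] (mc x y) = mc x y := by
      unfold mc
      rw [fM_iter]
      have h3 : (cmap f)^[6] ⟨⁅x, y⁆, commutator_mem x y⟩ =
          z * ⟨⁅x, y⁆, commutator_mem x y⟩ * z⁻¹ := by
        apply Subtype.ext
        rw [cmap_iter, hz]
        rfl
      rw [h3, mk_mul, mk_mul, mk_inv]
      abel
    rw [h2] at h1
    have h4 : (nrm (Abelianization.map f) u - 1) • mc x y = 0 := by
      rw [sub_smul, one_smul, sub_eq_zero]
      exact h1.symm
    exact Ideal.mem_span_singleton.mp (hann _ h4)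
  have hunit := hnrm
  rw [nrm_eq] at hunit
  obtain ⟨w, w', h1, h2, h3⟩ := hOne e hα k u _ hunit haug hnrm
  obtain ⟨x', y', hx', hy', hxy'⟩ := change_gens hxy hk h2
  have hww : w' • w • mc x y = mc x y := by
    have h4 := smul_eq_zero_of_dvd hk h1 (mc x y)
    rw [sub_smul, one_smul, sub_eq_zero, mul_comm, mul_smul] at h4
    exact h4
  refine ⟨x', y', hx', hy', ?_, ?_, ?_⟩
  · rw [hxy', eq_top_iff, ← hc, Submodule.span_singleton_le_iff_mem, Submodule.mem_span_singleton]
    exact ⟨w', hww⟩
  · intro r hr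
    rw [hxy', smul_smul] at hr
    have h4 := hann _ hr
    have h5 : r = w' * (r * w) - r * (w * w' - 1) := by ring
    rw [h5]
    exact sub_mem (Ideal.mul_mem_left _ _ h4)
      (Ideal.mul_mem_left _ _ (Ideal.mem_span_singleton.mpr h1))
  · rw [hxy', fM_smul, ← hu, smul_smul]
    have h4 := smul_eq_zero_of_dvd hk h3 (mc x y)
    rw [sub_smul, sub_eq_zero] at h4
    exact h4

end

end Pool.Agent.Lib.MP_305fdd_al.Solv
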