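import Mathlib
import Pool.Agent.Lib.MP_305fdd_al.Solv.Fix

/-!
# Third derived quotients of the groups in the genus of the triangle group `(2, 3, 6k)`
-/

set_option autoImplicit false

namespace Pool.Agent.Lib.MP_305fdd_al.Solv

open MonoidAlgebra Subgroup Pool.Agent.MP_305fdd_al
open scoped commutatorElement

section

variable {L : Type} [Group L]

theorem mem_three {g : _root_.commutator L} (c : _root_.commutator (_root_.commutator L))
    (hg : (c : _root_.commutator L) = g) (hc : mk c = 0) : (g : L) ∈ derivedSeries L 3 := by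
  rw [mk_eq_zero_iff] at hc
  rw [← map_derived_commutator L 2]
  exact ⟨g, by rw [← hg]; exact hc, rfl⟩

theorem mk_of_mem_three (c : _root_.commutator (_root_.commutator L))
    (hc : ((c : _root_.commutator L) : L) ∈ derivedSeries L 3) : mk c = 0 := by
  rw [mk_eq_zero_iff]
  rw [← map_derived_commutator L 2] at hc
  obtain ⟨g, hg, hgc⟩ := hc
  have : g = (c : _root_.commutator L) := Subtype.ext hgc
  rw [← this]
  exact hg

/-- closure of transformed pairs -/
theorem closure_pair_inv {A : Type} [CommGroup A] {v w : A} (h : closure ({v, w} : Set A) = ⊤) :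
    closure ({w, v⁻¹} : Set A) = ⊤ := by
  rw [eq_top_iff, ← h, closure_le, Set.insert_subset_iff, Set.singleton_subset_iff]
  have m1 : w ∈ closure ({w, v⁻¹} : Set A) := subset_closure (by simp)
  have m2 : v⁻¹ ∈ closure ({w, v⁻¹} : Set A) := subset_closure (by simp)
  exact ⟨by simpa using inv_mem m2, m1⟩

theorem closure_pair_two {A : Type} [CommGroup A] {v w : A} (h : closure ({v, w} : Set A) = ⊤) :
    closure ({w⁻¹, w * v⁻¹} : Set A) = ⊤ := by
  rw [eq_top_iff, ← h, closure_le, Set.insert_subset_iff, Set.singleton_subset_iff]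
  have m1 : w⁻¹ ∈ closure ({w⁻¹, w * v⁻¹} : Set A) := subset_closure (by simp)
  have m2 : w * v⁻¹ ∈ closure ({w⁻¹, w * v⁻¹} : Set A) := subset_closure (by simp)
  have m3 : w ∈ closure ({w⁻¹, w * v⁻¹} : Set A) := by simpa using inv_mem m1
  refine ⟨?_, m3⟩
  have h1 : (w * v⁻¹)⁻¹ * w = v := by group
  have h2 := mul_mem (inv_mem m2) m3
  rw [h1] at h2
  exact h2

/-- **Adjusting `t`.** -/
theorem adjust {t : L} {k : ℕ} {x y : _root_.commutator L}
    (e : Abelianization (_root_.commutator L) ≃* A0)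
    (hx : Abelianization.of (cj t x) = Abelianization.of (x * y))
    (hy : Abelianization.of (cj t y) = Abelianization.of x⁻¹)
    (hpq : closure ({Abelianization.of x⁻¹, Abelianization.of (x * y)} :
      Set (Abelianization (_root_.commutator L))) = ⊤)
    (hc : Submodule.span (MonoidAlgebra ℤ (Abelianization (_root_.commutator L))) {mc x y} = ⊤)
    (hann : ∀ r : MonoidAlgebra ℤ (Abelianization (_root_.commutator L)), r • mc x y = 0 →
        r ∈ Ideal.span {(k : MonoidAlgebra ℤ (Abelianization (_root_.commutator L)))})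
    (hk : ∀ x : MM (_root_.commutator L),
      (k : MonoidAlgebra ℤ (Abelianization (_root_.commutator L))) • x = 0)
    (hfix : fM (cj t) (mc x y) = mc x y) :
    ∃ r : _root_.commutator (_root_.commutator L),
      (((r : _root_.commutator L) : L) * t * x * (((r : _root_.commutator L) : L) * t)⁻¹) *
        (x * y : L)⁻¹ ∈ derivedSeries L 3 ∧
      (((r : _root_.commutator L) : L) * t * y * (((r : _root_.commutator L) : L) * t)⁻¹) *
        (x⁻¹ : L)⁻¹ ∈ derivedSeries L 3 := by
  obtain ⟨β, γ, hβ, hγ, hfox⟩ := fox hx hy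
  have h1 : (1 - of ℤ _ (Abelianization.of x⁻¹)) • mk β =
      (1 - of ℤ _ (Abelianization.of (x * y))) • mk γ := by
    rw [hfix] at hfox
    have h2 : (1 - of ℤ _ (Abelianization.of x⁻¹)) • mk β -
        (1 - of ℤ _ (Abelianization.of (x * y))) • mk γ = mc x y - mc x y := by
      nth_rewrite 1 [hfox]
      abel
    rw [sub_self, sub_eq_zero] at h2
    exact h2
  obtain ⟨ρ, hρ1, hρ2⟩ := reg_mod hc hann hk e hpq h1
  obtain ⟨r, rfl⟩ := mk_surjective ρ
  have hβ' : t * x * t⁻¹ = ((β : _root_.commutator L) : L) * (x * y : L) := by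
    have := congrArg (Subtype.val) hβ
    rw [cj_val] at this
    exact this
  have hγ' : t * y * t⁻¹ = ((γ : _root_.commutator L) : L) * (x⁻¹ : L) := by
    have := congrArg (Subtype.val) hγ
    rw [cj_val] at this
    exact this
  refine ⟨r⁻¹, ?_, ?_⟩
  · have h3 := mem_three (g := (r : _root_.commutator L)⁻¹ * (β : _root_.commutator L) *
        ((x * y) * (r : _root_.commutator L) * (x * y)⁻¹))
      (r⁻¹ * β * cj (x * y) r) (by
        rw [Subgroup.coe_mul, Subgroup.coe_mul, cj_val, Subgroup.coe_inv]) (by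
        rw [mk_mul, mk_mul, mk_inv, ← of_smul_mk, hρ1, sub_smul, one_smul]
        abel)
    convert h3 using 1
    show ((r : _root_.commutator L) : L)⁻¹ * t * x * (((r : _root_.commutator L) : L)⁻¹ * t)⁻¹ * (x * y : L)⁻¹ =
      ((r : _root_.commutator L) : L)⁻¹ * (β : _root_.commutator L) *
        ((x * y : L) * ((r : _root_.commutator L) : L) * (x * y : L)⁻¹)
    calc ((r : _root_.commutator L) : L)⁻¹ * t * x * (((r : _root_.commutator L) : L)⁻¹ * t)⁻¹ * (x * y : L)⁻¹
        = ((r : _root_.commutator L) : L)⁻¹ * (t * x * t⁻¹) * ((r : _root_.commutator L) : L) *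
          (x * y : L)⁻¹ := by group
      _ = _ := by rw [hβ']; group
  · have h3 := mem_three (g := (r : _root_.commutator L)⁻¹ * (γ : _root_.commutator L) *
        (x⁻¹ * (r : _root_.commutator L) * x⁻¹⁻¹))
      (r⁻¹ * γ * cj x⁻¹ r) (by
        rw [Subgroup.coe_mul, Subgroup.coe_mul, cj_val, Subgroup.coe_inv]) (by
        rw [mk_mul, mk_mul, mk_inv, ← of_smul_mk, hρ2, sub_smul, one_smul]
        abel)
    convert h3 using 1
    show ((r : _root_.commutator L) : L)⁻¹ * t * y * (((r : _root_.commutator L) : L)⁻¹ * t)⁻¹ * (x⁻¹ : L)⁻¹ =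
      ((r : _root_.commutator L) : L)⁻¹ * (γ : _root_.commutator L) *
        ((x⁻¹ : L) * ((r : _root_.commutator L) : L) * (x⁻¹ : L)⁻¹)
    calc ((r : _root_.commutator L) : L)⁻¹ * t * y * (((r : _root_.commutator L) : L)⁻¹ * t)⁻¹ * (x⁻¹ : L)⁻¹
        = ((r : _root_.commutator L) : L)⁻¹ * (t * y * t⁻¹) * ((r : _root_.commutator L) : L) *
          (x⁻¹ : L)⁻¹ := by group
      _ = _ := by rw [hγ']; group

/-- the structure in the third derived quotient -/
theorem tri_of_same [Group.FG L] (k : ℕ) (h : SameFiniteQuotients L (Del k)) :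
    ∃ x y t : L ⧸ derivedSeries L 3, t * x * t⁻¹ = x * y ∧ t * y * t⁻¹ = x⁻¹ ∧ t ^ 6 = ⁅x, y⁆ ∧
      ⁅x, y⁆ ^ k = 1 ∧ closure ({x, y, t} : Set (L ⧸ derivedSeries L 3)) = ⊤ := by
  obtain ⟨hfi, t, ht6, htz⟩ := exists_t h
  have hG : SameFiniteQuotients (_root_.commutator L) (Gam k) :=
    same_of_equiv (same_commutator h) (Del_commutator k)
  obtain ⟨eG⟩ := ab_equiv hG (Gam_ab k)
  obtain ⟨hα, v, hv⟩ := six_mul eG (alph t) (alph_six ht6) (alph_surj htz)
  obtain ⟨x₀, hx₀⟩ := of_surj (alph t v)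
  obtain ⟨y₀, hy₀⟩ := of_surj v⁻¹
  have hxy0 : closure ({Abelianization.of x₀, Abelianization.of y₀} :
      Set (Abelianization (_root_.commutator L))) = ⊤ := by
    rw [hx₀, hy₀]; exact closure_pair_inv hv
  obtain ⟨x₁, y₁, hx1, hy1, hc1, hann1, hk⟩ := structA k hG hxy0
  rw [hx₀] at hx1
  rw [hy₀] at hy1
  have key : ∀ x y : _root_.commutator L, Abelianization.of x = alph t v →
      Abelianization.of y = v⁻¹ →
      closure ({Abelianization.of x, Abelianization.of y} :
        Set (Abelianization (_root_.commutator L))) = ⊤ ∧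
      Abelianization.of (cj t x) = Abelianization.of (x * y) ∧
      Abelianization.of (cj t y) = Abelianization.of x⁻¹ ∧
      closure ({Abelianization.of x⁻¹, Abelianization.of (x * y)} :
        Set (Abelianization (_root_.commutator L))) = ⊤ := by
    intro x y hx hy
    refine ⟨?_, ?_, ?_, ?_⟩
    · rw [hx, hy]; exact closure_pair_inv hv
    · rw [← alph_of, map_mul, hx, hy]
      exact eq_mul_inv_of_mul_eq (hα v)
    · rw [← alph_of, map_inv, hx, hy, map_inv]
    · rw [map_inv, map_mul, hx, hy]; exact closure_pair_two hv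
  obtain ⟨hxy1, hxx1, hyy1, -⟩ := key x₁ y₁ hx1 hy1
  obtain ⟨z, hz⟩ := t6_mem ht6 hα
  have hz' : ∀ c : _root_.commutator L, (cj t)^[6] c = z * c * (z : _root_.commutator L)⁻¹ := by
    intro c
    rw [cj_iter', ← hz, cj_of_mem]
  obtain ⟨x, y, hx, hy, hc, hann, hfix⟩ := gens_fixed eG hα hz' hxy1 hxx1 hyy1 hc1 hann1 hk
  rw [hx1] at hx
  rw [hy1] at hy
  obtain ⟨hxy, hxx, hyy, hpq⟩ := key x y hx hy
  obtain ⟨r, hr1, hr2⟩ := adjust eG hxx hyy hpq hc hann hk hfix
  obtain ⟨t', ht'⟩ : ∃ t', t' = ((r : _root_.commutator L) : L) * t := ⟨_, rfl⟩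
  rw [← ht'] at hr1 hr2
  have hab : Abelianization.of t' = Abelianization.of t := by
    rw [ht', map_mul, of_mem_one (r : _root_.commutator L).2, one_mul]
  have halph : alph t' = alph t := by
    apply MonoidHom.ext
    intro a
    obtain ⟨c, rfl⟩ := of_surj a
    rw [alph_of, alph_of]
    have : cj t' c = (r : _root_.commutator L) * cj t c * (r : _root_.commutator L)⁻¹ := by
      rw [ht', ← cj_of_mem]
      apply Subtype.ext
      rw [cj_val, cj_val, cj_val]
      group
    rw [this, map_mul, map_mul, map_inv]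
    exact mul_inv_cancel_comm _ _
  have ht6' : Abelianization.of t' ^ 6 = 1 := by rw [hab]; exact ht6
  obtain ⟨z', hzz⟩ := t6_mem ht6' (by rw [halph]; exact hα)
  -- the quotient
  let π : L →* L ⧸ derivedSeries L 3 := QuotientGroup.mk' (derivedSeries L 3)
  have hπ : ∀ g : L, π g = 1 ↔ g ∈ derivedSeries L 3 := fun g => QuotientGroup.eq_one_iff g
  have h1 : π t' * π x * (π t')⁻¹ = π x * π y := by
    have := (hπ _).mpr hr1
    rw [map_mul, map_inv, map_mul, map_mul, map_mul, map_inv, mul_inv_eq_one] at this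
    exact this
  have h2 : π t' * π y * (π t')⁻¹ = (π x)⁻¹ := by
    have := (hπ _).mpr hr2
    rw [map_mul, map_inv, map_mul, map_mul, map_inv, map_inv, mul_inv_eq_one] at this
    exact this
  obtain ⟨c, hcdef⟩ : ∃ c : _root_.commutator (_root_.commutator L), c = ⟨⁅x, y⁆, commutator_mem x y⟩ :=
    ⟨_, rfl⟩
  have hcπ : π ((c : _root_.commutator L) : L) = ⁅π x, π y⁆ := by
    rw [hcdef, ← map_commutatorElement]
    rfl
  have hck : ⁅π x, π y⁆ ^ k = 1 := by
    rw [← hcπ, ← map_pow, hπ]
    refine mem_three (g := (c : _root_.commutator L) ^ k) (c ^ k) rfl ?_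
    rw [mk_pow, ← Nat.cast_smul_eq_nsmul (MonoidAlgebra ℤ (Abelianization (_root_.commutator L)))]
    exact hk _
  have h3 : π t' ^ 6 = ⁅π x, π y⁆ := by
    obtain ⟨h6a, -⟩ := tr_tau6 h1 h2
    have h4 : (1 - of ℤ _ (Abelianization.of x)) • mk (c⁻¹ * z') = 0 := by
      have h5 : mk ((c⁻¹ * z') * (cj x (c⁻¹ * z'))⁻¹) = 0 := by
        apply mk_of_mem_three
        rw [← hπ]
        have h7 : ((((c⁻¹ * z') * (cj x (c⁻¹ * z'))⁻¹ : _root_.commutator (_root_.commutator L)) :
            _root_.commutator L) : L) =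
            ((c : _root_.commutator L) : L)⁻¹ * ((z' : _root_.commutator L) : L) *
            ((x : L) * (((c : _root_.commutator L) : L)⁻¹ * ((z' : _root_.commutator L) : L)) *
              (x : L)⁻¹)⁻¹ := by
          rw [Subgroup.coe_mul, Subgroup.coe_inv, cj_val]
          rfl
        rw [h7, hzz]
        simp only [map_mul, map_inv, map_pow, hcπ]
        have h8 : (⁅π x, π y⁆)⁻¹ * π t' ^ 6 * π x * ((⁅π x, π y⁆)⁻¹ * π t' ^ 6)⁻¹ = π x := by
          calc (⁅π x, π y⁆)⁻¹ * π t' ^ 6 * π x * ((⁅π x, π y⁆)⁻¹ * π t' ^ 6)⁻¹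
              = (⁅π x, π y⁆)⁻¹ * (π t' ^ 6 * π x * (π t' ^ 6)⁻¹) * ⁅π x, π y⁆ := by group
            _ = π x := by rw [h6a]; group
        have h9 : ∀ w X : L ⧸ derivedSeries L 3, w * X * w⁻¹ = X → w * (X * w * X⁻¹)⁻¹ = 1 := by
          intro w X hw
          calc w * (X * w * X⁻¹)⁻¹ = (w * X * w⁻¹) * X⁻¹ := by group
            _ = 1 := by rw [hw, mul_inv_cancel]
        exact h9 _ _ h8
      rw [mk_mul, mk_inv, ← of_smul_mk, ← sub_eq_add_neg] at h5
      rw [sub_smul, one_smul]
      exact h5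
    have h5 := nzd_mod hc hann hk eG hxy h4
    have h6 := mem_three (g := ((c⁻¹ * z' : _root_.commutator (_root_.commutator L)) :
      _root_.commutator L)) _ rfl h5
    rw [← hπ] at h6
    have h7 : (((c⁻¹ * z' : _root_.commutator (_root_.commutator L)) : _root_.commutator L) : L) =
        ((c : _root_.commutator L) : L)⁻¹ * t' ^ 6 := by rw [← hzz]; rfl
    rw [h7, map_mul, map_inv, map_pow, hcπ, inv_mul_eq_one] at h6
    exact h6.symm
  refine ⟨π x, π y, π t', h1, h2, h3, hck, ?_⟩
  -- generation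
  set H := closure ({π x, π y, π t'} : Set (L ⧸ derivedSeries L 3)) with hH
  have hxH : π x ∈ H := subset_closure (Set.mem_insert _ _)
  have hyH : π y ∈ H := subset_closure (Set.mem_insert_of_mem _ (Set.mem_insert _ _))
  have htH : π t' ∈ H :=
    subset_closure (Set.mem_insert_of_mem _ (Set.mem_insert_of_mem _ (Set.mem_singleton _)))
  have hC : _root_.commutator L ≤ H.comap π := by
    have h4 := sup_derived hxy hc
    intro g hg
    have h5 : (⟨g, hg⟩ : _root_.commutator L) ∈ (H.comap π).comap (_root_.commutator L).subtype := by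
      have h6 : (⊤ : Subgroup (_root_.commutator L)) ≤
          (H.comap π).comap (_root_.commutator L).subtype := by
        rw [← h4]
        refine sup_le ?_ ?_
        · rw [closure_le, Set.insert_subset_iff, Set.singleton_subset_iff]
          exact ⟨hxH, hyH⟩
        · intro w hw
          show π w ∈ H
          have h7 : π w = 1 := by
            rw [hπ, ← map_derived_commutator L 2]
            exact ⟨w, hw, rfl⟩
          rw [h7]
          exact one_mem _
      exact h6 (mem_top _)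
    exact h5
  have hT : zpowers t' ≤ H.comap π := by
    rw [zpowers_le]
    exact htH
  have h4 := gen_t (t := t') (by rw [hab]; exact htz)
  rw [eq_top_iff]
  intro g _
  obtain ⟨g, rfl⟩ := QuotientGroup.mk_surjective g
  have h5 : g ∈ H.comap π := by
    have : (⊤ : Subgroup L) ≤ H.comap π := by
      rw [← h4]
      exact sup_le hT hC
    exact this (mem_top g)
  exact h5

/-- **Theorem C.** -/
theorem thmC [Group.FG L] (k : ℕ) (h : SameFiniteQuotients L (Del k)) :
    Nonempty (L ⧸ derivedSeries L 3 ≃* Del k ⧸ derivedSeries (Del k) 3) := by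
  obtain ⟨x, y, t, h1, h2, h3, hk, hgen⟩ := tri_of_same k h
  have := rf_three (Del k)
  have hXY := tr_XY (x := x) (y := y) (t := t) h1
  let f : Del k →* L ⧸ derivedSeries L 3 :=
    Del_lift (trX x y t) (trY x t) (tr_X2 h1 h2 h3) (tr_Y3 h1 h2 h3) (by
      rw [hXY, pow_mul, h3, hk])
  refine iso_of_surj h f ?_
  rw [← MonoidHom.range_eq_top, eq_top_iff, ← hgen, closure_le, Set.insert_subset_iff,
    Set.insert_subset_iff, Set.singleton_subset_iff]
  refine ⟨⟨⁅dX k, dY k⁆, ?_⟩, ⟨⁅(dY k)⁻¹, dX k⁆, ?_⟩, ⟨dX k * dY k, ?_⟩⟩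
  · rw [map_commutatorElement, Del_lift_X, Del_lift_Y]
    exact tr_x h1 h2 h3
  · rw [map_commutatorElement, map_inv, Del_lift_X, Del_lift_Y]
    exact tr_y h1 h2 h3
  · rw [map_mul, Del_lift_X, Del_lift_Y]
    exact hXY

end

end Pool.Agent.Lib.MP_305fdd_al.Solv
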